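import Mathlib
import Pool.Agent.P.MP_323ce2_nt.Small

/-! Nyman-Beurling-Baez-Duarte distance: definitions and the statements of the steps. -/

open Complex Filter Topology Set MeasureTheory Metric
open scoped Real

namespace Pool.Agent.P.MP_323ce2_nt.NB

/-- The point of the critical line at height `t`. -/
noncomputable def cl (t : ℝ) : ℂ := 1 / 2 + t * I

/-- A Dirichlet polynomial of length `N` on the critical line. -/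
noncomputable def DP (N : ℕ) (a : ℕ → ℂ) (t : ℝ) : ℂ :=
  ∑ n ∈ Finset.Icc 1 N, a n * (n : ℂ) ^ (-cl t)

/-- `f` is a Dirichlet polynomial of length `N`. -/
def IsDP (N : ℕ) (f : ℝ → ℂ) : Prop := ∃ a, f = DP N a

/-- The integrand of the distance. -/
noncomputable def err (f : ℝ → ℂ) (t : ℝ) : ENNReal :=
  ENNReal.ofReal (‖1 - riemannZeta (cl t) * f t‖ ^ 2 / (2 * π * (1 / 4 + t ^ 2)))

/-- The order of vanishing of zeta at height `t` on the critical line. -/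
noncomputable def mult (t : ℝ) : ℕ := analyticOrderNatAt riemannZeta (cl t)

/-- The reciprocal of zeta, with the right value at `1`. -/
noncomputable def zi (s : ℂ) : ℂ := (s - 1) / riemannZeta₁ s

/-- The exponent that the kernels have to beat. -/
noncomputable def ex (C l r : ℝ) : ℝ :=
  C * l / √(Real.log l) * Real.log (1 + 100 * r / l) + C * Real.log (3 + r) ^ 2

/-- Decay of a kernel of exponential type `η`. -/
def Dec (η : ℝ) (K : ℂ → ℂ) : Prop :=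
  ∀ C ε : ℝ, 0 < ε → ∃ C' l0 : ℝ, ∀ l, l0 ≤ l → ∀ z : ℂ, 1 ≤ z.re →
    ‖K z‖ * Real.exp (ex C l ‖z‖) ≤ C' * Real.exp (η * z.re + ε * l)

/-- A kernel and its weight function. -/
structure Ker (K : ℂ → ℂ) (w : ℝ → ℂ) : Prop where
  diff : DifferentiableOn ℂ K {z | 0 < z.re}
  inv : ∀ c : ℝ, 1 ≤ c → ∀ x : ℝ,
    w x = (2 * π : ℂ)⁻¹ * ∫ y : ℝ, K (c + y * I) * exp (-(c + y * I) * x)
  zero : w 0 = 1
  supp : ∀ x : ℝ, 1 ≤ x → w x = 0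
  dec : Dec 1 K

/-- The profile of the error at a zero of order `m`. -/
noncomputable def prof (K : ℂ → ℂ) (m : ℕ) (u : ℝ) : ℂ :=
  (2 * π : ℂ)⁻¹ * ∫ y : ℝ, K (1 + y * I) * ((u * I / (u * I + (1 + y * I))) ^ m - 1)

/-- The cost of a zero of order `m`. -/
noncomputable def cp (K : ℂ → ℂ) (m : ℕ) : ENNReal := ∫⁻ u : ℝ, ENNReal.ofReal (‖prof K m u‖ ^ 2)

/-- The weighted Moebius polynomial. -/
noncomputable def AN (w : ℝ → ℂ) (N : ℕ) : ℝ → ℂ :=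
  DP N fun n => ((ArithmeticFunction.moebius n : ℤ) : ℂ) * w (Real.log n / Real.log N)

/-- The main part of the test function. -/
noncomputable def PL (e : Polynomial ℝ) (L : ℝ) (v : ℂ) : ℂ :=
  L * ∫ x in (0 : ℝ)..1, (e.eval x : ℝ) * exp (v * L * x)

/-! ### Polynomials -/

def StPoly : Prop := ∀ m : ℕ, 1 ≤ m → ∃ e : Polynomial ℝ, e.natDegree < m ∧
  e.eval 0 = -(m : ℝ) ^ 2 ∧ ∫ x in (0 : ℝ)..1, e.eval x ^ 2 = (m : ℝ) ^ 2 ∧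
  ∀ z : ℂ, z ^ m * ∫ x in (0 : ℝ)..1, (x : ℂ) ^ (m - 1) * (1 - x) ^ m * exp (-z * x) =
    ((m - 1).factorial : ℂ) * (1 + ∫ x in (0 : ℝ)..1, (e.eval x : ℝ) * exp (-z * x))

def StExp : Prop := ∀ (m : ℕ) (ψ : Polynomial ℝ), ψ.natDegree < m → ∃ α β : ℕ → ℂ,
  α 1 = -(ψ.eval 0 : ℝ) ∧ ∀ z : ℂ, z ≠ 0 →
    ∫ x in (0 : ℝ)..1, (ψ.eval x : ℝ) * exp (z * x) =
      ∑ j ∈ Finset.Icc 1 m, (α j + β j * exp z) / z ^ j

/-! ### Kernels -/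

def StNu0 : Prop := ∀ (b : ℕ → ℝ) (η : ℝ), (∀ i, 0 < b i) →
  (∀ n, ∑ i ∈ Finset.range n, b i ≤ η) → ∃ ν : Measure ℝ, IsProbabilityMeasure ν ∧
    (∀ᵐ y ∂ν, y ∈ Icc 0 η) ∧ ∀ (S : Finset ℕ) (z : ℂ), 0 ≤ z.re → z ≠ 0 →
      ‖∫ y, exp (z * y) ∂ν‖ ≤ Real.exp (η * z.re) * ∏ i ∈ S, 2 / (b i * ‖z‖)

def StNu : Prop := ∀ η : ℝ, 0 < η → ∃ ν : Measure ℝ, IsProbabilityMeasure ν ∧
  (∀ᵐ y ∂ν, y ∈ Icc 0 η) ∧ Dec η fun z => ∫ y, exp (z * y) ∂ν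

def StInv : Prop := ∀ m : ℕ, 1 ≤ m → ∀ c ξ : ℝ, 0 < c →
  (2 * π : ℂ)⁻¹ * ∫ y : ℝ, (m.factorial : ℂ) / (c + y * I) ^ (m + 1) * exp ((c + y * I) * ξ) =
    ((max ξ 0 : ℝ) : ℂ) ^ m

def StProf : Prop := ∀ K w, Ker K w → ∀ m : ℕ, 1 ≤ m → ∀ u : ℝ,
  prof K m u = (u * I) ^ m / ((m - 1).factorial : ℂ) *
    (∫ x in (0 : ℝ)..1, (x : ℂ) ^ (m - 1) * w x * exp (-(u * I) * x)) - 1

def StKer : Prop := ∀ m : ℕ, 1 ≤ m → ∀ θ : ℝ, 1 < θ → ∃ K w, Ker K w ∧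
  cp K m ≤ ENNReal.ofReal (2 * π * m ^ 2 * θ)

def StL2 : Prop := ∀ (k : ℝ → ℝ) (D L γ : ℝ), Integrable k → (∀ y, 0 ≤ k y) → 0 < D → 0 < L →
  ∫⁻ t : ℝ, ENNReal.ofReal ((∫ y : ℝ, k y / ‖(D + y * I : ℂ) + ((t - γ) * L : ℝ) * I‖) ^ 2) ≤
    ENNReal.ofReal ((∫ y, k y) ^ 2 * π / (D * L))

def StCp : Prop := ∀ K w, Ker K w → ∀ m, cp K m < ⊤

/-! ### Bounds for zeta -/

def StFac : Prop := ∀ (f : ℂ → ℂ) (c : ℂ) (r M : ℝ), 0 < r → 0 < M →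
  DifferentiableOn ℂ f (ball c (13 * r)) → Real.exp (-M) ≤ ‖f c‖ →
  (∀ s ∈ closedBall c (12 * r), ‖f s‖ ≤ Real.exp M) →
  ∃ (n : ℕ) (ρ : Fin n → ℂ) (H : ℂ) (φ : ℂ → ℂ), (n : ℝ) ≤ 3 * M ∧
    (∀ i, ρ i ∈ closedBall c (4 * r) ∧ f (ρ i) = 0) ∧ Real.exp (-M) ≤ ‖H‖ * (4 * r) ^ n ∧
    DifferentiableOn ℂ φ (ball c (4 * r)) ∧
    (∀ s ∈ ball c (4 * r), f s = H * exp (φ s) * ∏ i, (s - ρ i)) ∧
    ∀ s ∈ closedBall c (3 * r), ‖φ s‖ ≤ 12 * M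

def StQL : Prop := RHs → ∃ l0 : ℝ, ∀ l, l0 ≤ l → ∀ T : ℝ, 3 ≤ |T| → Real.log |T| ≤ 2 * l →
  (∀ σ : ℝ, 1 / 2 + (√(Real.log l))⁻¹ ≤ σ →
    Real.exp (-(2000 * l / √(Real.log l))) ≤ ‖riemannZeta (σ + T * I)‖) ∧
  ∀ s ∈ closedBall ((1 / 2 + (√(Real.log l))⁻¹ : ℝ) + T * I) (12 * (√(Real.log l))⁻¹),
    ‖riemannZeta s‖ ≤ Real.exp (2000 * l / √(Real.log l))

def StLow : Prop := RHs → ∃ l0 : ℝ, ∀ l, l0 ≤ l → ∀ T : ℝ, 3 ≤ |T| → Real.log |T| ≤ 2 * l →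
  ∀ δ : ℝ, 0 < δ → ‖zi ((1 / 2 + δ : ℝ) + T * I)‖ ≤ Real.exp (26000 * l / √(Real.log l) +
    6000 * l / √(Real.log l) * Real.log (1 + 4 / (δ * √(Real.log l))))

def StCR : Prop := RHs → ∃ C : ℝ, 0 ≤ C ∧ ∀ δ σ t : ℝ, 0 < δ → δ ≤ 1 → 1 / 2 + δ ≤ σ →
  ‖zi (σ + t * I)‖ ≤ Real.exp (C * Real.log (3 + |t|) * Real.log (3 / δ))

def StRN : Prop := RHs → ∃ l0 : ℝ, ∀ l, l0 ≤ l → ∀ t : ℝ, 3 ≤ |t| → Real.log |t| ≤ 2 * l →
  ∃ (n : ℕ) (γ : Fin n → ℝ), (n : ℝ) ≤ 6000 * l / √(Real.log l) ∧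
    (∀ i, riemannZeta (cl (γ i)) = 0 ∧ |γ i - t| ≤ 4 / √(Real.log l)) ∧
    ∀ L : ℝ, 1 ≤ L → ∀ z : ℂ, 0 < z.re → ‖z‖ / L ≤ (√(Real.log l))⁻¹ →
      ‖riemannZeta (cl t) * zi (cl t + z / L) - 1‖ ≤
        Real.exp (l / 100) * (1 + ‖z‖ / z.re) ^ n * ‖z‖ *
          (1 / L + ∑ i, 1 / ‖z + ((t - γ i) * L : ℝ) * I‖)

def StCnt : Prop := RHs → ∃ T1 : ℝ, ∀ t0 : ℝ, T1 ≤ |t0| → ∃ Z : Finset ℝ,
  (Z.card : ℝ) ≤ Real.log |t0| ∧ ∀ γ : ℝ, riemannZeta (cl γ) = 0 → |γ - t0| ≤ wd → γ ∈ Z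

def StRT : Prop := RHs → ∃ C T1 : ℝ, ∀ t0 : ℝ, T1 ≤ |t0| → ∃ Z : Finset ℝ,
  (Z.card : ℝ) ≤ Real.log |t0| ∧ ∀ t : ℝ, |t - t0| ≤ wd / 2 → ∀ L : ℝ, 1 ≤ L → ∀ z : ℂ,
    z.re = Real.log |t0| / 100 →
    ‖riemannZeta (cl t) * zi (cl t + z / L) - 1‖ ≤
      Real.exp (Real.log |t0| / 50 + ex C (Real.log |t0|) ‖z‖) *
        (1 / L + ∑ γ ∈ Z, 1 / ‖z + ((t - γ) * L : ℝ) * I‖)

def StRL : Prop := RHs → ∀ t0 : ℝ, ∃ r C : ℝ, 0 < r ∧ r ≤ 1 ∧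
  (∀ t : ℝ, |t - t0| < r → ∀ L : ℝ, 1 ≤ L → ∀ z : ℂ, z.re = 1 →
    ‖riemannZeta (cl t) * zi (cl t + z / L) - 1‖ ≤
      Real.exp (C * Real.log (3 + ‖z‖) ^ 2) * (1 / L + 1 / ‖z + ((t - t0) * L : ℝ) * I‖)) ∧
  ∀ (u : ℝ) (z : ℂ), z.re = 1 →
    Tendsto (fun L : ℝ => riemannZeta (cl (t0 + u / L)) * zi (cl (t0 + u / L) + z / L)) atTop
      (𝓝 ((u * I / (u * I + z)) ^ mult t0))

/-! ### The upper bound -/

def StRep : Prop := RHs → ∀ K w, Ker K w → ∀ N : ℕ, 3 ≤ N → ∀ t D : ℝ, 1 ≤ D →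
  riemannZeta (cl t) * AN w N t - 1 = (2 * π : ℂ)⁻¹ * ∫ y : ℝ,
    K (D + y * I) * (riemannZeta (cl t) * zi (cl t + (D + y * I) / (Real.log N : ℝ)) - 1)

def StWin : Prop := RHs → ∀ K w, Ker K w → ∃ C T1 : ℝ, ∀ t0 : ℝ, T1 ≤ |t0| → ∀ N : ℕ, 3 ≤ N →
  ENNReal.ofReal (Real.log N) * ∫⁻ t in closedBall t0 (wd / 2), err (AN w N) t ≤
    ENNReal.ofReal (C * |t0| ^ (-(3 / 2) : ℝ))

def StTail : Prop := RHs → ∀ K w, Ker K w → ∀ ε : ℝ, 0 < ε → ∃ T : ℝ, ∀ N : ℕ, 3 ≤ N →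
  ENNReal.ofReal (Real.log N) * ∫⁻ t in {t : ℝ | T ≤ |t|}, err (AN w N) t ≤ ENNReal.ofReal ε

def StLoc1 : Prop := RHs → ∀ K w, Ker K w → ∀ t0 : ℝ, ∃ r : ℝ, 0 < r ∧ ∀ H : ℝ → ℝ,
  Continuous H → (∀ t, 0 ≤ H t) →
    Tendsto (fun N : ℕ => ENNReal.ofReal (Real.log N) *
        ∫⁻ t in ball t0 r, ENNReal.ofReal (H t) * err (AN w N) t) atTop
      (𝓝 (ENNReal.ofReal (H t0 / (2 * π * (1 / 4 + t0 ^ 2))) * cp K (mult t0)))

def StLoc : Prop := RHs → ∀ K w, Ker K w → ∀ (T : ℝ) (Z : Finset ℝ),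
  (∀ γ : ℝ, |γ| ≤ T → riemannZeta (cl γ) = 0 → γ ∈ Z) → ∀ H : ℝ → ℝ, Continuous H →
  (∀ t, 0 ≤ H t) → ∀ ε : ℝ, 0 < ε → ∀ᶠ N : ℕ in atTop,
    ENNReal.ofReal (Real.log N) * ∫⁻ t in Icc (-T) T, ENNReal.ofReal (H t) * err (AN w N) t ≤
      ∑ γ ∈ Z, ENNReal.ofReal (H γ / (2 * π * (1 / 4 + γ ^ 2))) * cp K (mult γ) + ENNReal.ofReal ε

def StPart : Prop := ∀ γ T δ ε : ℝ, 0 < δ → 0 < ε → ∃ (B : ℕ) (Ψ : ℝ → ℂ), 1 ≤ B ∧ IsDP B Ψ ∧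
  Ψ γ = 1 ∧ (∀ t, ‖Ψ t‖ ≤ 1) ∧ ∀ t, |t| ≤ T → δ ≤ |t - γ| → ‖Ψ t‖ ≤ ε

/-! ### The lower bound -/

def StZero : Prop := ∀ (g : ℂ → ℂ) (c C : ℝ), (∀ s : ℂ, c ≤ s.re → DifferentiableAt ℂ g s) →
  (∀ s : ℂ, c ≤ s.re → ‖g s‖ ≤ C / (1 + ‖s‖) ^ 2) →
  Integrable (fun t : ℝ => g (c + t * I)) ∧ ∫ t : ℝ, g (c + t * I) = 0

def StCH : Prop := ∀ (g : ℂ → ℂ) (c C : ℝ) (s0 : ℂ), c < s0.re →
  (∀ s : ℂ, c ≤ s.re → DifferentiableAt ℂ g s) →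
  (∀ s : ℂ, c ≤ s.re → ‖g s‖ ≤ C / (1 + ‖s‖)) →
  Integrable (fun t : ℝ => g (c + t * I) / (s0 - (c + t * I))) ∧
    ∫ t : ℝ, g (c + t * I) / (s0 - (c + t * I)) = 2 * π * g s0

def StOff : Prop := ∀ ρ : ℂ, riemannZeta ρ = 0 → 0 < ρ.re → ρ.re < 1 → ρ.re ≠ 1 / 2 →
  ∃ c : ℝ, 0 < c ∧ ∀ N a, ENNReal.ofReal c ≤ ∫⁻ t, err (DP N a) t

def StOrth : Prop := ∀ (γ : ℝ) (j : ℕ), j ≤ mult γ → ∀ (q : ℂ → ℂ) (C lam : ℝ), 0 ≤ lam →
  (∀ s : ℂ, 1 / 2 ≤ s.re → DifferentiableAt ℂ q s) →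
  (∀ s : ℂ, 1 / 2 ≤ s.re → ‖q s‖ ≤ C / (1 + ‖s‖) ^ 4) →
  Integrable (fun t : ℝ =>
      q (cl t) * riemannZeta₁ (cl t) / (cl t - cl γ) ^ j * exp (-lam * cl t)) ∧
    ∫ t : ℝ, q (cl t) * riemannZeta₁ (cl t) / (cl t - cl γ) ^ j * exp (-lam * cl t) = 0

def StSym : Prop := ∀ γ : ℝ, mult (-γ) = mult γ

def StStr : Prop := ∀ γ : ℝ, riemannZeta (cl γ) = 0 → ∃ (r : ℂ → ℂ) (g : ℕ → ℝ → ℂ) (C : ℝ),
  (∀ s : ℂ, 0 < s.re → DifferentiableAt ℂ r s) ∧ r (cl γ) = 1 ∧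
  (∀ s : ℂ, 0 < s.re → ‖r s‖ ≤ C / (1 + ‖s‖) ^ 3) ∧
  (∀ j ∈ Finset.Icc 1 (mult γ), Measurable (g j) ∧ ∀ t, ‖g j t‖ ≤ C / (1 + |t|) ^ 3) ∧
  ∀ (α β : ℕ → ℂ) (L : ℝ) (n : ℕ) (P : ℝ → ℂ), 1 ≤ n → Real.log n ≤ L →
    (∀ t, t ≠ γ → P t = ∑ j ∈ Finset.Icc 1 (mult γ),
      (α j + β j * exp (((t - γ) * L : ℝ) * I)) / (((t - γ : ℝ) : ℂ) * I) ^ j) →
    Integrable (fun t : ℝ => (P t * r (cl t) + exp (((t - γ) * L : ℝ) * I) *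
        ∑ j ∈ Finset.Icc 1 (mult γ), β j * g j t) * riemannZeta (cl t) * (n : ℂ) ^ (-cl t)) ∧
      ∫ t : ℝ, (P t * r (cl t) + exp (((t - γ) * L : ℝ) * I) *
        ∑ j ∈ Finset.Icc 1 (mult γ), β j * g j t) * riemannZeta (cl t) * (n : ℂ) ^ (-cl t) = 0

def StMain : Prop := ∀ (e : Polynomial ℝ) (γ : ℝ) (r : ℂ → ℂ) (C : ℝ),
  (∀ s : ℂ, 0 < s.re → DifferentiableAt ℂ r s) →
  (∀ s : ℂ, 0 < s.re → ‖r s‖ ≤ C / (1 + ‖s‖) ^ 3) →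
  Tendsto (fun L : ℝ => ∫ t : ℝ, PL e L (cl t - cl γ) * r (cl t)) atTop
    (𝓝 (2 * π * (e.eval 0 : ℝ) * r (cl γ)))

def StTest : Prop := ∀ γ : ℝ, riemannZeta (cl γ) = 0 → ∃ Q : ℕ → ℝ → ℂ,
  (∀ N, 3 ≤ N → Integrable (Q N) ∧ ∀ n ∈ Finset.Icc 1 N,
    Integrable (fun t : ℝ => Q N t * riemannZeta (cl t) * (n : ℂ) ^ (-cl t)) ∧
      ∫ t : ℝ, Q N t * riemannZeta (cl t) * (n : ℂ) ^ (-cl t) = 0) ∧
  Tendsto (fun N => ‖∫ t, Q N t‖) atTop (𝓝 (2 * π * (mult γ : ℝ) ^ 2)) ∧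
  (∀ ε : ℝ, 0 < ε → ∀ᶠ N : ℕ in atTop, ∫⁻ t, ENNReal.ofReal (‖cl t * Q N t‖ ^ 2) ≤
    ENNReal.ofReal ((1 + ε) * (2 * π * (1 / 4 + γ ^ 2) * (mult γ : ℝ) ^ 2 * Real.log N))) ∧
  ∀ δ : ℝ, 0 < δ → ∃ C : ℝ, ∀ N, 3 ≤ N →
    ∫⁻ t in (ball γ δ)ᶜ, ENNReal.ofReal (‖cl t * Q N t‖ ^ 2) ≤ ENNReal.ofReal C

def StLB : Prop := ∀ Z : Finset ℝ, (∀ γ ∈ Z, riemannZeta (cl γ) = 0) → ∀ ε : ℝ, 0 < ε →
  ∀ᶠ N : ℕ in atTop, ∀ a : ℕ → ℂ,
    ENNReal.ofReal ((1 - ε) * ∑ γ ∈ Z, (mult γ : ℝ) ^ 2 / (1 / 4 + γ ^ 2)) ≤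
      ENNReal.ofReal (Real.log N) * ∫⁻ t, err (DP N a) t

/-! ### Basic facts -/

lemma cl_re (t : ℝ) : (cl t).re = 1 / 2 := by simp [cl]

lemma cl_im (t : ℝ) : (cl t).im = t := by simp [cl]

lemma cl_ne_one (t : ℝ) : cl t ≠ 1 := by
  intro h
  have := cl_re t
  rw [h] at this
  norm_num at this

lemma cl_sub (t u : ℝ) : cl t - cl u = ((t - u : ℝ) : ℂ) * I := by
  unfold cl; push_cast; ring

lemma norm_cl_sq (t : ℝ) : ‖cl t‖ ^ 2 = 1 / 4 + t ^ 2 := by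
  rw [← normSq_eq_norm_sq, normSq_apply, cl_re, cl_im]; ring

lemma continuous_cl : Continuous cl := by unfold cl; fun_prop

lemma continuous_zeta_cl : Continuous fun t => riemannZeta (cl t) :=
  continuous_iff_continuousAt.2 fun t =>
    (differentiableAt_riemannZeta (cl_ne_one t)).continuousAt.comp continuous_cl.continuousAt

lemma continuous_DP (N : ℕ) (a : ℕ → ℂ) : Continuous (DP N a) := by
  refine continuous_finsetSum _ fun n hn => continuous_const.mul ?_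
  have : (n : ℂ) ≠ 0 := Nat.cast_ne_zero.2 (by have := (Finset.mem_Icc.1 hn).1; omega)
  exact continuous_cl.neg.const_cpow (Or.inl this)

lemma measurable_err {f : ℝ → ℂ} (hf : Continuous f) : Measurable (err f) := by
  refine ENNReal.measurable_ofReal.comp (Continuous.measurable ?_)
  refine (((continuous_const.sub (continuous_zeta_cl.mul hf)).norm).pow 2).div (by fun_prop) ?_
  intro t
  positivity

lemma zeta1_eq {s : ℂ} (hs : s ≠ 1) : riemannZeta₁ s = (s - 1) * riemannZeta s := by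
  rw [riemannZeta_eq_inv_sub_mul hs]
  have := sub_ne_zero.2 hs
  field_simp

lemma zi_eq {s : ℂ} (hs : s ≠ 1) : zi s = (riemannZeta s)⁻¹ := by
  rw [zi, zeta1_eq hs]
  have := sub_ne_zero.2 hs
  field_simp

lemma zeta1_ne (h : RHs) {s : ℂ} (hs : 1 / 2 < s.re) : riemannZeta₁ s ≠ 0 := by
  by_cases h1 : s = 1
  · rw [h1, riemannZeta₁_one]; exact one_ne_zero
  · rw [zeta1_eq h1]
    exact mul_ne_zero (sub_ne_zero.2 h1) (h.ne_zero hs)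

lemma differentiableAt_zi (h : RHs) {s : ℂ} (hs : 1 / 2 < s.re) : DifferentiableAt ℂ zi s :=
  (differentiableAt_id.sub_const 1).div (differentiable_riemannZeta₁ s) (zeta1_ne h hs)

lemma analyticAt_zeta_cl (t : ℝ) : AnalyticAt ℂ riemannZeta (cl t) := by
  refine DifferentiableOn.analyticAt (s := {1}ᶜ) (fun s hs =>
    (differentiableAt_riemannZeta hs).differentiableWithinAt) ?_
  exact isOpen_compl_singleton.mem_nhds (cl_ne_one t)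

lemma order_ne_top (t : ℝ) : analyticOrderAt riemannZeta (cl t) ≠ ⊤ := by
  intro h
  rw [analyticOrderAt_eq_top] at h
  have hA : AnalyticOnNhd ℂ riemannZeta {1}ᶜ := DifferentiableOn.analyticOnNhd (fun s hs =>
    (differentiableAt_riemannZeta hs).differentiableWithinAt) isOpen_compl_singleton
  have := hA.eqOn_zero_of_preconnected_of_eventuallyEq_zero
    (isConnected_compl_singleton_of_one_lt_rank (by simp) 1).isPreconnected (cl_ne_one t) h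
    (show (2 : ℂ) ∈ ({1}ᶜ : Set ℂ) by norm_num)
  exact riemannZeta_ne_zero_of_one_le_re (s := 2) (by norm_num) this

/-- Local factorisation at a point of the critical line. -/
lemma exists_local (t : ℝ) : ∃ h : ℂ → ℂ, AnalyticAt ℂ h (cl t) ∧ h (cl t) ≠ 0 ∧
    ∀ᶠ s in 𝓝 (cl t), riemannZeta s = (s - cl t) ^ mult t * h s := by
  obtain ⟨h, h1, h2, h3⟩ := ((analyticAt_zeta_cl t).analyticOrderNatAt_eq_iff
    (order_ne_top t) (n := mult t)).1 rfl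
  exact ⟨h, h1, h2, by simpa using h3⟩

lemma mult_eq_zero_iff (t : ℝ) : mult t = 0 ↔ riemannZeta (cl t) ≠ 0 := by
  obtain ⟨h, -, h2, h3⟩ := exists_local t
  have := h3.self_of_nhds
  rw [this, sub_self]
  constructor
  · intro h0; rw [h0, pow_zero, one_mul]; exact h2
  · intro h0
    by_contra h1
    exact h0 (by rw [zero_pow h1, zero_mul])

lemma cp_zero (K : ℂ → ℂ) : cp K 0 = 0 := by simp [cp, prof]

/-- The decay without the parameter. -/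
lemma Dec.log_sq {η : ℝ} {K : ℂ → ℂ} (h : Dec η K) (C : ℝ) : ∃ C' : ℝ, 0 ≤ C' ∧ ∀ z : ℂ,
    1 ≤ z.re → ‖K z‖ * Real.exp (C * Real.log (3 + ‖z‖) ^ 2) ≤ C' * Real.exp (η * z.re) := by
  obtain ⟨C', l0, h⟩ := h |C| 1 one_pos
  refine ⟨|C'| * Real.exp (max l0 1), by positivity, fun z hz => ?_⟩
  have h1 := h (max l0 1) (le_max_left _ _) z hz
  have hl : (0 : ℝ) < max l0 1 := one_pos.trans_le (le_max_right _ _)
  have h2 : C * Real.log (3 + ‖z‖) ^ 2 ≤ ex |C| (max l0 1) ‖z‖ := by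
    have h3 : 0 ≤ Real.log (1 + 100 * ‖z‖ / max l0 1) :=
      Real.log_nonneg (le_add_of_nonneg_right (by positivity))
    have h4 : C * Real.log (3 + ‖z‖) ^ 2 ≤ |C| * Real.log (3 + ‖z‖) ^ 2 := by
      gcongr; exact le_abs_self C
    exact h4.trans (le_add_of_nonneg_left (by positivity))
  calc _ ≤ ‖K z‖ * Real.exp (ex |C| (max l0 1) ‖z‖) := by gcongr
    _ ≤ C' * Real.exp (η * z.re + 1 * max l0 1) := h1
    _ ≤ |C'| * Real.exp (η * z.re + 1 * max l0 1) := by gcongr; exact le_abs_self C'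
    _ = _ := by rw [Real.exp_add, one_mul]; ring

lemma one_le_log_three_add {r : ℝ} (hr : 0 ≤ r) : 1 ≤ Real.log (3 + r) := by
  rw [Real.le_log_iff_exp_le (by linarith)]
  linarith [Real.exp_one_lt_d9]

/-- A factor `exp (-2 log (3 + |z|) ^ 2)` is integrable on vertical lines. -/
lemma exp_log_sq_le (z : ℂ) :
    Real.exp (-(2 * Real.log (3 + ‖z‖) ^ 2)) ≤ (1 + z.im ^ 2)⁻¹ := by
  have h0 := norm_nonneg z
  have h1 := one_le_log_three_add h0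
  have h2 : Real.exp (2 * Real.log (3 + ‖z‖)) = (3 + ‖z‖) ^ 2 := by
    rw [show (2 : ℝ) * Real.log (3 + ‖z‖) = (2 : ℕ) * Real.log (3 + ‖z‖) by norm_num,
      Real.exp_nat_mul, Real.exp_log (by linarith)]
  rw [Real.exp_neg]
  refine inv_anti₀ (by positivity) ?_
  have h3 : z.im ^ 2 ≤ ‖z‖ ^ 2 := by
    rw [← sq_abs]; gcongr; exact abs_im_le_norm z
  calc 1 + z.im ^ 2 ≤ (3 + ‖z‖) ^ 2 := by nlinarith
    _ = _ := h2.symm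
    _ ≤ _ := Real.exp_le_exp.2 (by nlinarith)

lemma Ker.continuous_line {K : ℂ → ℂ} {w : ℝ → ℂ} (h : Ker K w) {c : ℝ} (hc : 0 < c) :
    Continuous fun y : ℝ => K (c + y * I) :=
  h.diff.continuousOn.comp_continuous (by fun_prop) fun t => by simpa using hc

/-- A kernel is integrable on vertical lines against `exp (C log (3 + |z|) ^ 2)`. -/
lemma Ker.integrable {K : ℂ → ℂ} {w : ℝ → ℂ} (h : Ker K w) (C : ℝ) {c : ℝ} (hc : 1 ≤ c) :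
    Integrable fun y : ℝ =>
      ‖K (c + y * I)‖ * Real.exp (C * Real.log (3 + ‖(c + y * I : ℂ)‖) ^ 2) := by
  obtain ⟨C', h0, h1⟩ := h.dec.log_sq (C + 2)
  refine (integrable_inv_one_add_sq.const_mul (C' * Real.exp c)).mono' ?_
    (Eventually.of_forall fun y => ?_)
  · refine Continuous.aestronglyMeasurable ((h.continuous_line (by linarith)).norm.mul ?_)
    refine Real.continuous_exp.comp (continuous_const.mul (Continuous.pow ?_ 2))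
    exact Continuous.log (by fun_prop) fun y => by positivity
  · have h2 := h1 (c + y * I) (by simpa using hc)
    have h3 := exp_log_sq_le (c + y * I)
    rw [show ((c : ℂ) + y * I).re = c by simp, one_mul] at h2
    rw [show ((c : ℂ) + y * I).im = y by simp] at h3
    rw [Real.norm_of_nonneg (by positivity)]
    calc _ = ‖K (c + y * I)‖ * Real.exp ((C + 2) * Real.log (3 + ‖(c + y * I : ℂ)‖) ^ 2) *
          Real.exp (-(2 * Real.log (3 + ‖(c + y * I : ℂ)‖) ^ 2)) := by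
          rw [mul_assoc, ← Real.exp_add]; congr 2; ring
      _ ≤ _ := by gcongr

lemma norm_zeta1_le {s : ℂ} (hs : 1 / 2 ≤ s.re) : ‖riemannZeta₁ s‖ ≤ 3 * (1 + ‖s‖) ^ 2 := by
  have h0 : 0 < s.re := by linarith
  have h1 : ‖Phi s‖ ≤ 2 := (norm_Phi_le h0).trans (by rw [div_le_iff₀ h0]; linarith)
  have h2 : ‖s - 1‖ ≤ ‖s‖ + 1 := by simpa using norm_sub_le s 1
  have h3 := norm_nonneg s
  rw [zeta_eq h0]
  calc _ ≤ ‖s‖ + ‖s‖ * ‖s - 1‖ * ‖Phi s‖ := by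
        rw [← norm_mul, ← norm_mul]; exact norm_sub_le _ _
    _ ≤ ‖s‖ + ‖s‖ * (‖s‖ + 1) * 2 := by gcongr
    _ ≤ _ := by nlinarith

/-- Plancherel for a polynomial on the unit interval. -/
lemma plancherel_poly (e : Polynomial ℝ) :
    Integrable (fun v : ℝ => ‖∫ x in (0 : ℝ)..1, (e.eval x : ℝ) * exp (v * I * x)‖ ^ 2) ∧
      ∫ v : ℝ, ‖∫ x in (0 : ℝ)..1, (e.eval x : ℝ) * exp (v * I * x)‖ ^ 2 =
        2 * π * ∫ x in (0 : ℝ)..1, e.eval x ^ 2 := by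
  set φ : ℝ → ℂ := (Ioc (0 : ℝ) 1).indicator fun x => ((e.eval x : ℝ) : ℂ) with hφ
  have hc : Continuous fun x : ℝ => ((e.eval x : ℝ) : ℂ) := continuous_ofReal.comp e.continuous
  have hp : ∀ p : ENNReal, MemLp φ p volume := fun p => by
    obtain ⟨B, hB⟩ := isCompact_Icc.exists_bound_of_continuousOn (hc.continuousOn (s := Icc 0 1))
    rw [hφ, memLp_indicator_iff_restrict measurableSet_Ioc]
    exact memLp_Ioc hc.measurable (fun u hu => hB u (Ioc_subset_Icc_self hu)) p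
  have h1 := memLp_one_iff_integrable.1 (hp 1)
  have e1 : ∀ v : ℝ, ∫ x in (0 : ℝ)..1, (e.eval x : ℝ) * exp (v * I * x) = FI φ v := fun v => by
    rw [FI, intervalIntegral.integral_of_le zero_le_one, ← integral_indicator measurableSet_Ioc]
    congr 1; ext x
    by_cases h : x ∈ Ioc (0 : ℝ) 1
    · simp only [hφ, indicator_of_mem h]; congr 2; ring
    · simp [hφ, indicator_of_notMem h]
  simp only [e1]
  refine ⟨integrable_sq_FI h1 (hp 2), ?_⟩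
  rw [plancherel_FI h1 (hp 2), intervalIntegral.integral_of_le zero_le_one,
    ← integral_indicator measurableSet_Ioc]
  congr 2; ext x
  by_cases h : x ∈ Ioc (0 : ℝ) 1
  · simp [hφ, indicator_of_mem h]
  · simp [hφ, indicator_of_notMem h]

/-! ### The algebra of Dirichlet polynomials -/

lemma IsDP.continuous {N : ℕ} {f : ℝ → ℂ} (h : IsDP N f) : Continuous f := by
  obtain ⟨a, rfl⟩ := h
  exact continuous_DP N a

lemma IsDP.zero (N : ℕ) : IsDP N fun _ => 0 := ⟨0, by ext t; simp [DP]⟩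

lemma IsDP.add {N : ℕ} {f g : ℝ → ℂ} (hf : IsDP N f) (hg : IsDP N g) :
    IsDP N fun t => f t + g t := by
  obtain ⟨a, rfl⟩ := hf
  obtain ⟨b, rfl⟩ := hg
  exact ⟨a + b, by ext t; simp [DP, add_mul, Finset.sum_add_distrib]⟩

lemma IsDP.const_mul {N : ℕ} {f : ℝ → ℂ} (hf : IsDP N f) (c : ℂ) : IsDP N fun t => c * f t := by
  obtain ⟨a, rfl⟩ := hf
  exact ⟨fun n => c * a n, by ext t; simp [DP, Finset.mul_sum, mul_assoc]⟩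

lemma IsDP.sub {N : ℕ} {f g : ℝ → ℂ} (hf : IsDP N f) (hg : IsDP N g) :
    IsDP N fun t => f t - g t := by
  simpa [sub_eq_add_neg] using hf.add (hg.const_mul (-1))

lemma IsDP.sum {N : ℕ} {ι : Type*} (S : Finset ι) {f : ι → ℝ → ℂ} (hf : ∀ i ∈ S, IsDP N (f i)) :
    IsDP N fun t => ∑ i ∈ S, f i t := by
  classical
  induction S using Finset.induction_on with
  | empty => simpa using IsDP.zero N
  | insert i S hi ih =>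
    simp only [Finset.sum_insert hi]
    exact (hf i (Finset.mem_insert_self _ _)).add
      (ih fun j hj => hf j (Finset.mem_insert_of_mem hj))

lemma IsDP.single {N n : ℕ} (h1 : 1 ≤ n) (h2 : n ≤ N) : IsDP N fun t => (n : ℂ) ^ (-cl t) := by
  refine ⟨fun k => if k = n then 1 else 0, ?_⟩
  ext t
  simp [DP, Finset.sum_ite_eq', h1, h2]

lemma IsDP.one {N : ℕ} (h : 1 ≤ N) : IsDP N fun _ => 1 := by
  simpa using IsDP.single le_rfl h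

lemma IsDP.mono {N M : ℕ} {f : ℝ → ℂ} (hf : IsDP N f) (h : N ≤ M) : IsDP M f := by
  obtain ⟨a, rfl⟩ := hf
  exact IsDP.sum _ fun n hn => (IsDP.single (Finset.mem_Icc.1 hn).1
    ((Finset.mem_Icc.1 hn).2.trans h)).const_mul _

lemma IsDP.mul {N M : ℕ} {f g : ℝ → ℂ} (hf : IsDP N f) (hg : IsDP M g) :
    IsDP (N * M) fun t => f t * g t := by
  obtain ⟨a, rfl⟩ := hf
  obtain ⟨b, rfl⟩ := hg
  have e : (fun t => DP N a t * DP M b t) = fun t => ∑ n ∈ Finset.Icc 1 N, ∑ k ∈ Finset.Icc 1 M,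
      a n * b k * ((n * k : ℕ) : ℂ) ^ (-cl t) := by
    ext t
    rw [DP, DP, Finset.sum_mul_sum]
    refine Finset.sum_congr rfl fun n _ => Finset.sum_congr rfl fun k _ => ?_
    rw [Nat.cast_mul, natCast_mul_natCast_cpow]; ring
  rw [e]
  refine IsDP.sum _ fun n hn => IsDP.sum _ fun k hk => (IsDP.single ?_ ?_).const_mul _
  · exact Nat.mul_pos (Finset.mem_Icc.1 hn).1 (Finset.mem_Icc.1 hk).1
  · exact Nat.mul_le_mul (Finset.mem_Icc.1 hn).2 (Finset.mem_Icc.1 hk).2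

lemma IsDP.pow {N : ℕ} {f : ℝ → ℂ} (hf : IsDP N f) (k : ℕ) : IsDP (N ^ k) fun t => f t ^ k := by
  induction k with
  | zero => simpa using IsDP.one le_rfl
  | succ k ih => simpa only [pow_succ] using ih.mul hf

lemma isDP_AN (w : ℝ → ℂ) (N : ℕ) : IsDP N (AN w N) := ⟨_, rfl⟩

end Pool.Agent.P.MP_323ce2_nt.NB
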