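import Mathlib
import Pool.Agent.P.MP_323ce2_nt.NB.Defs

/-! The upper bound: gluing the weighted Moebius polynomials by a partition of unity. -/

open Complex Filter Topology Set MeasureTheory Metric
open scoped Real

namespace Pool.Agent.P.MP_323ce2_nt.NB

namespace UB

lemma exists_Z (X : ℝ) : ∃ Z : Finset ℝ, ∀ γ, γ ∈ Z ↔ |γ| ≤ X ∧ riemannZeta (cl γ) = 0 := by
  have h : {γ : ℝ | |γ| ≤ X ∧ riemannZeta (cl γ) = 0}.Finite := by
    refine ((fin_zeros X).image im).subset fun γ hγ => ⟨cl γ, ⟨⟨hγ.2, ?_, ?_⟩, ?_⟩, cl_im γ⟩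
    · rw [cl_re]; norm_num
    · rw [cl_re]; norm_num
    · rw [cl_im]; exact hγ.1
  exact ⟨h.toFinset, fun γ => by simp⟩

lemma cs (Z : Finset ℝ) (a0 E0 : ℂ) (a E : ℝ → ℂ) :
    ‖a0 * E0 + ∑ γ ∈ Z, a γ * E γ‖ ^ 2 ≤ (‖a0‖ + ∑ γ ∈ Z, ‖a γ‖) *
      (‖a0‖ * ‖E0‖ ^ 2 + ∑ γ ∈ Z, ‖a γ‖ * ‖E γ‖ ^ 2) := by
  have h := Finset.sum_sq_le_sum_mul_sum_of_sq_le_mul (Finset.insertNone Z)
    (r := fun i => ‖i.elim a0 a‖ * ‖i.elim E0 E‖) (f := fun i => ‖i.elim a0 a‖)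
    (g := fun i => ‖i.elim a0 a‖ * ‖i.elim E0 E‖ ^ 2) (fun _ _ => by positivity)
    (fun _ _ => by positivity) (fun _ _ => by apply le_of_eq; ring)
  simp only [Finset.sum_insertNone, Option.elim] at h
  refine le_trans ?_ h
  gcongr
  refine (norm_add_le _ _).trans ?_
  rw [norm_mul]
  gcongr
  exact norm_sum_le_of_le _ fun γ _ => (norm_mul _ _).le

/-- The total weight. -/
noncomputable def lam (Z : Finset ℝ) (Ψ : ℝ → ℝ → ℂ) (t : ℝ) : ℝ :=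
  ‖1 - ∑ γ ∈ Z, Ψ γ t‖ + ∑ γ ∈ Z, ‖Ψ γ t‖

lemma err_glue (Z : Finset ℝ) (Ψ : ℝ → ℝ → ℂ) (A0 : ℝ → ℂ) (A : ℝ → ℝ → ℂ) (t : ℝ) :
    err (fun t => (1 - ∑ γ ∈ Z, Ψ γ t) * A0 t + ∑ γ ∈ Z, Ψ γ t * A γ t) t ≤
      ENNReal.ofReal (lam Z Ψ t * ‖1 - ∑ γ ∈ Z, Ψ γ t‖) * err A0 t +
        ∑ γ ∈ Z, ENNReal.ofReal (lam Z Ψ t * ‖Ψ γ t‖) * err (A γ) t := by
  have h0 : 0 ≤ lam Z Ψ t := by unfold lam; positivity
  have e : 1 - riemannZeta (cl t) * ((1 - ∑ γ ∈ Z, Ψ γ t) * A0 t + ∑ γ ∈ Z, Ψ γ t * A γ t) =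
      (1 - ∑ γ ∈ Z, Ψ γ t) * (1 - riemannZeta (cl t) * A0 t) +
        ∑ γ ∈ Z, Ψ γ t * (1 - riemannZeta (cl t) * A γ t) := by
    simp only [mul_sub, mul_one, Finset.sum_sub_distrib, mul_add, Finset.mul_sum,
      mul_left_comm (riemannZeta (cl t))]
    ring
  simp only [err]
  rw [e, ← ENNReal.ofReal_mul (by positivity), Finset.sum_congr rfl fun γ _ =>
    (ENNReal.ofReal_mul (by positivity)).symm, ← ENNReal.ofReal_sum_of_nonneg
    fun γ _ => by positivity, ← ENNReal.ofReal_add (by positivity) (by positivity)]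
  refine ENNReal.ofReal_le_ofReal ((div_le_div_of_nonneg_right (cs ..) (by positivity)).trans
    (le_of_eq ?_))
  rw [mul_add, add_div, Finset.mul_sum, Finset.sum_div]
  congr 1
  · unfold lam; ring
  · exact Finset.sum_congr rfl fun γ _ => by unfold lam; ring

lemma split2 {g : ℝ → ENNReal} (hg : Measurable g) {H : ℝ → ℝ} {W : ℝ} (T : ℝ)
    (hW : ∀ t, H t ≤ W) : ∫⁻ t, ENNReal.ofReal (H t) * g t ≤
      (∫⁻ t in Icc (-T) T, ENNReal.ofReal (H t) * g t) +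
        ENNReal.ofReal W * ∫⁻ t in {t : ℝ | T ≤ |t|}, g t := by
  rw [← lintegral_add_compl _ (measurableSet_Icc (a := -T) (b := T)), ← lintegral_const_mul _ hg]
  refine add_le_add_right ?_ _
  refine (lintegral_mono_set (t := {t : ℝ | T ≤ |t|}) fun t ht => ?_).trans
    (lintegral_mono fun t => mul_le_mul_left (ENNReal.ofReal_le_ofReal (hW t)) _)
  by_contra h
  exact ht (abs_le.1 (not_le.1 h).le)

lemma split3 {g : ℝ → ENNReal} (hg : Measurable g) {H : ℝ → ℝ} {a W : ℝ} (T T1 : ℝ)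
    (hW : ∀ t, H t ≤ W) (ha : ∀ t, |t| ≤ T1 → H t ≤ a) : ∫⁻ t, ENNReal.ofReal (H t) * g t ≤
      (∫⁻ t in Icc (-T) T, ENNReal.ofReal (H t) * g t) +
        (ENNReal.ofReal a * (∫⁻ t in {t : ℝ | T ≤ |t|}, g t) +
          ENNReal.ofReal W * ∫⁻ t in {t : ℝ | T1 ≤ |t|}, g t) := by
  have hm : ∀ X : ℝ, MeasurableSet {t : ℝ | X ≤ |t|} := fun X =>
    measurableSet_le measurable_const (by fun_prop)
  rw [← lintegral_add_compl _ (measurableSet_Icc (a := -T) (b := T)), ← lintegral_const_mul _ hg,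
    ← lintegral_const_mul _ hg, ← lintegral_indicator (hm T), ← lintegral_indicator (hm T1),
    ← lintegral_add_left ((hg.const_mul _).indicator (hm T)),
    ← lintegral_indicator measurableSet_Icc.compl]
  gcongr with t
  by_cases h : t ∈ (Icc (-T) T)ᶜ
  · have h1 : t ∈ {t : ℝ | T ≤ |t|} := by
      by_contra h'
      exact h (abs_le.1 (not_le.1 h').le)
    rw [indicator_of_mem h, indicator_of_mem h1]
    rcases le_total |t| T1 with h2 | h2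
    · exact le_add_right (by gcongr; exact ha t h2)
    · rw [indicator_of_mem (show t ∈ {t : ℝ | T1 ≤ |t|} from h2)]
      exact le_add_left (by gcongr; exact hW t)
  · rw [indicator_of_notMem h]; exact zero_le

lemma sum_le {Z Z1 : Finset ℝ} {c : ℝ → ENNReal} {H : ℝ → ℝ} {x G : ℝ} (hx : 0 ≤ x) (hZ : Z ⊆ Z1)
    (hG : ∑ γ ∈ Z1, ENNReal.ofReal (1 / (2 * π * (1 / 4 + γ ^ 2))) * c γ ≤ ENNReal.ofReal G)
    (hH : ∀ γ ∈ Z, H γ ≤ x) :
    ∑ γ ∈ Z, ENNReal.ofReal (H γ / (2 * π * (1 / 4 + γ ^ 2))) * c γ ≤ ENNReal.ofReal (x * G) := by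
  rw [ENNReal.ofReal_mul hx]
  refine le_trans ?_ (mul_le_mul_right ((Finset.sum_le_sum_of_subset hZ).trans hG) _)
  rw [Finset.mul_sum]
  refine Finset.sum_le_sum fun γ hγ => ?_
  rw [← mul_assoc, ← ENNReal.ofReal_mul hx, mul_one_div]
  gcongr
  exact hH γ hγ

lemma exists_sep (Z : Finset ℝ) :
    ∃ δ : ℝ, 0 < δ ∧ ∀ γ ∈ Z, ∀ γ' ∈ Z, γ ≠ γ' → 2 * δ ≤ |γ - γ'| := by
  have : ∀ᶠ δ : ℝ in 𝓝[>] 0, ∀ γ ∈ Z, ∀ γ' ∈ Z, γ ≠ γ' → 2 * δ ≤ |γ - γ'| := by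
    refine (eventually_all_finset Z).2 fun γ _ => (eventually_all_finset Z).2 fun γ' _ => ?_
    by_cases h : γ = γ'
    · exact Eventually.of_forall fun _ h' => (h' h).elim
    · have h1 : 0 < |γ - γ'| / 2 := half_pos (abs_pos.2 (sub_ne_zero.2 h))
      filter_upwards [Ioo_mem_nhdsGT h1] with δ hδ _
      linarith [hδ.2]
  obtain ⟨δ, h1, h2⟩ := (this.and self_mem_nhdsWithin).exists
  exact ⟨δ, h2, h1⟩

lemma exists_eta {M G θ ε : ℝ} (hθ : 1 < θ) (hε : 0 < ε) :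
    ∃ η : ℝ, 0 < η ∧ M * η ≤ 1 ∧ 1 + 2 * (M * η) ≤ θ ∧ 5 * (M * η) * G ≤ ε := by
  have h1 : ∀ {f : ℝ → ℝ} {b : ℝ}, Continuous f → f 0 < b → ∀ᶠ η in 𝓝[>] (0 : ℝ), f η ≤ b :=
    fun hf hb => (hf.continuousAt.eventually_lt continuousAt_const hb).filter_mono
      nhdsWithin_le_nhds |>.mono fun _ h => h.le
  obtain ⟨η, a, b, c, d⟩ := ((h1 (f := fun η => M * η) (b := 1) (by fun_prop) (by simp)).and
    ((h1 (f := fun η => 1 + 2 * (M * η)) (b := θ) (by fun_prop) (by simpa)).and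
    ((h1 (f := fun η => 5 * (M * η) * G) (b := ε) (by fun_prop) (by simpa)).and
      self_mem_nhdsWithin))).exists
  exact ⟨η, d, a, b, c⟩

/-- The facts about the partition. -/
structure Part (Z : Finset ℝ) (Ψ : ℝ → ℝ → ℂ) (T δ η : ℝ) : Prop where
  eta : 0 < η
  small : (Z.card + 1) * η ≤ 1
  mem : ∀ γ ∈ Z, |γ| ≤ T
  sep : ∀ γ ∈ Z, ∀ γ' ∈ Z, γ ≠ γ' → 2 * δ ≤ |γ - γ'|
  pos : 0 < δ
  one : ∀ γ, Ψ γ γ = 1
  le : ∀ γ t, ‖Ψ γ t‖ ≤ 1
  far : ∀ γ t, |t| ≤ T → δ ≤ |t - γ| → ‖Ψ γ t‖ ≤ η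

variable {Z : Finset ℝ} {Ψ : ℝ → ℝ → ℂ} {T δ η : ℝ}

lemma Part.sub (P : Part Z Ψ T δ η) {S : Finset ℝ} (hS : S ⊆ Z) {t : ℝ} (ht : |t| ≤ T)
    (h : ∀ γ ∈ S, δ ≤ |t - γ|) : ∑ γ ∈ S, ‖Ψ γ t‖ ≤ (Z.card + 1) * η := by
  refine (Finset.sum_le_card_nsmul S _ η fun γ hγ => P.far γ t ht (h γ hγ)).trans ?_
  rw [nsmul_eq_mul]
  have : (S.card : ℝ) ≤ Z.card := by exact_mod_cast Finset.card_le_card hS
  have := P.eta
  gcongr; linarith

lemma norm_one_sub (Z : Finset ℝ) (Ψ : ℝ → ℝ → ℂ) (t : ℝ) :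
    ‖1 - ∑ γ ∈ Z, Ψ γ t‖ ≤ 1 + ∑ γ ∈ Z, ‖Ψ γ t‖ :=
  (norm_sub_le _ _).trans (by rw [norm_one]; gcongr; exact norm_sum_le _ _)

lemma Part.two (P : Part Z Ψ T δ η) {t : ℝ} (ht : |t| ≤ T) : ∑ γ ∈ Z, ‖Ψ γ t‖ ≤ 2 := by
  classical
  have hs := P.small
  by_cases h : ∃ γ0 ∈ Z, |t - γ0| < δ
  · obtain ⟨γ0, h0, h1⟩ := h
    rw [← Finset.add_sum_erase _ _ h0]
    have := P.sub (Z.erase_subset γ0) ht fun γ hγ => by
      have h2 := P.sep γ (Finset.mem_of_mem_erase hγ) γ0 h0 (Finset.ne_of_mem_erase hγ)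
      have h3 := abs_sub_le γ t γ0
      rw [abs_sub_comm γ t] at h3
      linarith
    linarith [P.le γ0 t]
  · push Not at h
    linarith [P.sub subset_rfl ht h]

lemma Part.all (P : Part Z Ψ T δ η) (t : ℝ) : ∑ γ ∈ Z, ‖Ψ γ t‖ ≤ Z.card := by
  simpa using Finset.sum_le_card_nsmul Z _ 1 fun γ _ => P.le γ t

lemma Part.at (P : Part Z Ψ T δ η) {γ0 : ℝ} (h0 : γ0 ∈ Z) :
    ‖1 - ∑ γ ∈ Z, Ψ γ γ0‖ ≤ (Z.card + 1) * η ∧ lam Z Ψ γ0 ≤ 1 + 2 * ((Z.card + 1) * η) := by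
  classical
  have h1 := P.sub (Z.erase_subset γ0) (P.mem _ h0) fun γ hγ => by
    have := P.sep γ0 h0 γ (Finset.mem_of_mem_erase hγ) (Finset.ne_of_mem_erase hγ).symm
    linarith [P.pos]
  have h2 : ‖1 - ∑ γ ∈ Z, Ψ γ γ0‖ ≤ (Z.card + 1) * η := by
    rw [← Finset.add_sum_erase _ _ h0, P.one, sub_add_cancel_left, norm_neg]
    exact (norm_sum_le _ _).trans h1
  refine ⟨h2, ?_⟩
  unfold lam
  rw [← Finset.add_sum_erase _ (fun γ => ‖Ψ γ γ0‖) h0, P.one, norm_one]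
  linarith

lemma Part.lam_five (P : Part Z Ψ T δ η) {t : ℝ} (ht : |t| ≤ T) : lam Z Ψ t ≤ 5 := by
  unfold lam; linarith [P.two ht, norm_one_sub Z Ψ t]

lemma Part.lam_all (P : Part Z Ψ T δ η) (t : ℝ) : lam Z Ψ t ≤ 1 + 2 * Z.card := by
  unfold lam; linarith [P.all t, norm_one_sub Z Ψ t]

end UB

open UB in
theorem core (hKer : StKer) (hCp : StCp) (hT : StTail) (hL : StLoc) (hP : StPart) (h : RHs)
    {θ ε : ℝ} (hθ : 1 < θ) (hε : 0 < ε) : ∃ (Z : Finset ℝ) (B : ℕ),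
      (∀ γ ∈ Z, riemannZeta (cl γ) = 0) ∧ 1 ≤ B ∧ ∀ᶠ N : ℕ in atTop, ∃ f, IsDP (B * N) f ∧
        ENNReal.ofReal (Real.log N) * ∫⁻ t, err f t ≤
          ENNReal.ofReal (θ ^ 2 * ∑ γ ∈ Z, (mult γ : ℝ) ^ 2 / (1 / 4 + γ ^ 2) + 21 * ε) := by
  classical
  choose K w hK hc using fun m : ℕ => hKer (max m 1) (le_max_right _ _) θ hθ
  obtain ⟨T, hT0⟩ := hT h _ _ (hK 0) ε hε
  obtain ⟨Z, hZ⟩ := exists_Z T
  have hM : (0 : ℝ) ≤ Z.card := Nat.cast_nonneg _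
  obtain ⟨W, hW⟩ : ∃ W : ℝ, W = (1 + 2 * Z.card) * (1 + Z.card) := ⟨_, rfl⟩
  have hW0 : 0 < W := by rw [hW]; positivity
  obtain ⟨e, he⟩ : ∃ e : ℝ, e = ε / (Z.card + 1) := ⟨_, rfl⟩
  have he0 : 0 < e := by rw [he]; positivity
  have he1 : (Z.card + 1) * e = ε := by rw [he]; field_simp
  have tails : ∀ m, ∀ᶠ X : ℝ in atTop, ∀ N : ℕ, 3 ≤ N → ENNReal.ofReal (Real.log N) *
      (ENNReal.ofReal W * ∫⁻ t in {t : ℝ | X ≤ |t|}, err (AN (w m) N) t) ≤ ENNReal.ofReal e := by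
    intro m
    obtain ⟨X0, hX0⟩ := hT h _ _ (hK m) (e / W) (by positivity)
    filter_upwards [eventually_ge_atTop X0] with X hX N hN
    rw [mul_left_comm, ← mul_div_cancel₀ e hW0.ne', ENNReal.ofReal_mul hW0.le]
    refine mul_le_mul_right (le_trans (mul_le_mul_right (lintegral_mono_set ?_) _) (hX0 N hN)) _
    exact fun t (ht : X ≤ |t|) => hX.trans ht
  obtain ⟨T1, t0, t1, hTT⟩ := ((tails 0).and (((eventually_all_finset Z).2
    fun γ _ => tails (mult γ)).and (eventually_ge_atTop T))).exists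
  obtain ⟨Z1, hZ1⟩ := exists_Z T1
  have hZZ : Z ⊆ Z1 := fun γ hγ => (hZ1 γ).2 ⟨((hZ γ).1 hγ).1.trans hTT, ((hZ γ).1 hγ).2⟩
  obtain ⟨δ, hδ, hsep⟩ := exists_sep Z1
  have hGev : ∀ m, ∀ᶠ G : ℝ in atTop, ∑ γ ∈ Z1, ENNReal.ofReal (1 / (2 * π * (1 / 4 + γ ^ 2))) *
      cp (K m) (mult γ) ≤ ENNReal.ofReal G := fun m => by
    have hne : ∑ γ ∈ Z1, ENNReal.ofReal (1 / (2 * π * (1 / 4 + γ ^ 2))) * cp (K m) (mult γ) ≠ ⊤ :=
      ENNReal.sum_ne_top.2 fun γ _ =>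
        ENNReal.mul_ne_top ENNReal.ofReal_ne_top (hCp _ _ (hK m) _).ne
    filter_upwards [eventually_ge_atTop (ENNReal.toReal _)] with G hG
    exact (ENNReal.ofReal_toReal hne).symm.trans_le (ENNReal.ofReal_le_ofReal hG)
  obtain ⟨G, g0, g1, hG0⟩ := ((hGev 0).and (((eventually_all_finset Z).2
    fun γ _ => hGev (mult γ)).and (eventually_ge_atTop 0))).exists
  obtain ⟨η, hη, hη1, hη2, hη3⟩ := exists_eta (M := Z.card + 1) (G := G) hθ he0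
  choose B Ψ hB hΨ h1 hle hsm using fun γ => hP γ T1 δ η hδ hη
  have P : Part Z Ψ T1 δ η := ⟨hη, hη1, fun γ hγ => ((hZ1 γ).1 (hZZ hγ)).1,
    fun γ hγ γ' hγ' => hsep γ (hZZ hγ) γ' (hZZ hγ'), hδ, h1, hle, hsm⟩
  have hl0 : ∀ t, 0 ≤ lam Z Ψ t := fun t => by unfold lam; positivity
  have cS : Continuous fun t => ‖1 - ∑ γ ∈ Z, Ψ γ t‖ :=
    (continuous_const.sub (continuous_finsetSum _ fun γ _ => (hΨ γ).continuous)).norm
  have cl' : Continuous (lam Z Ψ) :=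
    cS.add (continuous_finsetSum _ fun γ _ => (hΨ γ).continuous.norm)
  have hx : 0 ≤ 5 * ((Z.card + 1) * η) := by positivity
  have hB1 : ∀ γ ∈ Z, IsDP (Z.sup B + 1) (Ψ γ) := fun γ hγ =>
    (hΨ γ).mono ((Finset.le_sup hγ).trans (Nat.le_succ _))
  refine ⟨Z, Z.sup B + 1, fun γ hγ => ((hZ γ).1 hγ).2, by omega, ?_⟩
  have L0 := hL h _ _ (hK 0) T Z (fun γ a b => (hZ γ).2 ⟨a, b⟩) _ (cl'.mul cS)
    (fun t => mul_nonneg (hl0 t) (norm_nonneg _)) ε hε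
  have L1 := (eventually_all_finset Z).2 fun γ _ => hL h _ _ (hK (mult γ)) T1 Z1
    (fun γ a b => (hZ1 γ).2 ⟨a, b⟩) _ (cl'.mul (hΨ γ).continuous.norm)
    (fun t => mul_nonneg (hl0 t) (norm_nonneg _)) e he0
  filter_upwards [L0, L1, eventually_ge_atTop 3] with N l0 l1 hN
  refine ⟨_, (((IsDP.one (by omega)).sub (IsDP.sum Z hB1)).mul (isDP_AN (w 0) N)).add
    (IsDP.sum Z fun γ hγ => (hB1 γ hγ).mul (isDP_AN (w (mult γ)) N)), ?_⟩
  have me : ∀ m, Measurable (err (AN (w m) N)) := fun m => measurable_err (isDP_AN _ N).continuous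
  have b0 : ENNReal.ofReal (Real.log N) * ∫⁻ t, ENNReal.ofReal
      (lam Z Ψ t * ‖1 - ∑ γ ∈ Z, Ψ γ t‖) * err (AN (w 0) N) t ≤ ENNReal.ofReal (18 * ε) := by
    refine (mul_le_mul_right (split3 (me 0) (a := 15) (W := W) T T1 (fun t => ?_)
      fun t ht => ?_) _).trans ?_
    · rw [hW]
      exact mul_le_mul (P.lam_all t) (by linarith [norm_one_sub Z Ψ t, P.all t]) (norm_nonneg _)
        (by positivity)
    · calc _ ≤ (5 : ℝ) * 3 := mul_le_mul (P.lam_five ht)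
            (by linarith [norm_one_sub Z Ψ t, P.two ht]) (norm_nonneg _) (by norm_num)
        _ = 15 := by norm_num
    · have s0 := sum_le (H := fun t => lam Z Ψ t * ‖1 - ∑ γ ∈ Z, Ψ γ t‖) hx hZZ g0 fun γ hγ =>
        mul_le_mul (P.lam_five (P.mem γ hγ)) (P.at hγ).1 (norm_nonneg _) (by norm_num)
      have s1 : ENNReal.ofReal (Real.log N) * (ENNReal.ofReal 15 *
          ∫⁻ t in {t : ℝ | T ≤ |t|}, err (AN (w 0) N) t) ≤ ENNReal.ofReal (15 * ε) := by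
        rw [mul_left_comm, ENNReal.ofReal_mul (by norm_num)]
        exact mul_le_mul_right (hT0 N hN) _
      rw [mul_add, mul_add]
      refine (add_le_add (l0.trans (add_le_add_left s0 _)) (add_le_add s1 (t0 N hN))).trans ?_
      rw [← ENNReal.ofReal_add (by positivity) hε.le, ← ENNReal.ofReal_add (by positivity) he0.le,
        ← ENNReal.ofReal_add (by positivity) (by positivity)]
      exact ENNReal.ofReal_le_ofReal (by nlinarith)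
  have b1 : ∀ γ ∈ Z, ENNReal.ofReal (Real.log N) * ∫⁻ t, ENNReal.ofReal
      (lam Z Ψ t * ‖Ψ γ t‖) * err (AN (w (mult γ)) N) t ≤
        ENNReal.ofReal (θ ^ 2 * ((mult γ : ℝ) ^ 2 / (1 / 4 + γ ^ 2)) + 3 * e) := by
    intro γ hγ
    refine (mul_le_mul_right (split2 (me _) (W := W) T1 fun t => ?_) _).trans ?_
    · rw [hW]
      exact mul_le_mul (P.lam_all t) (by linarith [P.le γ t]) (norm_nonneg _) (by positivity)
    · have s0 := sum_le (H := fun t => lam Z Ψ t * ‖Ψ γ t‖) hx (Z1.erase_subset γ) (g1 γ hγ)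
        fun γ' hγ' => by
          have a1 := ((hZ1 γ').1 (Finset.mem_of_mem_erase hγ')).1
          have a2 := hsep γ' (Finset.mem_of_mem_erase hγ') γ (hZZ hγ) (Finset.ne_of_mem_erase hγ')
          exact mul_le_mul (P.lam_five a1) ((hsm γ γ' a1 (by linarith)).trans (by nlinarith))
            (norm_nonneg _) (by norm_num)
      have hm : max (mult γ) 1 = mult γ := max_eq_left (Nat.one_le_iff_ne_zero.2 fun h0 =>
        (mult_eq_zero_iff γ).1 h0 ((hZ γ).1 hγ).2)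
      have s1 : ENNReal.ofReal (lam Z Ψ γ * ‖Ψ γ γ‖ / (2 * π * (1 / 4 + γ ^ 2))) *
          cp (K (mult γ)) (mult γ) ≤
          ENNReal.ofReal (θ ^ 2 * ((mult γ : ℝ) ^ 2 / (1 / 4 + γ ^ 2))) := by
        have c1 := hc (mult γ)
        rw [hm] at c1
        have c2 : lam Z Ψ γ * ‖Ψ γ γ‖ ≤ θ := by
          rw [h1, norm_one, mul_one]; exact (P.at hγ).2.trans hη2
        have c3 : 0 < θ := by linarith
        calc _ ≤ ENNReal.ofReal (θ / (2 * π * (1 / 4 + γ ^ 2))) *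
              ENNReal.ofReal (2 * π * (mult γ : ℝ) ^ 2 * θ) := by gcongr
          _ = _ := by
            rw [← ENNReal.ofReal_mul (by positivity)]; congr 1; field_simp
      have l2 := l1 γ hγ
      rw [← Finset.add_sum_erase _ _ (hZZ hγ)] at l2
      rw [mul_add]
      refine (add_le_add (l2.trans (add_le_add_left (add_le_add s1 s0) _)) (t1 γ hγ N hN)).trans ?_
      rw [← ENNReal.ofReal_add (by positivity) (by positivity),
        ← ENNReal.ofReal_add (by positivity) he0.le, ← ENNReal.ofReal_add (by positivity) he0.le]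
      exact ENNReal.ofReal_le_ofReal (by linarith)
  refine (mul_le_mul_right (lintegral_mono (err_glue Z Ψ _ fun γ => AN (w (mult γ)) N)) _).trans ?_
  have m0 : Measurable fun t => ENNReal.ofReal (lam Z Ψ t * ‖1 - ∑ γ ∈ Z, Ψ γ t‖) *
      err (AN (w 0) N) t := (cl'.mul cS).measurable.ennreal_ofReal.mul (me 0)
  have m1 : ∀ γ ∈ Z, Measurable fun t => ENNReal.ofReal (lam Z Ψ t * ‖Ψ γ t‖) *
      err (AN (w (mult γ)) N) t := fun γ _ =>
    (cl'.mul (hΨ γ).continuous.norm).measurable.ennreal_ofReal.mul (me _)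
  rw [lintegral_add_left m0, lintegral_finsetSum _ m1, mul_add, Finset.mul_sum]
  refine (add_le_add b0 (Finset.sum_le_sum b1)).trans ?_
  rw [← ENNReal.ofReal_sum_of_nonneg fun γ _ => by positivity,
    ← ENNReal.ofReal_add (by positivity) (by positivity), Finset.sum_add_distrib, ← Finset.mul_sum,
    Finset.sum_const, nsmul_eq_mul]
  exact ENNReal.ofReal_le_ofReal (by nlinarith)

end Pool.Agent.P.MP_323ce2_nt.NB
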