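import Mathlib
import Pool.Agent.P.MP_323ce2_nt.NB.UB

/-! The limit, from the upper and the lower bound. -/

open Complex Filter Topology Set MeasureTheory Metric
open scoped Real

namespace Pool.Agent.P.MP_323ce2_nt.NB

namespace Lim

/-- The weight of a zero. -/
noncomputable def wt (ρ : {ρ : ℂ // riemannZeta ρ = 0 ∧ 0 < ρ.re ∧ ρ.re < 1}) : ENNReal :=
  if (ρ : ℂ).re = 1 / 2 then
    ENNReal.ofReal ((analyticOrderNatAt riemannZeta ρ : ℝ) ^ 2 / ‖(ρ : ℂ)‖ ^ 2) else ⊤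

lemma eq_cl {ρ : ℂ} (h : ρ.re = 1 / 2) : cl ρ.im = ρ :=
  Complex.ext (by rw [cl_re, h]) (cl_im _)

lemma wt_eq {ρ : {ρ : ℂ // riemannZeta ρ = 0 ∧ 0 < ρ.re ∧ ρ.re < 1}} (h : (ρ : ℂ).re = 1 / 2) :
    wt ρ = ENNReal.ofReal ((mult (ρ : ℂ).im : ℝ) ^ 2 / (1 / 4 + (ρ : ℂ).im ^ 2)) := by
  rw [wt, if_pos h, mult, ← norm_cl_sq, eq_cl h]

lemma sum_wt (h : RHs) (S : Finset {ρ : ℂ // riemannZeta ρ = 0 ∧ 0 < ρ.re ∧ ρ.re < 1}) :
    ∑ ρ ∈ S, wt ρ = ENNReal.ofReal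
      (∑ γ ∈ S.image fun ρ => ρ.1.im, (mult γ : ℝ) ^ 2 / (1 / 4 + γ ^ 2)) := by
  have hr : ∀ ρ : {ρ : ℂ // riemannZeta ρ = 0 ∧ 0 < ρ.re ∧ ρ.re < 1}, (ρ : ℂ).re = 1 / 2 :=
    fun ρ => h ρ ρ.2.1 ρ.2.2.1 ρ.2.2.2
  rw [Finset.sum_image fun ρ _ σ _ e => Subtype.ext (Complex.ext (by rw [hr, hr]) e),
    ENNReal.ofReal_sum_of_nonneg fun _ _ => by positivity]
  exact Finset.sum_congr rfl fun ρ _ => wt_eq (hr ρ)

lemma sum_le_tsum (h : RHs) {Z : Finset ℝ} (hZ : ∀ γ ∈ Z, riemannZeta (cl γ) = 0) :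
    ENNReal.ofReal (∑ γ ∈ Z, (mult γ : ℝ) ^ 2 / (1 / 4 + γ ^ 2)) ≤ ∑' ρ, wt ρ := by
  classical
  have e : ((Z.attach.image fun γ => (⟨cl γ.1, hZ γ.1 γ.2, by rw [cl_re]; norm_num,
      by rw [cl_re]; norm_num⟩ : {ρ : ℂ // riemannZeta ρ = 0 ∧ 0 < ρ.re ∧ ρ.re < 1})).image
        fun ρ => ρ.1.im) = Z := by
    rw [Finset.image_image]
    ext γ; simp [cl_im]
  rw [← e, ← sum_wt h]
  exact ENNReal.sum_le_tsum _

lemma log_le {B : ℕ} (hB : 1 ≤ B) {θ : ℝ} (hθ : 1 < θ) :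
    ∀ᶠ N : ℕ in atTop, Real.log N ≤ θ * Real.log (N / B : ℕ) := by
  have h1 : Tendsto (fun N : ℕ => N / B) atTop atTop := Nat.tendsto_div_const_atTop (by omega)
  have h2 : Tendsto (fun N : ℕ => (θ - 1) * Real.log (N / B : ℕ)) atTop atTop :=
    (Real.tendsto_log_atTop.comp (tendsto_natCast_atTop_atTop.comp h1)).const_mul_atTop
      (by linarith)
  filter_upwards [h1.eventually_ge_atTop 1, h2.eventually_ge_atTop (Real.log (2 * B)),
    eventually_ge_atTop 1] with N a b c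
  have h3 : N ≤ 2 * B * (N / B) := by
    have := Nat.lt_mul_div_succ N (show 0 < B by omega)
    nlinarith
  have h4 : (0 : ℝ) < (N / B : ℕ) := by exact_mod_cast a
  have h5 : Real.log N ≤ Real.log (2 * B) + Real.log (N / B : ℕ) := by
    rw [← Real.log_mul (by positivity) h4.ne']
    exact Real.log_le_log (by exact_mod_cast c) (by exact_mod_cast h3)
  linarith

end Lim

open Lim in
theorem limit (hKer : StKer) (hCp : StCp) (hT : StTail) (hL : StLoc) (hP : StPart)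
    (hO : StOff) (hLB : StLB) :
    Tendsto (fun N : ℕ => ENNReal.ofReal (Real.log N) * ⨅ a : ℕ → ℂ, ∫⁻ t, err (DP N a) t)
      atTop (𝓝 (∑' ρ, wt ρ)) := by
  classical
  refine tendsto_order.2 ⟨fun b hb => ?_, fun b hb => ?_⟩
  · by_cases h : RHs
    · rw [ENNReal.tsum_eq_iSup_sum, lt_iSup_iff] at hb
      obtain ⟨S, hS⟩ := hb
      rw [sum_wt h] at hS
      set Z := S.image fun ρ => ρ.1.im with hZ
      set s := ∑ γ ∈ Z, (mult γ : ℝ) ^ 2 / (1 / 4 + γ ^ 2) with hs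
      have h1 : Tendsto (fun ε : ℝ => ENNReal.ofReal ((1 - ε) * s)) (𝓝[>] 0)
          (𝓝 (ENNReal.ofReal s)) := by
        refine ENNReal.tendsto_ofReal (tendsto_nhdsWithin_of_tendsto_nhds ?_)
        exact Continuous.tendsto' (by fun_prop) _ _ (by simp)
      obtain ⟨ε, h2, h3⟩ := ((h1.eventually (lt_mem_nhds hS)).and self_mem_nhdsWithin).exists
      have h4 : ∀ γ ∈ Z, riemannZeta (cl γ) = 0 := fun γ hγ => by
        obtain ⟨ρ, -, rfl⟩ := Finset.mem_image.1 hγ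
        rw [eq_cl (h ρ ρ.2.1 ρ.2.2.1 ρ.2.2.2)]; exact ρ.2.1
      filter_upwards [hLB Z h4 ε h3, eventually_ge_atTop 2] with N hN hN2
      refine h2.trans_le ?_
      rw [ENNReal.mul_iInf_of_ne (ENNReal.ofReal_ne_zero_iff.2 (Real.log_pos (by exact_mod_cast hN2)))
        ENNReal.ofReal_ne_top]
      exact le_iInf hN
    · unfold RHs at h
      push Not at h
      obtain ⟨ρ, h1, h2, h3, h4⟩ := h
      obtain ⟨c, hc, h5⟩ := hO ρ h1 h2 h3 h4
      have h6 : Tendsto (fun N : ℕ => ENNReal.ofReal (Real.log N * c)) atTop (𝓝 ⊤) :=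
        ENNReal.tendsto_ofReal_atTop.comp ((Real.tendsto_log_atTop.comp
          tendsto_natCast_atTop_atTop).atTop_mul_const hc)
      filter_upwards [h6.eventually (lt_mem_nhds (hb.trans_le le_top))] with N hN
      refine hN.trans_le ?_
      rw [ENNReal.ofReal_mul (Real.log_natCast_nonneg N)]
      exact mul_le_mul_right (le_iInf (h5 N)) _
  · have hne : ∑' ρ, wt ρ ≠ ⊤ := hb.ne_top
    have h : RHs := fun ρ h1 h2 h3 => by
      by_contra h4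
      exact ENNReal.ne_top_of_tsum_ne_top hne ⟨ρ, h1, h2, h3⟩ (by rw [wt, if_neg h4])
    set s := (∑' ρ, wt ρ).toReal with hs
    have h1 : Tendsto (fun x : ℝ => ENNReal.ofReal ((1 + x) * ((1 + x) ^ 2 * s + 21 * x)))
        (𝓝[>] 0) (𝓝 (∑' ρ, wt ρ)) := by
      rw [← ENNReal.ofReal_toReal hne]
      refine ENNReal.tendsto_ofReal (tendsto_nhdsWithin_of_tendsto_nhds ?_)
      exact Continuous.tendsto' (by fun_prop) _ _ (by simp [hs])
    obtain ⟨x, h2, h3⟩ := ((h1.eventually (gt_mem_nhds hb)).and self_mem_nhdsWithin).exists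
    have hx : 0 < x := h3
    obtain ⟨Z, B, hZ, hB, hev⟩ := core hKer hCp hT hL hP h (θ := 1 + x) (by linarith) hx
    have h4 : ∑ γ ∈ Z, (mult γ : ℝ) ^ 2 / (1 / 4 + γ ^ 2) ≤ s :=
      (ENNReal.ofReal_le_iff_le_toReal hne).1 (sum_le_tsum h hZ)
    filter_upwards [(Nat.tendsto_div_const_atTop (show B ≠ 0 by omega)).eventually hev,
      log_le hB (θ := 1 + x) (by linarith)] with N hN h5
    obtain ⟨f, hf, h6⟩ := hN
    obtain ⟨a, rfl⟩ := hf.mono (Nat.mul_div_le N B)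
    refine lt_of_le_of_lt ?_ h2
    calc _ ≤ ENNReal.ofReal ((1 + x) * Real.log (N / B : ℕ)) * ∫⁻ t, err (DP N a) t :=
          mul_le_mul' (ENNReal.ofReal_le_ofReal h5) (iInf_le _ a)
      _ ≤ ENNReal.ofReal (1 + x) * ENNReal.ofReal ((1 + x) ^ 2 * s + 21 * x) := by
          rw [ENNReal.ofReal_mul (by linarith), mul_assoc]
          exact mul_le_mul_right (h6.trans (ENNReal.ofReal_le_ofReal (by gcongr))) _
      _ = _ := (ENNReal.ofReal_mul (by linarith)).symm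

end Pool.Agent.P.MP_323ce2_nt.NB
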