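import Mathlib
import Pool.Agent.P.MP_323ce2_nt.NB.Lim

/-! The limit is finite exactly when all zeros in the strip are on the critical line. -/

open Complex Filter Topology Set MeasureTheory Metric
open scoped Real

namespace Pool.Agent.P.MP_323ce2_nt.NB

open Lim UB in
theorem finite_iff (hKer : StKer) (hCp : StCp) (hT : StTail) (hL : StLoc) (hP : StPart)
    (hO : StOff) (hLB : StLB) : ∑' ρ, wt ρ ≠ ⊤ ↔ RHs := by
  refine ⟨fun hne ρ h1 h2 h3 => ?_, fun h => ?_⟩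
  · by_contra h4
    exact ENNReal.ne_top_of_tsum_ne_top hne ⟨ρ, h1, h2, h3⟩ (by rw [wt, if_neg h4])
  obtain ⟨K, w, hK, -⟩ := hKer 1 le_rfl 2 one_lt_two
  obtain ⟨T, hT0⟩ := hT h K w hK 1 one_pos
  obtain ⟨Z, hZ⟩ := exists_Z T
  have L0 := hL h K w hK T Z (fun γ a b => (hZ γ).2 ⟨a, b⟩) (fun _ => 1) continuous_const
    (fun _ => zero_le_one) 1 one_pos
  refine ne_top_of_le_ne_top (b := ∑ γ ∈ Z, ENNReal.ofReal (1 / (2 * π * (1 / 4 + γ ^ 2))) *
    cp K (mult γ) + ENNReal.ofReal 1 + ENNReal.ofReal 1) ?_ ?_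
  · exact ENNReal.add_ne_top.2 ⟨ENNReal.add_ne_top.2 ⟨ENNReal.sum_ne_top.2 fun γ _ =>
      ENNReal.mul_ne_top ENNReal.ofReal_ne_top (hCp _ _ hK _).ne, ENNReal.ofReal_ne_top⟩,
      ENNReal.ofReal_ne_top⟩
  refine le_of_tendsto (limit hKer hCp hT hL hP hO hLB) ?_
  filter_upwards [L0, eventually_ge_atTop 3] with N l0 hN
  have s := split2 (measurable_err (isDP_AN w N).continuous) (H := fun _ => 1) (W := 1) T
    fun _ => le_rfl
  simp only [ENNReal.ofReal_one, one_mul] at s l0 ⊢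
  obtain ⟨a, ha⟩ := isDP_AN w N
  have s' : ⨅ a, ∫⁻ t, err (DP N a) t ≤ ∫⁻ t, err (AN w N) t := by
    rw [ha]; exact iInf_le (fun a => ∫⁻ t, err (DP N a) t) a
  refine (mul_le_mul_right (s'.trans s) _).trans ?_
  rw [mul_add]
  exact add_le_add l0 (by simpa using hT0 N hN)

end Pool.Agent.P.MP_323ce2_nt.NB
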