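import Mathlib
import Pool.Agent.P.MP_323ce2_nt.NB.Defs

/-! Exponential integrals of polynomials, and Dirichlet polynomials peaking at one height. -/

open Complex Filter Topology Set MeasureTheory Metric
open scoped Real

namespace Pool.Agent.P.MP_323ce2_nt.NB

namespace Exp

/-- One integration by parts. -/
lemma parts (ψ : Polynomial ℝ) {z : ℂ} (hz : z ≠ 0) :
    ∫ x in (0 : ℝ)..1, (ψ.eval x : ℝ) * exp (z * x) =
      (-((ψ.eval 0 : ℝ) : ℂ) + (ψ.eval 1 : ℝ) * exp z) / z -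
        (∫ x in (0 : ℝ)..1, ((Polynomial.derivative ψ).eval x : ℝ) * exp (z * x)) / z := by
  have hc : ∀ p : Polynomial ℝ, Continuous fun x : ℝ => ((p.eval x : ℝ) : ℂ) := fun p =>
    continuous_ofReal.comp p.continuous
  have h1 : ∀ x ∈ uIcc (0 : ℝ) 1, HasDerivAt (fun x : ℝ => ((ψ.eval x : ℝ) : ℂ))
      (((Polynomial.derivative ψ).eval x : ℝ) : ℂ) x := fun x _ => (ψ.hasDerivAt x).ofReal_comp
  have h2 : ∀ x ∈ uIcc (0 : ℝ) 1, HasDerivAt (fun x : ℝ => exp (z * x) / z) (exp (z * x)) x := by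
    intro x _
    have h3 : HasDerivAt (fun x : ℝ => z * (x : ℂ)) z x := by
      simpa using (ofRealCLM.hasDerivAt (x := x)).const_mul z
    have h4 := (h3.cexp).div_const z
    rwa [mul_div_cancel_right₀ _ hz] at h4
  have h5 := intervalIntegral.integral_mul_deriv_eq_deriv_mul h1 h2
    ((hc _).intervalIntegrable _ _)
    ((by fun_prop : Continuous fun x : ℝ => exp (z * x)).intervalIntegrable _ _)
  rw [h5, ← intervalIntegral.integral_div]
  congr 1
  · simp only [ofReal_one, ofReal_zero, mul_one, mul_zero, exp_zero]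
    ring
  · congr 1
    ext x
    ring

/-- Repeated integration by parts. -/
lemma iter (ψ : Polynomial ℝ) {z : ℂ} (hz : z ≠ 0) (m : ℕ) :
    ∫ x in (0 : ℝ)..1, (ψ.eval x : ℝ) * exp (z * x) =
      ∑ i ∈ Finset.range m, (-1) ^ i * (-(((Polynomial.derivative^[i] ψ).eval 0 : ℝ) : ℂ) +
          ((Polynomial.derivative^[i] ψ).eval 1 : ℝ) * exp z) / z ^ (i + 1) +
        (-1) ^ m * (∫ x in (0 : ℝ)..1, ((Polynomial.derivative^[m] ψ).eval x : ℝ) *
          exp (z * x)) / z ^ m := by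
  induction m with
  | zero => simp
  | succ m ih =>
    rw [ih, Finset.sum_range_succ, parts (Polynomial.derivative^[m] ψ) hz,
      Function.iterate_succ_apply', add_assoc]
    congr 1
    field_simp
    ring

lemma norm_sq_add (a b : ℝ) :
    ‖(exp (a * I) + exp (b * I)) / 2‖ ^ 2 = (1 + Real.cos (a - b)) / 2 := by
  rw [← normSq_eq_norm_sq, normSq_apply, Real.cos_sub]
  simp only [div_ofNat_re, div_ofNat_im, add_re, add_im, exp_ofReal_mul_I_re, exp_ofReal_mul_I_im]
  nlinarith [Real.sin_sq_add_cos_sq a, Real.sin_sq_add_cos_sq b]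

lemma cpow_mul_cpow {n : ℕ} (hn : 1 ≤ n) (γ t : ℝ) :
    (n : ℂ) ^ cl γ * (n : ℂ) ^ (-cl t) = exp (((γ - t) * Real.log n : ℝ) * I) := by
  have h0 : (n : ℂ) ≠ 0 := Nat.cast_ne_zero.2 (by omega)
  rw [← cpow_add _ _ h0, ← sub_eq_add_neg, cl_sub, cpow_def_of_ne_zero h0, ← natCast_log]
  congr 1
  push_cast
  ring

end Exp

theorem pExp : StExp := by
  intro m ψ hψ
  refine ⟨fun j => (-1) ^ (j - 1) * -(((Polynomial.derivative^[j - 1] ψ).eval 0 : ℝ) : ℂ),
    fun j => (-1) ^ (j - 1) * (((Polynomial.derivative^[j - 1] ψ).eval 1 : ℝ) : ℂ), by simp,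
    fun z hz => ?_⟩
  rw [Exp.iter ψ hz m, Polynomial.iterate_derivative_eq_zero hψ]
  have e : Finset.Icc 1 m = Finset.Ico 1 (m + 1) := by
    ext j
    simp only [Finset.mem_Icc, Finset.mem_Ico]
    omega
  rw [e, Finset.sum_Ico_eq_sum_range]
  simp only [Polynomial.eval_zero, ofReal_zero, zero_mul, intervalIntegral.integral_zero,
    mul_zero, zero_div, add_zero, Nat.add_sub_cancel, Nat.add_sub_cancel_left]
  refine Finset.sum_congr rfl fun i _ => ?_
  rw [add_comm 1 i]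
  ring

theorem pPart : StPart := by
  intro γ T δ ε hδ hε
  obtain ⟨B, hB⟩ := exists_nat_ge (|T| + |γ| + 1)
  have hT := abs_nonneg T
  have hγ := abs_nonneg γ
  have hB1 : (1 : ℝ) ≤ B := by linarith
  have hB1' : 1 ≤ B := by exact_mod_cast hB1
  set lam : ℝ := Real.log ((B + 1 : ℕ) : ℝ) - Real.log B with hlam
  have hl0 : 0 < lam := by
    rw [hlam, sub_pos]
    exact Real.log_lt_log (by linarith) (by push_cast; linarith)
  have hl1 : lam ≤ 1 / B := by
    rw [hlam, ← Real.log_div (by positivity) (by positivity)]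
    refine (Real.log_le_sub_one_of_pos (by positivity)).trans (le_of_eq ?_)
    push_cast
    field_simp
    ring
  set θ : ℝ := min (δ * lam) 1 with hθ
  have hθ0 : 0 < θ := lt_min (by positivity) one_pos
  have hθ1 : θ ≤ 1 := min_le_right _ _
  have hpi : (1 : ℝ) ≤ π := by linarith [Real.pi_gt_three]
  have hc : Real.cos θ < 1 := by
    rw [← Real.cos_zero]
    exact Real.cos_lt_cos_of_nonneg_of_le_pi le_rfl (hθ1.trans hpi) hθ0
  have hq : (1 + Real.cos θ) / 2 < 1 := by linarith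
  obtain ⟨k, hk⟩ := exists_pow_lt_of_lt_one hε hq
  set f : ℝ → ℂ := fun t => (1 / 2 : ℂ) * ((B : ℂ) ^ cl γ * (B : ℂ) ^ (-cl t) +
    ((B + 1 : ℕ) : ℂ) ^ cl γ * ((B + 1 : ℕ) : ℂ) ^ (-cl t)) with hf
  have hfD : IsDP (B + 1) f :=
    (((IsDP.single hB1' (Nat.le_succ B)).const_mul _).add
      ((IsDP.single (Nat.succ_le_succ (Nat.zero_le B)) le_rfl).const_mul _)).const_mul _
  have hfe : ∀ t, f t = (exp (((γ - t) * Real.log ((B + 1 : ℕ) : ℝ) : ℝ) * I) +
      exp (((γ - t) * Real.log B : ℝ) * I)) / 2 := by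
    intro t
    simp only [hf]
    rw [Exp.cpow_mul_cpow hB1', Exp.cpow_mul_cpow (Nat.succ_le_succ (Nat.zero_le B))]
    ring
  have hfn : ∀ t, ‖f t‖ ^ 2 = (1 + Real.cos (|t - γ| * lam)) / 2 := by
    intro t
    rw [hfe, Exp.norm_sq_add, ← mul_sub, ← hlam, ← Real.cos_abs ((γ - t) * lam), abs_mul,
      abs_of_pos hl0, abs_sub_comm]
  refine ⟨(B + 1) ^ (2 * k), fun t => f t ^ (2 * k), Nat.one_le_pow _ _ (Nat.succ_pos B),
    hfD.pow _, ?_, fun t => ?_, fun t ht hd => ?_⟩
  · simp only [hfe]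
    simp
  · rw [norm_pow, pow_mul, hfn]
    refine pow_le_one₀ ?_ ?_
    · linarith [Real.neg_one_le_cos (|t - γ| * lam)]
    · linarith [Real.cos_le_one (|t - γ| * lam)]
  · rw [norm_pow, pow_mul, hfn]
    refine le_trans (pow_le_pow_left₀ ?_ ?_ k) hk.le
    · linarith [Real.neg_one_le_cos (|t - γ| * lam)]
    · have h1 : |t - γ| ≤ B := by
        have := abs_sub t γ
        have := le_abs_self T
        linarith
      have h2 : |t - γ| * lam ≤ 1 := by
        calc |t - γ| * lam ≤ B * (1 / B) := by gcongr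
          _ = 1 := by field_simp
      have h3 : θ ≤ |t - γ| * lam := (min_le_left _ _).trans (by gcongr)
      have := Real.cos_le_cos_of_nonneg_of_le_pi hθ0.le (h2.trans hpi) h3
      linarith

end Pool.Agent.P.MP_323ce2_nt.NB
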