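import Mathlib
import Pool.Agent.P.MP_323ce2_nt.NB.Defs

/-! Factorisation of a bounded holomorphic function on a disc, with multiplicities. -/

open Complex Filter Topology Set MeasureTheory Metric
open scoped Real

namespace Pool.Agent.P.MP_323ce2_nt.NB

namespace FacP

/-- `n` zeros in the small disc are split off. -/
def Sp (f : ℂ → ℂ) (c : ℂ) (r : ℝ) (n : ℕ) (ρ : Fin n → ℂ) (h : ℂ → ℂ) : Prop :=
  (∀ i, ρ i ∈ closedBall c (4 * r)) ∧ DifferentiableOn ℂ h (ball c (13 * r)) ∧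
    ∀ s, f s = h s * ∏ i, (s - ρ i)

variable {f : ℂ → ℂ} {c : ℂ} {r M : ℝ} {n : ℕ} {ρ : Fin n → ℂ} {h : ℂ → ℂ}

lemma low (hs : Sp f c r n ρ h) (hlo : Real.exp (-M) ≤ ‖f c‖) :
    Real.exp (-M) ≤ ‖h c‖ * (4 * r) ^ n := by
  refine hlo.trans ?_
  rw [hs.2.2, norm_mul, norm_prod]
  refine mul_le_mul_of_nonneg_left ?_ (norm_nonneg _)
  calc ∏ i, ‖c - ρ i‖ ≤ ∏ _i : Fin n, 4 * r :=
        Finset.prod_le_prod (fun _ _ => norm_nonneg _) fun i _ => by
          have := hs.1 i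
          rwa [mem_closedBall, dist_comm, dist_eq_norm] at this
    _ = _ := by simp

lemma upp (hr : 0 < r) (hs : Sp f c r n ρ h)
    (hup : ∀ s ∈ closedBall c (12 * r), ‖f s‖ ≤ Real.exp M) {w : ℂ}
    (hw : w ∈ closedBall c (12 * r)) : ‖h w‖ ≤ Real.exp M / (8 * r) ^ n := by
  refine norm_le_of_forall_mem_frontier_norm_le (U := ball c (12 * r)) isBounded_ball
    ((hs.2.1.mono (closedBall_subset_ball (by linarith))).diffContOnCl_ball le_rfl) ?_
    (by rwa [closure_ball _ (by positivity)])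
  intro z hz
  rw [frontier_ball _ (by positivity)] at hz
  have h1 := hup z (sphere_subset_closedBall hz)
  rw [hs.2.2, norm_mul, norm_prod] at h1
  have h2 : (8 * r) ^ n ≤ ∏ i, ‖z - ρ i‖ := by
    calc (8 * r) ^ n = ∏ _i : Fin n, 8 * r := by simp
      _ ≤ _ := Finset.prod_le_prod (fun _ _ => by positivity) fun i _ => by
          have h3 := hs.1 i
          rw [mem_closedBall, dist_eq_norm] at h3
          rw [mem_sphere, dist_eq_norm] at hz
          have := norm_sub_norm_le (z - c) (ρ i - c)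
          rw [show z - c - (ρ i - c) = z - ρ i by ring] at this
          linarith
  rw [le_div_iff₀ (by positivity)]
  exact le_trans (by gcongr) h1

lemma ratio (hr : 0 < r) (hs : Sp f c r n ρ h) (hlo : Real.exp (-M) ≤ ‖f c‖)
    (hup : ∀ s ∈ closedBall c (12 * r), ‖f s‖ ≤ Real.exp M) {w : ℂ}
    (hw : w ∈ closedBall c (12 * r)) : 2 ^ n * ‖h w‖ ≤ Real.exp (2 * M) * ‖h c‖ := by
  have h1 := upp hr hs hup hw
  have h2 := low hs hlo
  have h3 : (8 * r) ^ n = 2 ^ n * (4 * r) ^ n := by rw [← mul_pow]; congr 1; ring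
  have h4 : (0 : ℝ) < (4 * r) ^ n := by positivity
  rw [le_div_iff₀ (by positivity), h3] at h1
  have h5 : Real.exp M = Real.exp (2 * M) * Real.exp (-M) := by rw [← Real.exp_add]; ring_nf
  refine le_of_mul_le_mul_right ?_ h4
  calc 2 ^ n * ‖h w‖ * (4 * r) ^ n = ‖h w‖ * (2 ^ n * (4 * r) ^ n) := by ring
    _ ≤ Real.exp (2 * M) * Real.exp (-M) := h1.trans_eq h5
    _ ≤ Real.exp (2 * M) * (‖h c‖ * (4 * r) ^ n) := by gcongr
    _ = _ := by ring

lemma pos (hs : Sp f c r n ρ h) (hlo : Real.exp (-M) ≤ ‖f c‖) : 0 < ‖h c‖ := by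
  refine norm_pos_iff.2 fun h0 => ?_
  have := low hs hlo
  rw [h0, norm_zero, zero_mul] at this
  exact absurd this (not_le.2 (Real.exp_pos _))

lemma card (hr : 0 < r) (hM : 0 < M) (hs : Sp f c r n ρ h) (hlo : Real.exp (-M) ≤ ‖f c‖)
    (hup : ∀ s ∈ closedBall c (12 * r), ‖f s‖ ≤ Real.exp M) : (n : ℝ) ≤ 3 * M := by
  have h1 := le_of_mul_le_mul_right (ratio hr hs hlo hup (mem_closedBall_self (by positivity)))
    (pos hs hlo)
  have h2 := Real.log_le_log (by positivity) h1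
  rw [Real.log_pow, Real.log_exp] at h2
  have h3 := Real.log_two_gt_d9
  have h4 : (0 : ℝ) ≤ n := n.cast_nonneg
  nlinarith

lemma step (hr : 0 < r) (hs : Sp f c r n ρ h) {w : ℂ} (hw : w ∈ closedBall c (4 * r))
    (h0 : h w = 0) : ∃ ρ' h', Sp f c r (n + 1) ρ' h' := by
  obtain ⟨g, hg, e⟩ := exists_factor (U := ball c (13 * r)) isOpen_ball {w} hs.2.1 (by
    intro z hz
    rw [Finset.mem_singleton.1 hz]
    exact ⟨closedBall_subset_ball (by linarith) hw, h0⟩)
  refine ⟨Fin.cons w ρ, g, fun i => ?_, hg, fun s => ?_⟩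
  · refine Fin.cases ?_ (fun j => ?_) i
    · simpa using hw
    · simpa using hs.1 j
  · rw [hs.2.2, e, Fin.prod_univ_succ]
    simp only [Finset.prod_singleton, Fin.cons_zero, Fin.cons_succ]
    ring

end FacP

theorem pFac : StFac := by
  classical
  intro f c r M hr hM hf hlo hup
  let P : ℕ → Prop := fun n => ∃ ρ h, FacP.Sp f c r n ρ h
  have h0 : P 0 := ⟨Fin.elim0, f, fun i => i.elim0, hf, fun s => by simp⟩
  obtain ⟨ρ, h, hs⟩ : P (Nat.findGreatest P ⌈3 * M⌉₊) := Nat.findGreatest_spec (Nat.zero_le _) h0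
  have hne : ∀ w ∈ ball c (4 * r), h w ≠ 0 := fun w hw hz => by
    obtain ⟨ρ', h', hs'⟩ := FacP.step hr hs (ball_subset_closedBall hw) hz
    have h1 : ((Nat.findGreatest P ⌈3 * M⌉₊ + 1 : ℕ) : ℝ) ≤ (⌈3 * M⌉₊ : ℕ) :=
      (FacP.card hr hM hs' hlo hup).trans (Nat.le_ceil _)
    have h2 := Nat.le_findGreatest (P := P) (Nat.cast_le.1 h1) ⟨ρ', h', hs'⟩
    omega
  obtain ⟨φ, hφ, hφ0, hφe⟩ := exists_log (c := c) (r := 4 * r) (by positivity)
    (hs.2.1.mono (ball_subset_ball (by linarith))) hne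
  refine ⟨_, ρ, h c, φ, FacP.card hr hM hs hlo hup, fun i => ⟨hs.1 i, ?_⟩, FacP.low hs hlo, hφ,
    fun s hs' => by rw [hs.2.2, hφe s hs'], fun s hs' => ?_⟩
  · rw [hs.2.2, Finset.prod_eq_zero (Finset.mem_univ i) (sub_self _), mul_zero]
  · have h1 := bc (M := 2 * M) (R := 4 * r) (r := 3 * r) (by positivity) (by positivity)
      (by linarith) hφ hφ0 (fun z hz => by
        have h2 := FacP.ratio hr hs hlo hup
          (closedBall_subset_closedBall (by linarith) (ball_subset_closedBall hz))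
        have h3 := FacP.pos hs hlo
        rw [hφe z hz, norm_mul, norm_exp] at h2
        have h4 : (1 : ℝ) ≤ 2 ^ Nat.findGreatest P ⌈3 * M⌉₊ := one_le_pow₀ one_le_two
        have h5 : 0 < ‖h c‖ * Real.exp (φ z).re := by positivity
        rw [← Real.exp_le_exp]
        refine le_of_mul_le_mul_right ?_ h3
        nlinarith) hs'
    refine h1.trans_eq ?_
    rw [show 4 * r - 3 * r = r by ring]
    field_simp
    ring

end Pool.Agent.P.MP_323ce2_nt.NB
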