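import Mathlib
import Pool.Agent.P.MP_323ce2_nt.NB.Defs

open Complex Filter Topology Set MeasureTheory Metric
open scoped Real FourierTransform

namespace Pool.Agent.P.MP_323ce2_nt.NB

namespace Inv

lemma norm_eq (m : ℕ) (z : ℂ) {x : ℝ} (hx : 0 ≤ x) :
    ‖(x : ℂ) ^ m * exp (-z * x)‖ = x ^ (m : ℝ) * Real.exp (-z.re * x) := by
  rw [norm_mul, norm_pow, norm_real, Real.norm_of_nonneg hx, norm_exp, Real.rpow_natCast]
  simp

lemma intg (m : ℕ) {z : ℂ} (hz : 0 < z.re) :
    IntegrableOn (fun x : ℝ => (x : ℂ) ^ m * exp (-z * x)) (Ioi 0) := by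
  have h := integrableOn_rpow_mul_exp_neg_mul_rpow (s := m) (p := 1) (b := z.re)
    (by linarith [(m.cast_nonneg : (0 : ℝ) ≤ m)]) one_pos hz
  refine Integrable.mono' h (Continuous.aestronglyMeasurable (by fun_prop)) ?_
  filter_upwards [ae_restrict_mem measurableSet_Ioi] with x hx
  rw [norm_eq m z (le_of_lt hx), Real.rpow_one]

lemma val (m : ℕ) {z : ℂ} (hz : 0 < z.re) :
    ∫ x in Ioi (0 : ℝ), (x : ℂ) ^ m * exp (-z * x) = m.factorial / z ^ (m + 1) := by
  have z0 : z ≠ 0 := fun h => by simp [h] at hz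
  induction m with
  | zero =>
    have := integral_exp_mul_complex_Ioi (a := -z) (by simpa using hz) 0
    simp only [pow_zero, one_mul, this]
    simp
  | succ m ih =>
    have hd : ∀ x ∈ Ici (0 : ℝ), HasDerivAt (fun x : ℝ => (x : ℂ) ^ (m + 1) * exp (-z * x))
        ((m + 1 : ℂ) * ((x : ℂ) ^ m * exp (-z * x)) - z * ((x : ℂ) ^ (m + 1) * exp (-z * x))) x := by
      intro x _
      have h1 : HasDerivAt (fun w : ℂ => w ^ (m + 1) * exp (-z * w))
          ((m + 1 : ℂ) * ((x : ℂ) ^ m * exp (-z * x)) - z * ((x : ℂ) ^ (m + 1) * exp (-z * x)))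
          (x : ℂ) := by
        have := (hasDerivAt_pow (m + 1) (x : ℂ)).mul ((hasDerivAt_id (x : ℂ)).const_mul (-z)).cexp
        refine this.congr_deriv ?_
        simp only [id, Nat.add_sub_cancel]; push_cast; ring
      exact h1.comp_ofReal
    have ht : Tendsto (fun x : ℝ => (x : ℂ) ^ (m + 1) * exp (-z * x)) atTop (𝓝 0) := by
      rw [tendsto_zero_iff_norm_tendsto_zero]
      refine (tendsto_rpow_mul_exp_neg_mul_atTop_nhds_zero ((m + 1 : ℕ) : ℝ) z.re hz).congr' ?_
      filter_upwards [eventually_ge_atTop 0] with x hx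
      rw [norm_eq _ z hx]
    have i1 := (intg m hz).const_mul (m + 1 : ℂ)
    have i2 := (intg (m + 1) hz).const_mul z
    have h := integral_Ioi_of_hasDerivAt_of_tendsto' hd (i1.sub i2) ht
    rw [integral_sub i1 i2, integral_const_mul, integral_const_mul, ih] at h
    simp only [ofReal_zero, ne_eq, Nat.add_eq_zero_iff, one_ne_zero, and_false, not_false_eq_true,
      zero_pow, zero_mul, sub_zero] at h
    rw [sub_eq_zero] at h
    apply mul_left_cancel₀ z0
    rw [← h, Nat.factorial_succ]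
    push_cast
    field_simp
    ring

end Inv

theorem pInv : StInv := by
  intro m hm c ξ hc
  set f : ℝ → ℂ := fun x => ((max x 0 : ℝ) : ℂ) ^ m * exp (-(c : ℂ) * x) with hf
  have ind : ∀ z : ℂ, (fun x : ℝ => ((max x 0 : ℝ) : ℂ) ^ m * exp (-z * x)) =
      (Ioi (0 : ℝ)).indicator fun x : ℝ => (x : ℂ) ^ m * exp (-z * x) := fun z => by
    funext x
    by_cases h : x ∈ Ioi (0 : ℝ)
    · rw [indicator_of_mem h, max_eq_left (le_of_lt h)]
    · rw [indicator_of_notMem h, max_eq_right (not_lt.1 h)]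
      simp [show m ≠ 0 by omega]
  have fc : Continuous f := by rw [hf]; fun_prop
  have fi : Integrable f := by
    rw [hf, ind, integrable_indicator_iff measurableSet_Ioi]
    exact Inv.intg m (by simpa using hc)
  set g : ℝ → ℂ := fun y => (m.factorial : ℂ) / (c + y * I) ^ (m + 1) with hg
  have ft : 𝓕 f = fun v : ℝ => g (2 * π * v) := by
    funext v
    rw [Real.fourier_real_eq_integral_exp_smul, hg]
    simp only
    rw [← Inv.val m (z := c + ((2 * π * v : ℝ) : ℂ) * I) (by simpa using hc),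
      ← integral_indicator measurableSet_Ioi, ← ind]
    congr 1
    funext x
    rw [hf, smul_eq_mul, mul_left_comm, ← exp_add]
    congr 2
    push_cast; ring
  have gi : Integrable g := by
    have n0 : ∀ y : ℝ, (c + y * I : ℂ) ≠ 0 := fun y h => by
      have := congrArg re h
      simp at this
      exact hc.ne' this
    refine (integrable_inv_one_add_sq.const_mul
      (m.factorial * (1 + 1 / c ^ 2) / c ^ (m - 1))).mono'
      (Continuous.aestronglyMeasurable
        (continuous_const.div (by fun_prop) fun y => pow_ne_zero _ (n0 y)))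
      (Eventually.of_forall fun y => ?_)
    have h1 : c ≤ ‖(c + y * I : ℂ)‖ := by
      simpa [abs_of_pos hc] using abs_re_le_norm (c + y * I)
    have h2 : ‖(c + y * I : ℂ)‖ ^ 2 = c ^ 2 + y ^ 2 := by
      rw [← normSq_eq_norm_sq, normSq_add_mul_I]
    have h3 : c ^ (m - 1) * (c ^ 2 + y ^ 2) ≤ ‖(c + y * I : ℂ)‖ ^ (m + 1) := by
      rw [show m + 1 = m - 1 + 2 by omega, pow_add, h2]; gcongr
    have h4 : 1 + y ^ 2 ≤ (1 + 1 / c ^ 2) * (c ^ 2 + y ^ 2) := by
      have : (1 + 1 / c ^ 2) * (c ^ 2 + y ^ 2) = 1 + y ^ 2 + (c ^ 2 + y ^ 2 / c ^ 2) := by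
        field_simp; ring
      rw [this]; exact le_add_of_nonneg_right (by positivity)
    rw [hg]
    simp only [norm_div, norm_pow, norm_natCast]
    calc _ ≤ (m.factorial : ℝ) / (c ^ (m - 1) * (c ^ 2 + y ^ 2)) := by gcongr
      _ = m.factorial * (1 + 1 / c ^ 2) / c ^ (m - 1) * ((1 + 1 / c ^ 2) * (c ^ 2 + y ^ 2))⁻¹ := by
        field_simp
      _ ≤ _ := by gcongr
  have p0 : (2 * π : ℝ) ≠ 0 := by positivity
  have inv := congrFun (fc.fourierInv_fourier_eq fi (ft ▸ gi.comp_mul_left' p0)) ξ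
  rw [ft, Real.fourierInv_eq'] at inv
  have sc := Measure.integral_comp_mul_left (fun y : ℝ => g y * exp (y * I * ξ)) (2 * π)
  have e1 : (∫ v : ℝ, g (2 * π * v) * exp (((2 * π * v : ℝ) : ℂ) * I * ξ)) = f ξ := by
    rw [← inv]
    congr 1
    funext v
    rw [smul_eq_mul, mul_comm]
    congr 2
    simp; ring
  rw [e1, abs_of_pos (by positivity), real_smul] at sc
  have e2 : (∫ y : ℝ, (m.factorial : ℂ) / (c + y * I) ^ (m + 1) * exp ((c + y * I) * ξ)) =
      exp (c * ξ) * ∫ y : ℝ, g y * exp (y * I * ξ) := by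
    rw [← integral_const_mul]
    congr 1
    funext y
    rw [add_mul, exp_add, hg]; ring
  rw [e2, mul_left_comm]
  push_cast at sc
  rw [← sc, hf]
  simp only
  rw [mul_left_comm, ← exp_add]
  simp

end Pool.Agent.P.MP_323ce2_nt.NB
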