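import Mathlib
import Pool.Agent.P.MP_323ce2_nt.NB.Defs

/-! Existence of kernels with nearly optimal cost. -/

open Complex Filter Topology Set MeasureTheory Metric
open scoped Real

namespace Pool.Agent.P.MP_323ce2_nt.NB

namespace KerP

theorem intg {E : Type} [NormedAddCommGroup E] {μ : Measure ℝ} [IsFiniteMeasure μ] {a b : ℝ}
    (h : ∀ᵐ y ∂μ, y ∈ Icc a b) {f : ℝ → E} (hf : Continuous f) : Integrable f μ := by
  obtain ⟨B, hB⟩ := isCompact_Icc.exists_bound_of_continuousOn (hf.continuousOn (s := Icc a b))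
  exact Integrable.of_bound hf.aestronglyMeasurable B (h.mono hB)

theorem shift (h2 : StNu) {b : ℝ} (hb : b < 1) : ∃ μ : Measure ℝ, IsProbabilityMeasure μ ∧
    (∀ᵐ y ∂μ, y ∈ Icc b 1) ∧ (0 ≤ b → Dec 1 fun z => ∫ y, exp (z * y) ∂μ) := by
  obtain ⟨ν, hν, h1, h3⟩ := h2 (1 - b) (by linarith)
  have hm : Measurable fun y : ℝ => b + y := by fun_prop
  refine ⟨ν.map fun y => b + y, Measure.isProbabilityMeasure_map hm.aemeasurable, ?_, ?_⟩
  · refine (ae_map_iff (p := fun y => y ∈ Icc b 1) hm.aemeasurable measurableSet_Icc).2 ?_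
    exact h1.mono fun y hy => ⟨by linarith [hy.1], by linarith [hy.2]⟩
  · intro _ C ε hε
    obtain ⟨C', l0, h4⟩ := h3 C ε hε
    refine ⟨C', l0, fun l hl z hz => ?_⟩
    have h5 := h4 l hl z hz
    have e : ∫ y, exp (z * y) ∂(ν.map fun y => b + y) = exp (z * b) * ∫ y, exp (z * y) ∂ν := by
      rw [integral_map hm.aemeasurable (Continuous.aestronglyMeasurable (by fun_prop)),
        ← integral_const_mul]
      congr 1; ext y
      rw [← Complex.exp_add]; congr 1; push_cast; ring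
    beta_reduce
    rw [e, norm_mul, norm_exp, mul_assoc]
    calc _ ≤ Real.exp (z * b).re * (C' * Real.exp ((1 - b) * z.re + ε * l)) := by gcongr
      _ = _ := by
        rw [mul_left_comm, ← Real.exp_add]
        congr 2
        simp only [mul_re, ofReal_re, ofReal_im]
        ring

theorem diffG {μ : Measure ℝ} [IsFiniteMeasure μ] {a b : ℝ} (h : ∀ᵐ y ∂μ, y ∈ Icc a b) :
    Differentiable ℂ fun z : ℂ => ∫ y, exp (z * y) ∂μ := by
  have h1 : ProbabilityTheory.integrableExpSet id μ = univ :=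
    eq_univ_of_forall fun t => intg h (f := fun y => Real.exp (t * y)) (by fun_prop)
  have h2 := ProbabilityTheory.differentiableOn_complexMGF (X := id) (μ := μ)
  rw [h1, interior_univ] at h2
  exact fun z => h2.differentiableAt (Filter.mem_of_superset univ_mem fun _ _ => mem_univ _)

theorem inv_int (h3 : StInv) {μ : Measure ℝ} [IsFiniteMeasure μ] {a b : ℝ}
    (h : ∀ᵐ y ∂μ, y ∈ Icc a b) {m : ℕ} (hm : 1 ≤ m) {c : ℝ} (hc : 1 ≤ c) (x : ℝ) :
    (2 * π : ℂ)⁻¹ * ∫ y : ℝ, (m.factorial : ℂ) / (c + y * I) ^ (m + 1) *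
      (∫ v, exp ((c + y * I) * v) ∂μ) * exp (-(c + y * I) * x) =
      ((∫ v, max (v - x) 0 ^ m ∂μ : ℝ) : ℂ) := by
  have hne : ∀ y : ℝ, (c + y * I : ℂ) ≠ 0 := fun y h0 => by
    have := congrArg re h0
    simp at this
    linarith
  have hI : Integrable (Function.uncurry fun (y v : ℝ) =>
      (m.factorial : ℂ) / (c + y * I) ^ (m + 1) * exp ((c + y * I) * ((v - x : ℝ) : ℂ)))
      ((volume : Measure ℝ).prod μ) := by
    refine ((integrable_inv_one_add_sq.const_mul (m.factorial : ℝ)).mul_prod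
      (intg h (f := fun v => Real.exp (c * (v - x))) (by fun_prop))).mono' ?_
      (Eventually.of_forall fun p => ?_)
    · refine Continuous.aestronglyMeasurable (Continuous.mul ?_ (by fun_prop))
      exact continuous_const.div (by fun_prop) fun p => pow_ne_zero _ (hne p.1)
    · obtain ⟨y, v⟩ := p
      have h1 : 1 + y ^ 2 ≤ ‖(c + y * I : ℂ)‖ ^ 2 := by
        rw [← normSq_eq_norm_sq, normSq_add_mul_I]; nlinarith
      have h2 : 1 ≤ ‖(c + y * I : ℂ)‖ := by
        by_contra h5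
        nlinarith [norm_nonneg (c + y * I : ℂ), sq_nonneg y]
      have h4 : 1 + y ^ 2 ≤ ‖(c + y * I : ℂ)‖ ^ (m + 1) :=
        h1.trans (pow_le_pow_right₀ h2 (by omega))
      simp only [Function.uncurry_apply_pair, norm_mul, norm_div, norm_pow, norm_exp,
        Complex.norm_natCast]
      rw [show ((c + y * I : ℂ) * ((v - x : ℝ) : ℂ)).re = c * (v - x) by simp, div_eq_mul_inv]
      gcongr
  have e : ∀ y : ℝ, (m.factorial : ℂ) / (c + y * I) ^ (m + 1) *
      (∫ v, exp ((c + y * I) * v) ∂μ) * exp (-(c + y * I) * x) =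
      ∫ v, (m.factorial : ℂ) / (c + y * I) ^ (m + 1) *
        exp ((c + y * I) * ((v - x : ℝ) : ℂ)) ∂μ := fun y => by
    rw [integral_const_mul, mul_assoc, ← integral_mul_const]
    congr 2; ext v
    rw [← Complex.exp_add]; congr 1; push_cast; ring
  simp only [e]
  rw [integral_integral_swap hI, ← integral_const_mul, ← integral_complex_ofReal]
  congr 1; ext v
  rw [h3 m hm c (v - x) (by linarith)]
  simp

theorem scale {m : ℕ} (hm : 1 ≤ m) {β : ℝ} (h0 : 0 < β) (h1 : β ≤ 1) (z : ℂ) :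
    ∫ x in (0 : ℝ)..1, (x : ℂ) ^ (m - 1) * ((max (β - x) 0 ^ m : ℝ) : ℂ) * exp (-z * x) =
      (β : ℂ) ^ m * β ^ m *
        ∫ x in (0 : ℝ)..1, (x : ℂ) ^ (m - 1) * (1 - x) ^ m * exp (-(z * β) * x) := by
  have hc : Continuous fun x : ℝ =>
      (x : ℂ) ^ (m - 1) * ((max (β - x) 0 ^ m : ℝ) : ℂ) * exp (-z * x) := by fun_prop
  rw [← intervalIntegral.integral_add_adjacent_intervals (b := β) (hc.intervalIntegrable _ _)
    (hc.intervalIntegrable _ _)]
  have e1 : ∫ x in β..1, (x : ℂ) ^ (m - 1) * ((max (β - x) 0 ^ m : ℝ) : ℂ) * exp (-z * x) = 0 := by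
    rw [intervalIntegral.integral_congr (g := fun _ => 0), intervalIntegral.integral_zero]
    intro x hx
    rw [uIcc_of_le h1] at hx
    simp [max_eq_right (sub_nonpos.2 hx.1), zero_pow (show m ≠ 0 by omega)]
  have e2 := intervalIntegral.smul_integral_comp_mul_left (a := 0) (b := 1) (fun x : ℝ =>
    (x : ℂ) ^ (m - 1) * ((max (β - x) 0 ^ m : ℝ) : ℂ) * exp (-z * x)) β
  rw [mul_zero, mul_one] at e2
  rw [e1, add_zero, ← e2, real_smul, ← intervalIntegral.integral_const_mul,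
    ← intervalIntegral.integral_const_mul]
  refine intervalIntegral.integral_congr fun x hx => ?_
  rw [uIcc_of_le zero_le_one] at hx
  obtain ⟨k, rfl⟩ : ∃ k, m = k + 1 := ⟨m - 1, by omega⟩
  have h2 : 0 ≤ β - β * x := by nlinarith [hx.2]
  simp only [max_eq_left h2, Nat.add_sub_cancel]
  push_cast
  rw [show (β : ℂ) - β * x = β * (1 - x) by ring, show -z * (β * x) = -(z * β) * x by ring,
    mul_pow, mul_pow]
  ring

theorem cs {μ : Measure ℝ} {p f : ℝ → ℝ} (hp : ∀ᵐ y ∂μ, 0 ≤ p y) (h0 : Integrable p μ)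
    (h1 : Integrable (fun y => p y * f y) μ) (h2 : Integrable (fun y => p y * f y ^ 2) μ)
    (hk : 0 < ∫ y, p y ∂μ) :
    ((∫ y, p y * f y ∂μ) / ∫ y, p y ∂μ) ^ 2 ≤ (∫ y, p y * f y ^ 2 ∂μ) / ∫ y, p y ∂μ := by
  set a := (∫ y, p y * f y ∂μ) / ∫ y, p y ∂μ with ha
  have h3 : 0 ≤ ∫ y, (p y * f y ^ 2 - 2 * a * (p y * f y) + a ^ 2 * p y) ∂μ :=
    integral_nonneg_of_ae (hp.mono fun y hy => by
      have := mul_nonneg hy (sq_nonneg (f y - a))
      simp only [Pi.zero_apply]
      nlinarith)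
  have h5 : Integrable (fun y => p y * f y ^ 2 - 2 * a * (p y * f y)) μ := h2.sub (h1.const_mul _)
  rw [integral_add h5 (h0.const_mul _), integral_sub h2 (h1.const_mul _),
    integral_const_mul, integral_const_mul] at h3
  have h4 : ∫ y, p y * f y ∂μ = a * ∫ y, p y ∂μ := by rw [ha]; field_simp
  rw [h4] at h3
  rw [le_div_iff₀ hk]
  nlinarith

end KerP

open KerP in
theorem pKer (h1 : StPoly) (h2 : StNu) (h3 : StInv) (h4 : StProf) : StKer := by
  intro m hm θ hθ
  have hb0 : 0 < θ⁻¹ := by positivity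
  obtain ⟨μ, hμ, hs, hd⟩ := shift h2 (inv_lt_one_of_one_lt₀ hθ)
  have hd := hd hb0.le
  obtain ⟨e, -, -, he2, he⟩ := h1 m hm
  have hpos : ∀ᵐ y ∂μ, 0 < y := hs.mono fun y hy => hb0.trans_le hy.1
  have hp0 : Integrable (fun y : ℝ => y ^ m) μ := intg hs (by fun_prop)
  have hpn : ∀ᵐ y ∂μ, 0 ≤ y ^ m := hpos.mono fun y hy => by positivity
  set k0 : ℝ := ∫ y, y ^ m ∂μ with hk0
  have hk : 0 < k0 := by
    have : ∫ _ : ℝ, θ⁻¹ ^ m ∂μ ≤ k0 := integral_mono_ae (integrable_const _) hp0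
      (hs.mono fun y hy => pow_le_pow_left₀ hb0.le hy.1 m)
    rw [integral_const, probReal_univ, one_smul] at this
    exact (pow_pos hb0 m).trans_le this
  have hkc : (k0 : ℂ) ≠ 0 := ofReal_ne_zero.2 hk.ne'
  have hK : Ker (fun z => (k0 : ℂ)⁻¹ * ((m.factorial : ℂ) / z ^ (m + 1) * ∫ v, exp (z * v) ∂μ))
      fun x => (k0 : ℂ)⁻¹ * ((∫ v, max (v - x) 0 ^ m ∂μ : ℝ) : ℂ) := by
    refine ⟨fun z hz => DifferentiableAt.differentiableWithinAt ?_, fun c hc x => ?_, ?_,
      fun x hx => ?_, fun C ε hε => ?_⟩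
    · have hz0 : z ≠ 0 := fun h => by simp [h] at hz
      have h5 : DifferentiableAt ℂ (fun z : ℂ => (m.factorial : ℂ) / z ^ (m + 1)) z :=
        (differentiableAt_const _).div (by fun_prop) (pow_ne_zero _ hz0)
      exact (h5.mul (diffG hs z)).const_mul _
    · rw [← inv_int h3 hs hm hc x, mul_left_comm, ← integral_const_mul]
      simp only [mul_assoc]
    · have : ∫ v, max (v - 0) 0 ^ m ∂μ = k0 :=
        integral_congr_ae (hpos.mono fun y hy => by simp [max_eq_left hy.le])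
      rw [this, inv_mul_cancel₀ hkc]
    · have : ∫ v, max (v - x) 0 ^ m ∂μ = 0 := by
        rw [← integral_zero ℝ ℝ (μ := μ)]
        exact integral_congr_ae (hs.mono fun y hy => by
          simp [max_eq_right (sub_nonpos.2 (hy.2.trans hx)), zero_pow (show m ≠ 0 by omega)])
      rw [this]; simp
    · obtain ⟨C', l0, h5⟩ := hd C ε hε
      refine ⟨k0⁻¹ * m.factorial * C', l0, fun l hl z hz => ?_⟩
      have h6 := h5 l hl z hz
      have h7 : 1 ≤ ‖z‖ ^ (m + 1) := one_le_pow₀ (hz.trans (re_le_norm z))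
      beta_reduce at h6 ⊢
      rw [norm_mul, norm_mul, norm_div, norm_pow, norm_inv, Complex.norm_natCast, norm_real,
        Real.norm_of_nonneg hk.le]
      calc _ = k0⁻¹ * (m.factorial / ‖z‖ ^ (m + 1)) *
            (‖∫ v, exp (z * v) ∂μ‖ * Real.exp (ex C l ‖z‖)) := by ring
        _ ≤ k0⁻¹ * m.factorial * (C' * Real.exp (1 * z.re + ε * l)) := by
            gcongr
            exact div_le_self (by positivity) h7
        _ = _ := by ring
  refine ⟨_, _, hK, ?_⟩
  set F : ℝ → ℂ := fun v => ∫ x in (0 : ℝ)..1, (e.eval x : ℝ) * exp (v * I * x) with hF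
  have hFc : Continuous F := by
    refine intervalIntegral.continuous_parametric_intervalIntegral_of_continuous' ?_ _ _
    have := e.continuous
    fun_prop
  have hfac : (((m - 1).factorial : ℕ) : ℂ) ≠ 0 := Nat.cast_ne_zero.2 (Nat.factorial_ne_zero _)
  have hprof : ∀ u : ℝ, prof (fun z => (k0 : ℂ)⁻¹ *
      ((m.factorial : ℂ) / z ^ (m + 1) * ∫ v, exp (z * v) ∂μ)) m u =
      (k0 : ℂ)⁻¹ * ∫ v, (v : ℂ) ^ m * F (-v * u) ∂μ := fun u => by
    have hI : Integrable (Function.uncurry fun (x v : ℝ) =>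
        (x : ℂ) ^ (m - 1) * ((max (v - x) 0 ^ m : ℝ) : ℂ) * exp (-(u * I) * x))
        ((volume.restrict (uIoc (0 : ℝ) 1)).prod μ) := by
      rw [uIoc_of_le zero_le_one]
      refine Integrable.of_bound (Continuous.aestronglyMeasurable (by fun_prop)) 1 ?_
      refine (Measure.ae_prod_iff_ae_ae ?_).2 ?_
      · exact measurableSet_le (Continuous.measurable (by fun_prop)) measurable_const
      · refine (ae_restrict_mem measurableSet_Ioc).mono fun x hx => hs.mono fun v hv => ?_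
        simp only [Function.uncurry_apply_pair, norm_mul, norm_pow, norm_exp, norm_real]
        have a1 : ‖x‖ ^ (m - 1) ≤ 1 :=
          pow_le_one₀ (norm_nonneg _) (by rw [Real.norm_of_nonneg hx.1.le]; exact hx.2)
        have a2 : ‖max (v - x) 0‖ ^ m ≤ 1 := pow_le_one₀ (norm_nonneg _) (by
          rw [Real.norm_of_nonneg (le_max_right _ _)]
          exact max_le (by linarith [hv.2, hx.1]) zero_le_one)
        rw [show (-(u * I) * x : ℂ).re = 0 by simp, Real.exp_zero, mul_one]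
        exact mul_le_one₀ a1 (by positivity) a2
    have e1 : ∀ x : ℝ, (x : ℂ) ^ (m - 1) * ((k0 : ℂ)⁻¹ * ((∫ v, max (v - x) 0 ^ m ∂μ : ℝ) : ℂ)) *
        exp (-(u * I) * x) = (k0 : ℂ)⁻¹ *
        ∫ v, (x : ℂ) ^ (m - 1) * ((max (v - x) 0 ^ m : ℝ) : ℂ) * exp (-(u * I) * x) ∂μ :=
      fun x => by
        rw [integral_mul_const, integral_const_mul, integral_complex_ofReal]; ring
    have hi1 : Integrable (fun v : ℝ => (v : ℂ) ^ m) μ := intg hs (by fun_prop)
    have hi2 : Integrable (fun v : ℝ => (v : ℂ) ^ m * F (-v * u)) μ := intg hs (by fun_prop)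
    have e2 : ∫ v, (v : ℂ) ^ m ∂μ = k0 := by
      rw [hk0, ← integral_complex_ofReal]; simp
    rw [h4 _ _ hK m hm u]
    simp only [e1]
    rw [intervalIntegral.integral_const_mul, intervalIntegral_integral_swap hI, mul_left_comm,
      ← integral_const_mul ((u * I) ^ m / _),
      integral_congr_ae (g := fun v : ℝ => (v : ℂ) ^ m + (v : ℂ) ^ m * F (-v * u)),
      integral_add hi1 hi2, e2, mul_add, inv_mul_cancel₀ hkc, add_sub_cancel_left]
    filter_upwards [hs, hpos] with v hv hv0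
    have e3 : F (-v * u) = ∫ x in (0 : ℝ)..1, (e.eval x : ℝ) * exp (-(u * I * v) * x) := by
      rw [hF]
      beta_reduce
      congr 1; ext x; congr 2; push_cast; ring
    have e4 := he (u * I * v)
    rw [scale hm hv0 hv.2, e3]
    rw [mul_pow] at e4
    rw [div_mul_eq_mul_div, div_eq_iff hfac]
    linear_combination (v : ℂ) ^ m * e4
  have hle : ∀ u : ℝ, ENNReal.ofReal (‖prof (fun z => (k0 : ℂ)⁻¹ *
      ((m.factorial : ℂ) / z ^ (m + 1) * ∫ v, exp (z * v) ∂μ)) m u‖ ^ 2) ≤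
      ∫⁻ v, ENNReal.ofReal (k0⁻¹ * (v ^ m * ‖F (-v * u)‖ ^ 2)) ∂μ := fun u => by
    have hi1 : Integrable (fun v : ℝ => v ^ m * ‖F (-v * u)‖) μ := intg hs (by fun_prop)
    have hi2 : Integrable (fun v : ℝ => v ^ m * ‖F (-v * u)‖ ^ 2) μ := intg hs (by fun_prop)
    rw [← ofReal_integral_eq_lintegral_ofReal (hi2.const_mul _)
      (hpos.mono fun v hv => by positivity), integral_const_mul, hprof]
    refine ENNReal.ofReal_le_ofReal ?_
    have h5 := cs hpn hp0 hi1 hi2 hk
    rw [← hk0, div_eq_inv_mul, div_eq_inv_mul] at h5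
    refine le_trans ?_ h5
    rw [norm_mul, norm_inv, norm_real, Real.norm_of_nonneg hk.le]
    gcongr
    refine (norm_integral_le_integral_norm _).trans (le_of_eq (integral_congr_ae ?_))
    filter_upwards [hpos] with v hv
    rw [norm_mul, norm_pow, norm_real, Real.norm_of_nonneg hv.le]
  obtain ⟨hP1, hP2⟩ := plancherel_poly e
  rw [he2] at hP2
  calc _ ≤ ∫⁻ u : ℝ, ∫⁻ v, ENNReal.ofReal (k0⁻¹ * (v ^ m * ‖F (-v * u)‖ ^ 2)) ∂μ :=
        lintegral_mono hle
    _ = ∫⁻ v, (∫⁻ u : ℝ, ENNReal.ofReal (k0⁻¹ * (v ^ m * ‖F (-v * u)‖ ^ 2))) ∂μ :=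
        lintegral_lintegral_swap (Measurable.aemeasurable
          (ENNReal.measurable_ofReal.comp (Continuous.measurable (by fun_prop))))
    _ ≤ ∫⁻ v, ENNReal.ofReal (k0⁻¹ * (2 * π * m ^ 2 * θ) * v ^ m) ∂μ := by
        refine lintegral_mono_ae ?_
        filter_upwards [hs, hpos] with v hv hv0
        have hi : Integrable fun u : ℝ => ‖F (-v * u)‖ ^ 2 :=
          hP1.comp_mul_left' (neg_ne_zero.2 hv0.ne')
        have e5 : ∫ u : ℝ, ‖F (-v * u)‖ ^ 2 = v⁻¹ * (2 * π * m ^ 2) := by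
          rw [Measure.integral_comp_mul_left (fun t => ‖F t‖ ^ 2) (-v), hP2, inv_neg, abs_neg,
            abs_of_pos (inv_pos.2 hv0), smul_eq_mul]
        rw [← ofReal_integral_eq_lintegral_ofReal ((hi.const_mul _).const_mul _)
          (Eventually.of_forall fun u => by positivity), integral_const_mul, integral_const_mul, e5]
        refine ENNReal.ofReal_le_ofReal ?_
        have h6 : v⁻¹ ≤ θ := by rw [inv_le_comm₀ hv0 (by linarith)]; exact hv.1
        calc _ ≤ k0⁻¹ * (v ^ m * (θ * (2 * π * m ^ 2))) := by gcongr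
          _ = _ := by ring
    _ = _ := by
        rw [← ofReal_integral_eq_lintegral_ofReal (hp0.const_mul _)
          (hpos.mono fun v hv => by positivity), integral_const_mul, ← hk0]
        congr 1
        field_simp

end Pool.Agent.P.MP_323ce2_nt.NB
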