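import Mathlib
import Pool.Agent.P.MP_323ce2_nt.NB.Defs

/-! The square integral of an average of Cauchy kernels. -/

open Complex Filter Topology Set MeasureTheory Metric
open scoped Real

namespace Pool.Agent.P.MP_323ce2_nt.NB

namespace L2

lemma cs {k g : ℝ → ℝ} (hk : Integrable k) (h0 : ∀ y, 0 ≤ k y)
    (h1 : Integrable fun y => k y * g y) (h2 : Integrable fun y => k y * g y ^ 2) :
    (∫ y, k y * g y) ^ 2 ≤ (∫ y, k y) * ∫ y, k y * g y ^ 2 := by
  have h := discrim_le_zero (a := ∫ y, k y) (b := -2 * ∫ y, k y * g y) (c := ∫ y, k y * g y ^ 2)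
    fun x => by
      have e : (∫ y, k y) * (x * x) + (-2 * ∫ y, k y * g y) * x + ∫ y, k y * g y ^ 2 =
          ∫ y, k y * (x - g y) ^ 2 := by
        have h3 : Integrable fun y => k y * (x * x) + k y * g y * (-2 * x) :=
          (hk.mul_const _).add (h1.mul_const _)
        rw [show (-2 * ∫ y, k y * g y) * x = (∫ y, k y * g y) * (-2 * x) by ring,
          ← integral_mul_const, ← integral_mul_const,
          ← integral_add (hk.mul_const _) (h1.mul_const _), ← integral_add h3 h2]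
        congr 1
        ext y
        ring
      rw [e]
      exact integral_nonneg fun y => mul_nonneg (h0 y) (sq_nonneg _)
  rw [discrim] at h
  nlinarith

lemma le_norm (D y v : ℝ) : D ≤ ‖(D + y * I : ℂ) + v * I‖ :=
  le_trans (by simp) (re_le_norm _)

lemma norm_sq (D y v : ℝ) : ‖(D + y * I : ℂ) + v * I‖ ^ 2 = D ^ 2 + (y + v) ^ 2 := by
  rw [← normSq_eq_norm_sq, normSq_apply]
  simp
  ring

lemma int_bdd {k g : ℝ → ℝ} (hk : Integrable k) (hg : Continuous g) {c : ℝ}
    (hc : ∀ y, |g y| ≤ c) : Integrable fun y => k y * g y :=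
  hk.mul_bdd hg.aestronglyMeasurable (Eventually.of_forall hc)

lemma cont_inv {D : ℝ} (hD : 0 < D) (v : ℝ) :
    Continuous fun y : ℝ => ‖(D + y * I : ℂ) + v * I‖⁻¹ :=
  Continuous.inv₀ (by fun_prop) fun y => (hD.trans_le (le_norm D y v)).ne'

lemma int_one {k : ℝ → ℝ} (hk : Integrable k) {D : ℝ} (hD : 0 < D) (v : ℝ) :
    Integrable fun y => k y * ‖(D + y * I : ℂ) + v * I‖⁻¹ :=
  int_bdd hk (cont_inv hD v) (c := D⁻¹) fun y => by
    rw [abs_of_nonneg (by positivity)]
    exact inv_anti₀ hD (le_norm D y v)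

lemma int_two {k : ℝ → ℝ} (hk : Integrable k) {D : ℝ} (hD : 0 < D) (v : ℝ) :
    Integrable fun y => k y * ‖(D + y * I : ℂ) + v * I‖⁻¹ ^ 2 :=
  int_bdd hk ((cont_inv hD v).pow 2) (c := D⁻¹ ^ 2) fun y => by
    rw [abs_of_nonneg (by positivity)]
    exact pow_le_pow_left₀ (by positivity) (inv_anti₀ hD (le_norm D y v)) 2

lemma inner (c : ℝ) (hc : 0 ≤ c) {D L : ℝ} (hD : 0 < D) (hL : 0 < L) (γ y : ℝ) :
    ∫⁻ t : ℝ, ENNReal.ofReal (c * ‖(D + y * I : ℂ) + ((t - γ) * L : ℝ) * I‖⁻¹ ^ 2) =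
      ENNReal.ofReal (c * (π / (D * L))) := by
  have e : ∀ t : ℝ, c * ‖(D + y * I : ℂ) + ((t - γ) * L : ℝ) * I‖⁻¹ ^ 2 =
      c * (L ^ 2)⁻¹ * ((γ - y / L - t) ^ 2 + (D / L) ^ 2)⁻¹ := fun t => by
    rw [inv_pow, norm_sq, mul_assoc, ← mul_inv]
    congr 2
    field_simp
    ring
  simp only [e]
  rw [← ofReal_integral_eq_lintegral_ofReal
    ((integrable_poisson (γ - y / L) (div_pos hD hL)).const_mul _)
    (Eventually.of_forall fun t => by positivity), integral_const_mul,
    integral_poisson _ (div_pos hD hL)]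
  congr 1
  field_simp

lemma pow_sub (a : ℂ) (m : ℕ) : ‖(1 - a) ^ m - 1‖ ≤ m * ‖a‖ * (1 + ‖a‖) ^ m := by
  induction m with
  | zero => simp
  | succ m ih =>
    have h0 := norm_nonneg a
    have h1 : ‖1 - a‖ ≤ 1 + ‖a‖ := by simpa using norm_sub_le 1 a
    have h2 : 1 ≤ (1 + ‖a‖) ^ (m + 1) := one_le_pow₀ (by linarith)
    calc ‖(1 - a) ^ (m + 1) - 1‖ = ‖((1 - a) ^ m - 1) * (1 - a) - a‖ := by congr 1; ring
      _ ≤ ‖(1 - a) ^ m - 1‖ * ‖1 - a‖ + ‖a‖ := by rw [← norm_mul]; exact norm_sub_le _ _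
      _ ≤ m * ‖a‖ * (1 + ‖a‖) ^ m * (1 + ‖a‖) + ‖a‖ * (1 + ‖a‖) ^ (m + 1) := by
        gcongr
        exact le_mul_of_one_le_right h0 h2
      _ = _ := by push_cast; ring

end L2

open L2 in
theorem pL2 : StL2 := by
  intro k D L γ hk h0 hD hL
  have hA : 0 ≤ ∫ y, k y := integral_nonneg h0
  have hm : AEMeasurable (Function.uncurry fun t y : ℝ =>
      ENNReal.ofReal (k y * ‖(D + y * I : ℂ) + ((t - γ) * L : ℝ) * I‖⁻¹ ^ 2))
      (volume.prod volume) := by
    refine ENNReal.measurable_ofReal.comp_aemeasurable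
      (hk.aemeasurable.comp_snd.mul (Measurable.aemeasurable ?_))
    fun_prop
  calc _ ≤ ∫⁻ t : ℝ, ENNReal.ofReal (∫ y, k y) * ∫⁻ y : ℝ,
        ENNReal.ofReal (k y * ‖(D + y * I : ℂ) + ((t - γ) * L : ℝ) * I‖⁻¹ ^ 2) := by
        refine lintegral_mono fun t => ?_
        rw [← ofReal_integral_eq_lintegral_ofReal (int_two hk hD _)
          (Eventually.of_forall fun y => mul_nonneg (h0 y) (sq_nonneg _)),
          ← ENNReal.ofReal_mul hA]
        simp only [div_eq_mul_inv]
        exact ENNReal.ofReal_le_ofReal (cs hk h0 (int_one hk hD _) (int_two hk hD _))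
    _ = ENNReal.ofReal (∫ y, k y) * ∫⁻ y : ℝ, ENNReal.ofReal (k y * (π / (D * L))) := by
        rw [lintegral_const_mul' _ _ ENNReal.ofReal_ne_top, lintegral_lintegral_swap hm]
        simp only [inner _ (h0 _) hD hL]
    _ = _ := by
        rw [← ofReal_integral_eq_lintegral_ofReal (hk.mul_const _)
          (Eventually.of_forall fun y => mul_nonneg (h0 y) (by positivity)),
          ← ENNReal.ofReal_mul hA, integral_mul_const]
        congr 1
        ring

open L2 in
theorem pCp (h : StL2) : StCp := by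
  intro K w hK m
  let k : ℝ → ℝ := fun y =>
    ‖K (1 + y * I)‖ * (m * ‖(1 + y * I : ℂ)‖ * (1 + ‖(1 + y * I : ℂ)‖) ^ m)
  have h0 : ∀ y, 0 ≤ k y := fun y => by positivity
  have hc : Continuous fun y : ℝ => K (1 + y * I) := by
    simpa using hK.continuous_line one_pos
  have hk : Integrable k := by
    have h1 := (hK.integrable (m + 1) le_rfl).const_mul m
    simp only [ofReal_one] at h1
    refine h1.mono' (Continuous.aestronglyMeasurable (hc.norm.mul (by fun_prop)))
      (Eventually.of_forall fun y => ?_)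
    rw [Real.norm_of_nonneg (h0 y)]
    simp only [k]
    have a0 := norm_nonneg (K (1 + y * I))
    have r0 := norm_nonneg (1 + y * I : ℂ)
    generalize ‖K (1 + y * I)‖ = a at a0 ⊢
    generalize ‖(1 + y * I : ℂ)‖ = r at r0 ⊢
    have h2 := one_le_log_three_add r0
    have h3 : r * (1 + r) ^ m ≤ Real.exp ((m + 1) * Real.log (3 + r) ^ 2) := by
      calc r * (1 + r) ^ m ≤ (3 + r) * (3 + r) ^ m := by gcongr <;> linarith
        _ = Real.exp (((m + 1 : ℕ) : ℝ) * Real.log (3 + r)) := by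
          rw [Real.exp_nat_mul, Real.exp_log (by linarith), pow_succ']
        _ ≤ _ := by
          push_cast
          gcongr
          nlinarith
    calc a * (m * r * (1 + r) ^ m) = m * (a * (r * (1 + r) ^ m)) := by ring
      _ ≤ _ := by gcongr
  refine lt_of_le_of_lt (lintegral_mono fun u => ?_)
    ((h k 1 1 0 hk h0 one_pos one_pos).trans_lt ENNReal.ofReal_lt_top)
  refine ENNReal.ofReal_le_ofReal (pow_le_pow_left₀ (norm_nonneg _) ?_ 2)
  have h1 := int_one hk one_pos u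
  simp only [sub_zero, mul_one, div_eq_mul_inv]
  have h2 : ‖∫ y : ℝ, K (1 + y * I) * ((u * I / (u * I + (1 + y * I))) ^ m - 1)‖ ≤
      ∫ y : ℝ, k y * ‖(((1 : ℝ) : ℂ) + y * I) + u * I‖⁻¹ := by
    refine norm_integral_le_of_norm_le h1 (Eventually.of_forall fun y => ?_)
    have h3 := le_norm 1 y u
    simp only [ofReal_one] at h3 ⊢
    have h4 : (1 + y * I : ℂ) + u * I ≠ 0 := norm_pos_iff.1 (one_pos.trans_le h3)
    have e : (u * I / (u * I + (1 + y * I)) : ℂ) = 1 - (1 + y * I) / ((1 + y * I) + u * I) := by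
      rw [add_comm (u * I : ℂ), eq_sub_iff_add_eq, ← add_div, add_comm (u * I : ℂ), div_self h4]
    have h5 : ‖(1 + y * I : ℂ) / ((1 + y * I) + u * I)‖ ≤ ‖(1 + y * I : ℂ)‖ := by
      rw [norm_div]
      exact div_le_self (norm_nonneg _) h3
    rw [norm_mul, e]
    calc _ ≤ ‖K (1 + y * I)‖ * (m * ‖(1 + y * I : ℂ) / ((1 + y * I) + u * I)‖ *
          (1 + ‖(1 + y * I : ℂ)‖) ^ m) := by
          gcongr
          exact (pow_sub _ m).trans (by gcongr)
      _ = _ := by
          simp only [k, norm_div]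
          ring
  have h6 : ‖(2 * π : ℂ)⁻¹‖ ≤ 1 := by
    rw [norm_inv, norm_mul, norm_real, Real.norm_of_nonneg Real.pi_pos.le, Complex.norm_two]
    exact inv_le_one_of_one_le₀ (by linarith [Real.pi_gt_three])
  rw [prof, norm_mul]
  exact (mul_le_of_le_one_left (norm_nonneg _) h6).trans h2

end Pool.Agent.P.MP_323ce2_nt.NB
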