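import Mathlib
import Pool.Agent.P.MP_323ce2_nt.NB.Defs

/-! The lower bound from the test functions. -/

open Complex Filter Topology Set MeasureTheory Metric
open scoped Real

namespace Pool.Agent.P.MP_323ce2_nt.NB

namespace LB

lemma ptw (q : ℂ) (f : ℝ → ℂ) (t : ℝ) {x : ℝ} (hx : 0 < x) :
    ‖q * (1 - riemannZeta (cl t) * f t)‖ₑ ≤
      ENNReal.ofReal (x / 2) * ENNReal.ofReal (‖cl t * q‖ ^ 2) +
        ENNReal.ofReal (π / x) * err f t := by
  have hπ := Real.pi_pos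
  have hc : (0 : ℝ) < 1 / 4 + t ^ 2 := by positivity
  rw [err, ← ENNReal.ofReal_mul (by positivity), ← ENNReal.ofReal_mul (by positivity),
    ← ENNReal.ofReal_add (by positivity) (by positivity), ← ofReal_norm]
  refine ENNReal.ofReal_le_ofReal ?_
  rw [norm_mul, norm_mul, mul_pow, norm_cl_sq]
  set u := ‖q‖
  set v := ‖1 - riemannZeta (cl t) * f t‖
  set c := 1 / 4 + t ^ 2
  have e : x / 2 * (c * u ^ 2) + π / x * (v ^ 2 / (2 * π * c)) - u * v =
      (x * c * u - v) ^ 2 / (2 * x * c) := by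
    field_simp
    ring
  have : 0 ≤ (x * c * u - v) ^ 2 / (2 * x * c) := by positivity
  linarith

lemma bound (Q : ℝ → ℂ) {f : ℝ → ℂ} (hf : Continuous f) (S : Set ℝ) {x : ℝ} (hx : 0 < x) :
    ∫⁻ t in S, ‖Q t * (1 - riemannZeta (cl t) * f t)‖ₑ ≤
      ENNReal.ofReal (x / 2) * (∫⁻ t in S, ENNReal.ofReal (‖cl t * Q t‖ ^ 2)) +
        ENNReal.ofReal (π / x) * ∫⁻ t in S, err f t := by
  rw [← lintegral_const_mul' _ _ ENNReal.ofReal_ne_top,
    ← lintegral_const_mul' _ _ ENNReal.ofReal_ne_top,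
    ← lintegral_add_right _ ((measurable_err hf).const_mul _)]
  exact lintegral_mono fun t => ptw (Q t) f t hx

lemma orth {Q : ℝ → ℂ} {N : ℕ} (h1 : Integrable Q)
    (h2 : ∀ n ∈ Finset.Icc 1 N,
      Integrable (fun t : ℝ => Q t * riemannZeta (cl t) * (n : ℂ) ^ (-cl t)) ∧
        ∫ t : ℝ, Q t * riemannZeta (cl t) * (n : ℂ) ^ (-cl t) = 0) (a : ℕ → ℂ) :
    ∫ t, Q t * (1 - riemannZeta (cl t) * DP N a t) = ∫ t, Q t := by
  have e : (fun t => Q t * (1 - riemannZeta (cl t) * DP N a t)) = fun t => Q t -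
      ∑ n ∈ Finset.Icc 1 N, a n * (Q t * riemannZeta (cl t) * (n : ℂ) ^ (-cl t)) := by
    ext t
    rw [DP, mul_sub, mul_one, Finset.mul_sum, Finset.mul_sum]
    congr 1
    exact Finset.sum_congr rfl fun n _ => by ring
  rw [e, integral_sub h1 (integrable_finsetSum _ fun n hn => (h2 n hn).1.const_mul _),
    integral_finsetSum _ fun n hn => (h2 n hn).1.const_mul _, Finset.sum_eq_zero, sub_zero]
  intro n hn
  rw [integral_const_mul, (h2 n hn).2, mul_zero]

lemma one (h : StTest) {γ : ℝ} (hγ : riemannZeta (cl γ) = 0) {δ ε S : ℝ} (hδ : 0 < δ)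
    (hε : 0 < ε) (hS : 0 ≤ S) : ∀ᶠ N : ℕ in atTop, ∀ a : ℕ → ℂ,
      ENNReal.ofReal (Real.log N) * ∫⁻ t, err (DP N a) t ≤ ENNReal.ofReal S →
      ENNReal.ofReal ((1 - ε) * ((mult γ : ℝ) ^ 2 / (1 / 4 + γ ^ 2))) ≤
        ENNReal.ofReal (Real.log N) * ∫⁻ t in ball γ δ, err (DP N a) t := by
  obtain ⟨Q, h1, h2, h3, h4⟩ := h γ hγ
  obtain ⟨C, hC⟩ := h4 δ hδ
  have hπ := Real.pi_pos
  have hm : (0 : ℝ) < mult γ := by
    have : mult γ ≠ 0 := fun h0 => (mult_eq_zero_iff γ).1 h0 hγ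
    positivity
  set m : ℝ := (mult γ : ℝ) ^ 2 with hmdef
  have hm0 : 0 < m := by positivity
  set c : ℝ := 1 / 4 + γ ^ 2 with hcdef
  have hc : 0 < c := by positivity
  set η : ℝ := ε / 4 with hη
  have hη0 : 0 < η := by positivity
  set y : ℝ := η * π * m / (|C| + 1) with hy
  have hy0 : 0 < y := by positivity
  have hyC : y / 2 * |C| ≤ η * π * m := by
    have : y * (|C| + 1) = η * π * m := by rw [hy]; field_simp
    nlinarith [abs_nonneg C]
  have hlog : Tendsto (fun N : ℕ => Real.log N) atTop atTop :=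
    Real.tendsto_log_atTop.comp tendsto_natCast_atTop_atTop
  have h5 : ∀ᶠ N : ℕ in atTop, (2 - η) * π * m ≤ ‖∫ t, Q N t‖ :=
    h2.eventually (eventually_ge_nhds (by nlinarith [mul_pos (mul_pos hη0 hπ) hm0]))
  filter_upwards [h5, h3 η hη0, eventually_ge_atTop 3, hlog.eventually_gt_atTop 0,
    hlog.eventually_ge_atTop (S / (y * η * m))] with N h5 h6 h7 hL h8 a ha
  set L := Real.log N
  have hI : ∫⁻ t, err (DP N a) t ≠ ⊤ := by
    intro h0
    rw [h0, ENNReal.mul_top (by simpa using hL)] at ha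
    exact ENNReal.ofReal_ne_top (top_le_iff.1 ha)
  have hIB : ∫⁻ t in ball γ δ, err (DP N a) t ≠ ⊤ :=
    ne_top_of_le_ne_top hI (setLIntegral_le_lintegral _ _)
  obtain ⟨i, hi0, hi⟩ : ∃ i : ℝ, 0 ≤ i ∧ ∫⁻ t, err (DP N a) t = ENNReal.ofReal i :=
    ⟨_, ENNReal.toReal_nonneg, (ENNReal.ofReal_toReal hI).symm⟩
  obtain ⟨j, hj0, hj⟩ : ∃ j : ℝ, 0 ≤ j ∧ ∫⁻ t in ball γ δ, err (DP N a) t = ENNReal.ofReal j :=
    ⟨_, ENNReal.toReal_nonneg, (ENNReal.ofReal_toReal hIB).symm⟩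
  have hx : 0 < 1 / (c * L) := by positivity
  have k1 : ENNReal.ofReal ‖∫ t, Q N t‖ ≤
      (ENNReal.ofReal (1 / (c * L) / 2) * ENNReal.ofReal ((1 + η) * (2 * π * c * m * L)) +
        ENNReal.ofReal (π / (1 / (c * L))) * ENNReal.ofReal j) +
      (ENNReal.ofReal (y / 2) * ENNReal.ofReal |C| + ENNReal.ofReal (π / y) * ENNReal.ofReal i) := by
    rw [← orth (h1 N h7).1 (h1 N h7).2 a, ofReal_norm]
    refine (enorm_integral_le_lintegral_enorm _).trans ?_
    rw [← lintegral_add_compl _ (measurableSet_ball (x := γ) (ε := δ))]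
    refine add_le_add ((bound _ (continuous_DP N a) _ hx).trans ?_)
      ((bound _ (continuous_DP N a) _ hy0).trans ?_)
    · rw [hj]
      gcongr
      exact (setLIntegral_le_lintegral _ _).trans h6
    · rw [← hi]
      gcongr
      · exact (hC N h7).trans (ENNReal.ofReal_le_ofReal (le_abs_self C))
      · exact Measure.restrict_le_self
  rw [← ENNReal.ofReal_mul (by positivity), ← ENNReal.ofReal_mul (by positivity),
    ← ENNReal.ofReal_mul (by positivity), ← ENNReal.ofReal_mul (by positivity),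
    ← ENNReal.ofReal_add (by positivity) (by positivity),
    ← ENNReal.ofReal_add (by positivity) (by positivity),
    ← ENNReal.ofReal_add (by positivity) (by positivity),
    ENNReal.ofReal_le_ofReal_iff (by positivity)] at k1
  rw [hi, ← ENNReal.ofReal_mul hL.le, ENNReal.ofReal_le_ofReal_iff hS] at ha
  rw [hj, ← ENNReal.ofReal_mul hL.le]
  refine ENNReal.ofReal_le_ofReal ?_
  have e1 : 1 / (c * L) / 2 * ((1 + η) * (2 * π * c * m * L)) = (1 + η) * π * m := by field_simp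
  have e2 : π / (1 / (c * L)) * j = π * c * (L * j) := by field_simp
  have e3 : π / y * i ≤ η * π * m := by
    rw [div_le_iff₀ (by positivity)] at h8
    have : i ≤ y * η * m := le_of_mul_le_mul_left (ha.trans h8) hL
    calc π / y * i ≤ π / y * (y * η * m) := by gcongr
      _ = _ := by field_simp
  rw [e1, e2] at k1
  have k2 : π * ((1 - ε) * m) ≤ π * (c * (L * j)) := by
    have : ε = 4 * η := by rw [hη]; ring
    rw [this]
    nlinarith
  rw [← mul_div_assoc, div_le_iff₀ hc, mul_comm _ c]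
  exact le_of_mul_le_mul_left k2 hπ

lemma sep (Z : Finset ℝ) : ∃ δ : ℝ, 0 < δ ∧ (Z : Set ℝ).PairwiseDisjoint fun γ => ball γ δ := by
  obtain ⟨δ, hδ, h⟩ := Z.finite_toSet.relatively_discrete
  obtain ⟨r, hr, hr'⟩ := ENNReal.lt_iff_exists_real_btwn.1 hδ
  have hr0 : 0 < r := by simpa using hr'.1
  refine ⟨r / 2, by positivity, fun u hu v hv huv => ball_disjoint_ball ?_⟩
  have h1 := hr'.2.le.trans (h u hu v hv huv)
  rw [edist_dist, ENNReal.ofReal_le_ofReal_iff dist_nonneg] at h1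
  linarith

end LB

open LB in
theorem pLB (h : StTest) : StLB := by
  intro Z hZ ε hε
  obtain ⟨δ, hδ, hd⟩ := sep Z
  have hS : 0 ≤ ∑ γ ∈ Z, (mult γ : ℝ) ^ 2 / (1 / 4 + γ ^ 2) :=
    Finset.sum_nonneg fun γ _ => by positivity
  have h1 := (Finset.eventually_all Z).2 fun γ hγ => one h (hZ γ hγ) hδ hε hS
  filter_upwards [h1] with N h1 a
  rcases le_total 1 ε with h2 | h2
  · rw [ENNReal.ofReal_of_nonpos (mul_nonpos_of_nonpos_of_nonneg (by linarith) hS)]
    exact zero_le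
  rcases le_total (ENNReal.ofReal (Real.log N) * ∫⁻ t, err (DP N a) t)
    (ENNReal.ofReal (∑ γ ∈ Z, (mult γ : ℝ) ^ 2 / (1 / 4 + γ ^ 2))) with h3 | h3
  · rw [Finset.mul_sum, ENNReal.ofReal_sum_of_nonneg fun γ _ =>
      mul_nonneg (by linarith) (by positivity)]
    refine (Finset.sum_le_sum fun γ hγ => h1 γ hγ a h3).trans ?_
    rw [← Finset.mul_sum, ← lintegral_biUnion_finset hd fun γ _ => measurableSet_ball]
    gcongr
    exact Measure.restrict_le_self
  · refine le_trans (ENNReal.ofReal_le_ofReal ?_) h3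
    nlinarith

end Pool.Agent.P.MP_323ce2_nt.NB
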