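import Mathlib
import Pool.Agent.P.MP_323ce2_nt.NB.Defs

open Complex Filter Topology Set MeasureTheory Metric
open scoped Real

namespace Pool.Agent.P.MP_323ce2_nt.NB

namespace Loc1

/-- Change of variables `t = t0 + u / L`. -/
lemma change (G : ℝ → ENNReal) (hG : Measurable G) (t0 : ℝ) {L : ℝ} (hL : 0 < L) :
    ENNReal.ofReal L * ∫⁻ t, G t = ∫⁻ u, G (t0 + u / L) := by
  have h1 : ∫⁻ u, G (t0 + u / L) = ∫⁻ x, G (t0 + x) ∂(Measure.map (fun u => L⁻¹ * u) volume) := by
    rw [lintegral_map (by fun_prop) (by fun_prop)]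
    congr 1; ext u; rw [div_eq_inv_mul]
  rw [h1, Real.map_volume_mul_left (inv_ne_zero hL.ne'), lintegral_smul_measure,
    lintegral_add_left_eq_self G t0, inv_inv, abs_of_pos hL, smul_eq_mul]

lemma one_le_log {N : ℕ} (hN : 3 ≤ N) : 1 ≤ Real.log N := by
  have h3 : (3 : ℝ) ≤ N := by exact_mod_cast hN
  rw [Real.le_log_iff_exp_le (by linarith)]
  linarith [Real.exp_one_lt_d9]

lemma tendsto_log : Tendsto (fun N : ℕ => Real.log N) atTop atTop :=
  Real.tendsto_log_atTop.comp tendsto_natCast_atTop_atTop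

lemma one_le_norm (y u : ℝ) : 1 ≤ ‖(1 + y * I : ℂ) + u * I‖ := by
  have := re_le_norm ((1 + y * I : ℂ) + u * I)
  simpa using this

lemma cont_int (hR : RHs) {K : ℂ → ℂ} {w : ℝ → ℂ} (hK : Ker K w) (t : ℝ) {L : ℝ} (hL : 0 < L) :
    Continuous fun y : ℝ =>
      K (1 + y * I) * (riemannZeta (cl t) * zi (cl t + (1 + y * I) / (L : ℝ)) - 1) := by
  have h1 := hK.continuous_line one_pos
  simp only [ofReal_one] at h1
  refine h1.mul ((continuous_const.mul ?_).sub continuous_const)
  refine continuous_iff_continuousAt.2 fun y => ?_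
  have hc : ContinuousAt (fun y : ℝ => cl t + (1 + y * I) / (L : ℝ)) y := by fun_prop
  refine ContinuousAt.comp (differentiableAt_zi hR ?_).continuousAt hc
  have : (cl t + (1 + y * I) / (L : ℝ)).re = 1 / 2 + L⁻¹ := by
    rw [add_re, cl_re, div_ofReal_re]
    simp
  rw [this]
  have := inv_pos.2 hL
  linarith

end Loc1

open Loc1 in
theorem pLoc1 (h1 : StL2) (h2 : StRep) (h3 : StRL) : StLoc1 := by
  intro hR K w hK t0
  obtain ⟨r, C, hr0, hr1, hb, hl⟩ := h3 hR t0
  refine ⟨r, hr0, fun H hH hH0 => ?_⟩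
  set k : ℝ → ℝ := fun y =>
    ‖K (1 + y * I)‖ * Real.exp (C * Real.log (3 + ‖(1 + y * I : ℂ)‖) ^ 2) with hk
  have hki : Integrable k := by
    have := hK.integrable C (c := 1) le_rfl
    simpa only [ofReal_one] using this
  have hk0 : ∀ y, 0 ≤ k y := fun y => by positivity
  set A : ℝ := ∫ y, k y with hA
  have hA0 : 0 ≤ A := integral_nonneg hk0
  set J : ℝ → ℝ := fun u => ∫ y : ℝ, k y / ‖(1 + y * I : ℂ) + u * I‖ with hJ
  have hJi : ∀ u : ℝ, Integrable fun y : ℝ => k y / ‖(1 + y * I : ℂ) + u * I‖ := by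
    intro u
    refine hki.mono' ?_ (Eventually.of_forall fun y => ?_)
    · refine hki.aestronglyMeasurable.div₀ (Continuous.aestronglyMeasurable (by fun_prop))
    · rw [Real.norm_of_nonneg (div_nonneg (hk0 y) (norm_nonneg _))]
      exact div_le_self (hk0 y) (one_le_norm y u)
  have hJ2 : ∫⁻ u, ENNReal.ofReal (J u ^ 2) ≠ ⊤ := by
    have := h1 k 1 1 0 hki hk0 one_pos one_pos
    simp only [ofReal_one, sub_zero, mul_one] at this
    exact ne_top_of_le_ne_top ENNReal.ofReal_ne_top this
  -- representation of the error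
  have hrep : ∀ N : ℕ, 3 ≤ N → ∀ t : ℝ, riemannZeta (cl t) * AN w N t - 1 =
      (2 * π : ℂ)⁻¹ * ∫ y : ℝ, K (1 + y * I) *
        (riemannZeta (cl t) * zi (cl t + (1 + y * I) / (Real.log N : ℝ)) - 1) := by
    intro N hN t
    have := h2 hR K w hK N hN t 1 le_rfl
    simpa only [ofReal_one] using this
  -- pointwise bound of the integrand
  have hpt : ∀ L : ℝ, 1 ≤ L → ∀ u : ℝ, |u / L| < r → ∀ y : ℝ,
      ‖K (1 + y * I) * (riemannZeta (cl (t0 + u / L)) *
        zi (cl (t0 + u / L) + (1 + y * I) / (L : ℝ)) - 1)‖ ≤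
        k y * (1 / L + 1 / ‖(1 + y * I : ℂ) + u * I‖) := by
    intro L hL u hu y
    have h := hb (t0 + u / L) (by simpa using hu) L hL (1 + y * I) (by simp)
    have e : (t0 + u / L - t0) * L = u := by field_simp; ring
    rw [e] at h
    rw [norm_mul, hk, mul_assoc]
    exact mul_le_mul_of_nonneg_left h (norm_nonneg _)
  have hpi : ‖(2 * π : ℂ)⁻¹‖ ≤ 1 := by
    rw [norm_inv]
    refine inv_le_one_of_one_le₀ ?_
    rw [norm_mul, Complex.norm_real, Real.norm_of_nonneg Real.pi_pos.le]
    simp only [Complex.norm_ofNat]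
    linarith [Real.pi_gt_three]
  have hE : ∀ N : ℕ, 3 ≤ N → ∀ u : ℝ, |u / Real.log N| < r →
      ‖1 - riemannZeta (cl (t0 + u / Real.log N)) * AN w N (t0 + u / Real.log N)‖ ^ 2 ≤
        8 * A ^ 2 * (1 + u ^ 2)⁻¹ + 2 * J u ^ 2 := by
    intro N hN u hu
    have hL := one_le_log hN
    set L := Real.log N
    have hL0 : 0 < L := by linarith
    have h4 : ‖1 - riemannZeta (cl (t0 + u / L)) * AN w N (t0 + u / L)‖ ≤ A / L + J u := by
      rw [norm_sub_rev, hrep N hN, norm_mul]
      refine (mul_le_of_le_one_left (norm_nonneg _) hpi).trans ?_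
      have hi : Integrable fun y : ℝ => k y / L + k y / ‖(1 + y * I : ℂ) + u * I‖ :=
        (hki.div_const L).add (hJi u)
      refine (norm_integral_le_of_norm_le hi (Eventually.of_forall fun y => ?_)).trans ?_
      · refine (hpt L hL u hu y).trans (le_of_eq ?_)
        ring
      · rw [integral_add (hki.div_const L) (hJi u), integral_div]
    have hJ0 : 0 ≤ J u := integral_nonneg fun y => div_nonneg (hk0 y) (norm_nonneg _)
    have hu' : |u| ≤ L := by
      rw [abs_div, abs_of_pos hL0, div_lt_iff₀ hL0] at hu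
      nlinarith
    have h5 : (A / L) ^ 2 ≤ 2 * A ^ 2 * (1 + u ^ 2)⁻¹ := by
      rw [div_pow, ← div_eq_mul_inv, div_le_div_iff₀ (by positivity) (by positivity)]
      have h6 : u ^ 2 ≤ L ^ 2 := by rw [← sq_abs u]; gcongr
      have h7 : 1 + u ^ 2 ≤ 2 * L ^ 2 := by nlinarith
      nlinarith [sq_nonneg A]
    have h8 : 0 ≤ A ^ 2 * (1 + u ^ 2)⁻¹ := by positivity
    calc _ ≤ (A / L + J u) ^ 2 := by gcongr
      _ ≤ 2 * (A / L) ^ 2 + 2 * J u ^ 2 := by nlinarith [sq_nonneg (A / L - J u)]
      _ ≤ _ := by nlinarith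
  obtain ⟨M, hM⟩ := (isCompact_closedBall t0 r).exists_bound_of_continuousOn hH.continuousOn
  have hM0 : 0 ≤ M := (norm_nonneg _).trans (hM t0 (mem_closedBall_self hr0.le))
  set F : ℕ → ℝ → ENNReal := fun N =>
    (ball t0 r).indicator fun t => ENNReal.ofReal (H t) * err (AN w N) t with hF
  have hFm : ∀ N, Measurable (F N) := fun N =>
    ((ENNReal.measurable_ofReal.comp hH.measurable).mul
      (measurable_err (isDP_AN w N).continuous)).indicator measurableSet_ball
  have hsmall : ∀ u : ℝ, Tendsto (fun N : ℕ => u / Real.log N) atTop (𝓝 0) := fun u =>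
    tendsto_log.const_div_atTop u
  have hmain : Tendsto (fun N : ℕ => ∫⁻ u, F N (t0 + u / Real.log N)) atTop
      (𝓝 (∫⁻ u, ENNReal.ofReal (H t0 / (2 * π * (1 / 4 + t0 ^ 2))) *
        ENNReal.ofReal (‖prof K (mult t0) u‖ ^ 2))) := by
    refine tendsto_lintegral_filter_of_dominated_convergence
      (fun u => ENNReal.ofReal M * (ENNReal.ofReal (8 * A ^ 2 * (1 + u ^ 2)⁻¹) +
        2 * ENNReal.ofReal (J u ^ 2)))
      (Eventually.of_forall fun N => (hFm N).comp (by fun_prop)) ?_ ?_
      (Eventually.of_forall fun u => ?_)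
    · filter_upwards [eventually_ge_atTop 3] with N hN
      refine Eventually.of_forall fun u => ?_
      by_cases hu : t0 + u / Real.log N ∈ ball t0 r
      · have hu' : |u / Real.log N| < r := by
          rwa [mem_ball, Real.dist_eq, add_sub_cancel_left] at hu
        simp only [hF, indicator_of_mem hu, err]
        refine mul_le_mul' (ENNReal.ofReal_le_ofReal
          ((le_abs_self _).trans (hM _ (ball_subset_closedBall hu)))) ?_
        have hd : 1 ≤ 2 * π * (1 / 4 + (t0 + u / Real.log N) ^ 2) := by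
          nlinarith [Real.pi_gt_three, sq_nonneg (t0 + u / Real.log N)]
        refine (ENNReal.ofReal_le_ofReal ((div_le_self (by positivity) hd).trans
          (hE N hN u hu'))).trans (le_of_eq ?_)
        rw [ENNReal.ofReal_add (by positivity) (by positivity), ENNReal.ofReal_mul zero_le_two,
          ENNReal.ofReal_ofNat]
      · simp only [hF, indicator_of_notMem hu, zero_le]
    · rw [lintegral_const_mul' _ _ ENNReal.ofReal_ne_top, lintegral_add_left (by fun_prop),
        lintegral_const_mul' _ _ ENNReal.ofNat_ne_top]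
      refine ENNReal.mul_ne_top ENNReal.ofReal_ne_top (ENNReal.add_ne_top.2
        ⟨?_, ENNReal.mul_ne_top ENNReal.ofNat_ne_top hJ2⟩)
      exact ((integrable_inv_one_add_sq.const_mul (8 * A ^ 2)).lintegral_lt_top).ne
    · have hin : ∀ᶠ N : ℕ in atTop, |u / Real.log N| < r := by
        have := (hsmall u).abs
        rw [abs_zero] at this
        exact this.eventually (gt_mem_nhds hr0)
      have ht : Tendsto (fun N : ℕ => t0 + u / Real.log N) atTop (𝓝 t0) := by
        simpa using (hsmall u).const_add t0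
      have hI : Tendsto (fun N : ℕ => ∫ y : ℝ, K (1 + y * I) *
          (riemannZeta (cl (t0 + u / Real.log N)) *
            zi (cl (t0 + u / Real.log N) + (1 + y * I) / (Real.log N : ℝ)) - 1)) atTop
          (𝓝 (∫ y : ℝ, K (1 + y * I) * ((u * I / (u * I + (1 + y * I))) ^ mult t0 - 1))) := by
        refine tendsto_integral_filter_of_dominated_convergence (fun y => k y * 2) ?_ ?_
          (hki.mul_const 2) (Eventually.of_forall fun y => ?_)
        · filter_upwards [eventually_ge_atTop 3] with N hN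
          exact (cont_int hR hK _ (by linarith [one_le_log hN])).aestronglyMeasurable
        · filter_upwards [eventually_ge_atTop 3, hin] with N hN hu
          refine Eventually.of_forall fun y => (hpt _ (one_le_log hN) u hu y).trans ?_
          refine mul_le_mul_of_nonneg_left ?_ (hk0 y)
          have a1 : 1 / Real.log N ≤ 1 := (div_le_one (by linarith [one_le_log hN])).2
            (one_le_log hN)
          have a2 : 1 / ‖(1 + y * I : ℂ) + u * I‖ ≤ 1 :=
            (div_le_one (by linarith [one_le_norm y u])).2 (one_le_norm y u)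
          linarith
        · exact (((hl u (1 + y * I) (by simp)).comp tendsto_log).sub_const 1).const_mul _
      have hE' : Tendsto (fun N : ℕ => riemannZeta (cl (t0 + u / Real.log N)) *
          AN w N (t0 + u / Real.log N) - 1) atTop (𝓝 (prof K (mult t0) u)) := by
        refine (hI.const_mul (2 * π : ℂ)⁻¹).congr' ?_
        filter_upwards [eventually_ge_atTop 3] with N hN
        exact (hrep N hN _).symm
      have hreal : Tendsto (fun N : ℕ => H (t0 + u / Real.log N) *
          (‖1 - riemannZeta (cl (t0 + u / Real.log N)) * AN w N (t0 + u / Real.log N)‖ ^ 2 /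
            (2 * π * (1 / 4 + (t0 + u / Real.log N) ^ 2)))) atTop
          (𝓝 (H t0 * (‖prof K (mult t0) u‖ ^ 2 / (2 * π * (1 / 4 + t0 ^ 2))))) := by
        refine ((hH.tendsto t0).comp ht).mul (Tendsto.div ?_ ?_ (by positivity))
        · simp only [norm_sub_rev (1 : ℂ)]
          exact hE'.norm.pow 2
        · exact ((ht.pow 2).const_add _).const_mul _
      have hlim := ENNReal.tendsto_ofReal hreal
      rw [show H t0 * (‖prof K (mult t0) u‖ ^ 2 / (2 * π * (1 / 4 + t0 ^ 2))) =
        H t0 / (2 * π * (1 / 4 + t0 ^ 2)) * ‖prof K (mult t0) u‖ ^ 2 by ring,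
        ENNReal.ofReal_mul (div_nonneg (hH0 t0) (by positivity))] at hlim
      refine hlim.congr' ?_
      filter_upwards [hin] with N hu
      have hu' : t0 + u / Real.log N ∈ ball t0 r := by
        rwa [mem_ball, Real.dist_eq, add_sub_cancel_left]
      simp only [hF, indicator_of_mem hu', err]
      rw [ENNReal.ofReal_mul (hH0 _)]
  rw [lintegral_const_mul' _ _ ENNReal.ofReal_ne_top] at hmain
  refine hmain.congr' ?_
  filter_upwards [eventually_ge_atTop 3] with N hN
  rw [← change (F N) (hFm N) t0 (by linarith [one_le_log hN]), hF,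
    lintegral_indicator measurableSet_ball]

end Pool.Agent.P.MP_323ce2_nt.NB
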