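import Mathlib
import Pool.Agent.P.MP_323ce2_nt.NB.Defs

/-! The main term of the test function. -/

open Complex Filter Topology Set MeasureTheory Metric
open scoped Real

namespace Pool.Agent.P.MP_323ce2_nt.NB

namespace Main

lemma cont (e : Polynomial ℝ) (L : ℝ) : Continuous (PL e L) := by
  unfold PL
  refine continuous_const.mul ?_
  refine intervalIntegral.continuous_parametric_intervalIntegral_of_continuous' ?_ 0 1
  have hc : Continuous fun x : ℝ => ((e.eval x : ℝ) : ℂ) := continuous_ofReal.comp e.continuous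
  exact (hc.comp continuous_snd).mul (by fun_prop)

lemma form {e : Polynomial ℝ} {m : ℕ} {α β : ℕ → ℂ} (h : ∀ z : ℂ, z ≠ 0 →
    ∫ x in (0 : ℝ)..1, (e.eval x : ℝ) * exp (z * x) =
      ∑ j ∈ Finset.Icc 1 m, (α j + β j * exp z) / z ^ j) {L : ℝ} (hL : L ≠ 0) {v : ℂ}
    (hv : v ≠ 0) :
    PL e L v = ∑ j ∈ Finset.Icc 1 m, L * ((α j + β j * exp (v * L)) / (v * L) ^ j) := by
  rw [PL, h _ (mul_ne_zero hv (ofReal_ne_zero.2 hL)), Finset.mul_sum]

lemma diff {e : Polynomial ℝ} {m : ℕ} {α β : ℕ → ℂ} (h : ∀ z : ℂ, z ≠ 0 →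
    ∫ x in (0 : ℝ)..1, (e.eval x : ℝ) * exp (z * x) =
      ∑ j ∈ Finset.Icc 1 m, (α j + β j * exp z) / z ^ j) {L : ℝ} (hL : L ≠ 0) :
    Differentiable ℂ (PL e L) := by
  have h1 : ∀ v : ℂ, v ≠ 0 → DifferentiableAt ℂ (PL e L) v := by
    intro v hv
    have h2 : PL e L =ᶠ[𝓝 v] fun v : ℂ =>
        ∑ j ∈ Finset.Icc 1 m, L * ((α j + β j * exp (v * L)) / (v * L) ^ j) := by
      filter_upwards [isOpen_compl_singleton.mem_nhds hv] with w hw using form h hL hw
    refine DifferentiableAt.congr_of_eventuallyEq ?_ h2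
    refine DifferentiableAt.fun_sum fun j _ => DifferentiableAt.const_mul ?_ _
    refine DifferentiableAt.div (by fun_prop) (by fun_prop) ?_
    exact pow_ne_zero _ (mul_ne_zero hv (ofReal_ne_zero.2 hL))
  intro v
  by_cases hv : v = 0
  · subst hv
    refine (analyticAt_of_differentiable_on_punctured_nhds_of_continuousAt ?_
      (cont e L).continuousAt).differentiableAt
    filter_upwards [self_mem_nhdsWithin] with w hw using h1 w hw
  · exact h1 v hv

lemma bound (e : Polynomial ℝ) : ∃ B : ℝ, 0 ≤ B ∧ ∀ (L : ℝ) (v : ℂ), 0 ≤ L → v.re ≤ 0 →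
    ‖PL e L v‖ ≤ L * B := by
  obtain ⟨B, hB⟩ := isCompact_Icc.exists_bound_of_continuousOn
    (e.continuous.continuousOn (s := Icc (0 : ℝ) 1))
  have hB0 : 0 ≤ B := (norm_nonneg _).trans (hB 0 ⟨le_rfl, zero_le_one⟩)
  refine ⟨B, hB0, fun L v hL hv => ?_⟩
  rw [PL, norm_mul, norm_real, Real.norm_of_nonneg hL]
  refine mul_le_mul_of_nonneg_left ?_ hL
  have := intervalIntegral.norm_integral_le_of_norm_le_const (a := (0 : ℝ)) (b := 1) (C := B)
    (f := fun x : ℝ => ((e.eval x : ℝ) : ℂ) * exp (v * L * x)) (fun x hx => by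
      rw [uIoc_of_le zero_le_one] at hx
      rw [norm_mul, norm_real, norm_exp]
      have h1 : (v * L * x).re ≤ 0 := by
        have : (v * L * x).re = v.re * (L * x) := by simp [mul_assoc]
        rw [this]
        exact mul_nonpos_of_nonpos_of_nonneg hv (mul_nonneg hL hx.1.le)
      calc _ ≤ B * 1 := mul_le_mul (hB x ⟨hx.1.le, hx.2⟩) (Real.exp_le_one_iff.2 h1)
            (Real.exp_pos _).le hB0
        _ = B := mul_one B)
  simpa using this

lemma cube_le {C : ℝ} (hC : 0 ≤ C) (σ t : ℝ) :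
    C / (1 + ‖(σ + t * I : ℂ)‖) ^ 3 ≤ C * (1 + t ^ 2)⁻¹ := by
  have h1 : |t| ≤ ‖(σ + t * I : ℂ)‖ := by simpa using abs_im_le_norm (σ + t * I : ℂ)
  have h0 := abs_nonneg t
  rw [div_eq_mul_inv]
  refine mul_le_mul_of_nonneg_left (inv_anti₀ (by positivity) ?_) hC
  calc 1 + t ^ 2 = 1 + |t| ^ 2 := by rw [sq_abs]
    _ ≤ (1 + |t|) ^ 3 := by nlinarith [pow_nonneg h0 3, pow_nonneg h0 2]
    _ ≤ _ := by gcongr

lemma term_lim (a b v : ℂ) (hv : v.re < 0) {j : ℕ} (hj : 1 ≤ j) :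
    Tendsto (fun L : ℝ => (L : ℂ) * ((a + b * exp (v * L)) / (v * L) ^ j)) atTop
      (𝓝 (if j = 1 then a / v else 0)) := by
  have hv0 : v ≠ 0 := by
    rintro rfl
    simp at hv
  have h1 : Tendsto (fun L : ℝ => exp (v * L)) atTop (𝓝 0) := by
    rw [tendsto_zero_iff_norm_tendsto_zero]
    simp only [norm_exp, mul_re, ofReal_re, ofReal_im, mul_zero, sub_zero]
    exact Real.tendsto_exp_atBot.comp (tendsto_id.const_mul_atTop_of_neg hv)
  have h2 : Tendsto (fun L : ℝ => (a + b * exp (v * L)) / v ^ j) atTop (𝓝 (a / v ^ j)) := by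
    simpa using ((h1.const_mul b).const_add a).div_const (v ^ j)
  obtain ⟨k, rfl⟩ := Nat.exists_eq_add_of_le' hj
  have h3 : Tendsto (fun L : ℝ => ((L : ℂ)⁻¹) ^ k) atTop (𝓝 ((0 : ℂ) ^ k)) := by
    refine Tendsto.pow ?_ k
    have := (continuous_ofReal.tendsto 0).comp tendsto_inv_atTop_zero
    simpa [Function.comp_def] using this
  have h4 := h2.mul h3
  have h5 : a / v ^ (k + 1) * (0 : ℂ) ^ k = if k + 1 = 1 then a / v else 0 := by
    rcases k with _ | k <;> simp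
  rw [h5] at h4
  refine h4.congr' ?_
  filter_upwards [eventually_gt_atTop 0] with L hL
  have : (L : ℂ) ≠ 0 := ofReal_ne_zero.2 hL.ne'
  rw [mul_pow, inv_pow]
  field_simp
  ring

lemma term_le (a b v : ℂ) (hv : v.re = -(1 / 4)) {j : ℕ} (hj : 1 ≤ j) {L : ℝ} (hL : 1 ≤ L) :
    ‖(L : ℂ) * ((a + b * exp (v * L)) / (v * L) ^ j)‖ ≤ (‖a‖ + ‖b‖) * 4 ^ j := by
  have hL0 : 0 < L := by linarith
  have h1 : 1 / 4 ≤ ‖v‖ := by
    have := abs_re_le_norm v
    rwa [hv, abs_neg, abs_of_pos (by norm_num)] at this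
  have h2 : ‖a + b * exp (v * L)‖ ≤ ‖a‖ + ‖b‖ := by
    refine (norm_add_le _ _).trans (add_le_add le_rfl ?_)
    rw [norm_mul, norm_exp]
    refine mul_le_of_le_one_right (norm_nonneg _) (Real.exp_le_one_iff.2 ?_)
    simp only [mul_re, ofReal_re, ofReal_im, mul_zero, sub_zero, hv]
    linarith
  have h3 : L ≤ L ^ j := le_self_pow₀ hL (by omega)
  rw [norm_mul, norm_div, norm_pow, norm_mul, norm_real, Real.norm_of_nonneg hL0.le, mul_pow,
    ← mul_div_assoc, div_le_iff₀ (by positivity)]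
  have h4 : 1 ≤ 4 ^ j * ‖v‖ ^ j := by
    rw [← mul_pow]
    exact one_le_pow₀ (by linarith)
  calc L * ‖a + b * exp (v * L)‖ ≤ L ^ j * (‖a‖ + ‖b‖) := by gcongr
    _ = (‖a‖ + ‖b‖) * 1 * L ^ j := by ring
    _ ≤ (‖a‖ + ‖b‖) * (4 ^ j * ‖v‖ ^ j) * L ^ j := by gcongr
    _ = _ := by ring

end Main

open Main in
theorem pMain (h1 : StExp) (h2 : StCH) : StMain := by
  intro e γ r C hr hb
  obtain ⟨α, β, hα, hf⟩ := h1 (e.natDegree + 1) e (Nat.lt_succ_self _)
  obtain ⟨B, hB0, hB⟩ := bound e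
  have hC : 0 ≤ C := by
    have h3 := (norm_nonneg _).trans (hb 1 (by simp))
    by_contra h4
    exact absurd h3 (not_le.2 (div_neg_of_neg_of_pos (not_le.1 h4) (by positivity)))
  have hre : ∀ σ t : ℝ, ((σ : ℂ) + t * I).re = σ := fun σ t => by simp
  have hrc : ∀ σ : ℝ, 0 < σ → Continuous fun t : ℝ => r (σ + t * I) := fun σ hσ =>
    continuous_iff_continuousAt.2 fun t =>
      ContinuousAt.comp (f := fun t : ℝ => (σ : ℂ) + t * I) (g := r)
        (hr _ (by rwa [hre])).continuousAt (by fun_prop)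
  have hHc : ∀ L σ : ℝ, 0 < σ →
      Continuous fun t : ℝ => PL e L (σ + t * I - cl γ) * r (σ + t * I) := fun L σ hσ =>
    ((cont e L).comp (by fun_prop)).mul (hrc σ hσ)
  have hrb : ∀ σ t : ℝ, 0 < σ → ‖r (σ + t * I)‖ ≤ C * (1 + t ^ 2)⁻¹ := fun σ t hσ =>
    (hb _ (by rwa [hre])).trans (cube_le hC σ t)
  have hHb : ∀ L σ t : ℝ, 0 ≤ L → 0 < σ → σ ≤ 1 / 2 →
      ‖PL e L (σ + t * I - cl γ) * r (σ + t * I)‖ ≤ L * B * (C * (1 + t ^ 2)⁻¹) := by
    intro L σ t hL hσ hσ'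
    rw [norm_mul]
    refine mul_le_mul (hB L _ hL ?_) (hrb σ t hσ) (norm_nonneg _) (by positivity)
    rw [sub_re, hre, cl_re]
    linarith
  have hHi : ∀ L σ : ℝ, 0 ≤ L → 0 < σ → σ ≤ 1 / 2 →
      Integrable fun t : ℝ => PL e L (σ + t * I - cl γ) * r (σ + t * I) := fun L σ hL hσ hσ' =>
    ((integrable_inv_one_add_sq.const_mul C).const_mul (L * B)).mono'
      (hHc L σ hσ).aestronglyMeasurable (Eventually.of_forall fun t => hHb L σ t hL hσ hσ')
  have hshift : ∀ L : ℝ, 0 < L → ∫ t : ℝ, PL e L (cl t - cl γ) * r (cl t) =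
      ∫ t : ℝ, PL e L (((1 / 4 : ℝ) : ℂ) + t * I - cl γ) * r (((1 / 4 : ℝ) : ℂ) + t * I) := by
    intro L hL
    have hcl : ∀ t : ℝ, cl t = ((1 / 2 : ℝ) : ℂ) + t * I := fun t => by
      rw [cl]; push_cast; ring
    have h3 := shift_line (H := fun s => PL e L (s - cl γ) * r s) (σ1 := 1 / 4) (σ2 := 1 / 2)
      (fun s hs => (((diff hf hL.ne' _).comp s (differentiableAt_id.sub_const _)).mul
        (hr s hs)).differentiableWithinAt) (by norm_num) (by norm_num)
      (b := fun t => L * B * (C * (1 + t ^ 2)⁻¹)) ?_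
      (fun σ t h h' => by simpa only [sq_abs] using hHb L σ t hL.le (by linarith) h')
      (hHi L _ hL.le (by norm_num) (by norm_num)) (hHi L _ hL.le (by norm_num) (by norm_num))
    · rw [← h3]
      refine integral_congr_ae (Eventually.of_forall fun t => ?_)
      simp only [hcl t]
    · have h4 : Tendsto (fun t : ℝ => (1 + t ^ 2)⁻¹) atTop (𝓝 0) :=
        tendsto_inv_atTop_zero.comp (tendsto_atTop_add_const_left _ _
          (tendsto_pow_atTop two_ne_zero))
      simpa using (h4.const_mul C).const_mul (L * B)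
  obtain ⟨-, hCH⟩ := h2 r (1 / 4) C (cl γ) (by rw [cl_re]; norm_num)
    (fun s hs => hr s (by linarith)) (fun s hs => (hb s (by linarith)).trans (by
      have h0 := norm_nonneg s
      exact div_le_div_of_nonneg_left hC (by positivity)
        (le_self_pow₀ (by linarith) (by norm_num))))
  have hv : ∀ t : ℝ, (((1 / 4 : ℝ) : ℂ) + t * I - cl γ).re = -(1 / 4) := fun t => by
    rw [sub_re, hre, cl_re]; norm_num
  have hv0 : ∀ t : ℝ, ((1 / 4 : ℝ) : ℂ) + t * I - cl γ ≠ 0 := fun t h => by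
    have := hv t
    rw [h] at this
    norm_num at this
  have hlim : Tendsto (fun L : ℝ => ∫ t : ℝ,
      PL e L (((1 / 4 : ℝ) : ℂ) + t * I - cl γ) * r (((1 / 4 : ℝ) : ℂ) + t * I)) atTop
      (𝓝 (∫ t : ℝ, (e.eval 0 : ℝ) * (r (((1 / 4 : ℝ) : ℂ) + t * I) /
        (cl γ - (((1 / 4 : ℝ) : ℂ) + t * I))))) := by
    refine tendsto_integral_filter_of_dominated_convergence
      (fun t => (∑ j ∈ Finset.Icc 1 (e.natDegree + 1), (‖α j‖ + ‖β j‖) * 4 ^ j) *
        (C * (1 + t ^ 2)⁻¹))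
      (Eventually.of_forall fun L => (hHc L _ (by norm_num)).aestronglyMeasurable) ?_
      ((integrable_inv_one_add_sq.const_mul C).const_mul _) (Eventually.of_forall fun t => ?_)
    · filter_upwards [eventually_ge_atTop 1] with L hL
      refine Eventually.of_forall fun t => ?_
      rw [norm_mul]
      refine mul_le_mul ?_ (hrb _ t (by norm_num)) (norm_nonneg _) (by positivity)
      rw [form hf (by linarith) (hv0 t)]
      exact (norm_sum_le _ _).trans (Finset.sum_le_sum fun j hj =>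
        term_le _ _ _ (hv t) (Finset.mem_Icc.1 hj).1 hL)
    · have h3 := tendsto_finsetSum (Finset.Icc 1 (e.natDegree + 1)) fun j hj =>
        term_lim (α j) (β j) _ (by rw [hv t]; norm_num) (Finset.mem_Icc.1 hj).1
      have h4 : ∑ j ∈ Finset.Icc 1 (e.natDegree + 1),
          (if j = 1 then α j / (((1 / 4 : ℝ) : ℂ) + t * I - cl γ) else 0) =
          α 1 / (((1 / 4 : ℝ) : ℂ) + t * I - cl γ) := by
        rw [Finset.sum_ite_eq', if_pos (by simp)]
      rw [h4] at h3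
      have h5 := h3.mul_const (r (((1 / 4 : ℝ) : ℂ) + t * I))
      have h6 : α 1 / (((1 / 4 : ℝ) : ℂ) + t * I - cl γ) * r (((1 / 4 : ℝ) : ℂ) + t * I) =
          (e.eval 0 : ℝ) * (r (((1 / 4 : ℝ) : ℂ) + t * I) /
            (cl γ - (((1 / 4 : ℝ) : ℂ) + t * I))) := by
        rw [hα, ← neg_sub (cl γ), neg_div_neg_eq]
        ring
      rw [h6] at h5
      refine h5.congr' ?_
      filter_upwards [eventually_gt_atTop 0] with L hL
      rw [form hf hL.ne' (hv0 t)]
  rw [integral_const_mul, hCH] at hlim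
  have h7 : ((e.eval 0 : ℝ) : ℂ) * (2 * π * r (cl γ)) = 2 * π * (e.eval 0 : ℝ) * r (cl γ) := by
    ring
  rw [h7] at hlim
  refine hlim.congr' ?_
  filter_upwards [eventually_gt_atTop 0] with L hL using (hshift L hL).symm

end Pool.Agent.P.MP_323ce2_nt.NB
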