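import Mathlib
import Pool.Agent.P.MP_323ce2_nt.NB.Defs

/-! A probability measure on a short interval whose Laplace transform decays fast. -/

open Complex Filter Topology Set MeasureTheory Metric
open scoped Real

namespace Pool.Agent.P.MP_323ce2_nt.NB

namespace Nu

/-- The lengths of the intervals. -/
noncomputable def bb (η : ℝ) (i : ℕ) : ℝ :=
  η * ((Real.log (3 + i))⁻¹ - (Real.log (3 + (i + 1 : ℕ)))⁻¹)

lemma bb_ge {η : ℝ} (hη : 0 < η) {i n : ℕ} (h : i < n) :
    η / ((n + 3) * Real.log (n + 3) ^ 2) ≤ bb η i := by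
  have hi : (0 : ℝ) ≤ i := Nat.cast_nonneg i
  have hn : (i : ℝ) + 1 ≤ n := by exact_mod_cast h
  have h1 := one_le_log_three_add hi
  have h2 : Real.log (3 + i) ≤ Real.log (3 + (i + 1)) := Real.log_le_log (by linarith) (by linarith)
  have h3 : Real.log (3 + (i + 1)) ≤ Real.log (n + 3) := Real.log_le_log (by linarith) (by linarith)
  have h4 : 1 / ((n : ℝ) + 3) ≤ Real.log (3 + (i + 1)) - Real.log (3 + i) := by
    rw [← Real.log_div (by linarith) (by linarith)]
    refine le_trans ?_ (Real.one_sub_inv_le_log_of_pos (by positivity))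
    have e : 1 - ((3 + ((i : ℝ) + 1)) / (3 + i))⁻¹ = 1 / (3 + (i + 1)) := by
      field_simp
      ring
    rw [e]
    exact one_div_le_one_div_of_le (by linarith) (by linarith)
  rw [bb, Nat.cast_add, Nat.cast_one, inv_sub_inv (by linarith) (by linarith), div_eq_mul_one_div,
    ← one_div_mul_one_div, mul_one_div (1 / ((n : ℝ) + 3))]
  refine mul_le_mul_of_nonneg_left ?_ hη.le
  refine div_le_div₀ (le_trans (by positivity) h4) h4 (mul_pos (by linarith) (by linarith)) ?_
  rw [sq]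
  exact mul_le_mul (h2.trans h3) h3 (by linarith) (by linarith)

lemma bb_pos {η : ℝ} (hη : 0 < η) (i : ℕ) : 0 < bb η i := by
  refine lt_of_lt_of_le ?_ (bb_ge hη (Nat.lt_succ_self i))
  have : 0 < Real.log (((i + 1 : ℕ) : ℝ) + 3) :=
    Real.log_pos (by linarith [(Nat.cast_nonneg (i + 1) : (0 : ℝ) ≤ ((i + 1 : ℕ) : ℝ))])
  positivity

lemma bb_sum {η : ℝ} (hη : 0 < η) (n : ℕ) : ∑ i ∈ Finset.range n, bb η i ≤ η := by
  simp only [bb]
  rw [← Finset.mul_sum, Finset.sum_range_sub' (fun i : ℕ => (Real.log (3 + i))⁻¹)]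
  have h1 := one_le_log_three_add (Nat.cast_nonneg (α := ℝ) n)
  have h2 := one_le_log_three_add (Nat.cast_nonneg (α := ℝ) 0)
  have h3 := inv_le_one_of_one_le₀ h2
  have h4 : 0 ≤ (Real.log (3 + n))⁻¹ := by positivity
  nlinarith

lemma pow_le_exp {q a x : ℝ} {n : ℕ} (hq0 : 0 ≤ q) (hq : q ≤ Real.exp (-a)) (ha : 0 ≤ a)
    (hn : x ≤ n) : q ^ n ≤ Real.exp (-(x * a)) := by
  refine (pow_le_pow_left₀ hq0 hq n).trans ?_
  rw [← Real.exp_nat_mul]
  exact Real.exp_le_exp.2 (by nlinarith)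

lemma first {A C : ℝ} (hA : 0 < A) (hC : 0 ≤ C) : ∃ c : ℝ, ∀ g r : ℝ, 1 ≤ r →
    (∀ n : ℕ, g ≤ (A * ((n + 3) * Real.log (n + 3) ^ 2) / r) ^ n) →
    g ≤ Real.exp (c - 2 * (C * Real.log (3 + r) ^ 2)) := by
  refine ⟨2 * C * (4096 * (4 * A * (4 * C + 4) ^ 3)) ^ 2, fun g r hr h => ?_⟩
  have hu := one_le_log_three_add (zero_le_one.trans hr)
  have he : Real.exp (Real.log (3 + r)) = 3 + r := Real.exp_log (by linarith)
  set u := Real.log (3 + r)
  set U := 4096 * (4 * A * (4 * C + 4) ^ 3) with hU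
  rcases le_total u U with h1 | h1
  · refine le_trans (by simpa using h 0) (Real.one_le_exp ?_)
    have := mul_le_mul_of_nonneg_left (pow_le_pow_left₀ (by linarith) h1 2) hC
    linarith
  · set n := ⌈4 * C * u⌉₊
    have h2 : 4 * C * u ≤ n := Nat.le_ceil _
    have h3 : (n : ℝ) + 3 ≤ (4 * C + 4) * u := by
      have := (Nat.ceil_lt_add_one (show 0 ≤ 4 * C * u by positivity)).le
      nlinarith
    have hn : (0 : ℝ) ≤ n := Nat.cast_nonneg n
    have h4 : Real.log (n + 3) ≤ n + 3 := Real.log_le_self (by linarith)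
    have h5 : 0 ≤ Real.log (n + 3) := Real.log_nonneg (by linarith)
    have h6 : ((n : ℝ) + 3) * Real.log (n + 3) ^ 2 ≤ ((4 * C + 4) * u) ^ 3 := by
      calc _ ≤ ((4 * C + 4) * u) * ((4 * C + 4) * u) ^ 2 := by gcongr; exact h4.trans h3
        _ = _ := by ring
    have h7 : (u / 8) ^ 4 ≤ Real.exp (u / 2) := by
      rw [show u / 2 = (4 : ℕ) * (u / 8) by push_cast; ring, Real.exp_nat_mul]
      exact pow_le_pow_left₀ (by positivity) (by linarith [Real.add_one_le_exp (u / 8)]) 4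
    have h8 : 4 * (A * ((4 * C + 4) * u) ^ 3) ≤ Real.exp (u / 2) := by
      refine le_trans ?_ h7
      calc _ = U * u ^ 3 / 4096 := by rw [hU]; ring
        _ ≤ u * u ^ 3 / 4096 := by gcongr
        _ = _ := by ring
    have h9 : A * ((n + 3) * Real.log (n + 3) ^ 2) / r ≤ Real.exp (-(u / 2)) := by
      have e : Real.exp (u / 2) = Real.exp (-(u / 2)) * (3 + r) := by
        rw [← he, ← Real.exp_add]; congr 1; ring
      rw [div_le_iff₀ (by linarith)]
      have := mul_le_mul_of_nonneg_left h6 hA.le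
      have := Real.exp_pos (-(u / 2))
      nlinarith
    refine (h n).trans ((pow_le_exp (by positivity) h9 (by positivity) h2).trans
      (Real.exp_le_exp.2 ?_))
    have : 0 ≤ 2 * C * U ^ 2 := by positivity
    nlinarith

lemma second {A C ε : ℝ} (hA : 0 < A) (hC : 0 ≤ C) (hε : 0 < ε) : ∃ l0 : ℝ, ∀ l g r : ℝ, l0 ≤ l →
    1 ≤ r → (∀ n : ℕ, g ≤ (A * ((n + 3) * Real.log (n + 3) ^ 2) / r) ^ n) →
    g ≤ Real.exp (2 * (ε * l) - 2 * (C * l / √(Real.log l) * Real.log (1 + 100 * r / l))) := by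
  refine ⟨Real.exp ((3 + 29 * C / ε + 8 * A + 8 * C) ^ 4), fun l g r hl hr h => ?_⟩
  have hl0 : 0 < l := (Real.exp_pos _).trans_le hl
  have hd : 0 ≤ 29 * C / ε := by positivity
  obtain ⟨t, ht, e1, e2⟩ : ∃ t : ℝ, 3 + 29 * C / ε + 8 * A + 8 * C ≤ t ∧ √(Real.log l) = t ^ 2 ∧
      Real.log l = t ^ 4 := by
    have h1 := (Real.le_log_iff_exp_le hl0).2 hl
    have h2 : 0 ≤ Real.log l := le_trans (by positivity) h1
    have h3 : √(Real.log l) = √(√(Real.log l)) ^ 2 := (Real.sq_sqrt (Real.sqrt_nonneg _)).symm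
    have h4 : Real.log l = √(√(Real.log l)) ^ 4 := by
      rw [show 4 = 2 * 2 from rfl, pow_mul, ← h3, Real.sq_sqrt h2]
    refine ⟨_, ?_, h3, h4⟩
    rw [h4] at h1
    exact le_of_pow_le_pow_left₀ (by norm_num) (Real.sqrt_nonneg _) h1
  have ht3 : 3 ≤ t := by linarith
  have ht0 : 0 < t := by linarith
  have ht2 : t ≤ t ^ 2 := le_self_pow₀ (by linarith) (by norm_num)
  have ht4 : t ≤ t ^ 4 := le_self_pow₀ (by linarith) (by norm_num)
  have hl4 : 4 ≤ l := by
    have := Real.add_one_le_exp (Real.log l)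
    rw [Real.exp_log hl0] at this
    linarith
  rw [e1, mul_div_assoc 100]
  have hx0 : 0 < r / l := by positivity
  have hr' : r = r / l * l := by field_simp
  set x := r / l
  rcases le_total x (t ^ 24) with h1 | h1
  · refine le_trans (by simpa using h 0) (Real.one_le_exp ?_)
    have h2 : 1 ≤ t ^ 24 := one_le_pow₀ (by linarith)
    have h3 : Real.log (1 + 100 * x) ≤ 29 * t := by
      have h4 : (101 : ℝ) ≤ t ^ 5 := le_trans (by norm_num) (pow_le_pow_left₀ (by norm_num) ht3 5)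
      calc _ ≤ Real.log (t ^ 29) := Real.log_le_log (by positivity) (by
            rw [show t ^ 29 = t ^ 5 * t ^ 24 by ring]
            nlinarith)
        _ = 29 * Real.log t := by rw [Real.log_pow]; norm_num
        _ ≤ _ := by linarith [Real.log_le_self ht0.le]
    have h4 : 29 * C ≤ ε * t := by
      have : 29 * C / ε ≤ t := by linarith
      rw [div_le_iff₀ hε] at this
      linarith
    have h5 : C * l / t ^ 2 * Real.log (1 + 100 * x) ≤ ε * l := by
      calc _ ≤ C * l / t ^ 2 * (29 * t) := by gcongr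
        _ = 29 * C * l / t := by field_simp
        _ ≤ ε * t * l / t := by gcongr
        _ = _ := by field_simp
    linarith
  · set n := ⌈l⌉₊
    have h2 : l ≤ n := Nat.le_ceil _
    have h3 : (n : ℝ) + 3 ≤ 2 * l := by linarith [(Nat.ceil_lt_add_one hl0.le).le]
    have hn : (0 : ℝ) ≤ n := Nat.cast_nonneg n
    have h5 : 0 ≤ Real.log (n + 3) := Real.log_nonneg (by linarith)
    have h4 : Real.log (n + 3) ≤ 2 * t ^ 4 := by
      calc _ ≤ Real.log (l ^ 2) := Real.log_le_log (by linarith) (by nlinarith)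
        _ = _ := by rw [Real.log_pow, e2]; norm_num
    obtain ⟨y, hy, e3⟩ : ∃ y : ℝ, t ^ 12 ≤ y ∧ x = y ^ 2 :=
      ⟨√x, Real.le_sqrt_of_sq_le (by rwa [← pow_mul]), (Real.sq_sqrt hx0.le).symm⟩
    have hy1 : (101 : ℝ) ≤ y :=
      le_trans (le_trans (by norm_num) (pow_le_pow_left₀ (by norm_num) ht3 12)) hy
    have hy0 : 0 < y := by linarith
    have h6 : A * ((n + 3) * Real.log (n + 3) ^ 2) / r ≤ Real.exp (-Real.log y) := by
      rw [Real.exp_neg, Real.exp_log hy0, div_le_iff₀ (by linarith), hr', e3]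
      calc _ ≤ A * (2 * l * (2 * t ^ 4) ^ 2) := by gcongr
        _ = 8 * A * t ^ 8 * l := by ring
        _ ≤ t ^ 4 * t ^ 8 * l := by gcongr; linarith
        _ = t ^ 12 * l := by ring
        _ ≤ y * l := by gcongr
        _ = _ := by field_simp
    have h7 : 0 ≤ Real.log y := Real.log_nonneg (by linarith)
    have h8 : Real.log (1 + 100 * x) ≤ 4 * Real.log y := by
      have h9 : (101 : ℝ) ≤ y ^ 2 := hy1.trans (le_self_pow₀ (by linarith) (by norm_num))
      calc _ ≤ Real.log (y ^ 4) := Real.log_le_log (by positivity) (by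
            rw [e3, show y ^ 4 = y ^ 2 * y ^ 2 by ring]
            nlinarith)
        _ = _ := by rw [Real.log_pow]; norm_num
    refine (h n).trans ((pow_le_exp (by positivity) h6 h7 h2).trans (Real.exp_le_exp.2 ?_))
    have h9 : 2 * (C * l / t ^ 2 * Real.log (1 + 100 * x)) ≤ l * Real.log y := by
      calc _ ≤ 2 * (C * l / t ^ 2 * (4 * Real.log y)) := by gcongr
        _ = 8 * C * (l * Real.log y) / t ^ 2 := by ring
        _ ≤ t ^ 2 * (l * Real.log y) / t ^ 2 := by gcongr; linarith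
        _ = _ := by field_simp
    have : 0 ≤ ε * l := by positivity
    linarith

end Nu

theorem pNu (h : StNu0) : StNu := by
  intro η hη
  obtain ⟨ν, h1, h2, h3⟩ := h (Nu.bb η) η (Nu.bb_pos hη) (Nu.bb_sum hη)
  refine ⟨ν, h1, h2, fun C ε hε => ?_⟩
  have hA : 0 < 2 / η := by positivity
  obtain ⟨c, hc⟩ := Nu.first hA (abs_nonneg C)
  obtain ⟨l0, hl0⟩ := Nu.second hA (abs_nonneg C) hε
  refine ⟨Real.exp (c / 2), max l0 1, fun l hl z hz => ?_⟩
  have hl1 : 1 ≤ l := (le_max_right _ _).trans hl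
  have hr : 1 ≤ ‖z‖ := hz.trans (re_le_norm z)
  have hz0 : z ≠ 0 := norm_pos_iff.1 (by linarith)
  have he := Real.exp_pos (η * z.re)
  have hg : ∀ n : ℕ, ‖∫ y, exp (z * y) ∂ν‖ / Real.exp (η * z.re) ≤
      (2 / η * ((n + 3) * Real.log (n + 3) ^ 2) / ‖z‖) ^ n := fun n => by
    rw [div_le_iff₀' he]
    refine (h3 (Finset.range n) z (by linarith) hz0).trans (mul_le_mul_of_nonneg_left ?_ he.le)
    have h4 : 0 < Real.log (n + 3) := Real.log_pos (by linarith [Nat.cast_nonneg (α := ℝ) n])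
    refine (Finset.prod_le_prod (g := fun _ => 2 / η * ((n + 3) * Real.log (n + 3) ^ 2) / ‖z‖)
      (fun i _ => by have := Nu.bb_pos hη i; positivity) fun i hi => ?_).trans
      (by rw [Finset.prod_const, Finset.card_range])
    calc _ ≤ 2 / (η / ((n + 3) * Real.log (n + 3) ^ 2) * ‖z‖) := by
          gcongr
          exact Nu.bb_ge hη (Finset.mem_range.1 hi)
      _ = _ := by field_simp
  have k1 := hc _ _ hr hg
  have k2 := hl0 l _ _ ((le_max_left _ _).trans hl) hr hg
  have k3 : ex C l ‖z‖ ≤ ex |C| l ‖z‖ := by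
    have h4 : 0 ≤ Real.log (1 + 100 * ‖z‖ / l) :=
      Real.log_nonneg (le_add_of_nonneg_right (by positivity))
    unfold ex
    gcongr <;> exact le_abs_self C
  have k4 : ‖∫ y, exp (z * y) ∂ν‖ / Real.exp (η * z.re) ≤
      Real.exp (c / 2 + ε * l - ex |C| l ‖z‖) := by
    unfold ex
    rcases le_total (c - 2 * (|C| * Real.log (3 + ‖z‖) ^ 2))
      (2 * (ε * l) - 2 * (|C| * l / √(Real.log l) * Real.log (1 + 100 * ‖z‖ / l))) with h | h
    · exact k1.trans (Real.exp_le_exp.2 (by linarith))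
    · exact k2.trans (Real.exp_le_exp.2 (by linarith))
  rw [div_le_iff₀ he] at k4
  calc _ ≤ Real.exp (c / 2 + ε * l - ex |C| l ‖z‖) * Real.exp (η * z.re) *
        Real.exp (ex |C| l ‖z‖) := by gcongr
    _ = _ := by
      rw [← Real.exp_add, ← Real.exp_add, ← Real.exp_add]
      congr 1
      ring

end Pool.Agent.P.MP_323ce2_nt.NB
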