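import Mathlib
import Pool.Agent.P.MP_323ce2_nt.NB.Defs

/-! The law of a random series of independent uniform variables and its Laplace transform. -/

open Complex Filter Topology Set MeasureTheory Metric
open scoped Real

namespace Pool.Agent.P.MP_323ce2_nt.NB

namespace Nu0

/-- The Laplace transform of the uniform law on the unit interval. -/
noncomputable def g (w : ℂ) : ℂ := ∫ u : unitInterval, exp (w * ((u : ℝ) : ℂ))

lemma nexp_le {w : ℂ} (hw : 0 ≤ w.re) {x c : ℝ} (hx : x ≤ c) :
    ‖exp (w * (x : ℂ))‖ ≤ Real.exp (c * w.re) := by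
  rw [norm_exp]
  refine Real.exp_le_exp.2 ?_
  rw [re_mul_ofReal, mul_comm]
  exact mul_le_mul_of_nonneg_right hx hw

lemma g_le {w : ℂ} (hw : 0 ≤ w.re) : ‖g w‖ ≤ Real.exp w.re := by
  have h := norm_integral_le_of_norm_le_const (μ := (volume : Measure unitInterval))
    (f := fun u : unitInterval => exp (w * ((u : ℝ) : ℂ))) (C := Real.exp (1 * w.re))
    (Eventually.of_forall fun u => nexp_le hw u.2.2)
  simpa [g] using h

lemma g_eq {w : ℂ} (hw : w ≠ 0) : g w = (exp w - 1) / w := by
  have h1 : g w = ∫ x in Icc (0 : ℝ) 1, exp (w * (x : ℂ)) := by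
    rw [g, unitInterval.volume_def]
    exact integral_subtype_comap measurableSet_Icc fun x : ℝ => exp (w * (x : ℂ))
  rw [h1, integral_Icc_eq_integral_Ioc, ← intervalIntegral.integral_of_le zero_le_one,
    integral_exp_mul_complex hw]
  simp

lemma g_le' {w : ℂ} (hw : 0 ≤ w.re) (h0 : w ≠ 0) : ‖g w‖ ≤ Real.exp w.re * (2 / ‖w‖) := by
  rw [g_eq h0, norm_div, ← mul_div_assoc]
  refine div_le_div_of_nonneg_right ?_ (norm_nonneg w)
  have h1 := norm_sub_le (exp w) 1
  rw [norm_exp, norm_one] at h1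
  have h2 := Real.one_le_exp hw
  linarith

/-- The product law. -/
noncomputable def law : Measure (ℕ → unitInterval) :=
  Measure.infinitePi fun _ : ℕ => (volume : Measure unitInterval)

instance : IsProbabilityMeasure law := by unfold law; infer_instance

lemma integral_partial (b : ℕ → ℝ) (z : ℂ) (n : ℕ) :
    ∫ ω, exp (z * ((∑ i ∈ Finset.range n, b i * (ω i : ℝ) : ℝ) : ℂ)) ∂law =
      ∏ i ∈ Finset.range n, g (z * b i) := by
  have h := integral_restrict_infinitePi (fun _ : ℕ => (volume : Measure unitInterval))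
    (s := Finset.range n)
    (f := fun y => ∏ i : Finset.range n, exp (z * b i * ((y i : ℝ) : ℂ)))
    (Continuous.aestronglyMeasurable (by fun_prop))
  rw [integral_fintype_prod_eq_prod
    (fun (i : Finset.range n) (u : unitInterval) => exp (z * b i * ((u : ℝ) : ℂ)))] at h
  rw [← Finset.prod_coe_sort]
  refine Eq.trans ?_ h
  refine integral_congr_ae (Eventually.of_forall fun ω => ?_)
  show _ = ∏ i : Finset.range n, exp (z * b i * ((ω i : ℝ) : ℂ))
  rw [Finset.prod_coe_sort (Finset.range n) fun i => exp (z * b i * ((ω i : ℝ) : ℂ)),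
    ← exp_sum]
  refine congrArg exp ?_
  push_cast
  rw [Finset.mul_sum]
  exact Finset.sum_congr rfl fun i _ => by ring

lemma prod_le {b : ℕ → ℝ} {η : ℝ} (hb : ∀ i, 0 < b i) {n : ℕ}
    (hη : ∑ i ∈ Finset.range n, b i ≤ η) {S : Finset ℕ} (hS : S ⊆ Finset.range n) {z : ℂ}
    (hz : 0 ≤ z.re) (h0 : z ≠ 0) :
    ‖∏ i ∈ Finset.range n, g (z * b i)‖ ≤ Real.exp (η * z.re) * ∏ i ∈ S, 2 / (b i * ‖z‖) := by
  classical
  have hre : ∀ i, (z * b i).re = b i * z.re := fun i => by rw [re_mul_ofReal, mul_comm]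
  have hpos : ∀ i, 0 ≤ (z * b i).re := fun i => by rw [hre]; exact mul_nonneg (hb i).le hz
  have h1 : ∀ i ∈ Finset.range n, ‖g (z * b i)‖ ≤
      Real.exp (b i * z.re) * if i ∈ S then 2 / (b i * ‖z‖) else 1 := by
    intro i _
    split_ifs with hi
    · have := g_le' (hpos i) (mul_ne_zero h0 (ofReal_ne_zero.2 (hb i).ne'))
      rwa [hre, norm_mul, norm_real, Real.norm_of_nonneg (hb i).le, mul_comm ‖z‖] at this
    · have := g_le (hpos i)
      rwa [hre, ← mul_one (Real.exp _)] at this
  rw [norm_prod]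
  refine (Finset.prod_le_prod (fun i _ => norm_nonneg _) h1).trans ?_
  rw [Finset.prod_mul_distrib, ← Real.exp_sum, ← Finset.sum_mul, Finset.prod_ite_mem,
    Finset.inter_eq_right.2 hS]
  refine mul_le_mul_of_nonneg_right (Real.exp_le_exp.2 (mul_le_mul_of_nonneg_right hη hz)) ?_
  exact Finset.prod_nonneg fun i _ => by have := hb i; positivity

end Nu0

open Nu0 in
theorem pNu0 : StNu0 := by
  intro b η hb hη
  have hnn : ∀ (ω : ℕ → unitInterval) i, 0 ≤ b i * (ω i : ℝ) :=
    fun ω i => mul_nonneg (hb i).le (ω i).2.1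
  have hle : ∀ (ω : ℕ → unitInterval) n, ∑ i ∈ Finset.range n, b i * (ω i : ℝ) ≤ η :=
    fun ω n => (Finset.sum_le_sum fun i _ =>
      mul_le_of_le_one_right (hb i).le (ω i).2.2).trans (hη n)
  have hsum : ∀ ω : ℕ → unitInterval, Summable fun i => b i * (ω i : ℝ) :=
    fun ω => summable_of_sum_range_le (hnn ω) (hle ω)
  set Y : (ℕ → unitInterval) → ℝ := fun ω => ∑' i, b i * (ω i : ℝ) with hY
  have hm : Measurable Y := Measurable.tsum fun i => by fun_prop
  have hmem : ∀ ω, Y ω ∈ Icc 0 η := fun ω =>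
    ⟨tsum_nonneg (hnn ω), Real.tsum_le_of_sum_range_le (hnn ω) (hle ω)⟩
  refine ⟨law.map Y, Measure.isProbabilityMeasure_map hm.aemeasurable,
    (ae_map_iff hm.aemeasurable measurableSet_Icc).2 (Eventually.of_forall hmem), ?_⟩
  intro S z hz h0
  rw [integral_map hm.aemeasurable (Continuous.aestronglyMeasurable (by fun_prop))]
  have hlim : Tendsto (fun n => ∫ ω,
      exp (z * ((∑ i ∈ Finset.range n, b i * (ω i : ℝ) : ℝ) : ℂ)) ∂law) atTop
      (𝓝 (∫ ω, exp (z * (Y ω : ℂ)) ∂law)) := by
    refine tendsto_integral_of_dominated_convergence (fun _ => Real.exp (η * z.re))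
      (fun n => Continuous.aestronglyMeasurable (by fun_prop)) (integrable_const _)
      (fun n => Eventually.of_forall fun ω => nexp_le hz (hle ω n))
      (Eventually.of_forall fun ω => ?_)
    have hc : Continuous fun y : ℝ => exp (z * (y : ℂ)) := by fun_prop
    exact (hc.tendsto _).comp (hsum ω).hasSum.tendsto_sum_nat
  refine le_of_tendsto hlim.norm ?_
  filter_upwards [eventually_ge_atTop (S.sup id + 1)] with n hn
  rw [integral_partial]
  refine prod_le hb (hη n) (fun i hi => Finset.mem_range.2 ?_) hz h0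
  have : i ≤ S.sup id := Finset.le_sup (f := id) hi
  omega

end Pool.Agent.P.MP_323ce2_nt.NB
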