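import Mathlib
import Pool.Agent.P.MP_323ce2_nt.NB.Defs

/-! A zero off the critical line keeps the distance away from zero. -/

open Complex Filter Topology Set MeasureTheory Metric
open scoped Real

namespace Pool.Agent.P.MP_323ce2_nt.NB

namespace Off

lemma zero_one_sub {ρ : ℂ} (hz : riemannZeta ρ = 0) (h0 : 0 < ρ.re) (h1 : ρ.re < 1) :
    riemannZeta (1 - ρ) = 0 := by
  rw [riemannZeta_one_sub _ (by rintro rfl; simp at h1), hz, mul_zero]
  intro n hn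
  rw [hn] at h0
  simp at h0
  linarith [Nat.cast_nonneg (α := ℝ) n]

lemma add_one_ne {s : ℂ} (hs : 1 / 2 ≤ s.re) : s + 1 ≠ 0 := fun h => by
  have := congrArg re h
  simp at this
  linarith

lemma norm_pow_ge {s : ℂ} (hs : 1 / 2 ≤ s.re) : (1 + ‖s‖) ^ 4 / 4 ≤ ‖(s + 1) ^ 4‖ := by
  have h1 : ‖s + 1‖ ^ 2 = ‖s‖ ^ 2 + 2 * s.re + 1 := by
    rw [← normSq_eq_norm_sq, ← normSq_eq_norm_sq, normSq_apply, normSq_apply]
    simp
    ring
  have h2 : (1 + ‖s‖) ^ 2 / 2 ≤ ‖s + 1‖ ^ 2 := by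
    rw [h1]; nlinarith [sq_nonneg (‖s‖ - 1)]
  rw [norm_pow]
  calc (1 + ‖s‖) ^ 4 / 4 = ((1 + ‖s‖) ^ 2 / 2) ^ 2 := by ring
    _ ≤ (‖s + 1‖ ^ 2) ^ 2 := by gcongr
    _ = _ := by ring

lemma norm_r_le {s : ℂ} (hs : 1 / 2 ≤ s.re) : ‖(s - 1) / (s + 1) ^ 4‖ ≤ 4 / (1 + ‖s‖) ^ 3 := by
  have h0 := norm_nonneg s
  have h2 : ‖s - 1‖ ≤ 1 + ‖s‖ := by simpa [add_comm] using norm_sub_le s 1
  rw [norm_div]
  calc ‖s - 1‖ / ‖(s + 1) ^ 4‖ ≤ (1 + ‖s‖) / ((1 + ‖s‖) ^ 4 / 4) := by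
        gcongr
        exact norm_pow_ge hs
    _ = _ := by field_simp

/-- the Dirichlet polynomial as a function of a complex variable -/
noncomputable def A (N : ℕ) (a : ℕ → ℂ) (s : ℂ) : ℂ := ∑ n ∈ Finset.Icc 1 N, a n * (n : ℂ) ^ (-s)

lemma diff_A (N : ℕ) (a : ℕ → ℂ) : Differentiable ℂ (A N a) := by
  refine Differentiable.fun_sum fun n hn => (differentiable_const _).mul ?_
  have : (n : ℂ) ≠ 0 := Nat.cast_ne_zero.2 (by have := (Finset.mem_Icc.1 hn).1; omega)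
  exact differentiable_id.neg.const_cpow (Or.inl this)

lemma norm_A_le (N : ℕ) (a : ℕ → ℂ) {s : ℂ} (hs : 1 / 2 ≤ s.re) :
    ‖A N a s‖ ≤ ∑ n ∈ Finset.Icc 1 N, ‖a n‖ := by
  refine (norm_sum_le _ _).trans (Finset.sum_le_sum fun n hn => ?_)
  have h1 : 1 ≤ n := (Finset.mem_Icc.1 hn).1
  rw [norm_mul, norm_natCast_cpow_of_pos h1]
  refine mul_le_of_le_one_right (norm_nonneg _) ?_
  exact Real.rpow_le_one_of_one_le_of_nonpos (by exact_mod_cast h1) (by simp; linarith)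

/-- the pointwise inequality of the means -/
lemma pt {d β e x t : ℝ} (hd : 0 < d) (hβ : 0 < β) (hx : 0 < x) (hxt : x ^ 2 = 1 / 4 + t ^ 2) :
    4 / (1 + x) ^ 3 * e / d ≤
      2 * π * (4 / (d ^ 2 * β)) * (e ^ 2 / (2 * π * (1 / 4 + t ^ 2))) + β * (1 + t ^ 2)⁻¹ := by
  have hπ := Real.pi_pos
  have h1 : 2 * π * (4 / (d ^ 2 * β)) * (e ^ 2 / (2 * π * (1 / 4 + t ^ 2))) =
      4 / (d ^ 2 * β) * (e ^ 2 / x ^ 2) := by
    rw [← hxt]; field_simp
  have h2 : (e / (1 + x)) ^ 2 ≤ e ^ 2 / x ^ 2 := by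
    rw [div_pow]; gcongr; linarith
  have h3 : (1 / (1 + x) ^ 2) ^ 2 ≤ (1 + t ^ 2)⁻¹ := by
    rw [one_div, inv_pow]
    refine inv_anti₀ (by positivity) ?_
    have h4 : 1 + t ^ 2 ≤ (1 + x) ^ 2 := by nlinarith
    have h5 : 1 ≤ (1 + x) ^ 2 := by nlinarith
    nlinarith
  have h6 : 4 / (d ^ 2 * β) * (e / (1 + x)) ^ 2 + β * (1 / (1 + x) ^ 2) ^ 2 -
      4 / (1 + x) ^ 3 * e / d = β * (1 / (1 + x) ^ 2 - 2 * (e / (1 + x)) / (d * β)) ^ 2 := by
    field_simp; ring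
  have h7 : 0 ≤ β * (1 / (1 + x) ^ 2 - 2 * (e / (1 + x)) / (d * β)) ^ 2 := by positivity
  rw [h1]
  calc _ ≤ 4 / (d ^ 2 * β) * (e / (1 + x)) ^ 2 + β * (1 / (1 + x) ^ 2) ^ 2 := by linarith
    _ ≤ _ := by gcongr

lemma right (h : StCH) {ρ : ℂ} (hz : riemannZeta ρ = 0) (h0 : 1 / 2 < ρ.re) (h1 : ρ.re < 1) :
    ∃ c : ℝ, 0 < c ∧ ∀ N a, ENNReal.ofReal c ≤ ∫⁻ t, err (DP N a) t := by
  have hπ := Real.pi_pos
  have hρ : ρ ≠ 1 := by rintro rfl; simp at h1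
  set d := ρ.re - 1 / 2 with hd
  have hd0 : 0 < d := by linarith
  set β := ‖(ρ - 1) / (ρ + 1) ^ 4‖ with hβ
  have hβ0 : 0 < β :=
    norm_pos_iff.2 (div_ne_zero (sub_ne_zero.2 hρ) (pow_ne_zero _ (add_one_ne h0.le)))
  set α := 2 * π * (4 / (d ^ 2 * β)) with hα
  have hα0 : 0 < α := by positivity
  refine ⟨β * π / α, by positivity, fun N a => ?_⟩
  set B := ∑ n ∈ Finset.Icc 1 N, ‖a n‖ with hB
  have hB0 : 0 ≤ B := Finset.sum_nonneg fun _ _ => norm_nonneg _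
  let g : ℂ → ℂ := fun s => (s - 1) / (s + 1) ^ 4 - riemannZeta₁ s * A N a s / (s + 1) ^ 4
  obtain ⟨-, hI⟩ := h g (1 / 2) (4 + 12 * B) ρ h0 (fun s hs => by
    have h2 : DifferentiableAt ℂ (fun s : ℂ => (s + 1) ^ 4) s := by fun_prop
    have h3 := pow_ne_zero 4 (add_one_ne hs)
    exact ((differentiableAt_id.sub_const 1).div h2 h3).sub
      (((differentiable_riemannZeta₁ s).mul (diff_A N a s)).div h2 h3)) (fun s hs => by
    have hs0 := norm_nonneg s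
    have h2 : ‖riemannZeta₁ s * A N a s / (s + 1) ^ 4‖ ≤ 12 * B / (1 + ‖s‖) ^ 2 := by
      rw [norm_div, norm_mul]
      calc ‖riemannZeta₁ s‖ * ‖A N a s‖ / ‖(s + 1) ^ 4‖
          ≤ 3 * (1 + ‖s‖) ^ 2 * B / ((1 + ‖s‖) ^ 4 / 4) := by
            gcongr
            · exact norm_zeta1_le hs
            · exact norm_A_le N a hs
            · exact norm_pow_ge hs
        _ = _ := by field_simp; ring
    have h3 : 1 + ‖s‖ ≤ (1 + ‖s‖) ^ 2 := le_self_pow₀ (by linarith) (by norm_num)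
    have h4 : 1 + ‖s‖ ≤ (1 + ‖s‖) ^ 3 := le_self_pow₀ (by linarith) (by norm_num)
    calc ‖g s‖ ≤ 4 / (1 + ‖s‖) ^ 3 + 12 * B / (1 + ‖s‖) ^ 2 :=
          (norm_sub_le _ _).trans (add_le_add (norm_r_le hs) h2)
      _ ≤ 4 / (1 + ‖s‖) + 12 * B / (1 + ‖s‖) := by gcongr
      _ = _ := by rw [add_div])
  have hc : ∀ t : ℝ, (((1 / 2 : ℝ) : ℂ) + t * I) = cl t := fun t => by simp [cl]
  simp only [hc] at hI
  have hg : g ρ = (ρ - 1) / (ρ + 1) ^ 4 := by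
    simp only [g, zeta1_eq hρ, hz, mul_zero, zero_mul, zero_div, sub_zero]
  have hn : ‖∫ t : ℝ, g (cl t) / (ρ - cl t)‖ = 2 * π * β := by
    rw [hI, hg, norm_mul, norm_mul, ← hβ]
    simp [abs_of_pos hπ]
  have hp : ∀ t : ℝ, ‖g (cl t) / (ρ - cl t)‖ₑ ≤
      ENNReal.ofReal α * err (DP N a) t + ENNReal.ofReal (β * (1 + t ^ 2)⁻¹) := fun t => by
    have e1 : g (cl t) =
        (cl t - 1) / (cl t + 1) ^ 4 * (1 - riemannZeta (cl t) * DP N a t) := by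
      have : A N a (cl t) = DP N a t := rfl
      simp only [g, zeta1_eq (cl_ne_one t), this]
      ring
    have hx : 0 < ‖cl t‖ := by
      have := norm_cl_sq t
      by_contra hx
      rw [le_antisymm (not_lt.1 hx) (norm_nonneg _)] at this
      nlinarith [sq_nonneg t]
    have hD : d ≤ ‖ρ - cl t‖ := by
      have := re_le_norm (ρ - cl t)
      rwa [sub_re, cl_re] at this
    rw [err, ← ENNReal.ofReal_mul hα0.le, ← ENNReal.ofReal_add (by positivity) (by positivity),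
      ← ofReal_norm]
    refine ENNReal.ofReal_le_ofReal (le_trans ?_ (pt hd0 hβ0 hx (norm_cl_sq t)))
    rw [e1, norm_div, norm_mul]
    gcongr
    exact norm_r_le (cl_re t).ge
  have hm : Measurable fun t : ℝ => ENNReal.ofReal (β * (1 + t ^ 2)⁻¹) := by fun_prop
  have hL : ∫⁻ t : ℝ, ENNReal.ofReal (β * (1 + t ^ 2)⁻¹) = ENNReal.ofReal (β * π) := by
    rw [← ofReal_integral_eq_lintegral_ofReal (integrable_inv_one_add_sq.const_mul β)
      (Eventually.of_forall fun t => by positivity), integral_const_mul,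
      integral_univ_inv_one_add_sq]
  have key : ENNReal.ofReal (β * π) + ENNReal.ofReal (β * π) ≤
      ENNReal.ofReal α * (∫⁻ t, err (DP N a) t) + ENNReal.ofReal (β * π) := by
    calc ENNReal.ofReal (β * π) + ENNReal.ofReal (β * π)
        = ‖∫ t : ℝ, g (cl t) / (ρ - cl t)‖ₑ := by
          rw [← ofReal_norm, hn, ← ENNReal.ofReal_add (by positivity) (by positivity)]
          congr 1; ring
      _ ≤ ∫⁻ t : ℝ, ‖g (cl t) / (ρ - cl t)‖ₑ := enorm_integral_le_lintegral_enorm _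
      _ ≤ ∫⁻ t : ℝ, (ENNReal.ofReal α * err (DP N a) t + ENNReal.ofReal (β * (1 + t ^ 2)⁻¹)) :=
          lintegral_mono hp
      _ = _ := by
          rw [lintegral_add_right _ hm, hL,
            lintegral_const_mul _ (measurable_err (continuous_DP N a))]
  have key2 := (ENNReal.add_le_add_iff_right ENNReal.ofReal_ne_top).1 key
  rw [ENNReal.ofReal_div_of_pos hα0]
  exact ENNReal.div_le_of_le_mul' key2

end Off

theorem pOff (h : StCH) : StOff := by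
  intro ρ hz h0 h1 h2
  rcases lt_or_gt_of_ne h2 with h3 | h3
  · refine Off.right h (Off.zero_one_sub hz h0 h1) ?_ ?_ <;> simp only [sub_re, one_re] <;> linarith
  · exact Off.right h hz h3 h1

end Pool.Agent.P.MP_323ce2_nt.NB
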