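import Mathlib
import Pool.Agent.P.MP_323ce2_nt.NB.Defs

/-! Orthogonality relations at a zero, and the symmetry of the multiplicities. -/

open Complex Filter Topology Set MeasureTheory Metric
open scoped Real ComplexConjugate

namespace Pool.Agent.P.MP_323ce2_nt.NB

namespace Orth

/-- division by a power of the local parameter -/
lemma exists_quot (γ : ℝ) {j : ℕ} (hj : j ≤ mult γ) : ∃ F : ℂ → ℂ, Differentiable ℂ F ∧
    ∀ s, s ≠ cl γ → F s = riemannZeta₁ s / (s - cl γ) ^ j := by
  classical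
  obtain ⟨h, h1, -, h3⟩ := exists_local γ
  set G : ℂ → ℂ := fun s => (s - 1) * ((s - cl γ) ^ (mult γ - j) * h s) with hG
  refine ⟨fun s => if s = cl γ then G s else riemannZeta₁ s / (s - cl γ) ^ j, fun s => ?_,
    fun s hs => if_neg hs⟩
  by_cases hs : s = cl γ
  · subst hs
    have hd : DifferentiableAt ℂ G (cl γ) :=
      (differentiableAt_id.sub_const 1).mul
        (((differentiableAt_id.sub_const _).pow _).mul h1.differentiableAt)
    refine hd.congr_of_eventuallyEq ?_
    filter_upwards [h3, isOpen_ne.mem_nhds (cl_ne_one γ)] with s e1 e2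
    split_ifs with e3
    · rfl
    · have e4 : (s - cl γ) ^ j ≠ 0 := pow_ne_zero _ (sub_ne_zero.2 e3)
      rw [zeta1_eq e2, e1, div_eq_iff e4, hG, ← Nat.sub_add_cancel hj, pow_add,
        Nat.add_sub_cancel]
      ring
  · have hd : DifferentiableAt ℂ (fun s => riemannZeta₁ s / (s - cl γ) ^ j) s :=
      (differentiable_riemannZeta₁ s).div ((differentiableAt_id.sub_const _).pow _)
        (pow_ne_zero _ (sub_ne_zero.2 hs))
    refine hd.congr_of_eventuallyEq ?_
    filter_upwards [isOpen_ne.mem_nhds hs] with s e using if_neg e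

lemma bound {γ : ℝ} {j : ℕ} {F : ℂ → ℂ} (hF : Differentiable ℂ F)
    (e : ∀ s, s ≠ cl γ → F s = riemannZeta₁ s / (s - cl γ) ^ j) :
    ∃ B : ℝ, 0 ≤ B ∧ ∀ s : ℂ, 1 / 2 ≤ s.re → ‖F s‖ ≤ B * (1 + ‖s‖) ^ 2 := by
  obtain ⟨B, hB⟩ := (isCompact_closedBall (cl γ) 1).exists_bound_of_continuousOn
    hF.continuous.continuousOn
  refine ⟨max B 3, le_max_of_le_right (by norm_num), fun s hs => ?_⟩
  have h0 := norm_nonneg s
  have h1 : (1 : ℝ) ≤ (1 + ‖s‖) ^ 2 := by nlinarith
  by_cases hb : s ∈ closedBall (cl γ) 1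
  · calc _ ≤ max B 3 := (hB s hb).trans (le_max_left _ _)
      _ ≤ _ := le_mul_of_one_le_right (le_max_of_le_right (by norm_num)) h1
  · rw [mem_closedBall, dist_eq_norm, not_le] at hb
    have hne : s ≠ cl γ := by
      rintro rfl
      norm_num at hb
    rw [e s hne, norm_div, norm_pow]
    calc _ ≤ ‖riemannZeta₁ s‖ := div_le_self (norm_nonneg _) (one_le_pow₀ hb.le)
      _ ≤ 3 * (1 + ‖s‖) ^ 2 := norm_zeta1_le hs
      _ ≤ _ := by gcongr; exact le_max_right _ _

lemma conj_cl (t : ℝ) : conj (cl t) = cl (-t) := by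
  apply Complex.ext <;> simp [cl]

end Orth

open Orth

theorem pOrth (h : StZero) : StOrth := by
  intro γ j hj q C lam hlam hq hb
  obtain ⟨F, hF, e⟩ := exists_quot γ hj
  obtain ⟨B, B0, hB⟩ := bound hF e
  have key := h (fun s => q s * F s * exp (-lam * s)) (1 / 2) (C * B)
    (fun s hs => ((hq s hs).mul (hF s)).mul (by fun_prop)) fun s hs => by
      have h0 := norm_nonneg s
      have h1 : ‖exp (-lam * s)‖ ≤ 1 := by
        rw [norm_exp, Real.exp_le_one_iff]
        have : (-(lam : ℂ) * s).re = -lam * s.re := by simp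
        rw [this]
        nlinarith
      have h2 : 0 ≤ C / (1 + ‖s‖) ^ 4 := (norm_nonneg _).trans (hb s hs)
      rw [norm_mul, norm_mul]
      calc _ ≤ C / (1 + ‖s‖) ^ 4 * (B * (1 + ‖s‖) ^ 2) * 1 := by
            gcongr
            · exact hb s hs
            · exact hB s hs
        _ = _ := by field_simp
  have c1 : ∀ t : ℝ, (((1 / 2 : ℝ) : ℂ) + t * I) = cl t := fun t => by simp [cl]
  simp only [c1] at key
  have ae : (fun t : ℝ => q (cl t) * F (cl t) * exp (-lam * cl t)) =ᵐ[volume] fun t : ℝ =>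
      q (cl t) * riemannZeta₁ (cl t) / (cl t - cl γ) ^ j * exp (-lam * cl t) := by
    filter_upwards [Measure.ae_ne volume γ] with t ht
    have : cl t ≠ cl γ := fun h => ht (by simpa [cl_im] using congrArg Complex.im h)
    rw [e _ this, mul_div_assoc]
  exact ⟨key.1.congr ae, (integral_congr_ae ae).symm.trans key.2⟩

theorem pSym : StSym := by
  intro γ
  obtain ⟨h, h1, h2, h3⟩ := exists_local γ
  have ht : Tendsto (fun s : ℂ => conj s) (𝓝 (cl (-γ))) (𝓝 (cl γ)) := by
    have := continuous_conj.tendsto (cl (-γ))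
    rwa [conj_cl, neg_neg] at this
  refine ((analyticAt_zeta_cl (-γ)).analyticOrderNatAt_eq_iff (order_ne_top (-γ))).2
    ⟨conj ∘ h ∘ conj, ?_, ?_, ?_⟩
  · rw [analyticAt_iff_eventually_differentiableAt] at h1 ⊢
    filter_upwards [ht.eventually h1] with s hs
    simpa using hs.conj_conj
  · simpa [conj_cl] using h2
  · filter_upwards [ht.eventually h3] with s hs
    have := congrArg conj hs
    rw [riemannZeta_conj, conj_conj] at this
    simpa [conj_cl] using this

end Pool.Agent.P.MP_323ce2_nt.NB
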