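import Mathlib
import Pool.Agent.P.MP_323ce2_nt.NB.Defs

/-! Package Poly: the extremal polynomial. -/

open Complex MeasureTheory Set Polynomial

namespace Pool.Agent.P.MP_323ce2_nt.NB

namespace Poly

theorem step_exp (P : Polynomial ℝ) (z : ℂ) :
    z * ∫ x in (0 : ℝ)..1, ((P.eval x : ℝ) : ℂ) * exp (-z * x) =
      ((P.eval 0 : ℝ) : ℂ) - ((P.eval 1 : ℝ) : ℂ) * exp (-z) +
        ∫ x in (0 : ℝ)..1, (((derivative P).eval x : ℝ) : ℂ) * exp (-z * x) := by
  have hc : ∀ Q : Polynomial ℝ, Continuous fun x : ℝ => ((Q.eval x : ℝ) : ℂ) * exp (-z * x) :=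
    fun Q => (continuous_ofReal.comp Q.continuous).mul
      (Complex.continuous_exp.comp (continuous_const.mul continuous_ofReal))
  have hd : ∀ x ∈ uIcc (0 : ℝ) 1, HasDerivAt (fun x : ℝ => ((P.eval x : ℝ) : ℂ) * exp (-z * x))
      ((((derivative P).eval x : ℝ) : ℂ) * exp (-z * x) -
        z * (((P.eval x : ℝ) : ℂ) * exp (-z * x))) x := by
    intro x _
    have h1 : HasDerivAt (fun x : ℝ => ((P.eval x : ℝ) : ℂ)) (((derivative P).eval x : ℝ) : ℂ) x :=
      (P.hasDerivAt x).ofReal_comp
    have h2 : HasDerivAt (fun x : ℝ => -z * (x : ℂ)) (-z * 1) x :=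
      (Complex.ofRealCLM.hasDerivAt (x := x)).const_mul (-z)
    have h3 := h1.mul h2.cexp
    refine h3.congr_deriv ?_
    ring
  have hz : Continuous fun x : ℝ => z * (((P.eval x : ℝ) : ℂ) * exp (-z * x)) :=
    continuous_const.mul (hc P)
  have hi := intervalIntegral.integral_eq_sub_of_hasDerivAt hd
    (((hc (derivative P)).sub hz).intervalIntegrable 0 1)
  rw [intervalIntegral.integral_sub ((hc _).intervalIntegrable 0 1) (hz.intervalIntegrable 0 1),
    intervalIntegral.integral_const_mul] at hi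
  simp only [ofReal_one, mul_one, ofReal_zero, mul_zero, Complex.exp_zero] at hi
  linear_combination -hi

theorem iter_exp (k : ℕ) (P : Polynomial ℝ) (z : ℂ)
    (h : ∀ i < k, (derivative^[i] P).eval 0 = 0 ∧ (derivative^[i] P).eval 1 = 0) :
    z ^ k * ∫ x in (0 : ℝ)..1, ((P.eval x : ℝ) : ℂ) * exp (-z * x) =
      ∫ x in (0 : ℝ)..1, (((derivative^[k] P).eval x : ℝ) : ℂ) * exp (-z * x) := by
  induction k with
  | zero => simp
  | succ k ih =>
    have h1 := ih fun i hi => h i (by omega)
    have h2 := step_exp (derivative^[k] P) z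
    rw [(h k (by omega)).1, (h k (by omega)).2] at h2
    rw [Function.iterate_succ_apply', pow_succ', mul_assoc, h1, h2]
    simp

theorem step_poly (P Q : Polynomial ℝ) :
    ∫ x in (0 : ℝ)..1, (derivative P).eval x * Q.eval x =
      P.eval 1 * Q.eval 1 - P.eval 0 * Q.eval 0 -
        ∫ x in (0 : ℝ)..1, P.eval x * (derivative Q).eval x := by
  have hd : ∀ x ∈ uIcc (0 : ℝ) 1, HasDerivAt (fun x : ℝ => P.eval x * Q.eval x)
      ((derivative P).eval x * Q.eval x + P.eval x * (derivative Q).eval x) x :=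
    fun x _ => (P.hasDerivAt x).mul (Q.hasDerivAt x)
  have c1 : Continuous fun x : ℝ => (derivative P).eval x * Q.eval x :=
    (derivative P).continuous.mul Q.continuous
  have c2 : Continuous fun x : ℝ => P.eval x * (derivative Q).eval x :=
    P.continuous.mul (derivative Q).continuous
  have hi := intervalIntegral.integral_eq_sub_of_hasDerivAt hd ((c1.add c2).intervalIntegrable 0 1)
  rw [intervalIntegral.integral_add (c1.intervalIntegrable 0 1) (c2.intervalIntegrable 0 1)] at hi
  linarith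

theorem iter_poly (k : ℕ) (P : Polynomial ℝ)
    (h : ∀ i < k, (derivative^[i] P).eval 0 = 0 ∧ (derivative^[i] P).eval 1 = 0) :
    ∀ Q : Polynomial ℝ, ∫ x in (0 : ℝ)..1, (derivative^[k] P).eval x * Q.eval x =
      (-1) ^ k * ∫ x in (0 : ℝ)..1, P.eval x * (derivative^[k] Q).eval x := by
  induction k with
  | zero => intro Q; simp
  | succ k ih =>
    intro Q
    have h1 := ih (fun i hi => h i (by omega)) (derivative Q)
    have h2 := step_poly (derivative^[k] P) Q
    rw [(h k (by omega)).1, (h k (by omega)).2, h1] at h2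
    rw [Function.iterate_succ_apply' derivative k P, h2, Function.iterate_succ_apply]
    ring

/-- The polynomial `X ^ n * (1 - X) ^ (n + 1)`. -/
noncomputable def pp (n : ℕ) : Polynomial ℝ := X ^ n * (1 - X) ^ (n + 1)

theorem pp_zero (n i : ℕ) (hi : i < n) : (derivative^[i] (pp n)).eval 0 = 0 := by
  have h : (X : Polynomial ℝ) ^ (n - i) ∣ derivative^[i] (pp n) :=
    pow_sub_dvd_iterate_derivative_of_pow_dvd i (Dvd.intro _ rfl)
  obtain ⟨q, hq⟩ := h
  rw [hq, eval_mul, eval_pow, eval_X, zero_pow (by omega), zero_mul]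

theorem pp_one (n i : ℕ) (hi : i < n + 1) : (derivative^[i] (pp n)).eval 1 = 0 := by
  have h : (1 - X : Polynomial ℝ) ^ (n + 1 - i) ∣ derivative^[i] (pp n) :=
    pow_sub_dvd_iterate_derivative_of_pow_dvd i (Dvd.intro_left _ rfl)
  obtain ⟨q, hq⟩ := h
  rw [hq, eval_mul, eval_pow, eval_sub, eval_one, eval_X, sub_self, zero_pow (by omega), zero_mul]

theorem pp_top (n : ℕ) : (derivative^[n] (pp n)).eval 0 = n.factorial := by
  rw [← coeff_zero_eq_eval_zero, coeff_iterate_derivative, pp, coeff_X_pow_mul, zero_add,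
    Nat.descFactorial_self, coeff_zero_eq_eval_zero]
  simp

theorem pp_top' (n : ℕ) :
    (derivative^[n + 1] (pp n)).eval 0 = -(((n + 1).factorial : ℝ) * (n + 1 : ℕ)) := by
  have h1 : ((1 - X : Polynomial ℝ) ^ (n + 1)).coeff 1 = -((n + 1 : ℕ) : ℝ) := by
    have h2 := coeff_derivative ((1 - X : Polynomial ℝ) ^ (n + 1)) 0
    rw [coeff_zero_eq_eval_zero, derivative_pow] at h2
    simp at h2
    push_cast
    linarith
  rw [← coeff_zero_eq_eval_zero, coeff_iterate_derivative, pp, zero_add, Nat.descFactorial_self,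
    show n + 1 = 1 + n from add_comm _ _, coeff_X_pow_mul, show 1 + n = n + 1 from add_comm _ _, h1]
  simp
  ring

theorem pp_deg (n : ℕ) : (derivative^[n + 1] (pp n)).natDegree < n + 1 := by
  have h1 : (pp n).natDegree ≤ n + (n + 1) := by
    refine natDegree_mul_le.trans (add_le_add ?_ ?_)
    · simp
    · refine natDegree_pow_le.trans ?_
      have : (1 - X : Polynomial ℝ).natDegree ≤ 1 := by
        refine (natDegree_sub_le _ _).trans ?_
        simp
      nlinarith
  have h2 := natDegree_iterate_derivative (pp n) (n + 1)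
  omega

end Poly

open _root_.Pool.Agent.P.MP_323ce2_nt.NB.Poly in
theorem pPoly : StPoly := by
  intro m hm
  obtain ⟨n, rfl⟩ : ∃ n, m = n + 1 := ⟨m - 1, by omega⟩
  have hf : (n.factorial : ℝ) ≠ 0 := by exact_mod_cast n.factorial_ne_zero
  have hv : ∀ i < n, (derivative^[i] (pp n)).eval 0 = 0 ∧ (derivative^[i] (pp n)).eval 1 = 0 :=
    fun i hi => ⟨pp_zero n i hi, pp_one n i (by omega)⟩
  have hdeg : (C (n.factorial : ℝ)⁻¹ * derivative^[n + 1] (pp n)).natDegree < n + 1 :=
    lt_of_le_of_lt (natDegree_C_mul_le _ _) (pp_deg n)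
  have h0 : (C (n.factorial : ℝ)⁻¹ * derivative^[n + 1] (pp n)).eval 0 =
      -((n + 1 : ℕ) : ℝ) ^ 2 := by
    rw [eval_mul, eval_C, pp_top', Nat.factorial_succ]
    push_cast
    field_simp
  refine ⟨C (n.factorial : ℝ)⁻¹ * derivative^[n + 1] (pp n), hdeg, h0, ?_, ?_⟩
  · set e := C (n.factorial : ℝ)⁻¹ * derivative^[n + 1] (pp n) with he
    have h1 := step_poly (derivative^[n] (pp n)) e
    have h2 := iter_poly n (pp n) hv (derivative e)
    have h3 : derivative^[n] (derivative e) = 0 := by
      rw [← Function.iterate_succ_apply]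
      exact iterate_derivative_eq_zero hdeg
    rw [h3] at h2
    simp only [eval_zero, mul_zero, intervalIntegral.integral_zero] at h2
    rw [h2, pp_one n n (by omega), pp_top, h0, ← Function.iterate_succ_apply' derivative] at h1
    have h4 : ∀ x : ℝ, e.eval x ^ 2 =
        (n.factorial : ℝ)⁻¹ * ((derivative^[n + 1] (pp n)).eval x * e.eval x) := by
      intro x
      rw [sq]
      nth_rewrite 1 [he]
      rw [eval_mul, eval_C]
      ring
    simp only [h4]
    rw [intervalIntegral.integral_const_mul, h1]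
    field_simp
    ring
  · intro z
    have h1 := iter_exp n (pp n) z hv
    have h2 := step_exp (derivative^[n] (pp n)) z
    rw [pp_one n n (by omega), pp_top, ← Function.iterate_succ_apply' derivative] at h2
    have h3 : ∀ x : ℝ, (x : ℂ) ^ (n + 1 - 1) * (1 - x) ^ (n + 1) * exp (-z * x) =
        (((pp n).eval x : ℝ) : ℂ) * exp (-z * x) := by
      intro x
      simp [pp]
    have h4 : ∀ x : ℝ, (((C (n.factorial : ℝ)⁻¹ * derivative^[n + 1] (pp n)).eval x : ℝ) : ℂ) *
        exp (-z * x) = (n.factorial : ℂ)⁻¹ *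
          ((((derivative^[n + 1] (pp n)).eval x : ℝ) : ℂ) * exp (-z * x)) := by
      intro x
      rw [eval_mul, eval_C]
      push_cast
      ring
    have hf' : (n.factorial : ℂ) ≠ 0 := by exact_mod_cast n.factorial_ne_zero
    simp only [h3, h4]
    rw [intervalIntegral.integral_const_mul, pow_succ', mul_assoc, h1, h2, Nat.add_sub_cancel]
    field_simp
    simp

end Pool.Agent.P.MP_323ce2_nt.NB
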