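import Mathlib
import Pool.Agent.P.MP_323ce2_nt.NB.Defs

/-! The profile of the error at a zero, written with the weight function. -/

open Complex Filter Topology Set MeasureTheory Metric
open scoped Real

namespace Pool.Agent.P.MP_323ce2_nt.NB

namespace Prof

lemma int_real (n : ℕ) : IntegrableOn (fun x : ℝ => x ^ n * Real.exp (-x)) (Ioi 0) := by
  have h := Real.GammaIntegral_convergent (s := (n : ℝ) + 1) (by positivity)
  refine h.congr_fun (fun x _ => ?_) measurableSet_Ioi
  simp only [add_sub_cancel_right, Real.rpow_natCast]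
  ring

lemma norm_term (n : ℕ) {z : ℂ} (hz : z.re = 1) {x : ℝ} (hx : 0 ≤ x) :
    ‖(x : ℂ) ^ n * exp (-z * x)‖ = x ^ n * Real.exp (-x) := by
  rw [norm_mul, norm_pow, Complex.norm_real, Real.norm_of_nonneg hx, Complex.norm_exp]
  congr 2
  simp [hz]

lemma int_cx (n : ℕ) {z : ℂ} (hz : z.re = 1) :
    IntegrableOn (fun x : ℝ => (x : ℂ) ^ n * exp (-z * x)) (Ioi 0) := by
  refine (int_real n).mono' (Continuous.aestronglyMeasurable (by fun_prop)) ?_
  refine (ae_restrict_iff' measurableSet_Ioi).2 (Eventually.of_forall fun x hx => ?_)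
  exact (norm_term n hz (le_of_lt hx)).le

lemma laplace (n : ℕ) {z : ℂ} (hz : z.re = 1) :
    ∫ x : ℝ in Ioi 0, (x : ℂ) ^ n * exp (-z * x) = (n.factorial : ℂ) / z ^ (n + 1) := by
  have hz0 : z ≠ 0 := by
    intro h
    rw [h] at hz
    simp at hz
  induction n with
  | zero =>
    have := integral_exp_mul_complex_Ioi (a := -z) (by simp [hz]) 0
    simp only [pow_zero, one_mul, this]
    simp
  | succ n ih =>
    have hd : ∀ x ∈ Ici (0 : ℝ), HasDerivAt (fun x : ℝ => (x : ℂ) ^ (n + 1) * exp (-z * x))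
        ((n + 1 : ℂ) * ((x : ℂ) ^ n * exp (-z * x)) - z * ((x : ℂ) ^ (n + 1) * exp (-z * x))) x := by
      intro x _
      have h1 : HasDerivAt (fun s : ℂ => s ^ (n + 1) * exp (-z * s))
          ((n + 1 : ℂ) * ((x : ℂ) ^ n * exp (-z * x)) - z * ((x : ℂ) ^ (n + 1) * exp (-z * x)))
          (x : ℂ) := by
        have h2 := (hasDerivAt_pow (n + 1) (x : ℂ)).mul
          (((hasDerivAt_id (x : ℂ)).const_mul (-z)).cexp)
        refine h2.congr_deriv ?_
        simp only [id, Nat.add_sub_cancel, Nat.cast_add, Nat.cast_one]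
        ring
      exact h1.comp_ofReal
    have hi : IntegrableOn (fun x : ℝ => (n + 1 : ℂ) * ((x : ℂ) ^ n * exp (-z * x)) -
        z * ((x : ℂ) ^ (n + 1) * exp (-z * x))) (Ioi 0) :=
      ((int_cx n hz).const_mul _).sub ((int_cx (n + 1) hz).const_mul _)
    have ht : Tendsto (fun x : ℝ => (x : ℂ) ^ (n + 1) * exp (-z * x)) atTop (𝓝 0) := by
      rw [tendsto_zero_iff_norm_tendsto_zero]
      refine (Real.tendsto_pow_mul_exp_neg_atTop_nhds_zero (n + 1)).congr' ?_
      filter_upwards [eventually_ge_atTop 0] with x hx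
      exact (norm_term (n + 1) hz hx).symm
    have h0 := integral_Ioi_of_hasDerivAt_of_tendsto' hd hi ht
    rw [integral_sub ((int_cx n hz).const_mul _) ((int_cx (n + 1) hz).const_mul _),
      integral_const_mul, integral_const_mul, ih] at h0
    simp only [ofReal_zero, ne_eq, Nat.add_eq_zero_iff, one_ne_zero, and_false, not_false_eq_true,
      zero_pow, zero_mul, sub_zero] at h0
    have h1 := sub_eq_zero.1 h0
    rw [Nat.factorial_succ]
    push_cast
    rw [eq_div_iff (pow_ne_zero _ hz0), pow_succ _ (n + 1)]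
    rw [mul_div_assoc', div_eq_iff (pow_ne_zero _ hz0)] at h1
    rw [h1]
    ring

lemma int_K {K : ℂ → ℂ} {w : ℝ → ℂ} (h : Ker K w) : Integrable fun y : ℝ => K (1 + y * I) := by
  have h1 := h.integrable 0 (c := 1) le_rfl
  have h2 := h.continuous_line (c := 1) one_pos
  simp only [ofReal_one, zero_mul, Real.exp_zero, mul_one] at h1 h2
  exact (integrable_norm_iff h2.aestronglyMeasurable).1 h1

end Prof

open Prof in
theorem pProf : StProf := by
  intro K w h m hm u
  obtain ⟨n, rfl⟩ : ∃ n, m = n + 1 := ⟨m - 1, by omega⟩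
  simp only [Nat.add_sub_cancel]
  have hK := int_K h
  have hKc := h.continuous_line (c := 1) one_pos
  simp only [ofReal_one] at hKc
  have hre : ∀ y : ℝ, ((u : ℂ) * I + (1 + y * I)).re = 1 := fun y => by simp
  have hfac : (n.factorial : ℂ) ≠ 0 := Nat.cast_ne_zero.2 n.factorial_ne_zero
  have hpi : (2 * π : ℂ) ≠ 0 := by
    have := Real.pi_ne_zero
    simp [this]
  have hF : Integrable (Function.uncurry fun (y x : ℝ) =>
      K (1 + y * I) * ((x : ℂ) ^ n * exp (-(u * I + (1 + y * I)) * x)))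
      (volume.prod (volume.restrict (Ioi (0 : ℝ)))) := by
    refine (hK.norm.mul_prod (int_real n)).mono' ?_ ?_
    · refine Continuous.aestronglyMeasurable ?_
      exact (hKc.comp continuous_fst).mul (by fun_prop)
    · have hm : ∀ᵐ p : ℝ × ℝ ∂(volume.prod (volume.restrict (Ioi (0 : ℝ)))), p.2 ∈ Ioi (0 : ℝ) :=
        Measure.quasiMeasurePreserving_snd.ae (ae_restrict_mem measurableSet_Ioi)
      filter_upwards [hm] with p hp
      rw [Function.uncurry, norm_mul, norm_term n (hre p.1) (le_of_lt hp)]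
  have hs := integral_integral_swap hF
  have e1 : ∀ y : ℝ, ∫ x : ℝ in Ioi 0,
      K (1 + y * I) * ((x : ℂ) ^ n * exp (-(u * I + (1 + y * I)) * x)) =
      K (1 + y * I) * ((n.factorial : ℂ) / (u * I + (1 + y * I)) ^ (n + 1)) := fun y => by
    rw [integral_const_mul, laplace n (hre y)]
  have e2 : ∀ x : ℝ, ∫ y : ℝ,
      K (1 + y * I) * ((x : ℂ) ^ n * exp (-(u * I + (1 + y * I)) * x)) =
      2 * π * ((x : ℂ) ^ n * w x * exp (-(u * I) * x)) := fun x => by
    have h1 := h.inv 1 le_rfl x
    simp only [ofReal_one] at h1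
    have h2 : (fun y : ℝ => K (1 + y * I) * ((x : ℂ) ^ n * exp (-(u * I + (1 + y * I)) * x))) =
        fun y : ℝ => ((x : ℂ) ^ n * exp (-(u * I) * x)) *
          (K (1 + y * I) * exp (-(1 + y * I) * x)) := by
      ext y
      rw [show -((u : ℂ) * I + (1 + y * I)) * x = -(u * I) * x + -(1 + y * I) * x by ring,
        Complex.exp_add]
      ring
    rw [h2, integral_const_mul, h1]
    field_simp
  have hG := hF.integral_prod_left
  simp only [Function.uncurry, e1] at hG
  simp only [e1, e2] at hs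
  rw [integral_const_mul] at hs
  have e3 : ∫ x : ℝ in Ioi 0, (x : ℂ) ^ n * w x * exp (-(u * I) * x) =
      ∫ x in (0 : ℝ)..1, (x : ℂ) ^ n * w x * exp (-(u * I) * x) := by
    rw [intervalIntegral.integral_of_le zero_le_one]
    refine setIntegral_eq_of_subset_of_forall_sdiff_eq_zero measurableSet_Ioi
      Ioc_subset_Ioi_self ?_
    intro x hx
    have h1 : 1 ≤ x := by
      by_contra h2
      exact hx.2 ⟨hx.1, (not_le.1 h2).le⟩
    rw [h.supp x h1]
    simp
  have e4 : (2 * π : ℂ)⁻¹ * ∫ y : ℝ, K (1 + y * I) = 1 := by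
    have h1 := h.inv 1 le_rfl 0
    rw [h.zero] at h1
    simpa using h1.symm
  have e5 : (fun y : ℝ => K (1 + y * I) * (((u : ℂ) * I / (u * I + (1 + y * I))) ^ (n + 1) - 1)) =
      fun y : ℝ => ((u : ℂ) * I) ^ (n + 1) / (n.factorial : ℂ) *
        (K (1 + y * I) * ((n.factorial : ℂ) / (u * I + (1 + y * I)) ^ (n + 1))) -
          K (1 + y * I) := by
    ext y
    rw [div_pow]
    field_simp
  rw [prof, e5, integral_sub (hG.const_mul _) hK, integral_const_mul, hs, e3, mul_sub, e4]
  field_simp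

end Pool.Agent.P.MP_323ce2_nt.NB
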