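import Mathlib
import Pool.Agent.P.MP_323ce2_nt.NB.Defs

/-! A quantitative form of Littlewood's bounds under the Riemann hypothesis. -/

open Complex Filter Topology Set MeasureTheory Metric
open scoped Real

namespace Pool.Agent.P.MP_323ce2_nt.NB

namespace QL

lemma expo {w : ℝ} (hw : 0 < w) (hw1 : w ≤ 1 / 100) :
    (Real.log (3 / 2 - w) - Real.log (1 / 4)) / (Real.log (3 / 2 - w / 2) - Real.log (1 / 4)) ≤
      1 - w / 15 := by
  have hl1 : Real.log (1 / 4) < Real.log (3 / 2 - w / 2) :=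
    Real.log_lt_log (by norm_num) (by linarith)
  have h1 : Real.log (3 / 2 - w / 2) - Real.log (1 / 4) ≤ 5 := by
    rw [← Real.log_div (by linarith) (by norm_num)]
    refine (Real.log_le_sub_one_of_pos (div_pos (by linarith) (by norm_num))).trans ?_
    linarith
  have h2 : Real.log (3 / 2 - w) - Real.log (3 / 2 - w / 2) ≤ -(w / 3) := by
    rw [← Real.log_div (by linarith) (by linarith)]
    refine (Real.log_le_sub_one_of_pos (div_pos (by linarith) (by linarith))).trans ?_
    rw [sub_le_iff_le_add, div_le_iff₀ (by linarith)]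
    nlinarith
  rw [div_le_iff₀ (by linarith)]
  nlinarith

lemma small {a x l lam : ℝ} (ha : 0 < a) (hx : a + 2000000 ≤ x) (hl : l = Real.exp (x ^ 2))
    (hlam : lam ≤ 1 - x⁻¹ / 15) : a * (54 * x * l / a) ^ lam ≤ l * x⁻¹ := by
  have hx0 : 0 < x := by linarith
  have hl0 : 0 < l := hl ▸ Real.exp_pos _
  have hl1 : 1 ≤ l := hl ▸ Real.one_le_exp (by positivity)
  have h1 : l ≤ 54 * x * l / a := by
    rw [le_div_iff₀ ha]
    nlinarith
  have h2 : (54 * x * l / a) ^ lam ≤ (54 * x * l / a) ^ (1 - x⁻¹ / 15) :=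
    Real.rpow_le_rpow_of_exponent_le (hl1.trans h1) hlam
  have h3 : (54 * x * l / a) ^ (1 - x⁻¹ / 15) =
      54 * x * l / a / (54 * x * l / a) ^ (x⁻¹ / 15) := by
    rw [Real.rpow_sub (by positivity), Real.rpow_one]
  have h4 : Real.exp (x / 15) ≤ (54 * x * l / a) ^ (x⁻¹ / 15) := by
    refine le_trans (le_of_eq ?_) (Real.rpow_le_rpow hl0.le h1 (by positivity))
    rw [hl, ← Real.exp_mul]
    congr 1
    field_simp
  have h5 : 54 * x ^ 2 ≤ Real.exp (x / 15) := by
    refine le_trans ?_ (Real.pow_div_factorial_le_exp (x / 15) (by positivity) 3)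
    have : (x / 15) ^ 3 / (Nat.factorial 3 : ℕ) = x ^ 2 * (x / 20250) := by
      norm_num [Nat.factorial]
      ring
    rw [this, mul_comm]
    gcongr
    linarith
  calc a * (54 * x * l / a) ^ lam ≤ a * (54 * x * l / a / (54 * x ^ 2)) := by
        refine mul_le_mul_of_nonneg_left (h2.trans (h3.le.trans ?_)) ha.le
        exact div_le_div_of_nonneg_left (by positivity) (by positivity) (h5.trans h4)
    _ = l * x⁻¹ := by field_simp

lemma logK {x l : ℝ} (hx : 4 * Real.log K0 + 2 + 2000000 ≤ x) (hl : l = Real.exp (x ^ 2)) :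
    Real.log K0 ≤ l * x⁻¹ := by
  have hlK : 0 ≤ Real.log K0 := Real.log_nonneg one_le_K0
  have hx0 : 0 < x := by linarith
  have := Real.add_one_le_exp (x ^ 2)
  rw [← div_eq_mul_inv, le_div_iff₀ hx0, hl]
  nlinarith

lemma inner (h : RHs) {x l T : ℝ} (hx : 4 * Real.log K0 + 2 + 2000000 ≤ x)
    (hl : l = Real.exp (x ^ 2)) (hT : 3 ≤ |T|) (hTl : Real.log |T| ≤ 2 * l) :
    ∀ s ∈ closedBall (2 + T * I) (3 / 2 - x⁻¹),
      Real.exp (-(2 * (l * x⁻¹))) ≤ ‖riemannZeta s‖ ∧
      ‖riemannZeta s‖ ≤ Real.exp (2 * (l * x⁻¹)) := by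
  intro s hs
  have hK := one_le_K0
  have hlK : 0 ≤ Real.log K0 := Real.log_nonneg hK
  have hx0 : 0 < x := by linarith
  have hL0 : 0 < l := hl ▸ Real.exp_pos _
  have hL1 : 1 ≤ l := hl ▸ Real.one_le_exp (by positivity)
  have k1 := logK hx hl
  have hw : 0 < x⁻¹ := inv_pos.2 hx0
  have hw1 : x⁻¹ ≤ 1 / 100 := by
    rw [one_div]
    exact inv_anti₀ (by norm_num) (by linarith)
  have hxw : x * x⁻¹ = 1 := mul_inv_cancel₀ hx0.ne'
  have hlam := expo hw hw1
  have k2 : Real.log K0 ≤ l := k1.trans (by nlinarith)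
  set a := 4 * Real.log K0 + 2 with ha
  have ha0 : 0 < a := by positivity
  have k3 := small ha0 hx hl hlam
  set w := x⁻¹ with hwx
  set c : ℂ := 2 + T * I with hc
  have hcre : c.re = 2 := by simp [hc]
  have hdiff : DifferentiableOn ℂ riemannZeta (ball c 2) := by
    simpa using differentiableOn_zeta hT 2
  obtain ⟨φ, hφ, hφ0, hφe⟩ := exists_log (h := riemannZeta) (c := c) (r := 3 / 2) (by norm_num)
    (hdiff.mono (ball_subset_ball (by norm_num))) (fun z hz => h.ne_zero (by
      rw [mem_ball, dist_eq_norm] at hz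
      have := abs_lt.1 ((abs_re_le_norm (z - c)).trans_lt hz)
      rw [sub_re, hcre] at this
      linarith [this.1]))
  have hc0 : 0 < ‖riemannZeta c‖ :=
    norm_pos_iff.2 (riemannZeta_ne_zero_of_one_le_re (by rw [hcre]; norm_num))
  have hc1 : ‖riemannZeta c‖ ≤ K0 := norm_zeta_le_K0 (by rw [hcre]; norm_num)
  have hc2 : ‖riemannZeta c‖⁻¹ ≤ K0 := norm_inv_zeta_le_K0 (by rw [hcre]; norm_num)
  have hre : ∀ z ∈ ball c (3 / 2), ∀ B : ℝ, ‖riemannZeta z‖ ≤ Real.exp B →
      (φ z).re ≤ B + Real.log K0 := by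
    intro z hz B hB
    rw [hφe z hz, norm_mul, norm_exp] at hB
    rw [← Real.exp_le_exp, Real.exp_add, Real.exp_log (by linarith)]
    calc Real.exp (φ z).re = ‖riemannZeta c‖ * Real.exp (φ z).re * ‖riemannZeta c‖⁻¹ := by
          field_simp
      _ ≤ _ := by gcongr
  have hb1 : ∀ z ∈ closedBall c (1 / 4), ‖φ z‖ ≤ a := by
    intro z hz
    have := bc (M := 2 * Real.log K0 + 1) (R := 1 / 2) (r := 1 / 4) (by positivity) (by norm_num)
      (by norm_num) (hφ.mono (ball_subset_ball (by norm_num))) hφ0 (fun w hw' => ?_) hz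
    · refine this.trans (le_of_eq ?_)
      rw [ha]; ring
    have h1 := (re_of_mem (ball_subset_closedBall hw')).1
    have := hre w (ball_subset_ball (by norm_num) hw') (Real.log K0) (by
      rw [Real.exp_log (by linarith)]; exact norm_zeta_le_K0 (by linarith))
    linarith
  have hb3 : ∀ z ∈ closedBall c (3 / 2 - w / 2), ‖φ z‖ ≤ 54 * x * l := by
    intro z hz
    have := bc (M := 9 * l) (R := 3 / 2) (r := 3 / 2 - w / 2) (by positivity) (by linarith)
      (by linarith) hφ hφ0 (fun u hu => ?_) hz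
    · refine this.trans ?_
      rw [div_le_iff₀ (by linarith)]
      have : 54 * x * l * (3 / 2 - (3 / 2 - w / 2)) = 27 * l * (x * w) := by ring
      rw [this, hxw]
      nlinarith
    have := hre u hu (4 * Real.log |T|)
      (zeta_poly hT (ball_subset_closedBall (ball_subset_ball (by norm_num) hu)))
    linarith
  have hab : a ≤ 54 * x * l := by nlinarith
  have key := (three_circles (r1 := 1 / 4) (r2 := 3 / 2 - w) (r3 := 3 / 2 - w / 2) (R := 3 / 2)
    (by norm_num) (by linarith) (by linarith) (by linarith) (by linarith) hφ hb1 hb3 ha0 hab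
    hs).trans k3
  have hs' : s ∈ ball c (3 / 2) := closedBall_subset_ball (by linarith) hs
  have h1 := abs_le.1 ((abs_re_le_norm (φ s)).trans key)
  rw [hφe s hs', norm_mul, norm_exp]
  constructor
  · calc Real.exp (-(2 * (l * w))) ≤ Real.exp (-Real.log K0 + (φ s).re) :=
          Real.exp_le_exp.2 (by linarith [h1.1])
      _ = K0⁻¹ * Real.exp (φ s).re := by
          rw [Real.exp_add, Real.exp_neg, Real.exp_log (by linarith)]
      _ ≤ _ := by
          gcongr
          exact inv_le_of_inv_le₀ hc0 hc2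
  · calc _ ≤ K0 * Real.exp (φ s).re := by gcongr
      _ = Real.exp (Real.log K0 + (φ s).re) := by
          rw [Real.exp_add, Real.exp_log (by linarith)]
      _ ≤ _ := Real.exp_le_exp.2 (by linarith [h1.2])

end QL

theorem pQL : StQL := by
  intro h
  have hK := one_le_K0
  have hlK : 0 ≤ Real.log K0 := Real.log_nonneg hK
  refine ⟨Real.exp ((4 * Real.log K0 + 2 + 2000000) ^ 2), fun l hl0 T hT hTl => ?_⟩
  have hL0 : 0 < l := (Real.exp_pos _).trans_le hl0
  have hlog : (4 * Real.log K0 + 2 + 2000000) ^ 2 ≤ Real.log l :=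
    (Real.le_log_iff_exp_le hL0).2 hl0
  have hx : 4 * Real.log K0 + 2 + 2000000 ≤ √(Real.log l) := Real.le_sqrt_of_sq_le hlog
  have hl : l = Real.exp (√(Real.log l) ^ 2) := by
    rw [Real.sq_sqrt ((sq_nonneg _).trans hlog), Real.exp_log hL0]
  have ha := QL.inner h hx hl hT hTl
  have k1 := QL.logK hx hl
  set x := √(Real.log l) with hxd
  have hx0 : 0 < x := by linarith
  have hw : 0 < x⁻¹ := inv_pos.2 hx0
  have hw1 : x⁻¹ ≤ 1 / 100 := by
    rw [one_div]
    exact inv_anti₀ (by norm_num) (by linarith)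
  rw [div_eq_mul_inv (2000 * l), mul_assoc]
  set w := x⁻¹ with hwx
  have hlw : 0 < l * w := mul_pos hL0 hw
  refine ⟨fun σ h1 => ?_, fun s hs => ?_⟩
  · rcases le_total σ 2 with h2 | h2
    · refine le_trans (Real.exp_le_exp.2 (by linarith)) (ha _ ?_).1
      rw [mem_closedBall, dist_eq_norm,
        show (σ : ℂ) + T * I - (2 + T * I) = ((σ - 2 : ℝ) : ℂ) by push_cast; ring, norm_real,
        Real.norm_eq_abs, abs_le]
      constructor <;> linarith
    · have hre : ((σ : ℂ) + T * I).re = σ := by simp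
      have hc0 : 0 < ‖riemannZeta (σ + T * I)‖ :=
        norm_pos_iff.2 (riemannZeta_ne_zero_of_one_le_re (by rw [hre]; linarith))
      have hc2 : ‖riemannZeta (σ + T * I)‖⁻¹ ≤ K0 := norm_inv_zeta_le_K0 (by rw [hre]; linarith)
      calc Real.exp (-(2000 * (l * w))) ≤ Real.exp (-Real.log K0) :=
            Real.exp_le_exp.2 (by linarith)
        _ = K0⁻¹ := by rw [Real.exp_neg, Real.exp_log (by linarith)]
        _ ≤ _ := inv_le_of_inv_le₀ hc0 hc2
  · have hs' : s ∈ closedBall (2 + T * I) (3 / 2 + 11 * w) := by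
      refine closedBall_subset_closedBall' ?_ hs
      rw [dist_eq_norm, show ((1 / 2 + w : ℝ) : ℂ) + T * I - (2 + T * I)
        = ((w - 3 / 2 : ℝ) : ℂ) by push_cast; ring, norm_real, Real.norm_eq_abs,
        abs_of_neg (by linarith)]
      linarith
    have hdiff : DifferentiableOn ℂ riemannZeta (ball (2 + T * I) 2) := by
      simpa using differentiableOn_zeta hT 2
    have key := three_circles (r1 := 3 / 2 - w) (r2 := 3 / 2 + 11 * w) (r3 := 7 / 4) (R := 2)
      (b := Real.exp (8 * l)) (by linarith) (by linarith) (by linarith) (by linarith)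
      (by norm_num) hdiff (fun z hz => (ha z hz).2)
      (fun z hz => (zeta_poly hT hz).trans (Real.exp_le_exp.2 (by linarith))) (Real.exp_pos _)
      (Real.exp_le_exp.2 (by nlinarith)) hs'
    refine key.trans ?_
    set lam := (Real.log (3 / 2 + 11 * w) - Real.log (3 / 2 - w)) /
      (Real.log (7 / 4) - Real.log (3 / 2 - w)) with hlam
    have h1 : Real.log (3 / 2 + 11 * w) - Real.log (3 / 2 - w) ≤ 12 * w := by
      rw [← Real.log_div (by linarith) (by linarith)]
      refine (Real.log_le_sub_one_of_pos (div_pos (by linarith) (by linarith))).trans ?_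
      rw [sub_le_iff_le_add, div_le_iff₀ (by linarith)]
      nlinarith
    have h2 : 1 / 7 ≤ Real.log (7 / 4) - Real.log (3 / 2 - w) := by
      have := Real.log_le_sub_one_of_pos (x := (3 / 2 - w) / (7 / 4))
        (div_pos (by linarith) (by norm_num))
      rw [Real.log_div (by linarith) (by norm_num)] at this
      linarith
    have h3 : lam ≤ 84 * w := by
      rw [hlam, div_le_iff₀ (by linarith)]
      nlinarith
    have h4 : 0 ≤ lam := by
      refine div_nonneg ?_ (by linarith)
      linarith [Real.log_le_log (x := 3 / 2 - w) (y := 3 / 2 + 11 * w) (by linarith) (by linarith)]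
    rw [← Real.exp_sub, ← Real.exp_mul, ← Real.exp_add, Real.exp_le_exp]
    have h5 : l * lam ≤ l * (84 * w) := mul_le_mul_of_nonneg_left h3 hL0.le
    have h6 : 0 ≤ l * w * lam := mul_nonneg hlw.le h4
    nlinarith

end Pool.Agent.P.MP_323ce2_nt.NB
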