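import Mathlib
import Pool.Agent.P.MP_323ce2_nt.NB.Defs

/-! The quotient of zeta at two close points, near a fixed point of the critical line. -/

open Complex Filter Topology Set MeasureTheory Metric
open scoped Real

namespace Pool.Agent.P.MP_323ce2_nt.NB

namespace RL

lemma pow_sub_one (a : ℂ) (m : ℕ) : ‖(1 - a) ^ m‖ ≤ (1 + ‖a‖) ^ m ∧
    ‖(1 - a) ^ m - 1‖ ≤ m * ‖a‖ * (1 + ‖a‖) ^ m := by
  have h0 := norm_nonneg a
  have h1 : ‖1 - a‖ ≤ 1 + ‖a‖ := by simpa using norm_sub_le 1 a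
  have h2 : ∀ k : ℕ, ‖(1 - a) ^ k‖ ≤ (1 + ‖a‖) ^ k := fun k => by
    rw [norm_pow]; gcongr
  refine ⟨h2 m, ?_⟩
  induction m with
  | zero => simp
  | succ k ih =>
    have h3 : (1 + ‖a‖) ^ k ≤ (1 + ‖a‖) ^ (k + 1) :=
      pow_le_pow_right₀ (by linarith) (Nat.le_succ k)
    calc ‖(1 - a) ^ (k + 1) - 1‖ = ‖((1 - a) ^ k - 1) - (1 - a) ^ k * a‖ := by
          congr 1; ring
      _ ≤ ‖(1 - a) ^ k - 1‖ + ‖(1 - a) ^ k‖ * ‖a‖ := by
          rw [← norm_mul]; exact norm_sub_le _ _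
      _ ≤ k * ‖a‖ * (1 + ‖a‖) ^ (k + 1) + (1 + ‖a‖) ^ (k + 1) * ‖a‖ := by
          gcongr
          · exact ih.trans (by gcongr)
          · exact (h2 k).trans h3
      _ = _ := by push_cast; ring

lemma le_exp_mul {x l : ℝ} (hx : 0 ≤ x) (hl : 1 ≤ l) : x ≤ Real.exp (x * l ^ 2) := by
  have h1 : 1 ≤ l ^ 2 := one_le_pow₀ hl
  have h2 := Real.add_one_le_exp (x * l ^ 2)
  nlinarith

lemma three_add_le {x : ℝ} (hx : 0 ≤ x) : 3 + x ≤ Real.exp (Real.log (3 + x) ^ 2) := by
  have h1 := one_le_log_three_add hx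
  calc 3 + x = Real.exp (Real.log (3 + x)) := (Real.exp_log (by linarith)).symm
    _ ≤ _ := Real.exp_le_exp.2 (by nlinarith)

lemma add_ne (v : ℝ) {z : ℂ} (hz : z.re = 1) : 1 ≤ ‖z + v * I‖ := by
  have := re_le_norm (z + v * I)
  simpa [hz] using this

/-- The quotient in the neighbourhood where the local factorisation holds. -/
lemma near (t0 : ℝ) : ∃ r K B : ℝ, 0 < r ∧ r ≤ 1 ∧ 0 ≤ K ∧ 0 ≤ B ∧
    (∀ t : ℝ, |t - t0| < r → ‖riemannZeta (cl t)‖ ≤ B) ∧
    ∀ (t L : ℝ) (z : ℂ), |t - t0| < r → 0 < L → z.re = 1 → ‖z‖ / L ≤ r →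
      ∃ b : ℂ, ‖b - 1‖ ≤ K * (‖z‖ / L) ∧ riemannZeta (cl t) * zi (cl t + z / L) =
        (1 - z / (z + ((t - t0) * L : ℝ) * I)) ^ mult t0 * b := by
  obtain ⟨h, h1, h2, h3⟩ := exists_local t0
  obtain ⟨K, U, hU, hK⟩ := (h1.contDiffAt (n := 1)).exists_lipschitzOnWith
  have hp : 0 < ‖h (cl t0)‖ := norm_pos_iff.2 h2
  have h4 : ∀ᶠ s in 𝓝 (cl t0), ‖h (cl t0)‖ / 2 < ‖h s‖ :=
    h1.continuousAt.norm.eventually (lt_mem_nhds (half_lt_self hp))
  have h5 : ∀ᶠ s in 𝓝 (cl t0), ‖riemannZeta s‖ < ‖riemannZeta (cl t0)‖ + 1 :=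
    (analyticAt_zeta_cl t0).continuousAt.norm.eventually (gt_mem_nhds (lt_add_one _))
  have h6 : ∀ᶠ s in 𝓝 (cl t0), s ≠ 1 := isOpen_ne.eventually_mem (cl_ne_one t0)
  obtain ⟨ε, hε, H⟩ := Metric.eventually_nhds_iff.1
    (h3.and (h4.and (h5.and (h6.and (show ∀ᶠ s in 𝓝 (cl t0), s ∈ U from hU)))))
  have hd : ∀ t : ℝ, dist (cl t) (cl t0) = |t - t0| := fun t => by
    rw [dist_eq_norm, cl_sub, norm_mul, norm_I, mul_one, norm_real, Real.norm_eq_abs]
  have hr : min (ε / 2) 1 ≤ ε / 2 := min_le_left _ _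
  refine ⟨min (ε / 2) 1, K / (‖h (cl t0)‖ / 2), ‖riemannZeta (cl t0)‖ + 1, by positivity,
    min_le_right _ _, by positivity, by positivity, fun t ht => ?_, fun t L z ht hL hz hn => ?_⟩
  · exact (H (by rw [hd]; linarith)).2.2.1.le
  have hq : ‖z / (L : ℂ)‖ = ‖z‖ / L := by rw [norm_div, norm_real, Real.norm_of_nonneg hL.le]
  have hs : dist (cl t + z / L) (cl t) = ‖z‖ / L := by
    rw [dist_eq_norm, add_sub_cancel_left, hq]
  obtain ⟨a1, -, -, -, a5⟩ := H (y := cl t) (by rw [hd]; linarith)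
  obtain ⟨b1, b2, -, b4, b5⟩ := H (y := cl t + z / L)
    ((dist_triangle _ (cl t) _).trans_lt (by rw [hd, hs]; linarith))
  have hb : h (cl t + z / L) ≠ 0 := norm_pos_iff.1 (by linarith)
  refine ⟨h (cl t) / h (cl t + z / L), ?_, ?_⟩
  · have h7 := hK.dist_le_mul _ a5 _ b5
    rw [dist_comm (cl t), hs, dist_eq_norm] at h7
    rw [div_sub_one hb, norm_div]
    calc _ ≤ K * (‖z‖ / L) / (‖h (cl t0)‖ / 2) := by gcongr
      _ = _ := by ring
  · have hL' : (L : ℂ) ≠ 0 := ofReal_ne_zero.2 hL.ne'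
    have hw : z + ((t - t0) * L : ℝ) * I ≠ 0 :=
      norm_pos_iff.1 (one_pos.trans_le (add_ne _ hz))
    have e1 : cl t + z / L - cl t0 = (z + ((t - t0) * L : ℝ) * I) / L := by
      rw [add_sub_right_comm, cl_sub]; push_cast; field_simp; ring
    have e2 : 1 - z / (z + ((t - t0) * L : ℝ) * I) =
        (cl t - cl t0) / ((z + ((t - t0) * L : ℝ) * I) / L) := by
      rw [cl_sub, one_sub_div hw, div_div_eq_mul_div]; congr 1; push_cast; ring
    rw [zi_eq b4, a1, b1, e1, e2, div_pow (cl t - cl t0), mul_inv]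
    ring

/-- The reciprocal of zeta when the shift is large. -/
lemma far (h : StCR) (hR : RHs) (t0 : ℝ) {r : ℝ} (hr : 0 < r) (hr1 : r ≤ 1) :
    ∃ C : ℝ, 0 ≤ C ∧ ∀ (t L : ℝ) (z : ℂ), |t - t0| < r → 1 ≤ L → z.re = 1 → r ≤ ‖z‖ / L →
      ‖zi (cl t + z / L)‖ ≤ Real.exp (C * Real.log (3 + ‖z‖) ^ 2) := by
  obtain ⟨C, hC, H⟩ := h hR
  have c1 : 0 ≤ Real.log (2 + |t0|) := Real.log_nonneg (by linarith [abs_nonneg t0])
  have c2 : 0 ≤ Real.log (3 / r) := Real.log_nonneg (by rw [le_div_iff₀ hr]; linarith)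
  refine ⟨C * (1 + Real.log (2 + |t0|)) * (1 + Real.log (3 / r)), by positivity,
    fun t L z ht hL hz hn => ?_⟩
  have hL0 : 0 < L := by linarith
  have h0 := norm_nonneg z
  have hl := one_le_log_three_add h0
  have e : cl t + z / L = ((1 / 2 + 1 / L : ℝ) : ℂ) + ((t + z.im / L : ℝ) : ℂ) * I := by
    apply Complex.ext
    · simp [cl, div_ofReal_re, hz]
    · simp [cl, div_ofReal_im]
  have h1 := H (1 / L) (1 / 2 + 1 / L) (t + z.im / L) (by positivity)
    (by rw [div_le_one hL0]; exact hL) le_rfl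
  have h2 : |z.im / L| ≤ ‖z‖ := by
    rw [abs_div, abs_of_pos hL0]
    exact (div_le_self (abs_nonneg _) hL).trans (abs_im_le_norm z)
  have h3 : |t + z.im / L| ≤ |t0| + 1 + ‖z‖ := by
    have := abs_add_le t (z.im / L)
    have := abs_sub_abs_le_abs_sub t t0
    linarith
  have h4 : Real.log (3 + |t + z.im / L|) ≤ (1 + Real.log (2 + |t0|)) * Real.log (3 + ‖z‖) := by
    calc _ ≤ Real.log ((3 + ‖z‖) * (2 + |t0|)) :=
          Real.log_le_log (by positivity) (by nlinarith [abs_nonneg t0])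
      _ = Real.log (3 + ‖z‖) + Real.log (2 + |t0|) :=
          Real.log_mul (by positivity) (by positivity)
      _ ≤ _ := by nlinarith
  have h5 : Real.log (3 / (1 / L)) ≤ (1 + Real.log (3 / r)) * Real.log (3 + ‖z‖) := by
    have h6 : L ≤ (3 + ‖z‖) / r := by
      rw [le_div_iff₀ hL0] at hn
      rw [le_div_iff₀ hr]; linarith
    calc _ ≤ Real.log ((3 + ‖z‖) * (3 / r)) := by
          refine Real.log_le_log (by positivity) ?_
          calc 3 / (1 / L) = 3 * L := by field_simp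
            _ ≤ 3 * ((3 + ‖z‖) / r) := by gcongr
            _ = _ := by ring
      _ = Real.log (3 + ‖z‖) + Real.log (3 / r) := Real.log_mul (by positivity) (by positivity)
      _ ≤ _ := by nlinarith
  have h7 : 0 ≤ Real.log (3 / (1 / L)) :=
    Real.log_nonneg (by rw [le_div_iff₀ (by positivity), one_mul, div_le_iff₀ hL0]; linarith)
  rw [e]
  refine h1.trans (Real.exp_le_exp.2 ?_)
  calc _ ≤ C * ((1 + Real.log (2 + |t0|)) * Real.log (3 + ‖z‖)) *
        ((1 + Real.log (3 / r)) * Real.log (3 + ‖z‖)) := by gcongr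
    _ = _ := by ring

end RL

open RL in
theorem pRL (h : StCR) : StRL := by
  intro hR t0
  obtain ⟨r, K, B, hr, hr1, hK, hB, H1, H2⟩ := near t0
  obtain ⟨C, hC, H3⟩ := far h hR t0 hr hr1
  refine ⟨r, (mult t0 + 1 + (mult t0 + K)) + ((B + 1) + C + 1 + 1 / r), hr, hr1,
    fun t ht L hL z hz => ?_, fun u z hz => ?_⟩
  · have hL0 : 0 < L := by linarith
    have h0 := norm_nonneg z
    have hl := one_le_log_three_add h0
    have h3 := three_add_le h0
    have hw := add_ne ((t - t0) * L) hz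
    set l := Real.log (3 + ‖z‖) with hl'
    set w := z + ((t - t0) * L : ℝ) * I with hw'
    rcases le_total (‖z‖ / L) r with hn | hn
    · obtain ⟨b, b1, b2⟩ := H2 t L z ht hL0 hz hn
      obtain ⟨p1, p2⟩ := pow_sub_one (z / w) (mult t0)
      have ha : ‖z / w‖ ≤ ‖z‖ := by rw [norm_div]; exact div_le_self h0 hw
      have h4 : (1 + ‖z / w‖) ^ mult t0 ≤ Real.exp (l ^ 2) ^ mult t0 := by
        gcongr; linarith
      rw [b2]
      calc _ = ‖((1 - z / w) ^ mult t0 - 1) + (1 - z / w) ^ mult t0 * (b - 1)‖ := by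
            congr 1; ring
        _ ≤ ‖(1 - z / w) ^ mult t0 - 1‖ + ‖(1 - z / w) ^ mult t0‖ * ‖b - 1‖ := by
            rw [← norm_mul]; exact norm_add_le _ _
        _ ≤ mult t0 * ‖z / w‖ * Real.exp (l ^ 2) ^ mult t0 +
              Real.exp (l ^ 2) ^ mult t0 * (K * (‖z‖ / L)) := by
            gcongr
            · exact p2.trans (by gcongr)
            · exact p1.trans h4
        _ = Real.exp (l ^ 2) ^ mult t0 * ‖z‖ * (K * (1 / L) + mult t0 * (1 / ‖w‖)) := by
            rw [norm_div]; ring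
        _ ≤ Real.exp (l ^ 2) ^ mult t0 * Real.exp (l ^ 2) *
              ((mult t0 + K) * (1 / L) + (mult t0 + K) * (1 / ‖w‖)) := by
            gcongr
            · linarith
            · linarith [(mult t0).cast_nonneg (α := ℝ)]
            · linarith
        _ = Real.exp (l ^ 2) ^ mult t0 * Real.exp (l ^ 2) * (mult t0 + K) *
              (1 / L + 1 / ‖w‖) := by ring
        _ ≤ Real.exp (l ^ 2) ^ mult t0 * Real.exp (l ^ 2) * Real.exp ((mult t0 + K) * l ^ 2) *
              (1 / L + 1 / ‖w‖) := by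
            gcongr; exact le_exp_mul (by positivity) hl
        _ = Real.exp ((mult t0 + 1 + (mult t0 + K)) * l ^ 2) * (1 / L + 1 / ‖w‖) := by
            rw [← Real.exp_nat_mul, ← Real.exp_add, ← Real.exp_add]; congr 2; ring
        _ ≤ _ := by
            gcongr Real.exp (?_ * _) * _; exact le_add_of_nonneg_right (by positivity)
    · have h4 := H3 t L z ht hL hz hn
      have h5 : 1 ≤ Real.exp (C * l ^ 2) := Real.one_le_exp (by positivity)
      have h6 : 1 ≤ ‖z‖ * (1 / r) * (1 / L) := by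
        rw [le_div_iff₀ hL0] at hn
        rw [mul_one_div, mul_one_div, le_div_iff₀ hL0, le_div_iff₀ hr]; linarith
      calc _ ≤ ‖riemannZeta (cl t)‖ * ‖zi (cl t + z / L)‖ + 1 := by
            rw [← norm_mul]; simpa using norm_sub_le (riemannZeta (cl t) * zi (cl t + z / L)) 1
        _ ≤ B * Real.exp (C * l ^ 2) + Real.exp (C * l ^ 2) := by
            gcongr; exact H1 t ht
        _ = (B + 1) * Real.exp (C * l ^ 2) * 1 := by ring
        _ ≤ (B + 1) * Real.exp (C * l ^ 2) * (‖z‖ * (1 / r) * (1 / L)) := by gcongr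
        _ ≤ Real.exp ((B + 1) * l ^ 2) * Real.exp (C * l ^ 2) *
              (Real.exp (l ^ 2) * Real.exp (1 / r * l ^ 2) * (1 / L + 1 / ‖w‖)) := by
            gcongr
            · exact le_exp_mul (by positivity) hl
            · linarith
            · exact le_exp_mul (by positivity) hl
            · exact le_add_of_nonneg_right (by positivity)
        _ = Real.exp (((B + 1) + C + 1 + 1 / r) * l ^ 2) * (1 / L + 1 / ‖w‖) := by
            rw [← mul_assoc, ← Real.exp_add, ← Real.exp_add, ← Real.exp_add]; congr 2; ring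
        _ ≤ _ := by
            gcongr Real.exp (?_ * _) * _; exact le_add_of_nonneg_left (by positivity)
  · have hw : z + u * I ≠ 0 := norm_pos_iff.1 (one_pos.trans_le (add_ne u hz))
    have e : u * I / (u * I + z) = 1 - z / (z + u * I) := by
      rw [one_sub_div hw, add_comm z]; congr 1; ring
    have t1 : ∀ x : ℝ, Tendsto (fun L : ℝ => x / L) atTop (𝓝 0) := fun x =>
      tendsto_const_nhds.div_atTop tendsto_id
    rw [e, tendsto_iff_norm_sub_tendsto_zero]
    have t2 : Tendsto (fun L : ℝ => ‖(1 - z / (z + u * I)) ^ mult t0‖ * (K * (‖z‖ / L))) atTop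
        (𝓝 0) := by simpa using ((t1 ‖z‖).const_mul K).const_mul ‖(1 - z / (z + u * I)) ^ mult t0‖
    refine squeeze_zero' (Eventually.of_forall fun _ => norm_nonneg _) ?_ t2
    filter_upwards [eventually_gt_atTop 0, (t1 |u|).eventually (gt_mem_nhds hr),
      (t1 ‖z‖).eventually (gt_mem_nhds hr)] with L hL a1 a2
    obtain ⟨b, b1, b2⟩ := H2 (t0 + u / L) L z
      (by rwa [add_sub_cancel_left, abs_div, abs_of_pos hL]) hL hz a2.le
    rw [add_sub_cancel_left, div_mul_cancel₀ _ hL.ne'] at b2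
    rw [b2, ← mul_sub_one, norm_mul]
    gcongr

end Pool.Agent.P.MP_323ce2_nt.NB
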