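import Mathlib
import Pool.Agent.P.MP_323ce2_nt.NB.Defs

/-! The ratio of two nearby values of zeta, and the number of zeros in a window. -/

open Complex Filter Topology Set MeasureTheory Metric
open scoped Real

namespace Pool.Agent.P.MP_323ce2_nt.NB

namespace RN

lemma prod_sub_one {ι : Type*} (S : Finset ι) (a : ι → ℂ) {A : ℝ} (hA : 0 ≤ A)
    (h : ∀ i, ‖a i‖ ≤ A) :
    ‖∏ i ∈ S, (1 - a i) - 1‖ ≤ (1 + A) ^ S.card * ∑ i ∈ S, ‖a i‖ ∧
      ‖∏ i ∈ S, (1 - a i)‖ ≤ (1 + A) ^ S.card := by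
  classical
  induction S using Finset.induction_on with
  | empty => simp
  | insert i S hi ih =>
    obtain ⟨h1, h2⟩ := ih
    have h3 : ‖1 - a i‖ ≤ 1 + A := (norm_sub_le _ _).trans (by simpa using h i)
    have h4 : 0 ≤ ∑ j ∈ S, ‖a j‖ := Finset.sum_nonneg fun _ _ => norm_nonneg _
    have h5 : 0 ≤ (1 + A) ^ S.card := by positivity
    rw [Finset.prod_insert hi, Finset.sum_insert hi, Finset.card_insert_of_notMem hi, pow_succ]
    constructor
    · calc _ = ‖(∏ j ∈ S, (1 - a j) - 1) - a i * ∏ j ∈ S, (1 - a j)‖ := by congr 1; ring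
        _ ≤ ‖∏ j ∈ S, (1 - a j) - 1‖ + ‖a i‖ * ‖∏ j ∈ S, (1 - a j)‖ := by
          rw [← norm_mul]; exact norm_sub_le _ _
        _ ≤ (1 + A) ^ S.card * ∑ j ∈ S, ‖a j‖ + ‖a i‖ * (1 + A) ^ S.card := by gcongr
        _ ≤ _ := by
          nlinarith [mul_nonneg (mul_nonneg h5 hA) (add_nonneg (norm_nonneg (a i)) h4)]
    · rw [norm_mul, mul_comm]
      gcongr

lemma lip {φ : ℂ → ℂ} {c : ℂ} {r B : ℝ} (hr : 0 < r) (hd : DifferentiableOn ℂ φ (ball c (4 * r)))
    (hb : ∀ s ∈ closedBall c (3 * r), ‖φ s‖ ≤ B) {x y : ℂ} (hx : x ∈ closedBall c (2 * r))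
    (hy : y ∈ closedBall c (2 * r)) : ‖φ y - φ x‖ ≤ B / r * ‖y - x‖ := by
  refine (convex_closedBall c (2 * r)).norm_image_sub_le_of_norm_deriv_le (fun w hw => ?_)
    (fun w hw => ?_) hx hy
  · exact hd.differentiableAt (isOpen_ball.mem_nhds (closedBall_subset_ball (by linarith) hw))
  · have hsub : closedBall w r ⊆ closedBall c (3 * r) :=
      closedBall_subset_closedBall' (by rw [mem_closedBall] at hw; linarith)
    exact norm_deriv_le_of_forall_mem_sphere_norm_le hr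
      ((hd.mono (hsub.trans (closedBall_subset_ball (by linarith)))).diffContOnCl_ball le_rfl)
      fun z hz => hb z (hsub (sphere_subset_closedBall hz))

lemma norm_cl_sub (k t γ : ℝ) (hk : 0 ≤ k) :
    ‖cl γ - (((1 / 2 + k : ℝ) : ℂ) + t * I)‖ ≤ k + |γ - t| := by
  have e : cl γ - (((1 / 2 + k : ℝ) : ℂ) + t * I) = ((γ - t : ℝ) : ℂ) * I - (k : ℝ) := by
    unfold cl; push_cast; ring
  rw [e]
  refine (norm_sub_le _ _).trans ?_
  rw [norm_mul, norm_I, mul_one, norm_real, norm_real, Real.norm_eq_abs, Real.norm_of_nonneg hk,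
    add_comm]

end RN

theorem pRN (h1 : StFac) (h2 : StQL) : StRN := by
  intro hR
  obtain ⟨l0, h2⟩ := h2 hR
  refine ⟨max l0 (Real.exp (5000000 ^ 2)), fun l hl t hT hTl => ?_⟩
  obtain ⟨ha, hb⟩ := h2 l ((le_max_left _ _).trans hl) t hT hTl
  have hl1 : Real.exp (5000000 ^ 2) ≤ l := (le_max_right _ _).trans hl
  have hl0 : 0 < l := (Real.exp_pos _).trans_le hl1
  have h7 : 5000000 ≤ √(Real.log l) :=
    Real.le_sqrt_of_sq_le ((Real.le_log_iff_exp_le hl0).2 hl1)
  have hl2 : 5000000 ^ 2 ≤ l := by linarith [Real.add_one_le_exp ((5000000 : ℝ) ^ 2)]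
  clear hl1 hl h2
  generalize √(Real.log l) = q at ha hb h7 ⊢
  have hq : 0 < q := by linarith
  have hM : 0 < 2000 * l / q := by positivity
  have hk : 0 < q⁻¹ := by positivity
  have hk7 : q⁻¹ ≤ 1 / 5000000 := by rw [inv_eq_one_div]; gcongr
  obtain ⟨n, ρ, H, φ, hn, hρ, hH, hφ, hf, hφb⟩ := h1 riemannZeta _ q⁻¹ _ hk hM
    ((differentiableOn_zeta hT _).mono (ball_subset_ball (by linarith))) (ha _ le_rfl) hb
  have hρ' : ∀ i, ρ i = cl (ρ i).im := fun i => by
    have h3 := re_of_mem (hρ i).1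
    simp only [add_re, ofReal_re, mul_re, I_re, mul_zero, ofReal_im, I_im, mul_one, sub_self,
      add_zero] at h3
    exact Complex.ext ((hR _ (hρ i).2 (by linarith [h3.1]) (by linarith [h3.2])).trans
      (cl_re _).symm) (cl_im _).symm
  refine ⟨n, fun i => (ρ i).im, by rwa [show 6000 * l / q = 3 * (2000 * l / q) by ring],
    fun i => ⟨hρ' i ▸ (hρ i).2, ?_⟩, fun L hL z hz hzL => ?_⟩
  · simpa [div_eq_mul_inv] using im_of_mem (hρ i).1
  have hL0 : 0 < L := by linarith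
  have hLc : (L : ℂ) ≠ 0 := ofReal_ne_zero.2 hL0.ne'
  have hu : ‖z / L‖ = ‖z‖ / L := by rw [norm_div, norm_real, Real.norm_of_nonneg hL0.le]
  have h3 := RN.norm_cl_sub q⁻¹ t t hk.le
  rw [sub_self, abs_zero, add_zero] at h3
  have hs : cl t ∈ closedBall (((1 / 2 + q⁻¹ : ℝ) : ℂ) + t * I) (2 * q⁻¹) := by
    rw [mem_closedBall, dist_eq_norm]
    linarith
  have hs' : cl t + z / L ∈ closedBall (((1 / 2 + q⁻¹ : ℝ) : ℂ) + t * I) (2 * q⁻¹) := by
    rw [mem_closedBall, dist_eq_norm, add_sub_right_comm]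
    refine (norm_add_le _ _).trans ?_
    linarith
  have hne : cl t + z / L ≠ 1 := by
    intro e
    have := one_le_norm_sub_one hT (closedBall_subset_closedBall (by linarith) hs')
    rw [e] at this
    norm_num at this
  have hH0 : H ≠ 0 := by
    rintro rfl
    rw [norm_zero, zero_mul] at hH
    exact absurd hH (not_le.2 (Real.exp_pos _))
  have hw : ∀ i, z.re ≤ ‖z + ((t - (ρ i).im) * L : ℝ) * I‖ := fun i =>
    le_trans (by simp) (re_le_norm _)
  have hw0 : ∀ i, z + ((t - (ρ i).im) * L : ℝ) * I ≠ 0 := fun i =>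
    norm_pos_iff.1 (hz.trans_le (hw i))
  have e1 : ∀ i, cl t - ρ i = ((t - (ρ i).im : ℝ) : ℂ) * I := fun i => by
    rw [← cl_sub, ← hρ']
  have e2 : ∀ i, cl t + z / L - ρ i = (z + ((t - (ρ i).im) * L : ℝ) * I) / L := fun i => by
    rw [add_sub_right_comm, e1]
    push_cast
    field_simp
    ring
  have e3 : riemannZeta (cl t) * zi (cl t + z / L) = exp (φ (cl t) - φ (cl t + z / L)) *
      ∏ i, (1 - z / (z + ((t - (ρ i).im) * L : ℝ) * I)) := by
    have e4 : ∏ i, (1 - z / (z + ((t - (ρ i).im) * L : ℝ) * I)) =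
        (∏ i, (cl t - ρ i)) / ∏ i, (cl t + z / L - ρ i) := by
      rw [← Finset.prod_div_distrib]
      refine Finset.prod_congr rfl fun i _ => ?_
      have := hw0 i
      rw [e1, e2, one_sub_div this, div_div_eq_mul_div]
      congr 1
      push_cast
      ring
    rw [zi_eq hne, hf _ (closedBall_subset_ball (by linarith) hs),
      hf _ (closedBall_subset_ball (by linarith) hs'), e4, exp_sub]
    field_simp
  have hA : 0 ≤ ‖z‖ / z.re := by positivity
  obtain ⟨h4, -⟩ := RN.prod_sub_one Finset.univ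
    (fun i => z / (z + ((t - (ρ i).im) * L : ℝ) * I)) hA fun i => by
      rw [norm_div]
      gcongr
      exact hw i
  rw [Finset.card_univ, Fintype.card_fin] at h4
  have h5 := RN.lip hk hφ hφb hs' hs
  rw [sub_add_cancel_left, norm_neg, hu] at h5
  have e5 : 12 * (2000 * l / q) / q⁻¹ = 24000 * l := by field_simp; norm_num
  rw [e5] at h5
  rw [e3]
  generalize φ (cl t) - φ (cl t + z / L) = d at h5
  have h6 : ‖d‖ ≤ l / 200 := h5.trans (by
    calc 24000 * l * (‖z‖ / L) ≤ 24000 * l * (1 / 5000000) :=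
          mul_le_mul_of_nonneg_left (hzL.trans hk7) (by positivity)
      _ ≤ _ := by linarith)
  have h8 : ‖exp d‖ ≤ Real.exp (l / 200) :=
    (norm_exp_le_exp_norm d).trans (Real.exp_le_exp.2 h6)
  have h9 : ‖exp d - 1‖ ≤ 24000 * l * (‖z‖ / L) * Real.exp (l / 200) := by
    have := norm_exp_sub_sum_le_norm_mul_exp d 1
    simp only [Finset.range_one, Finset.sum_singleton, pow_zero, Nat.factorial_zero, Nat.cast_one,
      div_one, pow_one] at this
    exact this.trans (by gcongr)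
  have h10 : 24000 * l ≤ Real.exp (l / 200) := by
    have := Real.quadratic_le_exp_of_nonneg (show 0 ≤ l / 200 by positivity)
    nlinarith
  have h11 : 1 ≤ (1 + ‖z‖ / z.re) ^ n := one_le_pow₀ (by linarith)
  have h12 : 1 ≤ Real.exp (l / 200) := Real.one_le_exp (by positivity)
  have e6 : Real.exp (l / 100) = Real.exp (l / 200) * Real.exp (l / 200) := by
    rw [← Real.exp_add]; congr 1; ring
  have e7 : ∑ i, ‖z / (z + ((t - (ρ i).im) * L : ℝ) * I)‖ =
      ‖z‖ * ∑ i, 1 / ‖z + ((t - (ρ i).im) * L : ℝ) * I‖ := by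
    rw [Finset.mul_sum]
    exact Finset.sum_congr rfl fun i _ => by rw [norm_div, mul_one_div]
  rw [e7] at h4
  have h13 : 0 ≤ ∑ i, 1 / ‖z + ((t - (ρ i).im) * L : ℝ) * I‖ :=
    Finset.sum_nonneg fun _ _ => by positivity
  generalize ∑ i, 1 / ‖z + ((t - (ρ i).im) * L : ℝ) * I‖ = S at h4 h13 ⊢
  generalize ∏ i, (1 - z / (z + ((t - (ρ i).im) * L : ℝ) * I)) = P at h4 ⊢
  generalize (1 + ‖z‖ / z.re) ^ n = B at h4 h11 ⊢
  rw [e6]
  generalize Real.exp (l / 200) = E at h8 h9 h10 h12 ⊢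
  calc _ = ‖(exp d - 1) + exp d * (P - 1)‖ := by congr 1; ring
    _ ≤ ‖exp d - 1‖ + ‖exp d‖ * ‖P - 1‖ := by rw [← norm_mul]; exact norm_add_le _ _
    _ ≤ E * (‖z‖ / L) * E * 1 + 1 * E * (B * (‖z‖ * S)) := by
      rw [mul_one, one_mul]
      gcongr
      exact h9.trans (by gcongr)
    _ ≤ E * (‖z‖ / L) * E * B + E * E * (B * (‖z‖ * S)) := by gcongr
    _ = _ := by ring

theorem pCnt (h1 : StFac) : StCnt := by
  intro hR
  obtain ⟨T1, hT1, h⟩ := littlewood hR
  refine ⟨T1, fun t0 ht => ?_⟩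
  obtain ⟨hl, ha, hb⟩ := h t0 ht
  have hw := wd_pos
  have hw1 : wd = 1 / 1000000 := rfl
  obtain ⟨n, ρ, H, φ, hn, -, hH, -, hf, -⟩ := h1 riemannZeta _ wd (Real.log |t0| / 1000) hw
    (by linarith) ((differentiableOn_zeta (hT1.trans ht) _).mono (ball_subset_ball (by linarith)))
    (ha _ le_rfl (by linarith)) hb
  have hH0 : H ≠ 0 := by
    rintro rfl
    rw [norm_zero, zero_mul] at hH
    exact absurd hH (not_le.2 (Real.exp_pos _))
  refine ⟨Finset.univ.image fun i => (ρ i).im, ?_, fun γ h0 hγ => ?_⟩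
  · have : (Finset.univ.image fun i => (ρ i).im).card ≤ n :=
      Finset.card_image_le.trans (by simp)
    calc _ ≤ (n : ℝ) := by exact_mod_cast this
      _ ≤ _ := by linarith
  · have h2 := hf (cl γ) (by
      rw [mem_ball, dist_eq_norm]
      linarith [RN.norm_cl_sub wd t0 γ hw.le])
    rw [h0] at h2
    obtain ⟨i, -, e⟩ := Finset.prod_eq_zero_iff.1
      ((mul_eq_zero.1 h2.symm).resolve_left (mul_ne_zero hH0 (exp_ne_zero _)))
    exact Finset.mem_image.2 ⟨i, Finset.mem_univ _, by rw [← sub_eq_zero.1 e, cl_im]⟩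

end Pool.Agent.P.MP_323ce2_nt.NB
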