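import Mathlib
import Pool.Agent.P.MP_323ce2_nt.NB.Defs

/-! The bound for the ratio of two values of zeta at large height. -/

open Complex Filter Topology Set MeasureTheory Metric
open scoped Real

namespace Pool.Agent.P.MP_323ce2_nt.NB

namespace RT

lemma log_le_two {x T : ℝ} (hT : 0 < T) (h : T ≤ x ^ 2) :
    Real.log T ≤ 2 * Real.log x := by
  have := Real.log_le_log hT h
  rwa [Real.log_pow, Nat.cast_ofNat] at this

lemma le_exp_sq {r : ℝ} (hr : 0 ≤ r) : r ≤ Real.exp (Real.log (3 + r) ^ 2) := by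
  have h1 := one_le_log_three_add hr
  calc r ≤ Real.exp (Real.log (3 + r)) := by rw [Real.exp_log (by linarith)]; linarith
    _ ≤ _ := Real.exp_le_exp.2 (by nlinarith)

lemma log_four {x : ℝ} (hx : 0 ≤ x) : Real.log (1 + 4 * x) ≤ 4 * Real.log (1 + x) := by
  have h : 1 + 4 * x ≤ (1 + x) ^ 4 := by
    simpa using one_add_mul_le_pow (by linarith : (-2 : ℝ) ≤ x) 4
  have := Real.log_le_log (by linarith) h
  rwa [Real.log_pow, Nat.cast_ofNat] at this

lemma shift (t L : ℝ) (z : ℂ) :
    cl t + z / L = ((1 / 2 + z.re / L : ℝ) : ℂ) + ((t + z.im / L : ℝ) : ℂ) * I := by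
  conv_lhs => rw [← re_add_im z]
  unfold cl
  push_cast
  ring

lemma sum_le {n : ℕ} (γ : Fin n → ℝ) (Z : Finset ℝ) (h : ∀ i, γ i ∈ Z) (f : ℝ → ℝ)
    (hf : ∀ x, 0 ≤ f x) : ∑ i, f (γ i) ≤ n * ∑ x ∈ Z, f x := by
  calc ∑ i, f (γ i) ≤ ∑ _i : Fin n, ∑ x ∈ Z, f x :=
        Finset.sum_le_sum fun i _ => Finset.single_le_sum (fun x _ => hf x) (h i)
    _ = _ := by simp

/-- The far case, given bounds for the two factors. -/
lemma far {u v : ℂ} {l q r L A B E S : ℝ} (hu : ‖u‖ ≤ Real.exp A) (hv : ‖v‖ ≤ Real.exp B)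
    (hA : 0 ≤ A) (hB : 0 ≤ B) (hAl : A ≤ l / 100) (hq : 2 * q ≤ l / 100) (hq0 : 0 < q)
    (hr : 0 ≤ r) (hL : 0 < L) (hfar : L ≤ r * q) (hE : B + Real.log (3 + r) ^ 2 ≤ E)
    (hS : 0 ≤ S) : ‖u * v - 1‖ ≤ Real.exp (l / 50 + E) * (1 / L + S) := by
  have h1 : ‖u * v - 1‖ ≤ 2 * Real.exp (A + B) := by
    have h2 : ‖u * v‖ ≤ Real.exp (A + B) := by
      rw [norm_mul, Real.exp_add]
      gcongr
    have h3 : 1 ≤ Real.exp (A + B) := Real.one_le_exp (by linarith)
    have h4 := norm_sub_le (u * v) 1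
    rw [norm_one] at h4
    linarith
  have h2 : 2 * q ≤ Real.exp (l / 100) := by linarith [Real.add_one_le_exp (l / 100)]
  have h3 : 1 ≤ r * q / L := (one_le_div hL).2 hfar
  calc ‖u * v - 1‖ ≤ 2 * Real.exp (A + B) * (r * q / L) :=
        h1.trans (le_mul_of_one_le_right (by positivity) h3)
    _ = 2 * q * Real.exp (A + B) * r * (1 / L) := by ring
    _ ≤ Real.exp (l / 100) * Real.exp (A + B) * Real.exp (Real.log (3 + r) ^ 2) * (1 / L + S) := by
        gcongr
        · exact le_exp_sq hr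
        · linarith
    _ ≤ _ := by
        rw [← Real.exp_add, ← Real.exp_add]
        exact mul_le_mul_of_nonneg_right (Real.exp_le_exp.2 (by linarith)) (by positivity)

end RT

open RT in
theorem pRT (h1 : StQL) (h2 : StLow) (h3 : StCR) (h4 : StRN) (h5 : StCnt) : StRT := by
  intro hR
  obtain ⟨l1, h1⟩ := h1 hR
  obtain ⟨l2, h2⟩ := h2 hR
  obtain ⟨C0, hC0, h3⟩ := h3 hR
  obtain ⟨l4, h4⟩ := h4 hR
  obtain ⟨T5, h5⟩ := h5 hR
  refine ⟨76001 + 4 * C0, max T5 (Real.exp (max (max l1 l2) (max l4 (Real.exp (8000000 ^ 2))))),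
    fun t0 ht0 => ?_⟩
  obtain ⟨Z, hZ, hZ'⟩ := h5 t0 ((le_max_left _ _).trans ht0)
  refine ⟨Z, hZ, fun t ht L hL z hz => ?_⟩
  have hT0 : Real.exp (max (max l1 l2) (max l4 (Real.exp (8000000 ^ 2)))) ≤ |t0| :=
    (le_max_right _ _).trans ht0
  have p0 : 0 < |t0| := (Real.exp_pos _).trans_le hT0
  rw [← Real.le_log_iff_exp_le p0] at hT0
  simp only [max_le_iff] at hT0
  obtain ⟨⟨a1, a2⟩, a4, a5⟩ := hT0
  have e0 : Real.exp (Real.log |t0|) = |t0| := Real.exp_log p0
  replace h1 := h1 _ a1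
  replace h2 := h2 _ a2
  replace h4 := h4 _ a4
  clear h5 ht0 a1 a2 a4
  unfold ex
  set l := Real.log |t0| with hl
  have pl : 0 < l := (Real.exp_pos _).trans_le a5
  rw [← Real.le_log_iff_exp_le pl] at a5
  have hq : (8000000 : ℝ) ≤ √(Real.log l) := Real.le_sqrt_of_sq_le a5
  have hq2 : √(Real.log l) ^ 2 = Real.log l := Real.sq_sqrt (le_trans (by positivity) a5)
  have hql : √(Real.log l) ^ 2 ≤ l := by
    rw [hq2]
    linarith [Real.log_le_sub_one_of_pos pl]
  set q := √(Real.log l) with hqd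
  have pq : 0 < q := by linarith
  have hq3 : 2 * q ≤ l / 100 := by nlinarith
  have hl100 : 100 ≤ l := by linarith
  have ht6 : 100 ≤ |t0| := by linarith [Real.add_one_le_exp l]
  have hwd : wd = 1 / 1000000 := rfl
  have ht1 : |t - t0| ≤ 1 := by linarith
  have b1 : |t0| - 1 ≤ |t| := by linarith [abs_sub_abs_le_abs_sub t0 t, abs_sub_comm t0 t]
  have b2 : |t| ≤ |t0| + 1 := by linarith [abs_sub_abs_le_abs_sub t t0]
  have c1 : 3 ≤ |t| := by linarith
  have c2 : Real.log |t| ≤ 2 * l := log_le_two (by linarith) (by nlinarith)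
  have pL : 0 < L := by linarith
  have pr := norm_nonneg z
  have hre : l / 100 ≤ ‖z‖ := hz ▸ re_le_norm z
  have hb := one_le_log_three_add pr
  have hx : 1 ≤ 100 * ‖z‖ / l := by rw [one_le_div pl]; linarith
  have ha : 1 / 2 ≤ Real.log (1 + 100 * ‖z‖ / l) :=
    le_trans (by linarith [Real.log_two_gt_d9]) (Real.log_le_log two_pos (by linarith))
  have hlq : 0 < l / q := by positivity
  have hlq2 : l / q ≤ l / 8000000 := by gcongr
  have hS : 0 ≤ ∑ γ ∈ Z, 1 / ‖z + ((t - γ) * L : ℝ) * I‖ :=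
    Finset.sum_nonneg fun _ _ => by positivity
  set a := Real.log (1 + 100 * ‖z‖ / l) with had
  set b := Real.log (3 + ‖z‖) with hbd
  have hla : 0 ≤ l / q * a := by positivity
  have hb2 : 0 ≤ b ^ 2 := by positivity
  have eE : (76001 + 4 * C0) * l / q * a + (76001 + 4 * C0) * b ^ 2 =
      76001 * (l / q * a) + 4 * (C0 * (l / q * a)) + 76001 * b ^ 2 + 4 * (C0 * b ^ 2) := by ring
  have g1 : 0 ≤ C0 * (l / q * a) := by positivity
  have g2 : 0 ≤ C0 * b ^ 2 := by positivity
  rcases le_or_gt (‖z‖ / L) q⁻¹ with hn | hn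
  · obtain ⟨n, γ, hn1, hγ, hb4⟩ := h4 t c1 c2
    have h6 := hb4 L hL z (by rw [hz]; positivity) hn
    have hmem : ∀ i, γ i ∈ Z := fun i => hZ' _ (hγ i).1 (by
      have h7 : 4 / q ≤ 4 / 8000000 := by gcongr
      linarith [abs_sub_le (γ i) t t0, (hγ i).2])
    have h7 := sum_le γ Z hmem (fun x => 1 / ‖z + ((t - x) * L : ℝ) * I‖) fun _ => by positivity
    have e1 : 6000 * l / q = 6000 * (l / q) := by ring
    have h8 : (n : ℝ) ≤ Real.exp (l / 100) := by linarith [Real.add_one_le_exp (l / 100)]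
    have h9 : 1 ≤ Real.exp (l / 100) := Real.one_le_exp (by positivity)
    have h10 : 1 / L + ∑ i, 1 / ‖z + ((t - γ i) * L : ℝ) * I‖ ≤
        Real.exp (l / 100) * (1 / L + ∑ γ ∈ Z, 1 / ‖z + ((t - γ) * L : ℝ) * I‖) := by
      rw [mul_add]
      refine add_le_add (le_mul_of_one_le_left (by positivity) h9) (h7.trans ?_)
      gcongr
    have h11 : (1 + ‖z‖ / z.re) ^ n ≤ Real.exp (6000 * (l / q * a)) := by
      have e2 : 1 + ‖z‖ / z.re = Real.exp a := by
        rw [had, Real.exp_log (by linarith), hz]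
        field_simp
      rw [e2, ← Real.exp_nat_mul]
      refine Real.exp_le_exp.2 ?_
      calc (n : ℝ) * a ≤ 6000 * (l / q) * a := by
            gcongr
            linarith
        _ = _ := by ring
    refine h6.trans ?_
    calc _ ≤ Real.exp (l / 100) * Real.exp (6000 * (l / q * a)) * Real.exp (b ^ 2) *
          (Real.exp (l / 100) * (1 / L + ∑ γ ∈ Z, 1 / ‖z + ((t - γ) * L : ℝ) * I‖)) := by
          gcongr
          exact le_exp_sq pr
      _ ≤ _ := by
          rw [← mul_assoc, ← Real.exp_add, ← Real.exp_add, ← Real.exp_add]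
          exact mul_le_mul_of_nonneg_right (Real.exp_le_exp.2 (by linarith)) (by positivity)
  · have hfar : L ≤ ‖z‖ * q := by
      rw [lt_div_iff₀ pL, inv_mul_lt_iff₀ pq] at hn
      linarith
    have hu : ‖riemannZeta (cl t)‖ ≤ Real.exp (2000 * l / q) := by
      refine (h1 t c1 c2).2 _ ?_
      rw [mem_closedBall, dist_eq_norm,
        show cl t - (((1 / 2 + q⁻¹ : ℝ) : ℂ) + t * I) = ((-q⁻¹ : ℝ) : ℂ) by
          unfold cl; push_cast; ring,
        norm_real, Real.norm_eq_abs, abs_neg, abs_of_pos (by positivity)]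
      have : 0 < q⁻¹ := by positivity
      linarith
    have e1 : 2000 * l / q = 2000 * (l / q) := by ring
    have him : |z.im / L| = |z.im| / L := by rw [abs_div, abs_of_pos pL]
    have him2 := abs_im_le_norm z
    have d1 := abs_add_le t (z.im / L)
    have d2 : |t| - |z.im / L| ≤ |t + z.im / L| := by
      linarith [abs_sub (t + z.im / L) (z.im / L), show t + z.im / L - z.im / L = t by ring,
        congrArg abs (show t + z.im / L - z.im / L = t by ring)]
    rw [shift]
    rcases le_or_gt (|z.im| / L) (|t0| / 4) with hy | hy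
    · have pd : 0 < z.re / L := by rw [hz]; positivity
      have hv := h2 (t + z.im / L) (by linarith)
        (log_le_two (by linarith) (by nlinarith)) (z.re / L) pd
      have k1 : 4 / (z.re / L * q) ≤ 4 * (100 * ‖z‖ / l) := by
        rw [hz, div_le_iff₀ (by positivity)]
        have : 4 * (100 * ‖z‖ / l) * (l / 100 / L * q) = 4 * (‖z‖ * q / L) := by field_simp
        rw [this]
        linarith [(one_le_div pL).2 hfar]
      have k0 : 0 ≤ 4 / (z.re / L * q) := by positivity
      have k2 : Real.log (1 + 4 / (z.re / L * q)) ≤ 4 * a :=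
        (Real.log_le_log (by linarith) (by linarith)).trans (log_four (by linarith))
      have k3 : 0 ≤ Real.log (1 + 4 / (z.re / L * q)) := Real.log_nonneg (by linarith)
      refine far hu hv (by positivity) (by positivity) (by linarith) hq3 pq pr pL hfar ?_ hS
      have k4 : 6000 * l / q * Real.log (1 + 4 / (z.re / L * q)) ≤ 6000 * l / q * (4 * a) := by
        gcongr
      have k5 : l / q * (1 / 2) ≤ l / q * a := by gcongr
      have e2 : 6000 * l / q * (4 * a) = 24000 * (l / q * a) := by ring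
      have e3 : 26000 * l / q = 26000 * (l / q) := by ring
      linarith
    · have k0 : |z.im| / L ≤ |z.im| := div_le_self (abs_nonneg _) hL
      have k1 : L ≤ ‖z‖ := by
        rw [lt_div_iff₀ pL] at hy
        nlinarith
      have hv := h3 (1 / L) (1 / 2 + z.re / L) (t + z.im / L) (by positivity)
        ((div_le_one pL).2 hL) (by
          have : 1 / L ≤ z.re / L := by
            gcongr
            linarith
          linarith)
      have e2 : 3 / (1 / L) = 3 * L := by field_simp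
      rw [e2] at hv
      have k2 : Real.log (3 + |t + z.im / L|) ≤ 2 * b :=
        log_le_two (by positivity) (by nlinarith)
      have k3 : Real.log (3 * L) ≤ 2 * b :=
        log_le_two (by positivity) (by nlinarith)
      have k4 : 0 ≤ Real.log (3 + |t + z.im / L|) :=
        Real.log_nonneg (by linarith [abs_nonneg (t + z.im / L)])
      have k5 : 0 ≤ Real.log (3 * L) := Real.log_nonneg (by linarith)
      refine far hu hv (by positivity) (by positivity) (by linarith) hq3 pq pr pL hfar ?_ hS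
      have k6 : C0 * Real.log (3 + |t + z.im / L|) * Real.log (3 * L) ≤ C0 * (2 * b) * (2 * b) := by
        gcongr
      have e3 : C0 * (2 * b) * (2 * b) = 4 * (C0 * b ^ 2) := by ring
      linarith

end Pool.Agent.P.MP_323ce2_nt.NB
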