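import Mathlib
import Pool.Agent.P.MP_323ce2_nt.NB.Defs

/-! The error of the weighted Moebius polynomial as a contour integral. -/

open Complex Filter Topology Set MeasureTheory Metric
open scoped Real

namespace Pool.Agent.P.MP_323ce2_nt.NB

namespace Rep

lemma zi_bound (h : StCR) (hR : RHs) {L : ℝ} (hL : 1 ≤ L) (t : ℝ) : ∃ C : ℝ, ∀ z : ℂ, 1 ≤ z.re →
    ‖zi (cl t + z / L)‖ ≤ Real.exp (C * Real.log (3 + ‖z‖) ^ 2) := by
  obtain ⟨C, hC, h⟩ := h hR
  have hL0 : 0 < L := by linarith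
  have hl3 : 0 ≤ Real.log (3 / (1 / L)) :=
    Real.log_nonneg (by rw [div_div_eq_mul_div, div_one]; linarith)
  refine ⟨C * (Real.log (3 + |t|) + 1) * Real.log (3 / (1 / L)), fun z hz => ?_⟩
  have e : cl t + z / L = ((1 / 2 + z.re / L : ℝ) : ℂ) + ((t + z.im / L : ℝ) : ℂ) * I := by
    conv_lhs => rw [← re_add_im z]
    unfold cl
    push_cast
    ring
  rw [e]
  refine (h (1 / L) _ _ (by positivity) (by rw [div_le_one hL0]; exact hL)
    (by gcongr)).trans (Real.exp_le_exp.2 ?_)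
  have h0 := norm_nonneg z
  have ht := abs_nonneg t
  have h1 := one_le_log_three_add h0
  have h2 := one_le_log_three_add ht
  have h3 : |t + z.im / L| ≤ |t| + ‖z‖ := by
    refine (abs_add_le _ _).trans (add_le_add le_rfl ?_)
    rw [abs_div, abs_of_pos hL0]
    exact (div_le_self (abs_nonneg _) hL).trans (abs_im_le_norm z)
  have h4 : Real.log (3 + |t + z.im / L|) ≤ Real.log (3 + |t|) + Real.log (3 + ‖z‖) := by
    rw [← Real.log_mul (by positivity) (by positivity)]
    exact Real.log_le_log (by positivity) (by nlinarith)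
  have h5 : Real.log (3 + |t + z.im / L|) ≤
      (Real.log (3 + |t|) + 1) * Real.log (3 + ‖z‖) ^ 2 := by
    have h6 : Real.log (3 + ‖z‖) ≤ Real.log (3 + ‖z‖) ^ 2 := by nlinarith
    nlinarith
  calc C * Real.log (3 + |t + z.im / L|) * Real.log (3 / (1 / L))
      ≤ C * ((Real.log (3 + |t|) + 1) * Real.log (3 + ‖z‖) ^ 2) * Real.log (3 / (1 / L)) := by
        gcongr
    _ = _ := by ring

variable {K : ℂ → ℂ} {w : ℝ → ℂ}

lemma H_diff (hR : RHs) (hK : Ker K w) {L : ℝ} (hL : 1 ≤ L) (t : ℝ) :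
    DifferentiableOn ℂ (fun z => K z * zi (cl t + z / L)) {z | 0 < z.re} := by
  refine hK.diff.mul fun z hz => DifferentiableAt.differentiableWithinAt ?_
  have h1 : 1 / 2 < (cl t + z / L).re := by
    have h2 : 0 < z.re / L := div_pos hz (by linarith)
    rw [add_re, cl_re, div_ofReal_re]
    linarith
  exact DifferentiableAt.comp (f := fun z : ℂ => cl t + z / L) z (differentiableAt_zi hR h1)
    (by fun_prop)

lemma H_bound (h : StCR) (hR : RHs) (hK : Ker K w) {L : ℝ} (hL : 1 ≤ L) (t : ℝ) :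
    ∃ C : ℝ, 0 ≤ C ∧ ∀ z : ℂ, 1 ≤ z.re →
      ‖K z * zi (cl t + z / L)‖ ≤ C * Real.exp z.re * (1 + z.im ^ 2)⁻¹ := by
  obtain ⟨C, hC⟩ := zi_bound h hR hL t
  obtain ⟨C', h0, h1⟩ := hK.dec.log_sq (C + 2)
  refine ⟨C', h0, fun z hz => ?_⟩
  have h2 := h1 z hz
  have h3 := exp_log_sq_le z
  rw [one_mul] at h2
  calc _ ≤ ‖K z‖ * Real.exp (C * Real.log (3 + ‖z‖) ^ 2) := by
        rw [norm_mul]
        exact mul_le_mul_of_nonneg_left (hC z hz) (norm_nonneg _)
    _ = ‖K z‖ * Real.exp ((C + 2) * Real.log (3 + ‖z‖) ^ 2) *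
          Real.exp (-(2 * Real.log (3 + ‖z‖) ^ 2)) := by
        rw [mul_assoc, ← Real.exp_add]; congr 2; ring
    _ ≤ _ := by gcongr

lemma H_int (h : StCR) (hR : RHs) (hK : Ker K w) {L : ℝ} (hL : 1 ≤ L) (t : ℝ) {c : ℝ}
    (hc : 1 ≤ c) : Integrable fun y : ℝ => K (c + y * I) * zi (cl t + (c + y * I) / L) := by
  obtain ⟨C, -, hC⟩ := H_bound h hR hK hL t
  refine (integrable_inv_one_add_sq.const_mul (C * Real.exp c)).mono' ?_
    (Eventually.of_forall fun y => ?_)
  · exact ((H_diff hR hK hL t).continuousOn.comp_continuous (f := fun y : ℝ => (c + y * I : ℂ))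
      (by fun_prop) fun y => by simpa using one_pos.trans_le hc).aestronglyMeasurable
  · simpa using hC (c + y * I) (by simpa using hc)

lemma H_shift (h : StCR) (hR : RHs) (hK : Ker K w) {L : ℝ} (hL : 1 ≤ L) (t : ℝ) {c : ℝ}
    (hc : 1 ≤ c) : ∫ y : ℝ, K (c + y * I) * zi (cl t + (c + y * I) / L) =
      ∫ y : ℝ, K ((1 : ℝ) + y * I) * zi (cl t + ((1 : ℝ) + y * I) / L) := by
  obtain ⟨C, h0, hC⟩ := H_bound h hR hK hL t
  refine shift_line (H_diff hR hK hL t) one_pos hc
    (b := fun r => C * Real.exp c * (1 + r ^ 2)⁻¹) ?_ (fun σ y h1 h2 => ?_)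
    (H_int h hR hK hL t le_rfl) (H_int h hR hK hL t hc)
  · have h1 : Tendsto (fun r : ℝ => 1 + r ^ 2) atTop atTop :=
      tendsto_atTop_add_const_left _ _ (tendsto_pow_atTop two_ne_zero)
    simpa using h1.inv_tendsto_atTop.const_mul (C * Real.exp c)
  · have h3 := hC (σ + y * I) (by simpa using h1)
    rw [show ((σ : ℂ) + y * I).re = σ by simp, show ((σ : ℂ) + y * I).im = y by simp] at h3
    refine h3.trans ?_
    rw [sq_abs]
    gcongr

lemma K_int (hK : Ker K w) {c : ℝ} (hc : 1 ≤ c) : Integrable fun y : ℝ => K (c + y * I) := by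
  refine (integrable_norm_iff (hK.continuous_line (one_pos.trans_le hc)).aestronglyMeasurable).1 ?_
  simpa using hK.integrable 0 hc

lemma term_eq (f : ℕ → ℂ) (s z : ℂ) (L : ℝ) {n : ℕ} (hn : n ≠ 0) :
    LSeries.term f (s + z / L) n =
      f n * (n : ℂ) ^ (-s) * exp (-z * ((Real.log n / L : ℝ) : ℂ)) := by
  have h0 : (n : ℂ) ≠ 0 := Nat.cast_ne_zero.2 hn
  rw [LSeries.term_of_ne_zero hn, div_eq_mul_inv (f n), ← cpow_neg, neg_add, cpow_add _ _ h0,
    mul_assoc, cpow_def_of_ne_zero h0 (-(z / L)), ← natCast_log]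
  congr 3
  push_cast
  ring

lemma AN_eq (hK : Ker K w) {N : ℕ} (hN : 3 ≤ N) (t : ℝ) (hL : 1 ≤ Real.log N) :
    AN w N t = (2 * π : ℂ)⁻¹ * ∫ y : ℝ, K ((2 * Real.log N : ℝ) + y * I) *
      zi (cl t + ((2 * Real.log N : ℝ) + y * I) / (Real.log N : ℝ)) := by
  set L := Real.log N with hLdef
  set f : ℕ → ℂ := fun n => ((ArithmeticFunction.moebius n : ℤ) : ℂ) with hf
  have hL0 : 0 < L := by linarith
  have hc : 1 ≤ 2 * L := by linarith
  have hre : ∀ y : ℝ, (cl t + ((2 * L : ℝ) + y * I) / (L : ℝ)).re = 5 / 2 := fun y => by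
    rw [add_re, cl_re, div_ofReal_re, show (((2 * L : ℝ) : ℂ) + y * I).re = 2 * L by simp]
    field_simp
    norm_num
  have e1 : ∀ y : ℝ, K ((2 * L : ℝ) + y * I) * zi (cl t + ((2 * L : ℝ) + y * I) / (L : ℝ)) =
      ∑' n, K ((2 * L : ℝ) + y * I) *
        LSeries.term f (cl t + ((2 * L : ℝ) + y * I) / (L : ℝ)) n := fun y => by
    have h1 : 1 < (cl t + ((2 * L : ℝ) + y * I) / (L : ℝ)).re := by rw [hre]; norm_num
    rw [tsum_mul_left, zi_eq (fun h => by rw [h] at h1; simp at h1), ← LSeries_mu h1]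
    rfl
  have hn : ∀ (n : ℕ) (y : ℝ), ‖K ((2 * L : ℝ) + y * I) *
      LSeries.term f (cl t + ((2 * L : ℝ) + y * I) / (L : ℝ)) n‖ =
      ‖K ((2 * L : ℝ) + y * I)‖ * ‖LSeries.term f (5 / 2 : ℝ) n‖ := fun n y => by
    rw [norm_mul, LSeries.norm_term_eq, LSeries.norm_term_eq, hre, ofReal_re]
  have hi : ∀ n : ℕ, Integrable fun y : ℝ => K ((2 * L : ℝ) + y * I) *
      LSeries.term f (cl t + ((2 * L : ℝ) + y * I) / (L : ℝ)) n := fun n => by
    refine (integrable_norm_iff ?_).1 ?_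
    · rcases eq_or_ne n 0 with rfl | h0
      · simpa using aestronglyMeasurable_const
      · simp only [term_eq f _ _ L h0]
        exact ((hK.continuous_line (one_pos.trans_le hc)).mul (by fun_prop)).aestronglyMeasurable
    · simp only [hn]
      exact (K_int hK hc).norm.mul_const _
  have hs : Summable fun n : ℕ => ∫ y : ℝ, ‖K ((2 * L : ℝ) + y * I) *
      LSeries.term f (cl t + ((2 * L : ℝ) + y * I) / (L : ℝ)) n‖ := by
    simp only [hn, integral_mul_const]
    refine Summable.mul_left _ (summable_norm_iff.2 ?_)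
    exact ArithmeticFunction.LSeriesSummable_moebius_iff.2 (by rw [ofReal_re]; norm_num)
  have hv : ∀ n : ℕ, n ≠ 0 → (2 * π : ℂ)⁻¹ * ∫ y : ℝ, K ((2 * L : ℝ) + y * I) *
      LSeries.term f (cl t + ((2 * L : ℝ) + y * I) / (L : ℝ)) n =
      f n * w (Real.log n / L) * (n : ℂ) ^ (-cl t) := fun n h0 => by
    simp only [term_eq f _ _ L h0, mul_left_comm (K _), integral_const_mul]
    rw [hK.inv _ hc]
    ring
  simp only [e1]
  rw [← integral_tsum_of_summable_integral_norm hi hs, ← tsum_mul_left,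
    tsum_eq_sum (s := Finset.Icc 1 N)]
  · unfold AN DP
    refine Finset.sum_congr rfl fun n h => ?_
    rw [hv n (by have := (Finset.mem_Icc.1 h).1; omega)]
  · intro n h
    rcases eq_or_ne n 0 with rfl | h0
    · simp
    · have h1 : N ≤ n := by
        rw [Finset.mem_Icc] at h
        omega
      rw [hv n h0, hK.supp, mul_zero, zero_mul]
      rw [one_le_div hL0]
      exact Real.log_le_log (by positivity) (by exact_mod_cast h1)

end Rep

theorem pRep (h : StCR) : StRep := by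
  intro hR K w hK N hN t D hD
  have hL : 1 ≤ Real.log N := by
    have h1 : (3 : ℝ) ≤ N := by exact_mod_cast hN
    have h2 := one_le_log_three_add (le_refl (0 : ℝ))
    rw [add_zero] at h2
    exact h2.trans (Real.log_le_log (by norm_num) h1)
  have h1 : (1 : ℂ) = (2 * π : ℂ)⁻¹ * ∫ y : ℝ, K (D + y * I) := by
    have h2 := hK.inv D hD 0
    simpa [hK.zero] using h2
  have h2 : AN w N t = (2 * π : ℂ)⁻¹ * ∫ y : ℝ, K (D + y * I) *
      zi (cl t + (D + y * I) / (Real.log N : ℝ)) := by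
    rw [Rep.AN_eq hK hN t hL, Rep.H_shift h hR hK hL t (by linarith), Rep.H_shift h hR hK hL t hD]
  have h3 : ∀ y : ℝ, K (D + y * I) *
      (riemannZeta (cl t) * zi (cl t + (D + y * I) / (Real.log N : ℝ)) - 1) =
      riemannZeta (cl t) * (K (D + y * I) * zi (cl t + (D + y * I) / (Real.log N : ℝ))) -
        K (D + y * I) := fun y => by ring
  simp only [h3]
  rw [integral_sub ((Rep.H_int h hR hK hL t hD).const_mul _) (Rep.K_int hK hD), integral_const_mul,
    mul_sub, ← h1, h2]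
  ring

end Pool.Agent.P.MP_323ce2_nt.NB
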