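import Mathlib
import Pool.Agent.P.MP_323ce2_nt.NB.Defs

/-! The tail of the distance and the passage from balls to a compact interval. -/

open Complex Filter Topology Set MeasureTheory Metric
open scoped Real

namespace Pool.Agent.P.MP_323ce2_nt.NB

theorem pTail (h : StWin) : StTail := by
  intro hRH K w hK ε hε
  obtain ⟨C, T1, hC⟩ := h hRH K w hK
  have hw := wd_pos
  have hs : Summable fun k : ℤ => C * |(k : ℝ) * wd| ^ (-(3 / 2) : ℝ) := by
    refine (((Real.summable_abs_int_rpow (b := 3 / 2) (by norm_num)).mul_right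
      (wd ^ (-(3 / 2) : ℝ))).mul_left C).congr fun k => ?_
    rw [abs_mul, abs_of_pos hw, Real.mul_rpow (abs_nonneg _) hw.le]
  have ht := ENNReal.tendsto_tsum_compl_atTop_zero hs.tsum_ofReal_ne_top
  obtain ⟨M, hM⟩ := exists_nat_ge (T1 / wd)
  obtain ⟨s, hs1, hs2⟩ := ((ht.eventually (ge_mem_nhds (ENNReal.ofReal_pos.2 hε))).and
    (eventually_ge_atTop (Finset.Icc (-(M : ℤ)) M))).exists
  obtain ⟨B, hB⟩ : ∃ B : ℝ, ∀ k ∈ s, |(k : ℝ)| ≤ B :=
    ⟨∑ k ∈ s, |(k : ℝ)|, fun k hk =>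
      Finset.single_le_sum (f := fun k : ℤ => |(k : ℝ)|) (fun _ _ => abs_nonneg _) hk⟩
  refine ⟨(B + 1) * wd, fun N hN => ?_⟩
  have hcov : {t : ℝ | (B + 1) * wd ≤ |t|} ⊆
      ⋃ k : {k : ℤ // k ∉ s}, closedBall ((k.1 : ℝ) * wd) (wd / 2) := by
    intro t ht
    have h1 : |t - (round (t / wd) : ℝ) * wd| ≤ wd / 2 := by
      have e : t - (round (t / wd) : ℝ) * wd = (t / wd - round (t / wd)) * wd := by
        field_simp
      rw [e, abs_mul, abs_of_pos hw]
      have := mul_le_mul_of_nonneg_right (abs_sub_round (t / wd)) hw.le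
      linarith
    refine mem_iUnion.2 ⟨⟨round (t / wd), fun hk => ?_⟩, by rwa [mem_closedBall, Real.dist_eq]⟩
    have h2 := mul_le_mul_of_nonneg_right (hB _ hk) hw.le
    have h3 : |t| ≤ |t - (round (t / wd) : ℝ) * wd| + |(round (t / wd) : ℝ) * wd| := by
      simpa using abs_add_le (t - (round (t / wd) : ℝ) * wd) ((round (t / wd) : ℝ) * wd)
    rw [abs_mul, abs_of_pos hw] at h3
    have h4 : (B + 1) * wd ≤ |t| := ht
    linarith
  calc _ ≤ ENNReal.ofReal (Real.log N) * ∑' k : {k : ℤ // k ∉ s},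
        ∫⁻ t in closedBall ((k.1 : ℝ) * wd) (wd / 2), err (AN w N) t := by
        gcongr
        exact (lintegral_mono_set hcov).trans (lintegral_iUnion_le _ _)
    _ = ∑' k : {k : ℤ // k ∉ s}, ENNReal.ofReal (Real.log N) *
        ∫⁻ t in closedBall ((k.1 : ℝ) * wd) (wd / 2), err (AN w N) t :=
        ENNReal.tsum_mul_left.symm
    _ ≤ _ := by
        refine le_trans (ENNReal.tsum_le_tsum fun k => hC _ ?_ N hN) hs1
        have h1 : k.1 ∉ Finset.Icc (-(M : ℤ)) M := fun hk => k.2 (hs2 hk)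
        have h2 : (M : ℤ) ≤ |k.1| := by
          rw [Finset.mem_Icc, ← abs_le] at h1
          exact (not_le.1 h1).le
        have h3 : (M : ℝ) ≤ |(k.1 : ℝ)| := by exact_mod_cast h2
        rw [abs_mul, abs_of_pos hw, ← div_le_iff₀ hw]
        exact hM.trans h3

theorem pLoc (h : StLoc1) : StLoc := by
  intro hRH K w hK T Z hZ H hH hH0 ε hε
  choose r hr hl using h hRH K w hK
  obtain ⟨S, hS1, hS2⟩ := (isCompact_Icc (a := -T) (b := T)).elim_nhds_subcover
    (fun t0 => ball t0 (r t0)) fun t0 _ => ball_mem_nhds t0 (hr t0)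
  set a : ℝ → ENNReal := fun γ =>
    ENNReal.ofReal (H γ / (2 * π * (1 / 4 + γ ^ 2))) * cp K (mult γ) with ha
  have hlim := tendsto_finsetSum S fun t0 _ => hl t0 H hH hH0
  have hle : ∑ γ ∈ S, a γ ≤ ∑ γ ∈ Z, a γ := by
    refine Finset.sum_le_sum_of_ne_zero fun γ hγ h0 => hZ γ (abs_le.2 (hS1 γ hγ)) ?_
    by_contra h1
    refine h0 ?_
    simp only [ha, (mult_eq_zero_iff γ).2 h1, cp_zero, mul_zero]
  by_cases htop : ∑ γ ∈ Z, a γ = ⊤
  · refine Eventually.of_forall fun N => ?_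
    rw [htop, top_add]
    exact le_top
  have hlt : ∑ γ ∈ S, a γ < ∑ γ ∈ Z, a γ + ENNReal.ofReal ε :=
    hle.trans_lt (ENNReal.lt_add_right htop (ENNReal.ofReal_pos.2 hε).ne')
  filter_upwards [hlim.eventually (ge_mem_nhds hlt)] with N hN
  refine le_trans ?_ hN
  rw [← Finset.mul_sum]
  gcongr
  refine (lintegral_mono_set hS2).trans ?_
  have h1 := lintegral_iUnion_le (μ := volume) (fun x : S => ball x.1 (r x.1))
    fun t => ENNReal.ofReal (H t) * err (AN w N) t
  rw [tsum_fintype, Finset.sum_coe_sort S fun x =>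
    ∫⁻ t in ball x (r x), ENNReal.ofReal (H t) * err (AN w N) t] at h1
  refine le_trans (le_of_eq ?_) h1
  congr 2
  ext t
  simp

end Pool.Agent.P.MP_323ce2_nt.NB
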