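import Mathlib
import Pool.Agent.P.MP_323ce2_nt.NB.Defs

/-! The test functions for the lower bound. -/

open Complex Filter Topology Set MeasureTheory Metric
open scoped Real

namespace Pool.Agent.P.MP_323ce2_nt.NB

namespace Test

/-- The weight `1 / (1 + t ^ 2)`. -/
noncomputable def w (t : ℝ) : ℝ := (1 + t ^ 2)⁻¹

lemma w_pos (t : ℝ) : 0 < w t := by unfold w; positivity

lemma w_le (t : ℝ) : w t ≤ 1 := inv_le_one_of_one_le₀ (by nlinarith [sq_nonneg t])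

lemma w_int : Integrable w := integrable_inv_one_add_sq

lemma sq_le_w {x K t : ℝ} (h0 : 0 ≤ x) (h : x ≤ K * w t) : x ^ 2 ≤ K ^ 2 * w t := by
  have h1 := w_pos t
  have h2 := w_le t
  calc x ^ 2 ≤ (K * w t) ^ 2 := by gcongr
    _ = K ^ 2 * w t * w t := by ring
    _ ≤ K ^ 2 * w t * 1 := by gcongr
    _ = _ := mul_one _

lemma wb {C a t : ℝ} (hC : 0 ≤ C) {v : ℂ} (ha : |t| ≤ a) (hc : ‖cl t‖ ≤ 1 + a)
    (hv : ‖v‖ ≤ C / (1 + a) ^ 3) : ‖v‖ ≤ C * w t ∧ ‖cl t * v‖ ≤ C * w t := by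
  have h0 : 0 ≤ a := (abs_nonneg t).trans ha
  have h1 : 1 + t ^ 2 ≤ (1 + a) ^ 2 := by
    have : t ^ 2 ≤ a ^ 2 := by rw [← sq_abs]; gcongr
    nlinarith
  have h2 : (1 + a) * (C / (1 + a) ^ 3) ≤ C * w t := by
    calc _ = C * ((1 + a) ^ 2)⁻¹ := by field_simp
      _ ≤ _ := by unfold w; gcongr
  have h3 : 0 ≤ C / (1 + a) ^ 3 := by positivity
  refine ⟨hv.trans (le_trans (by nlinarith) h2), ?_⟩
  rw [norm_mul]
  exact le_trans (by gcongr) h2

lemma abs_le_norm_cl (t : ℝ) : |t| ≤ ‖cl t‖ := by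
  simpa [cl_im] using abs_im_le_norm (cl t)

lemma norm_cl_le (t : ℝ) : ‖cl t‖ ≤ 1 + |t| := by
  have := norm_le_abs_re_add_abs_im (cl t)
  rw [cl_re, cl_im, abs_of_pos (by norm_num)] at this
  linarith

/-- The Fourier integral of the polynomial. -/
noncomputable def E (e : Polynomial ℝ) (v : ℝ) : ℂ :=
  ∫ x in (0 : ℝ)..1, (e.eval x : ℝ) * exp (v * I * x)

lemma PL_eq (e : Polynomial ℝ) (L t γ : ℝ) :
    PL e L (cl t - cl γ) = L * E e ((t - γ) * L) := by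
  rw [PL, E, cl_sub]
  congr 2; ext x; congr 2; push_cast; ring

lemma E_cont (e : Polynomial ℝ) : Continuous (E e) := by
  refine intervalIntegral.continuous_parametric_intervalIntegral_of_continuous' ?_ 0 1
  have := e.continuous
  unfold Function.uncurry
  fun_prop

lemma E_bdd (e : Polynomial ℝ) : ∃ M : ℝ, ∀ v, ‖E e v‖ ≤ M := by
  obtain ⟨B, hB⟩ := isCompact_Icc.exists_bound_of_continuousOn
    (e.continuous.continuousOn (s := Icc (0 : ℝ) 1))
  refine ⟨B * |1 - 0|, fun v => intervalIntegral.norm_integral_le_of_norm_le_const fun x hx => ?_⟩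
  rw [uIoc_of_le zero_le_one] at hx
  rw [norm_mul, show (v : ℂ) * I * x = ((v * x : ℝ) : ℂ) * I by push_cast; ring,
    norm_exp_ofReal_mul_I, mul_one, norm_real]
  exact hB x (Ioc_subset_Icc_self hx)

/-- Riemann-Lebesgue. -/
lemma rl (g : ℝ → ℂ) (γ : ℝ) :
    Tendsto (fun L : ℝ => ∫ t : ℝ, exp (((t - γ) * L : ℝ) * I) * g t) atTop (𝓝 0) := by
  have h1 : Tendsto (fun L : ℝ => L * (-(2 * π)⁻¹)) atTop (cocompact ℝ) :=
    (tendsto_id.atTop_mul_const_of_neg (neg_lt_zero.2 (by positivity))).mono_right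
      (by rw [cocompact_eq_atBot_atTop]; exact le_sup_left)
  refine ((Real.tendsto_integral_exp_smul_cocompact fun v => g (v + γ)).comp h1).congr fun L => ?_
  simp only [Function.comp]
  rw [← integral_sub_right_eq_self _ γ]
  congr 1; ext t
  rw [Circle.smul_def, Real.fourierChar_apply, sub_add_cancel, smul_eq_mul]
  congr 4
  field_simp

lemma norm_div_pow_le {L : ℝ} (hL : 1 ≤ L) {j : ℕ} (hj : 1 ≤ j) : ‖(L : ℂ) / (L : ℂ) ^ j‖ ≤ 1 := by
  rw [norm_div, norm_pow, norm_real, Real.norm_of_nonneg (by linarith)]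
  refine div_le_one_of_le₀ ?_ (by positivity)
  calc L = L ^ 1 := (pow_one L).symm
    _ ≤ L ^ j := pow_le_pow_right₀ hL hj

lemma one_le_log {N : ℕ} (h : 3 ≤ N) : 1 ≤ Real.log N := by
  have h3 : (3 : ℝ) ≤ N := by exact_mod_cast h
  rw [Real.le_log_iff_exp_le (by linarith)]
  linarith [Real.exp_one_lt_d9]

lemma tendsto_log : Tendsto (fun N : ℕ => Real.log N) atTop atTop :=
  Real.tendsto_log_atTop.comp tendsto_natCast_atTop_atTop

lemma add_sq_le {x : ℝ} (hx : 0 < x) (a b : ℂ) :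
    ‖a + b‖ ^ 2 ≤ (1 + x) * ‖a‖ ^ 2 + (1 + x⁻¹) * ‖b‖ ^ 2 := by
  have h1 : ‖a + b‖ ^ 2 ≤ (‖a‖ + ‖b‖) ^ 2 := by gcongr; exact norm_add_le a b
  have h2 : 0 ≤ x⁻¹ * (x * ‖a‖ - ‖b‖) ^ 2 := by positivity
  have h3 : x⁻¹ * (x * ‖a‖ - ‖b‖) ^ 2 = x * ‖a‖ ^ 2 - 2 * ‖a‖ * ‖b‖ + x⁻¹ * ‖b‖ ^ 2 := by
    field_simp; ring
  nlinarith

/-- Concentration of the main part. -/
lemma conc (e : Polynomial ℝ) (γ : ℝ) {h : ℝ → ℝ} (hc : Continuous h) {K : ℝ}
    (hK : ∀ t, ‖h t‖ ≤ K) :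
    (∀ L : ℝ, 0 < L → Integrable (fun t => ‖(L : ℂ) * E e ((t - γ) * L)‖ ^ 2 * h t) ∧
      ∫ t, ‖(L : ℂ) * E e ((t - γ) * L)‖ ^ 2 * h t = L * ∫ u, ‖E e u‖ ^ 2 * h (γ + u / L)) ∧
    Tendsto (fun L : ℝ => ∫ u, ‖E e u‖ ^ 2 * h (γ + u / L)) atTop
      (𝓝 ((2 * π * ∫ x in (0 : ℝ)..1, e.eval x ^ 2) * h γ)) := by
  obtain ⟨p1, p2⟩ := plancherel_poly e
  change Integrable (fun v => ‖E e v‖ ^ 2) at p1
  change ∫ v, ‖E e v‖ ^ 2 = _ at p2
  have hm : ∀ L : ℝ, Continuous fun u => h (γ + u / L) := fun L => by fun_prop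
  have hi : ∀ L : ℝ, Integrable fun u => ‖E e u‖ ^ 2 * h (γ + u / L) := fun L =>
    p1.mul_bdd (hm L).aestronglyMeasurable (Eventually.of_forall fun u => hK _)
  refine ⟨fun L hL => ?_, ?_⟩
  · have e1 : (fun t => ‖(L : ℂ) * E e ((t - γ) * L)‖ ^ 2 * h t) = fun t =>
        L ^ 2 * (‖E e ((t - γ) * L)‖ ^ 2 * h (γ + (t - γ) * L / L)) := by
      ext t
      rw [norm_mul, norm_real, Real.norm_of_nonneg hL.le, mul_div_cancel_right₀ _ hL.ne',
        add_sub_cancel]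
      ring
    rw [e1]
    refine ⟨(((hi L).comp_mul_right' hL.ne').comp_sub_right γ).const_mul _, ?_⟩
    rw [integral_const_mul,
      integral_sub_right_eq_self (fun t => ‖E e (t * L)‖ ^ 2 * h (γ + t * L / L)) γ,
      Measure.integral_comp_mul_right (fun u => ‖E e u‖ ^ 2 * h (γ + u / L)) L,
      abs_of_pos (inv_pos.2 hL), smul_eq_mul]
    field_simp
  · rw [← p2, ← integral_mul_const]
    refine tendsto_integral_filter_of_dominated_convergence (fun u => ‖E e u‖ ^ 2 * K)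
      (Eventually.of_forall fun L => (hi L).aestronglyMeasurable)
      (Eventually.of_forall fun L => Eventually.of_forall fun u => ?_) (p1.mul_const K)
      (Eventually.of_forall fun u => ?_)
    · rw [norm_mul, Real.norm_of_nonneg (by positivity)]
      gcongr; exact hK _
    · refine tendsto_const_nhds.mul (hc.continuousAt.tendsto.comp ?_)
      simpa using (tendsto_const_nhds (x := γ)).add
        ((tendsto_const_nhds (x := u)).div_atTop (tendsto_id (α := ℝ)))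

/-- The oscillating correction. -/
noncomputable def B (m : ℕ) (β : ℕ → ℂ) (g : ℕ → ℝ → ℂ) (γ L t : ℝ) : ℂ :=
  exp (((t - γ) * L : ℝ) * I) * ∑ j ∈ Finset.Icc 1 m, β j * ((L : ℂ) / (L : ℂ) ^ j) * g j t

lemma B_eq (m : ℕ) (β : ℕ → ℂ) (g : ℕ → ℝ → ℂ) (γ L : ℝ) : B m β g γ L = fun t =>
    ∑ j ∈ Finset.Icc 1 m, β j * ((L : ℂ) / (L : ℂ) ^ j) *
      (exp (((t - γ) * L : ℝ) * I) * g j t) := by
  ext t
  rw [B, Finset.mul_sum]
  exact Finset.sum_congr rfl fun j _ => by ring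

lemma osc_int {g : ℝ → ℂ} (hg : Integrable g) (γ L : ℝ) :
    Integrable fun t : ℝ => exp (((t - γ) * L : ℝ) * I) * g t :=
  hg.bdd_mul (c := 1) (Continuous.aestronglyMeasurable (by fun_prop))
    (Eventually.of_forall fun t => (norm_exp_ofReal_mul_I _).le)

lemma B_int {m : ℕ} (β : ℕ → ℂ) {g : ℕ → ℝ → ℂ} (hg : ∀ j ∈ Finset.Icc 1 m, Integrable (g j))
    (γ L : ℝ) : Integrable (B m β g γ L) := by
  rw [B_eq]
  exact integrable_finsetSum _ fun j hj => (osc_int (hg j hj) γ L).const_mul _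

lemma B_lim {m : ℕ} (β : ℕ → ℂ) {g : ℕ → ℝ → ℂ} (hg : ∀ j ∈ Finset.Icc 1 m, Integrable (g j))
    (γ : ℝ) : Tendsto (fun L : ℝ => ∫ t, B m β g γ L t) atTop (𝓝 0) := by
  have e1 : ∀ L : ℝ, ∫ t, B m β g γ L t = ∑ j ∈ Finset.Icc 1 m,
      β j * (((L : ℂ) / (L : ℂ) ^ j) * ∫ t : ℝ, exp (((t - γ) * L : ℝ) * I) * g j t) := fun L => by
    rw [B_eq, integral_finsetSum _ fun j hj => (osc_int (hg j hj) γ L).const_mul _]
    exact Finset.sum_congr rfl fun j _ => by rw [integral_const_mul, mul_assoc]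
  simp only [e1]
  rw [← Finset.sum_const_zero (s := Finset.Icc 1 m)]
  refine tendsto_finsetSum _ fun j hj => ?_
  rw [← mul_zero (β j)]
  refine tendsto_const_nhds.mul ?_
  refine squeeze_zero_norm' ?_ (tendsto_zero_iff_norm_tendsto_zero.1 (rl (g j) γ))
  filter_upwards [eventually_ge_atTop 1] with L hL
  rw [norm_mul]
  exact mul_le_of_le_one_left (norm_nonneg _) (norm_div_pow_le hL (Finset.mem_Icc.1 hj).1)

lemma B_bd {m : ℕ} (β : ℕ → ℂ) {g : ℕ → ℝ → ℂ} {C : ℝ}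
    (hg : ∀ j ∈ Finset.Icc 1 m, ∀ t, ‖cl t * g j t‖ ≤ C * w t) (γ : ℝ) {L : ℝ} (hL : 1 ≤ L)
    (t : ℝ) : ‖cl t * B m β g γ L t‖ ≤ (∑ j ∈ Finset.Icc 1 m, ‖β j‖) * C * w t := by
  rw [B_eq]
  simp only
  rw [Finset.mul_sum, mul_assoc, Finset.sum_mul]
  refine norm_sum_le_of_le _ fun j hj => ?_
  have h1 := norm_div_pow_le hL (Finset.mem_Icc.1 hj).1
  have h2 := hg j hj t
  calc _ = ‖β j‖ * (‖(L : ℂ) / (L : ℂ) ^ j‖ * (‖exp (((t - γ) * L : ℝ) * I)‖ *
        ‖cl t * g j t‖)) := by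
        simp only [← norm_mul]; congr 1; ring
    _ ≤ ‖β j‖ * (1 * (1 * (C * w t))) := by rw [norm_exp_ofReal_mul_I]; gcongr
    _ = _ := by ring

lemma PL_off {m : ℕ} {e : Polynomial ℝ} {α β : ℕ → ℂ} (h : ∀ z : ℂ, z ≠ 0 →
    ∫ x in (0 : ℝ)..1, (e.eval x : ℝ) * exp (z * x) =
      ∑ j ∈ Finset.Icc 1 m, (α j + β j * exp z) / z ^ j) {γ L t : ℝ} (hL : L ≠ 0) (ht : t ≠ γ) :
    PL e L (cl t - cl γ) = ∑ j ∈ Finset.Icc 1 m, (α j * ((L : ℂ) / (L : ℂ) ^ j) +
      β j * ((L : ℂ) / (L : ℂ) ^ j) * exp (((t - γ) * L : ℝ) * I)) /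
        (((t - γ : ℝ) : ℂ) * I) ^ j := by
  have h1 : (L : ℂ) ≠ 0 := ofReal_ne_zero.2 hL
  have h2 : ((t - γ : ℝ) : ℂ) * I ≠ 0 :=
    mul_ne_zero (ofReal_ne_zero.2 (sub_ne_zero.2 ht)) I_ne_zero
  rw [PL, cl_sub, h _ (mul_ne_zero h2 h1), Finset.mul_sum]
  refine Finset.sum_congr rfl fun j _ => ?_
  rw [show (((t - γ) * L : ℝ) : ℂ) * I = ((t - γ : ℝ) : ℂ) * I * L by push_cast; ring, mul_pow]
  generalize ((t - γ : ℝ) : ℂ) * I = v at h2 ⊢
  field_simp

lemma PL_bd {m : ℕ} {e : Polynomial ℝ} {α β : ℕ → ℂ} (h : ∀ z : ℂ, z ≠ 0 →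
    ∫ x in (0 : ℝ)..1, (e.eval x : ℝ) * exp (z * x) =
      ∑ j ∈ Finset.Icc 1 m, (α j + β j * exp z) / z ^ j) {γ L t δ : ℝ} (hL : 1 ≤ L) (hδ : 0 < δ)
    (ht : δ ≤ |t - γ|) :
    ‖PL e L (cl t - cl γ)‖ ≤ ∑ j ∈ Finset.Icc 1 m, (‖α j‖ + ‖β j‖) / δ ^ j := by
  have h0 : t ≠ γ := by
    rintro rfl
    rw [sub_self, abs_zero] at ht
    linarith
  rw [PL_off h (by linarith) h0]
  refine norm_sum_le_of_le _ fun j hj => ?_
  have h1 := norm_div_pow_le hL (Finset.mem_Icc.1 hj).1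
  rw [norm_div, norm_pow, norm_mul, norm_I, mul_one, norm_real, Real.norm_eq_abs]
  gcongr
  refine (norm_add_le _ _).trans ?_
  rw [norm_mul, norm_mul, norm_mul, norm_exp_ofReal_mul_I, mul_one]
  exact add_le_add (mul_le_of_le_one_right (norm_nonneg _) h1)
    (mul_le_of_le_one_right (norm_nonneg _) h1)

lemma lint_le {f F : ℝ → ℝ} (hF : Integrable F) (h0 : ∀ t, 0 ≤ F t) {S : Set ℝ}
    (hS : MeasurableSet S) (h : ∀ t ∈ S, f t ≤ F t) :
    ∫⁻ t in S, ENNReal.ofReal (f t) ≤ ENNReal.ofReal (∫ t, F t) := by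
  rw [ofReal_integral_eq_lintegral_ofReal hF (Eventually.of_forall h0)]
  exact (setLIntegral_mono' hS fun t ht => ENNReal.ofReal_le_ofReal (h t ht)).trans
    (setLIntegral_le_lintegral _ _)

end Test

open Test in
theorem pTest (h1 : StPoly) (h2 : StExp) (h3 : StStr) (h4 : StMain) : StTest := by
  intro γ hγ
  have hm : 1 ≤ mult γ := Nat.pos_of_ne_zero fun h => (mult_eq_zero_iff γ).1 h hγ
  obtain ⟨e, ed, e0, e2, -⟩ := h1 _ hm
  obtain ⟨α, β, -, hE⟩ := h2 _ e ed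
  obtain ⟨r, g, C, rd, r1, rb, gb, hS⟩ := h3 γ hγ
  have hpos : ∀ t, 0 < (cl t).re := fun t => by rw [cl_re]; norm_num
  have hC : 0 ≤ C := by
    have := (norm_nonneg _).trans (rb _ (hpos 0))
    by_contra hn
    exact absurd this (not_le.2 (div_neg_of_neg_of_pos (not_le.1 hn) (by positivity)))
  have rw' := fun t => wb hC (abs_le_norm_cl t) (by linarith [norm_nonneg (cl t)]) (rb _ (hpos t))
  have gw := fun j hj t => wb hC le_rfl (norm_cl_le t) ((gb j hj).2 t)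
  have rc : Continuous fun t => r (cl t) := continuous_iff_continuousAt.2 fun t =>
    (rd _ (hpos t)).continuousAt.comp continuous_cl.continuousAt
  have ri : Integrable fun t => r (cl t) := (w_int.const_mul C).mono' rc.aestronglyMeasurable
    (Eventually.of_forall fun t => (rw' t).1)
  have gi : ∀ j ∈ Finset.Icc 1 (mult γ), Integrable (g j) := fun j hj =>
    (w_int.const_mul C).mono' (gb j hj).1.aestronglyMeasurable
      (Eventually.of_forall fun t => (gw j hj t).1)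
  have Ai : ∀ L : ℝ, Integrable fun t => PL e L (cl t - cl γ) * r (cl t) := fun L => by
    obtain ⟨M, hM⟩ := E_bdd e
    have := E_cont e
    simp only [PL_eq]
    refine ri.bdd_mul (c := ‖(L : ℂ)‖ * M) (Continuous.aestronglyMeasurable (by fun_prop))
      (Eventually.of_forall fun t => ?_)
    rw [norm_mul]
    gcongr; exact hM _
  set b : ℝ := (∑ j ∈ Finset.Icc 1 (mult γ), ‖β j‖) * C with hb
  have Bb : ∀ L : ℝ, 1 ≤ L → ∀ t, ‖cl t * B (mult γ) β g γ L t‖ ≤ b * w t := fun L hL t =>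
    B_bd β (fun j hj t => (gw j hj t).2) γ hL t
  refine ⟨fun N t => PL e (Real.log N) (cl t - cl γ) * r (cl t) +
    B (mult γ) β g γ (Real.log N) t, fun N hN => ⟨(Ai _).add (B_int β gi γ _), fun n hn => ?_⟩,
    ?_, fun ε hε => ?_, fun δ hδ => ?_⟩
  · obtain ⟨n1, n2⟩ := Finset.mem_Icc.1 hn
    refine hS _ _ (Real.log N) n _ n1 ?_ fun t ht =>
      PL_off hE (by linarith [one_le_log hN]) ht
    exact Real.log_le_log (by exact_mod_cast n1) (by exact_mod_cast n2)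
  · have h5 := (((h4 e γ r C rd rb).add (B_lim β gi γ)).comp tendsto_log).norm
    rw [r1, e0, add_zero, mul_one, show (2 * π * ((-(mult γ : ℝ) ^ 2 : ℝ) : ℂ)) =
      ((-(2 * π * (mult γ : ℝ) ^ 2) : ℝ) : ℂ) by push_cast; ring, norm_real, norm_neg,
      Real.norm_of_nonneg (by positivity)] at h5
    refine h5.congr fun N => ?_
    simp only [Function.comp]
    rw [integral_add (Ai _) (B_int β gi γ _)]
  · have hK : ∀ t, ‖‖cl t * r (cl t)‖ ^ 2‖ ≤ C ^ 2 := fun t => by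
      rw [Real.norm_of_nonneg (by positivity)]
      exact (sq_le_w (norm_nonneg _) (rw' t).2).trans
        (mul_le_of_le_one_right (by positivity) (w_le t))
    obtain ⟨c1, c2⟩ := conc e γ (h := fun t => ‖cl t * r (cl t)‖ ^ 2)
      ((continuous_cl.mul rc).norm.pow 2) hK
    beta_reduce at c1 c2 ⊢
    rw [e2, r1, mul_one, norm_cl_sq] at c2
    have hx : 0 < ε / 2 := by linarith
    have hm' : (0 : ℝ) < mult γ := by exact_mod_cast hm
    have c3 := (c2.const_mul (1 + ε / 2)).add ((tendsto_const_nhds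
      (x := (1 + (ε / 2)⁻¹) * (b ^ 2 * ∫ t, w t))).div_atTop (tendsto_id (α := ℝ)))
    have c4 := c3.eventually_le_const (show _ < (1 + ε) * (2 * π * (1 / 4 + γ ^ 2) *
      (mult γ : ℝ) ^ 2) by
        have : 0 < 2 * π * (mult γ : ℝ) ^ 2 * (1 / 4 + γ ^ 2) := by positivity
        nlinarith)
    filter_upwards [tendsto_log.eventually c4, eventually_ge_atTop 3] with N hN h3N
    have hL := one_le_log h3N
    generalize Real.log N = L at hN hL ⊢
    obtain ⟨d1, d2⟩ := c1 L (by linarith)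
    have hF := (d1.const_mul (1 + ε / 2)).add ((w_int.const_mul (b ^ 2)).const_mul
      (1 + (ε / 2)⁻¹))
    rw [← setLIntegral_univ]
    refine (lint_le hF (fun t => ?_) MeasurableSet.univ fun t _ => ?_).trans
      (ENNReal.ofReal_le_ofReal ?_)
    · have := w_pos t
      simp only [Pi.add_apply]
      positivity
    · rw [mul_add]
      refine (add_sq_le hx _ _).trans ?_
      simp only [Pi.add_apply]
      gcongr
      · rw [PL_eq, ← mul_pow, ← norm_mul]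
        exact le_of_eq (by congr 2; ring)
      · exact sq_le_w (norm_nonneg _) (Bb L hL t)
    · simp only [Pi.add_apply]
      rw [integral_add (d1.const_mul _) ((w_int.const_mul _).const_mul _), integral_const_mul,
        integral_const_mul, integral_const_mul, d2]
      have h6 := mul_le_mul_of_nonneg_right hN (show 0 ≤ L by linarith)
      rw [add_mul, id, div_mul_cancel₀ _ (by linarith)] at h6
      linarith
  · set D : ℝ := ∑ j ∈ Finset.Icc 1 (mult γ), (‖α j‖ + ‖β j‖) / δ ^ j with hD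
    refine ⟨∫ t, (D * C + b) ^ 2 * w t, fun N hN => lint_le (w_int.const_mul _)
      (fun t => mul_nonneg (sq_nonneg _) (w_pos t).le) measurableSet_ball.compl fun t ht => ?_⟩
    have hL := one_le_log hN
    rw [mem_compl_iff, mem_ball, not_lt, Real.dist_eq] at ht
    have h5 := PL_bd hE hL hδ ht
    refine sq_le_w (norm_nonneg _) ?_
    rw [mul_add, add_mul]
    refine (norm_add_le _ _).trans (add_le_add ?_ (Bb _ hL t))
    rw [mul_left_comm, norm_mul, mul_assoc]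
    exact mul_le_mul h5 (rw' t).2 (norm_nonneg _) ((norm_nonneg _).trans h5)

end Pool.Agent.P.MP_323ce2_nt.NB
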