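import Mathlib
import Pool.Agent.P.MP_323ce2_nt.NB.Defs

/-! The contribution of one window at large height. -/

open Complex Filter Topology Set MeasureTheory Metric
open scoped Real

namespace Pool.Agent.P.MP_323ce2_nt.NB

namespace Win

lemma le_norm_den (D y u : ℝ) : D ≤ ‖(D + y * I : ℂ) + (u : ℝ) * I‖ := by
  have := re_le_norm ((D + y * I : ℂ) + (u : ℝ) * I)
  simpa using this

lemma cont_term {k : ℝ → ℝ} (hk : Continuous k) {D : ℝ} (hD : 0 < D) (L γ : ℝ) :
    Continuous fun p : ℝ × ℝ => k p.2 / ‖(D + p.2 * I : ℂ) + ((p.1 - γ) * L : ℝ) * I‖ :=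
  (hk.comp continuous_snd).div (by fun_prop) fun p => (hD.trans_le (le_norm_den _ _ _)).ne'

lemma meas_J {k : ℝ → ℝ} (hk : Continuous k) {D : ℝ} (hD : 0 < D) (L γ : ℝ) :
    Measurable fun t : ℝ => ∫ y : ℝ, k y / ‖(D + y * I : ℂ) + ((t - γ) * L : ℝ) * I‖ :=
  ((cont_term hk hD L γ).stronglyMeasurable.integral_prod_right').measurable

lemma int_term {k : ℝ → ℝ} (hk : Continuous k) (hi : Integrable k) (h0 : ∀ y, 0 ≤ k y) {D : ℝ}
    (hD : 1 ≤ D) (L γ t : ℝ) :
    Integrable fun y : ℝ => k y / ‖(D + y * I : ℂ) + ((t - γ) * L : ℝ) * I‖ := by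
  refine hi.mono' ((cont_term hk (one_pos.trans_le hD) L γ).comp
    (Continuous.prodMk_right t)).aestronglyMeasurable (Eventually.of_forall fun y => ?_)
  rw [Real.norm_of_nonneg (div_nonneg (h0 y) (norm_nonneg _))]
  exact div_le_self (h0 y) (hD.trans (le_norm_den _ _ _))

lemma ex_add (C : ℝ) {l r : ℝ} (hl : 0 < l) (hr : 0 ≤ r) :
    ex C l r ≤ ex (C + 2) l r + -(2 * Real.log (3 + r) ^ 2) := by
  have h3 : 0 ≤ Real.log (1 + 100 * r / l) :=
    Real.log_nonneg (le_add_of_nonneg_right (by positivity))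
  have h4 : 0 ≤ 2 * l / √(Real.log l) * Real.log (1 + 100 * r / l) := by positivity
  have e : ex (C + 2) l r = ex C l r + 2 * l / √(Real.log l) * Real.log (1 + 100 * r / l) +
      2 * Real.log (3 + r) ^ 2 := by
    unfold ex
    ring
  rw [e]
  linarith

/-- The mean square over a window of a function with the pointwise bound. -/
lemma window (h1 : StL2) {k : ℝ → ℝ} (hk : Continuous k) (hi : Integrable k) (h0 : ∀ y, 0 ≤ k y)
    {l L t0 a : ℝ} (hl : 100 ≤ l) (hL : 1 ≤ L) (ha : 0 ≤ a) (Z : Finset ℝ) (hZ : (Z.card : ℝ) ≤ l)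
    (f : ℝ → ENNReal)
    (hf : ∀ t ∈ closedBall t0 (wd / 2), f t ≤ ENNReal.ofReal (a * ((∫ y, k y) / L +
      ∑ γ ∈ Z, ∫ y : ℝ, k y / ‖((l / 100 : ℝ) + y * I : ℂ) + ((t - γ) * L : ℝ) * I‖) ^ 2)) :
    ENNReal.ofReal L * ∫⁻ t in closedBall t0 (wd / 2), f t ≤
      ENNReal.ofReal (2 * a * (∫ y, k y) ^ 2 * (1 + 400 * l)) := by
  have hD : (0 : ℝ) < l / 100 := by linarith
  have hL0 : 0 < L := by linarith
  set I0 := ∫ y, k y with hI0
  set J : ℝ → ℝ → ℝ := fun γ t =>
    ∫ y : ℝ, k y / ‖((l / 100 : ℝ) + y * I : ℂ) + ((t - γ) * L : ℝ) * I‖ with hJ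
  have hm : ∀ γ, Measurable fun t => ENNReal.ofReal (J γ t ^ 2) := fun γ =>
    ENNReal.measurable_ofReal.comp ((meas_J hk hD L γ).pow_const 2)
  have hp : ∀ t ∈ closedBall t0 (wd / 2), f t ≤ ENNReal.ofReal (2 * a * (I0 / L) ^ 2) +
      ENNReal.ofReal (2 * a * l) * ∑ γ ∈ Z, ENNReal.ofReal (J γ t ^ 2) := fun t ht => by
    rw [← ENNReal.ofReal_sum_of_nonneg fun _ _ => sq_nonneg _,
      ← ENNReal.ofReal_mul (by positivity),
      ← ENNReal.ofReal_add (by positivity)
        (mul_nonneg (by positivity) (Finset.sum_nonneg fun _ _ => sq_nonneg _))]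
    refine (hf t ht).trans (ENNReal.ofReal_le_ofReal ?_)
    have k1 : (∑ γ ∈ Z, J γ t) ^ 2 ≤ l * ∑ γ ∈ Z, J γ t ^ 2 :=
      sq_sum_le_card_mul_sum_sq.trans
        (mul_le_mul_of_nonneg_right hZ (Finset.sum_nonneg fun _ _ => sq_nonneg _))
    have k2 : (I0 / L + ∑ γ ∈ Z, J γ t) ^ 2 ≤ 2 * (I0 / L) ^ 2 + 2 * (l * ∑ γ ∈ Z, J γ t ^ 2) := by
      nlinarith [sq_nonneg (I0 / L - ∑ γ ∈ Z, J γ t)]
    calc _ ≤ a * (2 * (I0 / L) ^ 2 + 2 * (l * ∑ γ ∈ Z, J γ t ^ 2)) :=
          mul_le_mul_of_nonneg_left k2 ha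
      _ = _ := by ring
  have hv : volume (closedBall t0 (wd / 2)) ≤ 1 := by
    rw [Real.volume_closedBall, ENNReal.ofReal_le_one]
    unfold wd
    norm_num
  have hs : ∑ γ ∈ Z, ∫⁻ t in closedBall t0 (wd / 2), ENNReal.ofReal (J γ t ^ 2) ≤
      ENNReal.ofReal (l * (I0 ^ 2 * π / (l / 100 * L))) := by
    calc _ ≤ ∑ _γ ∈ Z, ENNReal.ofReal (I0 ^ 2 * π / (l / 100 * L)) :=
          Finset.sum_le_sum fun γ _ =>
            (setLIntegral_le_lintegral _ _).trans (h1 k _ L γ hi h0 hD hL0)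
      _ = ENNReal.ofReal (Z.card * (I0 ^ 2 * π / (l / 100 * L))) := by
          rw [Finset.sum_const, nsmul_eq_mul, ENNReal.ofReal_mul (Nat.cast_nonneg _),
            ENNReal.ofReal_natCast]
      _ ≤ _ := ENNReal.ofReal_le_ofReal (mul_le_mul_of_nonneg_right hZ (by positivity))
  have hint : ∫⁻ t in closedBall t0 (wd / 2), f t ≤ ENNReal.ofReal (2 * a * (I0 / L) ^ 2) +
      ENNReal.ofReal (2 * a * l) * ENNReal.ofReal (l * (I0 ^ 2 * π / (l / 100 * L))) := by
    refine (setLIntegral_mono' measurableSet_closedBall hp).trans ?_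
    rw [lintegral_add_left measurable_const, lintegral_const_mul' _ _ ENNReal.ofReal_ne_top,
      lintegral_finsetSum _ fun γ _ => hm γ, setLIntegral_const]
    exact add_le_add ((mul_le_mul_right hv _).trans (mul_one _).le) (mul_le_mul_right hs _)
  refine (mul_le_mul_right hint _).trans ?_
  rw [← ENNReal.ofReal_mul (by positivity), ← ENNReal.ofReal_add (by positivity) (by positivity),
    ← ENNReal.ofReal_mul hL0.le]
  refine ENNReal.ofReal_le_ofReal ?_
  have e : L * (2 * a * (I0 / L) ^ 2 + 2 * a * l * (l * (I0 ^ 2 * π / (l / 100 * L)))) =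
      2 * a * I0 ^ 2 * (1 / L + 100 * π * l) := by
    field_simp
  rw [e]
  have k3 : 1 / L ≤ 1 := div_le_self zero_le_one hL
  have k4 : 100 * π * l ≤ 400 * l := by nlinarith [Real.pi_le_four]
  gcongr

end Win

theorem pWin (h1 : StL2) (h2 : StRep) (h3 : StRT) : StWin := by
  intro hR K w hK
  obtain ⟨C, T1, hT⟩ := h3 hR
  obtain ⟨C', l0, hd⟩ := hK.dec (C + 2) (1 / 100) (by norm_num)
  refine ⟨12800 * (|C'| * π) ^ 2, max T1 (Real.exp (max l0 100)), fun t0 ht0 N hN => ?_⟩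
  obtain ⟨Z, hZ, hb⟩ := hT t0 ((le_max_left _ _).trans ht0)
  have he : Real.exp (max l0 100) ≤ |t0| := (le_max_right _ _).trans ht0
  have hpos : 0 < |t0| := (Real.exp_pos _).trans_le he
  have hl : max l0 100 ≤ Real.log |t0| := (Real.le_log_iff_exp_le hpos).2 he
  have hex : Real.exp (Real.log |t0|) = |t0| := Real.exp_log hpos
  set l := Real.log |t0| with hl'
  have hl0 : l0 ≤ l := (le_max_left _ _).trans hl
  have hl1 : 100 ≤ l := (le_max_right _ _).trans hl
  have hL : 1 ≤ Real.log N := by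
    have := one_le_log_three_add le_rfl
    rw [add_zero] at this
    exact this.trans (Real.log_le_log (by norm_num) (by exact_mod_cast hN))
  set L := Real.log N with hL'
  have hD : 1 ≤ l / 100 := by linarith
  let k : ℝ → ℝ := fun y => |C'| * Real.exp (l / 25) * (1 + y ^ 2)⁻¹
  have hk : Continuous k := continuous_const.mul
    (Continuous.inv₀ (by fun_prop) fun y => by positivity)
  have hi : Integrable k := integrable_inv_one_add_sq.const_mul _
  have h0 : ∀ y, 0 ≤ k y := fun y => by positivity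
  have hI : ∫ y, k y = |C'| * Real.exp (l / 25) * π := by
    rw [integral_const_mul, integral_univ_inv_one_add_sq]
  have hKk : ∀ y : ℝ, ‖K ((l / 100 : ℝ) + y * I)‖ *
      Real.exp (l / 50 + ex C l ‖((l / 100 : ℝ) + y * I : ℂ)‖) ≤ k y := fun y => by
    have k1 := hd l hl0 ((l / 100 : ℝ) + y * I) (by simpa using hD)
    have k2 := exp_log_sq_le ((l / 100 : ℝ) + y * I)
    have k3 := Win.ex_add C (by linarith : 0 < l) (norm_nonneg ((l / 100 : ℝ) + y * I : ℂ))
    rw [show (((l / 100 : ℝ) : ℂ) + y * I).re = l / 100 by simp] at k1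
    rw [show (((l / 100 : ℝ) : ℂ) + y * I).im = y by simp] at k2
    calc _ ≤ ‖K ((l / 100 : ℝ) + y * I)‖ * Real.exp (l / 50 +
          (ex (C + 2) l ‖((l / 100 : ℝ) + y * I : ℂ)‖ +
            -(2 * Real.log (3 + ‖((l / 100 : ℝ) + y * I : ℂ)‖) ^ 2))) := by gcongr
      _ = Real.exp (l / 50) * (‖K ((l / 100 : ℝ) + y * I)‖ *
          Real.exp (ex (C + 2) l ‖((l / 100 : ℝ) + y * I : ℂ)‖)) *
            Real.exp (-(2 * Real.log (3 + ‖((l / 100 : ℝ) + y * I : ℂ)‖) ^ 2)) := by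
          rw [Real.exp_add, Real.exp_add]
          ring
      _ ≤ Real.exp (l / 50) * (|C'| * Real.exp (1 * (l / 100) + 1 / 100 * l)) * (1 + y ^ 2)⁻¹ :=
          mul_le_mul (mul_le_mul_of_nonneg_left (k1.trans
            (mul_le_mul_of_nonneg_right (le_abs_self _) (Real.exp_pos _).le)) (Real.exp_pos _).le)
            k2 (Real.exp_pos _).le (by positivity)
      _ = k y := by
          rw [mul_left_comm, ← Real.exp_add]
          congr 3
          ring
  have key := Win.window h1 hk hi h0 (t0 := t0) (a := 4 / t0 ^ 2) hl1 hL (by positivity) Z hZ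
    (err (AN w N)) fun t ht => by
      have ht' : |t - t0| ≤ wd / 2 := by rwa [mem_closedBall, Real.dist_eq] at ht
      have hE : ‖1 - riemannZeta (cl t) * AN w N t‖ ≤ (∫ y, k y) / L +
          ∑ γ ∈ Z, ∫ y : ℝ, k y / ‖((l / 100 : ℝ) + y * I : ℂ) + ((t - γ) * L : ℝ) * I‖ := by
        have hs := fun γ (_ : γ ∈ Z) => Win.int_term hk hi h0 hD L γ t
        rw [norm_sub_rev, h2 hR K w hK N hN t _ hD, norm_mul, ← integral_div,
          ← integral_finsetSum _ hs, ← integral_add (hi.div_const _) (integrable_finsetSum _ hs)]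
        have k1 : ‖(2 * π : ℂ)⁻¹‖ ≤ 1 := by
          rw [norm_inv, norm_mul, norm_real, Real.norm_of_nonneg Real.pi_pos.le, Complex.norm_two]
          exact inv_le_one_of_one_le₀ (by linarith [Real.pi_gt_three])
        refine (mul_le_of_le_one_left (norm_nonneg _) k1).trans
          (norm_integral_le_of_norm_le ((hi.div_const _).add (integrable_finsetSum _ hs))
            (Eventually.of_forall fun y => ?_))
        have k2 := hb t ht' L hL ((l / 100 : ℝ) + y * I) (by simp)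
        rw [norm_mul]
        refine (mul_le_mul_of_nonneg_left k2 (norm_nonneg _)).trans ?_
        rw [← mul_assoc]
        refine (mul_le_mul_of_nonneg_right (hKk y) (by positivity)).trans (le_of_eq ?_)
        rw [mul_add, Finset.mul_sum, mul_one_div]
        simp only [mul_one_div]
      refine ENNReal.ofReal_le_ofReal ?_
      have k3 : |t0| / 2 ≤ |t| := by
        have k4 := abs_sub_abs_le_abs_sub t0 t
        rw [abs_sub_comm] at k4
        have k5 : wd ≤ 1 := by unfold wd; norm_num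
        have k6 := Real.add_one_le_exp l
        linarith
      have k7 : t0 ^ 2 / 4 ≤ 2 * π * (1 / 4 + t ^ 2) := by
        have k8 : (|t0| / 2) ^ 2 ≤ |t| ^ 2 := by gcongr
        rw [div_pow, sq_abs, sq_abs] at k8
        nlinarith [Real.pi_gt_three, sq_nonneg t]
      have k9 : 0 < t0 ^ 2 := by rw [← sq_abs]; positivity
      calc _ ≤ ‖1 - riemannZeta (cl t) * AN w N t‖ ^ 2 / (t0 ^ 2 / 4) := by gcongr
        _ = 4 / t0 ^ 2 * ‖1 - riemannZeta (cl t) * AN w N t‖ ^ 2 := by field_simp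
        _ ≤ _ := by gcongr
  refine key.trans (ENNReal.ofReal_le_ofReal ?_)
  have e1 : t0 ^ 2 = Real.exp (2 * l) := by
    rw [← sq_abs, ← hex, ← Real.exp_nat_mul]
    norm_num
  have e2 : |t0| ^ (-(3 / 2) : ℝ) = Real.exp (l * -(3 / 2)) := Real.rpow_def_of_pos hpos _
  have e3 : 1 + 400 * l ≤ 1600 * Real.exp (l / 4) := by linarith [Real.add_one_le_exp (l / 4)]
  have e4 : Real.exp (l / 25) ^ 2 * Real.exp (l / 4) / Real.exp (2 * l) ≤
      Real.exp (l * -(3 / 2)) := by
    rw [← Real.exp_nat_mul, ← Real.exp_add, ← Real.exp_sub]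
    exact Real.exp_le_exp.2 (by push_cast; linarith)
  rw [hI, e1, e2]
  calc _ ≤ 2 * (4 / Real.exp (2 * l)) * (|C'| * Real.exp (l / 25) * π) ^ 2 *
        (1600 * Real.exp (l / 4)) := by gcongr
    _ = 12800 * (|C'| * π) ^ 2 *
        (Real.exp (l / 25) ^ 2 * Real.exp (l / 4) / Real.exp (2 * l)) := by ring
    _ ≤ _ := by gcongr

end Pool.Agent.P.MP_323ce2_nt.NB
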