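import Mathlib
import Pool.Agent.P.MP_323ce2_nt.NB.Defs

/-! Integrals over a vertical line of functions holomorphic on a right half-plane. -/

open Complex Filter Topology Set MeasureTheory Metric
open scoped Real

namespace Pool.Agent.P.MP_323ce2_nt.NB

namespace Zero

lemma rect {H : ℂ → ℂ} {σ1 σ2 T1 T2 B : ℝ}
    (hH : ∀ s : ℂ, σ1 ≤ s.re → DifferentiableAt ℂ H s) (h12 : σ1 ≤ σ2)
    (hB1 : ∀ σ, σ1 ≤ σ → σ ≤ σ2 → ‖H (σ + T1 * I)‖ ≤ B)
    (hB2 : ∀ σ, σ1 ≤ σ → σ ≤ σ2 → ‖H (σ + T2 * I)‖ ≤ B) :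
    ‖(∫ t in T1..T2, H (σ2 + t * I)) - ∫ t in T1..T2, H (σ1 + t * I)‖ ≤ 2 * B * (σ2 - σ1) := by
  have key := integral_boundary_rect_eq_zero_of_differentiableOn H (σ1 + T1 * I) (σ2 + T2 * I)
    (fun s hs => by
      have := hs.1
      simp only [add_re, ofReal_re, mul_re, I_re, mul_zero, ofReal_im, I_im, mul_one, sub_self,
        add_zero, uIcc_of_le h12, mem_preimage] at this
      exact (hH s this.1).differentiableWithinAt)
  simp only [add_re, ofReal_re, mul_re, I_re, mul_zero, ofReal_im, I_im, mul_one, sub_self,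
    add_zero, add_im, mul_im, zero_add, smul_eq_mul] at key
  have e : (∫ t in T1..T2, H (σ2 + t * I)) - ∫ t in T1..T2, H (σ1 + t * I) =
      I * ((∫ x in σ1..σ2, H (x + T1 * I)) - ∫ x in σ1..σ2, H (x + T2 * I)) := by
    linear_combination (-I) * key +
      ((∫ t in T1..T2, H (σ2 + t * I)) - ∫ t in T1..T2, H (σ1 + t * I)) * I_mul_I
  rw [e, norm_mul, norm_I, one_mul]
  have k1 := intervalIntegral.norm_integral_le_of_norm_le_const (a := σ1) (b := σ2) (C := B)
    (f := fun x => H (x + T1 * I)) fun x hx => by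
      rw [uIoc_of_le h12] at hx; exact hB1 x hx.1.le hx.2
  have k2 := intervalIntegral.norm_integral_le_of_norm_le_const (a := σ1) (b := σ2) (C := B)
    (f := fun x => H (x + T2 * I)) fun x hx => by
      rw [uIoc_of_le h12] at hx; exact hB2 x hx.1.le hx.2
  rw [abs_of_nonneg (sub_nonneg.2 h12)] at k1 k2
  linarith [norm_sub_le (∫ x in σ1..σ2, H (x + T1 * I)) (∫ x in σ1..σ2, H (x + T2 * I))]

lemma abs_im_le (σ t : ℝ) : |t| ≤ ‖(σ + t * I : ℂ)‖ := by
  simpa using abs_im_le_norm (σ + t * I : ℂ)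

lemma abs_re_le (σ t : ℝ) : |σ| ≤ ‖(σ + t * I : ℂ)‖ := by
  simpa using abs_re_le_norm (σ + t * I : ℂ)

lemma inv_norm_le {s a : ℂ} {r : ℝ} (hr : 0 < r) (h : r ≤ ‖s - a‖) :
    ‖s - a‖⁻¹ ≤ ((1 + ‖a‖) / r + 1) / (1 + ‖s‖) := by
  have h0 : 0 < ‖s - a‖ := hr.trans_le h
  have h1 : ‖s‖ ≤ ‖a‖ + ‖s - a‖ := by
    simpa using norm_add_le a (s - a)
  have h2 : 1 + ‖a‖ ≤ (1 + ‖a‖) / r * ‖s - a‖ := by
    rw [div_mul_eq_mul_div, le_div_iff₀ hr]
    exact mul_le_mul_of_nonneg_left h (by positivity)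
  rw [inv_eq_one_div, div_le_div_iff₀ h0 (by positivity)]
  nlinarith

end Zero

open _root_.Pool.Agent.P.MP_323ce2_nt.NB.Zero

theorem pZero : StZero := by
  intro g c C hg hB
  have hC : 0 ≤ C := by
    have h := (norm_nonneg _).trans (hB c (by simp))
    have h2 : (0 : ℝ) < (1 + ‖(c : ℂ)‖) ^ 2 := by positivity
    by_contra hn
    exact absurd h (not_le.2 (div_neg_of_neg_of_pos (not_le.1 hn) h2))
  have bd : ∀ (σ t X : ℝ), c ≤ σ → 0 ≤ X → X ≤ ‖(σ + t * I : ℂ)‖ →
      ‖g (σ + t * I)‖ ≤ C / (1 + X) ^ 2 := fun σ t X hσ hX hX' =>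
    (hB _ (by simpa using hσ)).trans (by gcongr)
  have hcont : Continuous fun t : ℝ => g (c + t * I) := by
    refine continuous_iff_continuousAt.2 fun t => ?_
    have h1 : ContinuousAt g (c + t * I) := (hg _ (by simp)).continuousAt
    exact ContinuousAt.comp (f := fun t : ℝ => (c + t * I : ℂ)) h1 (by fun_prop)
  have hint : Integrable fun t : ℝ => g (c + t * I) := by
    refine (integrable_inv_one_add_sq.const_mul C).mono' hcont.aestronglyMeasurable
      (Eventually.of_forall fun t => ?_)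
    refine (bd c t |t| le_rfl (abs_nonneg _) (abs_im_le c t)).trans ?_
    rw [← div_eq_mul_inv]
    refine div_le_div_of_nonneg_left hC (by positivity) ?_
    nlinarith [abs_nonneg t, sq_abs t]
  refine ⟨hint, ?_⟩
  have t1 := (intervalIntegral_tendsto_integral hint tendsto_neg_atTop_atBot tendsto_id).norm
  have t2 : Tendsto (fun X : ℝ => C * (4 * |c| + 4) * (1 + X)⁻¹) atTop
      (𝓝 (C * (4 * |c| + 4) * 0)) :=
    (tendsto_inv_atTop_zero.comp (tendsto_atTop_add_const_left _ 1 tendsto_id)).const_mul _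
  have := le_of_tendsto_of_tendsto t1 t2 (by
    filter_upwards [eventually_ge_atTop 0] with X hX
    have hc : c ≤ |c| + X := by linarith [le_abs_self c]
    have k1 := rect (H := g) (σ1 := c) (σ2 := |c| + X) (T1 := -X) (T2 := X)
      (B := C / (1 + X) ^ 2) hg hc
      (fun σ h _ => bd σ (-X) X h hX (by simpa [abs_of_nonneg hX] using abs_im_le σ (-X)))
      (fun σ h _ => bd σ X X h hX (by simpa [abs_of_nonneg hX] using abs_im_le σ X))
    have k2 := intervalIntegral.norm_integral_le_of_norm_le_const (a := -X) (b := X)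
      (C := C / (1 + X) ^ 2) (f := fun t : ℝ => g ((|c| + X : ℝ) + t * I)) fun t _ =>
        bd _ t X hc hX (le_trans (by
          rw [abs_of_nonneg (by positivity)]; linarith [abs_nonneg c]) (abs_re_le _ t))
    rw [abs_of_nonneg (a := X - -X) (by linarith)] at k2
    have k3 := norm_sub_norm_le (∫ t in -X..X, g (c + t * I))
      (∫ t in -X..X, g ((|c| + X : ℝ) + t * I))
    rw [norm_sub_rev] at k3
    have k4 : C / (1 + X) ^ 2 * (4 * |c| + 4 * X) ≤ C * (4 * |c| + 4) * (1 + X)⁻¹ := by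
      have e : C * (4 * |c| + 4) * (1 + X)⁻¹ = C / (1 + X) ^ 2 * ((4 * |c| + 4) * (1 + X)) := by
        field_simp
      rw [e]
      refine mul_le_mul_of_nonneg_left ?_ (by positivity)
      nlinarith [abs_nonneg c]
    have k5 : 0 ≤ C / (1 + X) ^ 2 := by positivity
    have k6 := mul_le_mul_of_nonneg_left (neg_abs_le c) k5
    simp only [id]
    linarith)
  simpa using this

theorem pCH (h : StZero) : StCH := by
  intro g c C s0 hs0 hg hB
  obtain ⟨d, hd⟩ : ∃ d : ℝ, d = s0.re - c := ⟨_, rfl⟩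
  have hd0 : 0 < d := by linarith
  obtain ⟨s1, hs1⟩ : ∃ s1 : ℂ, s1 = s0 - 2 * d := ⟨_, rfl⟩
  have hs1re : s1.re = c - d := by rw [hs1]; simp; linarith
  have hn1 : ∀ s : ℂ, c ≤ s.re → d ≤ ‖s - s1‖ := fun s hs => by
    refine le_trans ?_ (re_le_norm _)
    rw [sub_re, hs1re]; linarith
  have hne1 : ∀ s : ℂ, c ≤ s.re → s - s1 ≠ 0 := fun s hs =>
    norm_pos_iff.1 (hd0.trans_le (hn1 s hs))
  obtain ⟨F, hF⟩ : ∃ F : ℂ → ℂ, F = fun s => g s - g s0 * (2 * d) / (s - s1) := ⟨_, rfl⟩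
  have hF0 : F s0 = 0 := by
    have : (d : ℂ) ≠ 0 := ofReal_ne_zero.2 hd0.ne'
    rw [hF, hs1]
    simp only [sub_sub_cancel]
    field_simp
    ring
  have hFd : ∀ s : ℂ, c ≤ s.re → DifferentiableAt ℂ F s := fun s hs => by
    rw [hF]
    exact (hg s hs).sub ((differentiableAt_const _).div (by fun_prop) (hne1 s hs))
  have hGd : ∀ s : ℂ, c ≤ s.re → DifferentiableAt ℂ (dslope F s0) s := fun s hs => by
    by_cases e : s = s0
    · have hU : {z : ℂ | c < z.re} ∈ 𝓝 s0 :=
        (isOpen_lt continuous_const continuous_re).mem_nhds hs0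
      rw [e]
      exact ((differentiableOn_dslope hU).2 fun z hz =>
        (hFd z (le_of_lt hz)).differentiableWithinAt).differentiableAt hU
    · exact (differentiableAt_dslope_of_ne e).2 (hFd s hs)
  have hG : ∀ s : ℂ, s ≠ s0 → dslope F s0 s = F s / (s - s0) := fun s hs => by
    rw [dslope_of_ne _ hs, slope_def_field, hF0, sub_zero]
  have hball : ∀ s ∈ closedBall s0 d, c ≤ s.re := fun s hs => by
    have h1 := (abs_re_le_norm (s - s0)).trans (mem_closedBall_iff_norm.1 hs)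
    rw [sub_re] at h1
    linarith [(abs_le.1 h1).1]
  obtain ⟨M, hM⟩ := (isCompact_closedBall s0 d).exists_bound_of_continuousOn
    (f := dslope F s0) fun s hs => (hGd s (hball s hs)).continuousAt.continuousWithinAt
  have hM0 : 0 ≤ M := (norm_nonneg _).trans (hM s0 (mem_closedBall_self hd0.le))
  obtain ⟨A, hA⟩ : ∃ A : ℝ, A = (C + ‖g s0‖ * (2 * d) * ((1 + ‖s1‖) / d + 1)) *
    ((1 + ‖s0‖) / d + 1) := ⟨_, rfl⟩
  have hbd : ∀ s : ℂ, c ≤ s.re →
      ‖dslope F s0 s‖ ≤ max (M * (1 + ‖s0‖ + d) ^ 2) A / (1 + ‖s‖) ^ 2 := fun s hs => by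
    by_cases e : s ∈ closedBall s0 d
    · refine le_trans ?_ (div_le_div_of_nonneg_right (le_max_left _ _) (by positivity))
      refine (hM s e).trans ?_
      rw [le_div_iff₀ (by positivity)]
      have h1 : ‖s‖ ≤ ‖s0‖ + d := by
        have h2 := norm_add_le s0 (s - s0)
        have h3 := mem_closedBall_iff_norm.1 e
        rw [add_sub_cancel] at h2
        linarith
      exact mul_le_mul_of_nonneg_left
        (pow_le_pow_left₀ (by positivity) (by linarith) 2) hM0
    · refine le_trans ?_ (div_le_div_of_nonneg_right (le_max_right _ _) (by positivity))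
      have h1 : d ≤ ‖s - s0‖ := (not_le.1 fun h => e (mem_closedBall_iff_norm.2 h)).le
      have h2 : s ≠ s0 := fun h => e (h ▸ mem_closedBall_self hd0.le)
      have h3 := inv_norm_le hd0 h1
      have h4 := inv_norm_le hd0 (hn1 s hs)
      have h5 : ‖F s‖ ≤ (C + ‖g s0‖ * (2 * d) * ((1 + ‖s1‖) / d + 1)) / (1 + ‖s‖) := by
        rw [hF, add_div, mul_div_assoc]
        refine (norm_sub_le _ _).trans (add_le_add (hB s hs) ?_)
        rw [norm_div, norm_mul, div_eq_mul_inv]
        have : ‖(2 * d : ℂ)‖ = 2 * d := by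
          rw [norm_mul, norm_real, Real.norm_of_nonneg hd0.le]; simp
        rw [this]
        exact mul_le_mul_of_nonneg_left h4 (by positivity)
      rw [hG s h2, norm_div, div_eq_mul_inv, hA, sq, ← div_mul_div_comm]
      exact mul_le_mul h5 h3 (by positivity) ((norm_nonneg _).trans h5)
  obtain ⟨hi, hz⟩ := h (dslope F s0) c _ hGd hbd
  have e : ∀ t : ℝ, g (c + t * I) / (s0 - (c + t * I)) =
      g s0 * (2 * d) * (((s0.im - t) ^ 2 + d ^ 2)⁻¹ : ℝ) - dslope F s0 (c + t * I) := fun t => by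
    have h1 : (c + t * I : ℂ) ≠ s0 := fun h => by
      have := congrArg re h
      simp at this
      linarith
    have h2 := hne1 (c + t * I) (by simp)
    have h3 : (((s0.im - t) ^ 2 + d ^ 2 : ℝ) : ℂ) = (s0 - (c + t * I)) * (c + t * I - s1) := by
      have h4 : s0 = (c + d : ℝ) + s0.im * I := by
        apply Complex.ext <;> simp
        linarith
      rw [hs1]
      generalize s0.im = y at h4
      rw [h4]
      push_cast
      linear_combination (y - t : ℂ) ^ 2 * I_mul_I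
    have h5 : s0 - (c + t * I) ≠ 0 := sub_ne_zero.2 h1.symm
    have h6 : (c + t * I : ℂ) - s0 ≠ 0 := sub_ne_zero.2 h1
    rw [hG _ h1, ofReal_inv, h3, hF]
    field_simp
    ring
  have hp : Integrable fun t : ℝ =>
      g s0 * (2 * d) * (((s0.im - t) ^ 2 + d ^ 2)⁻¹ : ℝ) :=
    (integrable_poisson s0.im hd0).ofReal.const_mul _
  simp only [e]
  refine ⟨hp.sub hi, ?_⟩
  rw [integral_sub hp hi, hz, integral_const_mul, integral_complex_ofReal,
    integral_poisson s0.im hd0]
  have : (d : ℂ) ≠ 0 := ofReal_ne_zero.2 hd0.ne'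
  push_cast
  field_simp
  ring

end Pool.Agent.P.MP_323ce2_nt.NB
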