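import Mathlib
import Pool.Agent.P.MP_323ce2_nt.NB.Bdd
import Pool.Agent.P.MP_323ce2_nt.NB.Poly
import Pool.Agent.P.MP_323ce2_nt.NB.Exp
import Pool.Agent.P.MP_323ce2_nt.NB.Nu0
import Pool.Agent.P.MP_323ce2_nt.NB.Nu
import Pool.Agent.P.MP_323ce2_nt.NB.Inv
import Pool.Agent.P.MP_323ce2_nt.NB.Prof
import Pool.Agent.P.MP_323ce2_nt.NB.Ker
import Pool.Agent.P.MP_323ce2_nt.NB.Fac
import Pool.Agent.P.MP_323ce2_nt.NB.QL
import Pool.Agent.P.MP_323ce2_nt.NB.Low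
import Pool.Agent.P.MP_323ce2_nt.NB.RN
import Pool.Agent.P.MP_323ce2_nt.NB.RT
import Pool.Agent.P.MP_323ce2_nt.NB.RL
import Pool.Agent.P.MP_323ce2_nt.NB.Rep
import Pool.Agent.P.MP_323ce2_nt.NB.L2
import Pool.Agent.P.MP_323ce2_nt.NB.Win
import Pool.Agent.P.MP_323ce2_nt.NB.Tail
import Pool.Agent.P.MP_323ce2_nt.NB.Loc1
import Pool.Agent.P.MP_323ce2_nt.NB.Zero
import Pool.Agent.P.MP_323ce2_nt.NB.Off
import Pool.Agent.P.MP_323ce2_nt.NB.Orth
import Pool.Agent.P.MP_323ce2_nt.NB.Str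
import Pool.Agent.P.MP_323ce2_nt.NB.Main
import Pool.Agent.P.MP_323ce2_nt.NB.Test
import Pool.Agent.P.MP_323ce2_nt.NB.LB

/-! All the steps put together. -/

open Complex Filter Topology Set MeasureTheory Metric
open scoped Real

namespace Pool.Agent.P.MP_323ce2_nt.NB

lemma aKer : StKer := pKer pPoly (pNu pNu0) pInv pProf

lemma aLow : StLow := pLow pFac pQL

lemma aCR : StCR := pCR pFac aLow

lemma aRep : StRep := pRep aCR

lemma aTail : StTail := pTail (pWin pL2 aRep (pRT pQL aLow aCR (pRN pFac pQL) (pCnt pFac)))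

lemma aLoc : StLoc := pLoc (pLoc1 pL2 aRep (pRL aCR))

lemma aLB : StLB :=
  pLB (pTest pPoly pExp (pStr (pOrth pZero) pSym) (pMain pExp (pCH pZero)))

theorem main :
    Tendsto (fun N : ℕ => ENNReal.ofReal (Real.log N) * ⨅ a : ℕ → ℂ, ∫⁻ t, err (DP N a) t)
      atTop (𝓝 (∑' ρ, Lim.wt ρ)) :=
  limit aKer (pCp pL2) aTail aLoc pPart (pOff (pCH pZero)) aLB

/-- The limit is finite if and only if every zero in the critical strip is on the line. -/
theorem main_finite : ∑' ρ, Lim.wt ρ ≠ ⊤ ↔ RHs :=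
  finite_iff aKer (pCp pL2) aTail aLoc pPart (pOff (pCH pZero)) aLB

end Pool.Agent.P.MP_323ce2_nt.NB
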