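import Mathlib
import Pool.Agent.P.MP_323ce2_nt.NB.All
import Pool.Agent.P.MP_323ce2_nt.Equiv

/-! The weak Mertens hypothesis implies the conjectured asymptotic of the distance. -/

open Complex Filter Topology Set MeasureTheory Metric
open scoped Real

namespace Pool.Agent.P.MP_323ce2_nt.NB

theorem from_wmh (h : ∃ C : ℝ, ∀ x : ℝ, 2 ≤ x → II x ≤ C * Real.log x) :
    (∑' ρ : {ρ : ℂ // riemannZeta ρ = 0 ∧ 0 < ρ.re ∧ ρ.re < 1},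
        ENNReal.ofReal (1 / ‖(ρ : ℂ)‖ ^ 2)) ≠ ⊤ ∧
    Tendsto (fun N : ℕ => ENNReal.ofReal (Real.log N) * ⨅ a : ℕ → ℂ, ∫⁻ t, err (DP N a) t)
      atTop (𝓝 (∑' ρ : {ρ : ℂ // riemannZeta ρ = 0 ∧ 0 < ρ.re ∧ ρ.re < 1},
        ENNReal.ofReal (1 / ‖(ρ : ℂ)‖ ^ 2))) := by
  have hne := ENNReal.ne_top_of_tsum_ne_top (wmh_iff.1 h)
  have h1 : ∀ ρ : {ρ : ℂ // riemannZeta ρ = 0 ∧ 0 < ρ.re ∧ ρ.re < 1},
      (ρ : ℂ).re = 1 / 2 ∧ deriv riemannZeta ρ ≠ 0 := by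
    intro ρ
    have := hne ρ
    split_ifs at this with h
    · exact ⟨h, fun e => by simp [e] at this⟩
    · exact absurd rfl this
  have e : ∀ ρ, Lim.wt ρ = ENNReal.ofReal (1 / ‖(ρ : ℂ)‖ ^ 2) := fun ρ => by
    have a := analyticAt_zeta_cl (ρ : ℂ).im
    rw [Lim.eq_cl (h1 ρ).1] at a
    rw [Lim.wt, if_pos (h1 ρ).1, analyticOrderNatAt,
      a.analyticOrderAt_eq_one_of_zero_deriv_ne_zero ρ.2.1 (h1 ρ).2]
    simp
  rw [← tsum_congr e]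
  exact ⟨main_finite.2 fun s a b c => (h1 ⟨s, a, b, c⟩).1, main⟩

end Pool.Agent.P.MP_323ce2_nt.NB
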