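import Mathlib
import Pool.Agent.P.MP_323ce2_nt.NB.Defs

/-! Upper bounds for the reciprocal of zeta to the right of the critical line. -/

open Complex Filter Topology Set MeasureTheory Metric
open scoped Real

namespace Pool.Agent.P.MP_323ce2_nt.NB

namespace Low

lemma gen (h : StFac) {f : ℂ → ℂ} {c s : ℂ} {r M δ : ℝ} (hr : 0 < r) (hM : 0 < M)
    (hf : DifferentiableOn ℂ f (ball c (13 * r))) (hc : Real.exp (-M) ≤ ‖f c‖)
    (hb : ∀ s ∈ closedBall c (12 * r), ‖f s‖ ≤ Real.exp M) (hs : s ∈ closedBall c (3 * r))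
    (hδ : 0 < δ) (hz : ∀ ρ, f ρ = 0 → δ ≤ ‖s - ρ‖) :
    ‖f s‖⁻¹ ≤ Real.exp (13 * M + 3 * M * Real.log (1 + 4 * r / δ)) := by
  obtain ⟨n, ρ, H, φ, hn, h1, h2, -, h3, h4⟩ := h f c r M hr hM hf hc hb
  have h5 : δ ^ n ≤ ‖∏ i, (s - ρ i)‖ := by
    rw [norm_prod]
    calc δ ^ n = ∏ _i : Fin n, δ := by simp
      _ ≤ _ := Finset.prod_le_prod (fun _ _ => hδ.le) fun i _ => hz _ (h1 i).2
  have h6 : Real.exp (-(12 * M)) ≤ ‖exp (φ s)‖ := by
    rw [norm_exp, Real.exp_le_exp]
    have := (abs_le.1 ((abs_re_le_norm (φ s)).trans (h4 s hs))).1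
    linarith
  have h7 : ‖H‖ * Real.exp (-(12 * M)) * δ ^ n ≤ ‖f s‖ := by
    rw [h3 s (closedBall_subset_ball (by linarith) hs), norm_mul, norm_mul]
    gcongr
  have hx : 0 < 4 * r / δ := by positivity
  have h8 : (4 * r / δ) ^ n ≤ Real.exp (3 * M * Real.log (1 + 4 * r / δ)) := by
    calc (4 * r / δ) ^ n ≤ (1 + 4 * r / δ) ^ n := by gcongr; linarith
      _ = Real.exp (n * Real.log (1 + 4 * r / δ)) := by
          rw [Real.exp_nat_mul, Real.exp_log (by linarith)]
      _ ≤ _ := by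
          have := Real.log_nonneg (show 1 ≤ 1 + 4 * r / δ by linarith)
          gcongr
  have h9 : 1 ≤ ‖f s‖ * Real.exp (13 * M + 3 * M * Real.log (1 + 4 * r / δ)) := by
    calc (1 : ℝ) = Real.exp (-M) * Real.exp (-(12 * M)) * Real.exp (13 * M) := by
          rw [← Real.exp_add, ← Real.exp_add, ← Real.exp_zero]; congr 1; ring
      _ ≤ ‖H‖ * (4 * r) ^ n * Real.exp (-(12 * M)) * Real.exp (13 * M) := by gcongr
      _ = ‖H‖ * Real.exp (-(12 * M)) * δ ^ n * (Real.exp (13 * M) * (4 * r / δ) ^ n) := by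
          rw [div_pow]; field_simp
      _ ≤ _ := by rw [Real.exp_add]; gcongr
  rcases (norm_nonneg (f s)).eq_or_lt with e | e
  · rw [← e, inv_zero]; positivity
  · rwa [inv_le_iff_one_le_mul₀' e]

lemma ne_one {σ T : ℝ} (hT : 3 ≤ |T|) : (σ + T * I : ℂ) ≠ 1 := by
  intro e
  have : T = 0 := by simpa using congrArg im e
  rw [this] at hT
  norm_num at hT

lemma le_dist {σ T δ : ℝ} {ρ : ℂ} (h1 : ρ.re ≤ 1 / 2) (h2 : 1 / 2 + δ ≤ σ) :
    δ ≤ ‖(σ + T * I : ℂ) - ρ‖ := by
  refine le_trans ?_ (re_le_norm _)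
  simp only [sub_re, add_re, ofReal_re, mul_re, I_re, mul_zero, ofReal_im, I_im, mul_one, sub_self]
  linarith

lemma log_le {δ x : ℝ} (h0 : 0 < δ) (h1 : δ ≤ 1) (hx0 : 0 ≤ x) (hx : x ≤ 8 / δ) :
    Real.log (1 + x) ≤ 2 * Real.log (3 / δ) := by
  have h2 : 1 ≤ 1 / δ := by rw [le_div_iff₀ h0]; linarith
  have e1 : 8 / δ = 8 * (1 / δ) := by ring
  have e2 : 3 / δ = 3 * (1 / δ) := by ring
  rw [show 2 * Real.log (3 / δ) = Real.log ((3 / δ) ^ 2) by simp]
  exact Real.log_le_log (by linarith) (by rw [e2]; nlinarith)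

lemma one_le_log {δ : ℝ} (h0 : 0 < δ) (h1 : δ ≤ 1) : 1 ≤ Real.log (3 / δ) := by
  rw [Real.le_log_iff_exp_le (by positivity), le_div_iff₀ h0]
  nlinarith [Real.exp_one_lt_d9, Real.exp_pos 1]

end Low

theorem pLow (h1 : StFac) (h2 : StQL) : StLow := by
  intro hR
  obtain ⟨l0, h2⟩ := h2 hR
  refine ⟨max l0 (Real.exp 49), fun l hl T hT hTl δ hδ => ?_⟩
  obtain ⟨ha, hb⟩ := h2 l ((le_max_left _ _).trans hl) T hT hTl
  have hl1 : Real.exp 49 ≤ l := (le_max_right _ _).trans hl
  have hl0 : 0 < l := (Real.exp_pos _).trans_le hl1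
  have h7 : 7 ≤ √(Real.log l) := by
    refine Real.le_sqrt_of_sq_le ?_
    rw [Real.le_log_iff_exp_le hl0]
    norm_num [hl1]
  generalize √(Real.log l) = q at ha hb h7 ⊢
  have hq : 0 < q := by linarith
  have hM : 0 < 2000 * l / q := by positivity
  have hk : 0 < q⁻¹ := by positivity
  have hk7 : q⁻¹ ≤ 1 / 7 := by rw [inv_eq_one_div]; gcongr
  rw [zi_eq (Low.ne_one hT), norm_inv]
  have e1 : 26000 * l / q = 13 * (2000 * l / q) := by ring
  have e2 : 6000 * l / q = 3 * (2000 * l / q) := by ring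
  have e3 : 4 / (δ * q) = 4 * q⁻¹ / δ := by field_simp
  rw [e1, e2, e3]
  rcases le_total q⁻¹ δ with h | h
  · have h3 := ha (1 / 2 + δ) (by linarith)
    have h4 : 0 ≤ Real.log (1 + 4 * q⁻¹ / δ) :=
      Real.log_nonneg (le_add_of_nonneg_right (by positivity))
    refine (inv_anti₀ (Real.exp_pos _) h3).trans ?_
    rw [← Real.exp_neg, neg_neg, Real.exp_le_exp]
    nlinarith [mul_nonneg hM.le h4]
  · refine Low.gen h1 hk hM ((differentiableOn_zeta hT _).mono (ball_subset_ball (by linarith)))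
      (ha _ le_rfl) hb ?_ hδ fun ρ hρ => Low.le_dist ?_ le_rfl
    · rw [mem_closedBall, dist_eq_norm, add_sub_add_right_eq_sub, ← ofReal_sub, norm_real,
        Real.norm_eq_abs, abs_le]
      constructor <;> linarith
    · exact le_of_not_gt fun h => hR.ne_zero h hρ

theorem pCR (h1 : StFac) (h3 : StLow) : StCR := by
  intro hR
  obtain ⟨l0, h3⟩ := h3 hR
  obtain ⟨B, hB⟩ := (isCompact_closedBall (2 : ℂ) (12 * 2)).exists_bound_of_continuousOn
    differentiable_riemannZeta₁.continuous.continuousOn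
  have h2 : 0 < ‖riemannZeta₁ 2‖ := norm_pos_iff.2 (zeta1_ne hR (by norm_num))
  set M := |B| + ‖riemannZeta₁ 2‖⁻¹ with hMd
  have hi : 0 < ‖riemannZeta₁ 2‖⁻¹ := by positivity
  have hM : 0 < M := by positivity
  have hMe := Real.add_one_le_exp M
  have hB0 := abs_nonneg B
  have hK := Real.log_nonneg one_le_K0
  set l1 := max l0 3 with hl1
  have hl3 : 3 ≤ l1 := le_max_right _ _
  refine ⟨38000 * (l1 + 1) + (6 + 19 * M) + Real.log K0, by positivity,
    fun δ σ t h0 hδ hσ => ?_⟩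
  have hg := Low.one_le_log h0 hδ
  have hL := one_le_log_three_add (abs_nonneg t)
  have key : ∀ x C : ℝ, 0 ≤ C → C ≤ 38000 * (l1 + 1) + (6 + 19 * M) + Real.log K0 →
      x ≤ Real.exp (C * Real.log (3 + |t|) * Real.log (3 / δ)) → x ≤ Real.exp
        ((38000 * (l1 + 1) + (6 + 19 * M) + Real.log K0) * Real.log (3 + |t|) *
          Real.log (3 / δ)) := fun x C _ hC h => h.trans (by gcongr)
  rcases le_total 3 |t| with ht | ht
  · have ht1 : 0 ≤ Real.log |t| := Real.log_nonneg (by linarith)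
    have ht2 : Real.log |t| ≤ Real.log (3 + |t|) := Real.log_le_log (by linarith) (by linarith)
    have h4 := h3 (l1 + Real.log |t|) (by linarith [le_max_left l0 3]) t ht (by linarith)
      (σ - 1 / 2) (by linarith)
    rw [show 1 / 2 + (σ - 1 / 2) = σ by ring] at h4
    have h5 : 1 ≤ √(Real.log (l1 + Real.log |t|)) := by
      refine Real.le_sqrt_of_sq_le ?_
      rw [Real.le_log_iff_exp_le (by linarith), one_pow]
      linarith [Real.exp_one_lt_d9]
    have h6 : l1 + Real.log |t| ≤ (l1 + 1) * Real.log (3 + |t|) := by nlinarith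
    have h7 : 0 ≤ l1 + Real.log |t| := by linarith
    generalize √(Real.log (l1 + Real.log |t|)) = q at h4 h5
    generalize l1 + Real.log |t| = l at h4 h6 h7
    have hs : 0 < σ - 1 / 2 := by linarith
    have h8 : Real.log (1 + 4 / ((σ - 1 / 2) * q)) ≤ 2 * Real.log (3 / δ) := by
      refine Low.log_le h0 hδ (by positivity) ?_
      refine div_le_div₀ (by norm_num) (by norm_num) h0 ?_
      nlinarith
    have h9 : 0 ≤ Real.log (1 + 4 / ((σ - 1 / 2) * q)) :=
      Real.log_nonneg (le_add_of_nonneg_right (by positivity))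
    refine key _ (38000 * (l1 + 1)) (by positivity) (by linarith) (h4.trans ?_)
    rw [Real.exp_le_exp]
    calc _ ≤ 26000 * l + 6000 * l * (2 * Real.log (3 / δ)) := by
          gcongr
          · exact div_le_self (by positivity) h5
          · exact div_le_self (by positivity) h5
      _ ≤ 38000 * l * Real.log (3 / δ) := by nlinarith
      _ ≤ 38000 * ((l1 + 1) * Real.log (3 + |t|)) * Real.log (3 / δ) := by gcongr
      _ = _ := by ring
  rcases le_total (3 / 2) σ with hσ2 | hσ2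
  · have h4 : 3 / 2 ≤ (σ + t * I : ℂ).re := by simpa using hσ2
    have h5 : (σ + t * I : ℂ) ≠ 1 := fun e => by
      rw [e] at h4
      norm_num at h4
    refine key _ (Real.log K0) hK (by nlinarith) ?_
    rw [zi_eq h5, norm_inv]
    refine (norm_inv_zeta_le_K0 h4).trans ?_
    rw [← Real.log_le_iff_le_exp (by linarith [one_le_K0]), mul_assoc]
    exact le_mul_of_one_le_right hK (one_le_mul_of_one_le_of_one_le hL hg)
  · have h4 : ‖(σ + t * I : ℂ) - 2‖ ≤ 3 * 2 := by
      refine (norm_le_abs_re_add_abs_im _).trans ?_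
      have : |σ - 2| ≤ 3 := abs_le.2 ⟨by linarith, by linarith⟩
      simp only [sub_re, add_re, ofReal_re, mul_re, I_re, mul_zero, ofReal_im, I_im, mul_one,
        sub_self, add_zero, re_ofNat, sub_im, add_im, mul_im, zero_add, im_ofNat, sub_zero]
      linarith
    have h5 : ‖(σ + t * I : ℂ) - 1‖ ≤ Real.exp 6 := by
      have e : (σ + t * I : ℂ) - 1 = (σ + t * I - 2) + 1 := by ring
      rw [e]
      refine (norm_add_le _ _).trans ?_
      rw [norm_one]
      linarith [Real.add_one_le_exp 6]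
    have h6 := Low.gen h1 (f := riemannZeta₁) (c := 2) (s := σ + t * I) two_pos hM
      differentiable_riemannZeta₁.differentiableOn
      (by rw [Real.exp_neg]; exact inv_le_of_inv_le₀ h2 (by linarith))
      (fun s hs => (hB s hs).trans (by linarith [le_abs_self B]))
      (by rwa [mem_closedBall, dist_eq_norm]) h0
      fun ρ hρ => Low.le_dist (le_of_not_gt fun h => zeta1_ne hR h hρ) hσ
    have h7 : Real.log (1 + 4 * 2 / δ) ≤ 2 * Real.log (3 / δ) :=
      Low.log_le h0 hδ (by positivity) (by norm_num)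
    refine key _ (6 + 19 * M) (by positivity) (by nlinarith) ?_
    rw [zi, norm_div, div_eq_mul_inv]
    calc _ ≤ Real.exp 6 * Real.exp (13 * M + 3 * M * Real.log (1 + 4 * 2 / δ)) := by gcongr
      _ ≤ Real.exp 6 * Real.exp (13 * M + 3 * M * (2 * Real.log (3 / δ))) := by gcongr
      _ ≤ Real.exp ((6 + 19 * M) * 1 * Real.log (3 / δ)) := by
          rw [← Real.exp_add, Real.exp_le_exp]
          nlinarith
      _ ≤ _ := by gcongr

end Pool.Agent.P.MP_323ce2_nt.NB
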