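import Mathlib
import Pool.Agent.P.MP_323ce2_nt.NB.Defs

/-! The structure of the test functions at a zero. -/

open Complex Filter Topology Set MeasureTheory Metric
open scoped Real ComplexConjugate

namespace Pool.Agent.P.MP_323ce2_nt.NB

namespace Str

lemma taylor {f : ℂ → ℂ} {ρ : ℂ} (hf : AnalyticAt ℂ f ρ) (m : ℕ) :
    ∃ (p h : ℂ → ℂ) (B : ℝ), Differentiable ℂ p ∧ 0 ≤ B ∧ (∀ s, ‖p s‖ ≤ B * (1 + ‖s‖) ^ m) ∧
      AnalyticAt ℂ h ρ ∧ ∀ s, f s = p s + (s - ρ) ^ m * h s := by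
  induction m with
  | zero => exact ⟨fun _ => 0, f, 0, differentiable_const _, le_rfl, by simp, hf, by simp⟩
  | succ m ih =>
    obtain ⟨p, h, B, h1, h2, h3, h4, h5⟩ := ih
    obtain ⟨P, hP⟩ := h4
    refine ⟨fun s => p s + (s - ρ) ^ m * h ρ, dslope h ρ, B + (1 + ‖ρ‖) ^ m * ‖h ρ‖,
      by fun_prop, by positivity, fun s => ?_, hP.has_fpower_series_dslope_fslope.analyticAt,
      fun s => ?_⟩
    · have a0 := norm_nonneg s
      have a1 := norm_nonneg ρ
      have a2 : ‖s - ρ‖ ≤ (1 + ‖ρ‖) * (1 + ‖s‖) := (norm_sub_le _ _).trans (by nlinarith)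
      have a3 : (1 + ‖s‖) ^ m ≤ (1 + ‖s‖) ^ (m + 1) :=
        pow_le_pow_right₀ (by linarith) (Nat.le_succ m)
      calc _ ≤ ‖p s‖ + ‖s - ρ‖ ^ m * ‖h ρ‖ := by
            rw [← norm_pow, ← norm_mul]; exact norm_add_le _ _
        _ ≤ B * (1 + ‖s‖) ^ m + ((1 + ‖ρ‖) * (1 + ‖s‖)) ^ m * ‖h ρ‖ := by
            gcongr; exact h3 s
        _ = (B + (1 + ‖ρ‖) ^ m * ‖h ρ‖) * (1 + ‖s‖) ^ m := by rw [mul_pow]; ring
        _ ≤ _ := by gcongr
    · have := sub_smul_dslope h ρ s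
      rw [smul_eq_mul] at this
      rw [h5 s, pow_succ, mul_assoc, this]; ring

lemma norm_add_one {s : ℂ} (hs : 0 ≤ s.re) : (1 + ‖s‖) / 2 ≤ ‖s + 1‖ := by
  have h1 : ‖s + 1‖ ^ 2 = ‖s‖ ^ 2 + 2 * s.re + 1 := by
    rw [← normSq_eq_norm_sq, ← normSq_eq_norm_sq, normSq_apply, normSq_apply]; simp; ring
  have h0 := norm_nonneg s
  exact le_of_sq_le_sq (by nlinarith [sq_nonneg (‖s‖ - 1)]) (norm_nonneg _)

lemma add_one_ne {s : ℂ} (hs : 0 ≤ s.re) : s + 1 ≠ 0 := by
  intro h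
  have := norm_add_one hs
  rw [h, norm_zero] at this
  linarith [norm_nonneg s]

lemma cl_neg (t : ℝ) : cl (-t) = 1 - cl t := by
  unfold cl; push_cast; ring

lemma zeta_neg (t : ℝ) : riemannZeta (cl (-t)) = conj (riemannZeta (cl t)) := by
  rw [← riemannZeta_conj]; congr 1
  apply Complex.ext <;> simp [cl]

lemma abs_le_cl (t : ℝ) : |t| ≤ ‖cl t‖ := by
  have := abs_im_le_norm (cl t)
  rwa [cl_im] at this

lemma cube {q : ℂ → ℂ} {C : ℝ} {s : ℂ} (h : ‖q s‖ ≤ C / (1 + ‖s‖) ^ 4) :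
    ‖q s * (s - 1)‖ ≤ C / (1 + ‖s‖) ^ 3 := by
  have h0 := norm_nonneg s
  have h1 : ‖s - 1‖ ≤ 1 + ‖s‖ := by
    have := norm_sub_le s 1
    rw [norm_one] at this; linarith
  rw [norm_mul]
  calc _ ≤ C / (1 + ‖s‖) ^ 4 * (1 + ‖s‖) :=
        mul_le_mul h h1 (norm_nonneg _) ((norm_nonneg _).trans h)
    _ = _ := by field_simp

/-- The factor in the functional equation. -/
noncomputable def chi (s : ℂ) : ℂ := 2 * (2 * π) ^ (-s) * Gamma s * cos (π * s / 2)

lemma ne_neg_nat {s : ℂ} (hs : 0 < s.re) (n : ℕ) : s ≠ -n := by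
  intro h
  rw [h] at hs
  simp at hs
  linarith [(Nat.cast_nonneg n : (0 : ℝ) ≤ n)]

lemma chi_analytic (γ : ℝ) : AnalyticAt ℂ chi (cl γ) := by
  refine DifferentiableOn.analyticAt (s := {s | 0 < s.re}) (fun s hs => ?_)
    ((isOpen_lt continuous_const continuous_re).mem_nhds (by simp [cl_re]))
  refine DifferentiableAt.differentiableWithinAt ?_
  have h1 : DifferentiableAt ℂ (fun s : ℂ => (2 * π : ℂ) ^ (-s)) s :=
    differentiableAt_id.neg.const_cpow (Or.inl (by simp [Real.pi_ne_zero]))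
  have h2 := differentiableAt_Gamma s (ne_neg_nat hs)
  unfold chi
  exact ((h1.const_mul 2).mul h2).mul (by fun_prop)

lemma chi_ne (γ : ℝ) : chi (cl γ) ≠ 0 := by
  unfold chi
  refine mul_ne_zero (mul_ne_zero (mul_ne_zero two_ne_zero ?_)
    (Gamma_ne_zero (ne_neg_nat (by simp [cl_re])))) ?_
  · rw [Ne, cpow_eq_zero_iff]; simp [Real.pi_ne_zero]
  · rw [Ne, Complex.cos_eq_zero_iff]
    rintro ⟨k, hk⟩
    have h1 : (π : ℂ) ≠ 0 := by simp [Real.pi_ne_zero]
    have h2 : cl γ = 2 * k + 1 := by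
      field_simp at hk
      linear_combination hk
    have h3 := cl_re γ
    rw [h2] at h3
    simp at h3
    have h4 : (4 * k + 1 : ℝ) = 0 := by linarith
    have h5 : (4 * k + 1 : ℤ) = 0 := by exact_mod_cast h4
    omega

lemma exists_q (γ : ℝ) {r : ℂ → ℂ} (hr : AnalyticAt ℂ r (cl γ)) :
    ∃ (q : ℂ → ℂ) (C δ : ℝ), (∀ s : ℂ, 1 / 2 ≤ s.re → DifferentiableAt ℂ q s) ∧
      (∀ s : ℂ, 1 / 2 ≤ s.re → ‖q s‖ ≤ C / (1 + ‖s‖) ^ 4) ∧ 0 < δ ∧ δ ≤ 1 ∧ 0 ≤ C ∧
      ∀ t : ℝ, t ≠ γ → |t - γ| < δ →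
        ‖riemannZeta (cl (-t)) / riemannZeta (cl t) * (q (cl (-t)) * (cl (-t) - 1)) - r (cl t)‖ ≤
          C * |t - γ| ^ mult γ := by
  set m := mult γ
  have ρ0 : cl γ ≠ 0 := fun h => by have := cl_re γ; rw [h] at this; norm_num at this
  have ρ2 : 2 - cl γ ≠ 0 := fun h => by
    have := congrArg re h; simp [cl_re] at this; norm_num at this
  have hF : AnalyticAt ℂ (fun s => r s * (2 - s) ^ (m + 4) / (s * chi s)) (cl γ) :=
    by
    have c1 : AnalyticAt ℂ (fun s : ℂ => (2 - s) ^ (m + 4)) (cl γ) := by fun_prop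
    have c2 : AnalyticAt ℂ (fun s : ℂ => s * chi s) (cl γ) := analyticAt_id.mul (chi_analytic γ)
    exact (hr.mul c1).div c2 (mul_ne_zero ρ0 (chi_ne γ))
  obtain ⟨p, h, B, p1, B0, p2, h1, h2⟩ := taylor hF m
  obtain ⟨z, z1, z2, z3⟩ := exists_local γ
  obtain ⟨k, hk⟩ : ∃ k : ℂ → ℂ, k = fun s => -(h s * chi s * s / (2 - s) ^ (m + 4)) := ⟨_, rfl⟩
  have kc : ContinuousAt k (cl γ) := by
    have c1 : ContinuousAt (fun s : ℂ => (2 - s) ^ (m + 4)) (cl γ) := by fun_prop
    have c2 : ContinuousAt (fun s : ℂ => h s * chi s * s) (cl γ) :=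
      (h1.continuousAt.mul (chi_analytic γ).continuousAt).mul continuousAt_id
    rw [hk]
    exact (c2.div c1 (pow_ne_zero _ ρ2)).neg
  have ev : ∀ᶠ s in 𝓝 (cl γ), riemannZeta s = (s - cl γ) ^ m * z s ∧ z s ≠ 0 ∧ chi s ≠ 0 ∧
      ‖k s‖ < ‖k (cl γ)‖ + 1 :=
    z3.and ((z1.continuousAt.eventually_ne z2).and
      (((chi_analytic γ).continuousAt.eventually_ne (chi_ne γ)).and
        (kc.norm.eventually_lt continuousAt_const (lt_add_one _))))
  obtain ⟨δ, δ0, hδ⟩ := Metric.eventually_nhds_iff.1 (continuous_cl.continuousAt.eventually ev)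
  refine ⟨fun s => -(p (1 - s) / (s + 1) ^ (m + 4)), B * 2 ^ (2 * m + 4) + (‖k (cl γ)‖ + 1),
    min δ 1, fun s hs => ?_, fun s hs => ?_, lt_min δ0 one_pos, min_le_right _ _, by positivity,
    fun t ht ht' => ?_⟩
  · have c1 : DifferentiableAt ℂ (fun s : ℂ => p (1 - s)) s := by fun_prop
    have c2 : DifferentiableAt ℂ (fun s : ℂ => (s + 1) ^ (m + 4)) s := by fun_prop
    exact (c1.div c2 (pow_ne_zero _ (add_one_ne (by linarith)))).neg
  · have a0 := norm_nonneg s
    have a1 := norm_add_one (s := s) (by linarith)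
    have a2 : 1 + ‖1 - s‖ ≤ 2 * (1 + ‖s‖) := by
      have := norm_sub_le 1 s
      rw [norm_one] at this; linarith
    rw [norm_neg, norm_div, norm_pow]
    calc _ ≤ B * (2 * (1 + ‖s‖)) ^ m / ((1 + ‖s‖) / 2) ^ (m + 4) := by
          gcongr
          exact (p2 _).trans (by gcongr)
      _ = B * 2 ^ (2 * m + 4) / (1 + ‖s‖) ^ 4 := by
          rw [mul_pow, div_pow]; field_simp; ring
      _ ≤ _ := by gcongr; exact le_add_of_nonneg_right (by positivity)
  · obtain ⟨b1, b2, b3, b4⟩ := hδ (y := t) (by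
      rw [Real.dist_eq]; exact ht'.trans_le (min_le_left _ _))
    have u0 : cl t - cl γ ≠ 0 := fun h => ht (by
      simpa [cl_im] using congrArg im (sub_eq_zero.1 h))
    have z0 : riemannZeta (cl t) ≠ 0 := by rw [b1]; exact mul_ne_zero (pow_ne_zero _ u0) b2
    have s0 : cl t ≠ 0 := fun h => by have := cl_re t; rw [h] at this; norm_num at this
    have s2 : 2 - cl t ≠ 0 := fun h => by
      have := congrArg re h; simp [cl_re] at this; norm_num at this
    have e1 : riemannZeta (cl (-t)) / riemannZeta (cl t) = chi (cl t) := by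
      rw [cl_neg, riemannZeta_one_sub (ne_neg_nat (by simp [cl_re])) (cl_ne_one t),
        mul_div_cancel_right₀ _ z0]
      rfl
    have e2 : p (cl t) = r (cl t) * (2 - cl t) ^ (m + 4) / (cl t * chi (cl t)) -
        (cl t - cl γ) ^ m * h (cl t) := by rw [h2 (cl t)]; ring
    have e3 : chi (cl t) * (-(p (1 - cl (-t)) / (cl (-t) + 1) ^ (m + 4)) * (cl (-t) - 1)) -
        r (cl t) = (cl t - cl γ) ^ m * k (cl t) := by
      rw [cl_neg, sub_sub_cancel, show 1 - cl t + 1 = 2 - cl t by ring, e2, hk]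
      field_simp; ring
    rw [e1, e3, norm_mul, norm_pow, cl_sub, norm_mul, norm_I, mul_one, norm_real, Real.norm_eq_abs,
      mul_comm]
    gcongr
    exact b4.le.trans (le_add_of_nonneg_left (by positivity))

end Str

open Str

theorem pStr (h1 : StOrth) (h2 : StSym) : StStr := by
  intro γ _
  set m := mult γ with hm
  obtain ⟨c0, hc0⟩ : ∃ c0 : ℂ, c0 = (cl γ + 1) ^ 4 / (cl γ - 1) := ⟨_, rfl⟩
  set q0 : ℂ → ℂ := fun s => c0 / (s + 1) ^ 4 with hq0
  have d0 : ∀ s : ℂ, 0 ≤ s.re → DifferentiableAt ℂ q0 s := fun s hs =>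
    (differentiableAt_const _).div (by fun_prop) (pow_ne_zero _ (add_one_ne hs))
  have n0 : ∀ s : ℂ, 0 ≤ s.re → ‖q0 s‖ ≤ 16 * ‖c0‖ / (1 + ‖s‖) ^ 4 := fun s hs => by
    have a0 := norm_nonneg s
    have a1 := norm_add_one hs
    rw [hq0, norm_div, norm_pow]
    calc _ ≤ ‖c0‖ / ((1 + ‖s‖) / 2) ^ 4 := by gcongr
      _ = _ := by field_simp; ring
  have dr : ∀ s : ℂ, 0 < s.re → DifferentiableAt ℂ (fun s => q0 s * (s - 1)) s := fun s hs =>
    (d0 s hs.le).mul (by fun_prop)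
  have ar : AnalyticAt ℂ (fun s => q0 s * (s - 1)) (cl γ) :=
    DifferentiableOn.analyticAt (s := {s | 0 < s.re})
      (fun s hs => (dr s hs).differentiableWithinAt)
      ((isOpen_lt continuous_const continuous_re).mem_nhds (by simp [cl_re]))
  obtain ⟨q, C, δ, dq, nq, δ0, δ1, C0, hq⟩ := exists_q γ ar
  have cq : Continuous fun t : ℝ => q (cl (-t)) := continuous_iff_continuousAt.2 fun t =>
    (dq _ (by rw [cl_re])).continuousAt.comp (f := fun t : ℝ => cl (-t))
      (continuous_cl.comp continuous_neg).continuousAt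
  have cq0 : Continuous fun t : ℝ => q0 (cl t) := continuous_iff_continuousAt.2 fun t =>
    (d0 _ (by rw [cl_re]; norm_num)).continuousAt.comp continuous_cl.continuousAt
  have c0' := norm_nonneg c0
  have γ0 := abs_nonneg γ
  have dm : 1 ≤ (δ ^ m)⁻¹ := one_le_inv_iff₀.2 ⟨by positivity, pow_le_one₀ δ0.le δ1⟩
  refine ⟨fun s => q0 s * (s - 1), fun j t => (riemannZeta (cl (-t)) / riemannZeta (cl t) *
      (q (cl (-t)) * (cl (-t) - 1)) - q0 (cl t) * (cl t - 1)) / (((t - γ : ℝ) : ℂ) * I) ^ j,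
    (C + 16 * ‖c0‖) * (δ ^ m)⁻¹ + C * (2 + |γ|) ^ 3, dr, ?_, fun s hs => ?_,
    fun j hj => ⟨?_, fun t => ?_⟩, fun α β L n P hn hL hP => ?_⟩
  · have a1 := add_one_ne (s := cl γ) (by rw [cl_re]; norm_num)
    have a2 := sub_ne_zero.2 (cl_ne_one γ)
    simp only [hq0, hc0]; field_simp
  · refine (cube (n0 s hs.le)).trans ?_
    gcongr
    have : 0 ≤ C * (2 + |γ|) ^ 3 := by positivity
    nlinarith
  · have m1 : Measurable fun t : ℝ => riemannZeta (cl (-t)) :=
      (continuous_zeta_cl.comp continuous_neg).measurable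
    have m2 : Continuous fun t : ℝ => cl (-t) := continuous_cl.comp continuous_neg
    refine Measurable.div (Measurable.sub ((m1.div continuous_zeta_cl.measurable).mul
      (cq.mul (m2.sub continuous_const)).measurable)
      (cq0.mul (continuous_cl.sub continuous_const)).measurable) (Continuous.measurable ?_)
    fun_prop
  · obtain ⟨j1, j2⟩ := Finset.mem_Icc.1 hj
    have t0 := abs_nonneg t
    rw [norm_div, norm_pow, norm_mul, norm_I, mul_one, norm_real, Real.norm_eq_abs]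
    by_cases ht : t = γ
    · rw [ht, sub_self, abs_zero, zero_pow (by omega), div_zero]; positivity
    have u0 : 0 < |t - γ| := abs_pos.2 (sub_ne_zero.2 ht)
    by_cases ht' : |t - γ| < δ
    · have a1 : |t - γ| ^ m ≤ |t - γ| ^ j := pow_le_pow_of_le_one u0.le (by linarith) j2
      have a2 : 1 + |t| ≤ 2 + |γ| := by linarith [abs_sub_abs_le_abs_sub t γ]
      calc _ ≤ C * |t - γ| ^ j / |t - γ| ^ j := by
            gcongr; exact (hq t ht ht').trans (by gcongr)
        _ = C * (1 + |t|) ^ 3 / (1 + |t|) ^ 3 := by field_simp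
        _ ≤ C * (2 + |γ|) ^ 3 / (1 + |t|) ^ 3 := by gcongr
        _ ≤ _ := by gcongr; exact le_add_of_nonneg_left (by positivity)
    · have a1 : δ ^ m ≤ |t - γ| ^ j :=
        (pow_le_pow_of_le_one δ0.le δ1 j2).trans (by gcongr; exact not_lt.1 ht')
      have a2 : ‖riemannZeta (cl (-t)) / riemannZeta (cl t)‖ ≤ 1 := by
        rw [norm_div, zeta_neg, RCLike.norm_conj]; exact div_self_le_one _
      have a3 : ‖q (cl (-t)) * (cl (-t) - 1)‖ ≤ C / (1 + |t|) ^ 3 := by
        refine (cube (nq _ (by rw [cl_re]))).trans ?_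
        have := abs_le_cl (-t)
        rw [abs_neg] at this
        gcongr
      have a4 : ‖q0 (cl t) * (cl t - 1)‖ ≤ 16 * ‖c0‖ / (1 + |t|) ^ 3 := by
        refine (cube (n0 _ (by rw [cl_re]; norm_num))).trans ?_
        have := abs_le_cl t
        gcongr
      calc _ ≤ (1 * (C / (1 + |t|) ^ 3) + 16 * ‖c0‖ / (1 + |t|) ^ 3) / δ ^ m := by
            gcongr
            refine (norm_sub_le _ _).trans (add_le_add ?_ a4)
            rw [norm_mul]; gcongr
        _ = (C + 16 * ‖c0‖) * (δ ^ m)⁻¹ / (1 + |t|) ^ 3 := by field_simp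
        _ ≤ _ := by gcongr; exact le_add_of_nonneg_right (by positivity)
  · have n1 : (n : ℂ) ≠ 0 := Nat.cast_ne_zero.2 (by omega)
    have l0 : 0 ≤ Real.log n := Real.log_natCast_nonneg n
    set A : ℕ → ℝ → ℂ := fun j t =>
      q0 (cl t) * riemannZeta₁ (cl t) / (cl t - cl γ) ^ j * exp (-(Real.log n : ℝ) * cl t) with hA
    set B : ℕ → ℝ → ℂ := fun j t => q (cl t) * riemannZeta₁ (cl t) / (cl t - cl (-γ)) ^ j *
      exp (-((L - Real.log n : ℝ) : ℂ) * cl t) with hB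
    set c : ℕ → ℂ := fun j => β j * (-1) ^ j * exp (-cl γ * L + (L - Real.log n : ℝ)) with hc
    have iA : ∀ j ∈ Finset.Icc 1 m, Integrable (A j) ∧ ∫ t, A j t = 0 := fun j hj =>
      h1 γ j (Finset.mem_Icc.1 hj).2 q0 _ _ l0 (fun s hs => d0 s (by linarith))
        (fun s hs => n0 s (by linarith))
    have iB : ∀ j ∈ Finset.Icc 1 m, Integrable (fun t => B j (-t)) ∧ ∫ t, B j (-t) = 0 :=
      fun j hj => by
        have := h1 (-γ) j (by rw [h2]; exact (Finset.mem_Icc.1 hj).2) q C _ (sub_nonneg.2 hL) dq nq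
        exact ⟨this.1.comp_neg, (integral_neg_eq_self _ _).trans this.2⟩
    have iS : ∀ j ∈ Finset.Icc 1 m, Integrable fun t => α j * A j t + c j * B j (-t) :=
      fun j hj => ((iA j hj).1.const_mul _).add ((iB j hj).1.const_mul _)
    have ae : (fun t : ℝ => ∑ j ∈ Finset.Icc 1 m, (α j * A j t + c j * B j (-t))) =ᵐ[volume]
        fun t : ℝ => (P t * (q0 (cl t) * (cl t - 1)) + exp (((t - γ) * L : ℝ) * I) *
          ∑ j ∈ Finset.Icc 1 m, β j * ((riemannZeta (cl (-t)) / riemannZeta (cl t) *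
            (q (cl (-t)) * (cl (-t) - 1)) - q0 (cl t) * (cl t - 1)) /
              (((t - γ : ℝ) : ℂ) * I) ^ j)) * riemannZeta (cl t) * (n : ℂ) ^ (-cl t) := by
      filter_upwards [Measure.ae_ne volume γ] with t ht
      have e1 : (n : ℂ) ^ (-cl t) = exp (-(Real.log n : ℝ) * cl t) := by
        rw [cpow_def_of_ne_zero n1, ← natCast_log]; congr 1; ring
      have e2 : riemannZeta (cl (-t)) / riemannZeta (cl t) * riemannZeta (cl t) =
          riemannZeta (cl (-t)) := by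
        by_cases h0 : riemannZeta (cl t) = 0
        · rw [zeta_neg, h0]; simp
        · exact div_mul_cancel₀ _ h0
      have e3 : exp (-cl γ * L + (L - Real.log n : ℝ)) *
          exp (-((L - Real.log n : ℝ) : ℂ) * cl (-t)) =
          exp (((t - γ) * L : ℝ) * I) * exp (-(Real.log n : ℝ) * cl t) := by
        rw [← exp_add, ← exp_add, cl_neg]; congr 1
        have := cl_sub t γ
        push_cast at this ⊢
        linear_combination (L : ℂ) * this
      have e4 : cl (-t) - cl (-γ) = -(((t - γ : ℝ) : ℂ) * I) := by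
        rw [cl_neg, cl_neg, ← cl_sub]; ring
      have u0 : ((t - γ : ℝ) : ℂ) * I ≠ 0 :=
        mul_ne_zero (ofReal_ne_zero.2 (sub_ne_zero.2 ht)) I_ne_zero
      rw [hP t ht, Finset.sum_mul, Finset.mul_sum, ← Finset.sum_add_distrib, Finset.sum_mul,
        Finset.sum_mul]
      refine Finset.sum_congr rfl fun j _ => ?_
      simp only [hA, hB, hc]
      rw [zeta1_eq (cl_ne_one t), zeta1_eq (cl_ne_one (-t)), e4, cl_sub t γ, e1, neg_pow (_ * I)]
      generalize ((t - γ : ℝ) : ℂ) * I = u at u0 ⊢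
      have s1 : ((-1 : ℂ) ^ j) ≠ 0 := pow_ne_zero _ (by norm_num)
      have u1 : u ^ j ≠ 0 := pow_ne_zero _ u0
      generalize riemannZeta (cl (-t)) / riemannZeta (cl t) = X at e2 ⊢
      rw [← e2]
      generalize exp (-cl γ * L + (L - Real.log n : ℝ)) = E1 at e3 ⊢
      generalize exp (-((L - Real.log n : ℝ) : ℂ) * cl (-t)) = E2 at e3 ⊢
      generalize exp (((t - γ) * L : ℝ) * I) = E3 at e3 ⊢
      generalize exp (-(Real.log n : ℝ) * cl t) = E4 at e3 ⊢
      field_simp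
      linear_combination (β j * q (cl (-t)) * (cl (-t) - 1) * X * riemannZeta (cl t)) * e3
    refine ⟨(integrable_finsetSum _ iS).congr ae, ?_⟩
    rw [← integral_congr_ae ae, integral_finsetSum _ iS]
    refine Finset.sum_eq_zero fun j hj => ?_
    rw [integral_add ((iA j hj).1.const_mul _) ((iB j hj).1.const_mul _), integral_const_mul,
      integral_const_mul, (iA j hj).2, (iB j hj).2]
    simp

end Pool.Agent.P.MP_323ce2_nt.NB
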